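import Mathlib

/-!
# Polynomials in two variables which vanish to high order at a point: Frobenius congruences
-/

set_option autoImplicit false

open Polynomial Finset

namespace Pool.Agent.J4H57.TD

section hom

variable {A : Type*} [CommRing A]

/-- `u ^ B g (Y / u)` -/
noncomputable def hmg (B : ℕ) (u : A) (g : A[X]) : A[X] :=
  ∑ b ∈ range (B + 1), C (g.coeff b * u ^ (B - b)) * X ^ b

lemma hmg_coeff (B : ℕ) (u : A) (g : A[X]) (b : ℕ) :
    (hmg B u g).coeff b = if b ≤ B then g.coeff b * u ^ (B - b) else 0 := by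
  unfold hmg
  rw [finsetSum_coeff]
  simp only [coeff_C_mul_X_pow]
  rw [Finset.sum_ite_eq]
  simp only [mem_range, Nat.lt_succ_iff]

lemma hmg_comp {B : ℕ} {g : A[X]} (hg : g.natDegree ≤ B) (u : A) :
    (hmg B u g).comp (C u * X) = C (u ^ B) * g := by
  ext b
  rw [comp_C_mul_X_coeff, hmg_coeff, coeff_C_mul]
  split_ifs with h
  · rw [mul_assoc, ← pow_add, Nat.sub_add_cancel h, mul_comm]
  · rw [coeff_eq_zero_of_natDegree_lt (by omega), mul_zero, zero_mul]

lemma hmg_eval {B : ℕ} {g : A[X]} (hg : g.natDegree ≤ B) (u y : A) :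
    (hmg B u g).eval (u * y) = u ^ B * g.eval y := by
  have h := congrArg (eval y) (hmg_comp hg u)
  rw [eval_comp, eval_mul, eval_mul, eval_C, eval_X, eval_C] at h
  exact h

lemma hmg_taylor [IsDomain A] {B : ℕ} {g : A[X]} (hg : g.natDegree ≤ B) {u : A} (hu : u ≠ 0)
    (c : A) : hmg B u (taylor c g) = taylor (u * c) (hmg B u g) := by
  have h1 : (taylor c g).natDegree ≤ B := by rwa [natDegree_taylor]
  have h2 : (hmg B u (taylor c g)).comp (C u * X) =
      (taylor (u * c) (hmg B u g)).comp (C u * X) := by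
    rw [hmg_comp h1, taylor_apply, taylor_apply, comp_assoc]
    have e : (X + C (u * c)).comp (C u * X) = (C u * X).comp (X + C c) := by
      simp only [add_comp, X_comp, C_comp, mul_comp]
      rw [C_mul]; ring
    rw [e, ← comp_assoc, hmg_comp hg, mul_comp, C_comp]
  ext b
  have h3 := congrArg (fun P => Polynomial.coeff P b) h2
  simp only [comp_C_mul_X_coeff] at h3
  exact mul_right_cancel₀ (pow_ne_zero b hu) h3

lemma hmg_map {B : ℕ} {R : Type*} [CommRing R] (φ : A →+* R) (u : A) (g : A[X]) :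
    (hmg B u g).map φ = hmg B (φ u) (g.map φ) := by
  ext b
  rw [coeff_map, hmg_coeff, hmg_coeff, coeff_map]
  split_ifs <;> simp

/-- the coefficients of `g` are divisible by decreasing powers of `π` -/
def TG (π : A) (T : ℕ) (g : A[X]) : Prop := ∀ i, π ^ (T - i) ∣ g.coeff i

lemma TG.taylor {π : A} {T : ℕ} {g : A[X]} (h : TG π T g) {r : A} (hr : π ∣ r) :
    TG π T (Polynomial.taylor r g) := by
  intro i
  rw [taylor_apply, comp_eq_sum_left, sum_def, finsetSum_coeff]
  refine Finset.dvd_sum fun j _ => ?_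
  rw [coeff_C_mul, coeff_X_add_C_pow]
  by_cases hij : i ≤ j
  · have h1 : π ^ (T - i) ∣ π ^ (T - j) * π ^ (j - i) := by
      rw [← pow_add]
      exact pow_dvd_pow _ (by omega)
    refine h1.trans (mul_dvd_mul (h j) ?_)
    exact Dvd.dvd.mul_right (pow_dvd_pow_of_dvd hr _) _
  · rw [Nat.choose_eq_zero_of_lt (by omega), Nat.cast_zero, mul_zero, mul_zero]
    exact dvd_zero _

lemma TG.hmg {π : A} {T : ℕ} {g : A[X]} (h : TG π T g) (B : ℕ) (u : A) :
    TG π T (hmg B u g) := by
  intro i
  rw [hmg_coeff]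
  split_ifs
  · exact Dvd.dvd.mul_right (h i) _
  · exact dvd_zero _

end hom

/-- divisibility by a power of the minimal polynomial can be checked at one root -/
lemma minpoly_pow_dvd {K : Type*} [Field K] [CharZero K] {a : K} (ha : IsIntegral ℤ a) (m : ℕ) :
    ∀ P : ℤ[X], (X - C a) ^ m ∣ P.map (algebraMap ℤ K) → (minpoly ℤ a) ^ m ∣ P := by
  set F := minpoly ℤ a with hF
  have hFa : aeval a F = 0 := minpoly.aeval ℤ a
  have hsep : aeval a (derivative F) ≠ 0 := by
    have h1 : F.map (algebraMap ℤ ℚ) = minpoly ℚ a :=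
      (minpoly.isIntegrallyClosed_eq_field_fractions' ℚ ha).symm
    have h2 : (minpoly ℚ a).Separable :=
      (minpoly.irreducible (ha.tower_top (A := ℚ))).separable
    have h3 := h2.aeval_derivative_ne_zero (minpoly.aeval ℚ a)
    rw [← h1, derivative_map, aeval_map_algebraMap] at h3
    exact h3
  obtain ⟨F1, hF1⟩ : (X - C a) ∣ F.map (algebraMap ℤ K) := by
    rw [dvd_iff_isRoot, IsRoot.def, eval_map_algebraMap, hFa]
  have hF1a : F1.eval a ≠ 0 := by
    intro h0
    apply hsep
    have h1 := congrArg (fun P => (derivative P).eval a) hF1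
    simp only [derivative_mul, derivative_map, eval_add, eval_mul, eval_map_algebraMap, h0] at h1
    rw [h1]
    simp
  have hcop : IsCoprime (X - C a) F1 := by
    rw [Polynomial.isCoprime_iff_aeval_ne_zero_of_isAlgClosed K (AlgebraicClosure K)]
    intro x
    by_cases hx : aeval x (X - C a) = 0
    · right
      have : x = algebraMap K _ a := by
        simpa [sub_eq_zero] using hx
      rw [this, aeval_algebraMap_apply, coe_aeval_eq_eval]
      simpa using hF1a
    · left; exact hx
  induction m with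
  | zero => intro P _; simp
  | succ m ih =>
    intro P hP
    have h1 : aeval a P = 0 := by
      have h2 : (X - C a) ∣ P.map (algebraMap ℤ K) := (dvd_pow_self _ (by omega)).trans hP
      rw [dvd_iff_isRoot, IsRoot.def, eval_map_algebraMap] at h2
      exact h2
    obtain ⟨P1, rfl⟩ := minpoly.isIntegrallyClosed_dvd ha h1
    rw [Polynomial.map_mul, hF1, pow_succ, mul_comm, mul_assoc] at hP
    have h3 : (X - C a) ^ m ∣ F1 * P1.map (algebraMap ℤ K) :=
      (mul_dvd_mul_iff_left (X_sub_C_ne_zero a)).mp hP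
    have h4 := (hcop.pow_left (m := m)).dvd_of_dvd_mul_left h3
    rw [pow_succ, mul_comm]
    exact mul_dvd_mul_left _ (ih P1 h4)

/-- the condition of vanishing of order `T` in both variables -/
def Van {K : Type*} [Field K] (T : ℕ) (f : ℤ[X][X]) (a b : K) : Prop :=
  ∀ j < T, ∀ i < T, (Polynomial.taylor a ((Polynomial.taylor (C b)
    (f.map (mapRingHom (algebraMap ℤ K)))).coeff j)).coeff i = 0

lemma dvd_of_taylor {K : Type*} [Field K] {a : K} {P : K[X]} {m : ℕ}
    (h : ∀ i < m, (Polynomial.taylor a P).coeff i = 0) : (X - C a) ^ m ∣ P := by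
  have h1 : X ^ m ∣ Polynomial.taylor a P := X_pow_dvd_iff.mpr h
  obtain ⟨Q, hQ⟩ := h1
  refine ⟨Q.comp (X - C a), ?_⟩
  have h2 : P = (Polynomial.taylor a P).comp (X - C a) := by
    rw [taylor_apply, comp_assoc]; simp
  rw [h2, hQ, mul_comp, pow_comp, X_comp]

/-- the polynomial identity behind the congruences -/
theorem key_dvd {K : Type*} [Field K] [CharZero K] {a b : K} (ha : IsIntegral ℤ a) {u G : ℤ[X]}
    (hu : aeval a u ≠ 0) (hG : aeval a u * b = aeval a G) {B T : ℕ} {f : ℤ[X][X]}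
    (hf : f.natDegree ≤ B) (hv : Van T f a b) (i : ℕ) :
    (minpoly ℤ a) ^ (T - i) ∣ (Polynomial.taylor G (hmg B u f)).coeff i := by
  apply minpoly_pow_dvd ha
  set φ := mapRingHom (algebraMap ℤ K) with hφ
  set fK := f.map φ with hfK
  set g := Polynomial.taylor (C b) fK with hg
  have hgT : TG (X - C a) T g := by
    intro j
    by_cases hj : j < T
    · exact dvd_of_taylor fun i hi => hv j hj i (by omega)
    · rw [Nat.sub_eq_zero_of_le (by omega), pow_zero]
      exact one_dvd _
  have huK : φ u ≠ 0 := by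
    intro h0
    apply hu
    rw [← eval_map_algebraMap]
    change (φ u).eval a = 0
    rw [h0, eval_zero]
  have hfKd : fK.natDegree ≤ B := natDegree_map_le.trans hf
  have e1 : (Polynomial.taylor G (hmg B u f)).map φ =
      Polynomial.taylor (φ G - φ u * C b) (hmg B (φ u) g) := by
    rw [map_taylor, hmg_map, hg, hmg_taylor hfKd huK, taylor_taylor]
    congr 1
    ring
  have hr : (X - C a) ∣ φ G - φ u * C b := by
    rw [dvd_iff_isRoot, IsRoot.def, eval_sub, eval_mul, eval_C]
    change (G.map (algebraMap ℤ K)).eval a - (u.map (algebraMap ℤ K)).eval a * b = 0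
    rw [eval_map_algebraMap, eval_map_algebraMap, hG, sub_self]
  have h2 := ((hgT.hmg B (φ u)).taylor hr) i
  rw [← e1, coeff_map] at h2
  exact h2

/-- Frobenius congruence for integer polynomials -/
lemma frob_dvd {R : Type*} [CommRing R] (p : ℕ) (hp : p.Prime) (P : ℤ[X]) (x : R) :
    (p : R) ∣ aeval (x ^ p) P - (aeval x P) ^ p := by
  have : Fact p.Prime := ⟨hp⟩
  have h0 : (expand ℤ p P - P ^ p).map (Int.castRingHom (ZMod p)) = 0 := by
    rw [Polynomial.map_sub, Polynomial.map_pow, Polynomial.map_expand, ZMod.expand_card, sub_self]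
  have h1 : C (p : ℤ) ∣ (expand ℤ p P - P ^ p) := by
    rw [Polynomial.C_dvd_iff_dvd_coeff]
    intro i
    have h1 := congrArg (fun u => Polynomial.coeff u i) h0
    simp only [Polynomial.coeff_map, Polynomial.coeff_zero, eq_intCast] at h1
    exact (ZMod.intCast_zmod_eq_zero_iff_dvd _ _).1 h1
  obtain ⟨v, hv⟩ := h1
  refine ⟨aeval x v, ?_⟩
  rw [← Polynomial.expand_aeval, ← map_pow, ← map_sub, hv]
  simp

/-- **Extrapolation.** If `f` vanishes to order `T` at `(a, b)` then a multiple of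
`f (a ^ p, b ^ p)` is divisible by `p ^ T`. -/
theorem extrapolate {R : Type*} [CommRing R] {p : ℕ} (hp : p.Prime) {F u G : ℤ[X]} {a b : R}
    (hF : aeval a F = 0) (hG : aeval a u * b = aeval a G) {B T : ℕ} {f : ℤ[X][X]}
    (hf : f.natDegree ≤ B) (h : ∀ i, F ^ (T - i) ∣ (Polynomial.taylor G (hmg B u f)).coeff i) :
    (p : R) ^ T ∣ (aeval (a ^ p) u) ^ B *
      (f.map (aeval (a ^ p) : ℤ[X] →ₐ[ℤ] R).toRingHom).eval (b ^ p) := by
  set ψ : ℤ[X] →+* R := (aeval (a ^ p) : ℤ[X] →ₐ[ℤ] R).toRingHom with hψ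
  have hψa : ∀ P : ℤ[X], ψ P = aeval (a ^ p) P := fun P => rfl
  have hF' : (p : R) ∣ ψ F := by
    have h1 := frob_dvd p hp F a
    rw [hF, zero_pow hp.ne_zero, sub_zero] at h1
    exact h1
  have hg' : (p : R) ∣ ψ u * b ^ p - ψ G := by
    have h1 := frob_dvd p hp u a
    have h2 := frob_dvd p hp G a
    have h3 : ψ u * b ^ p - ψ G = (ψ u - (aeval a u) ^ p) * b ^ p - (ψ G - (aeval a G) ^ p) := by
      rw [← hG]; ring
    rw [h3]
    exact dvd_sub (Dvd.dvd.mul_right h1 _) h2
  have e1 : ψ u ^ B * (f.map ψ).eval (b ^ p) = ((hmg B u f).map ψ).eval (ψ u * b ^ p) := by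
    rw [hmg_map, hmg_eval (natDegree_map_le.trans hf)]
  have e2 : ((hmg B u f).map ψ).eval (ψ u * b ^ p) =
      ((Polynomial.taylor G (hmg B u f)).map ψ).eval (ψ u * b ^ p - ψ G) := by
    rw [map_taylor, taylor_eval]
    congr 1
    ring
  change (p : R) ^ T ∣ ψ u ^ B * (f.map ψ).eval (b ^ p)
  rw [e1, e2, eval_eq_sum_range]
  refine Finset.dvd_sum fun i _ => ?_
  rw [coeff_map]
  have h4 : (p : R) ^ (T - i) ∣ ψ ((Polynomial.taylor G (hmg B u f)).coeff i) := by
    have h5 := map_dvd ψ (h i)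
    rw [map_pow] at h5
    exact (pow_dvd_pow_of_dvd hF' _).trans h5
  have h6 : (p : R) ^ i ∣ (ψ u * b ^ p - ψ G) ^ i := pow_dvd_pow_of_dvd hg' _
  have h7 : (p : R) ^ T ∣ (p : R) ^ (T - i) * (p : R) ^ i := by
    rw [← pow_add]
    exact pow_dvd_pow _ (by omega)
  exact h7.trans (mul_dvd_mul h4 h6)

end Pool.Agent.J4H57.TD
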