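import Pool.Agent.J4H57.TD.A

/-!
# Prime ideals above `p` which do not divide the derivative of the minimal polynomial
-/

set_option autoImplicit false

open Polynomial Finset NumberField

namespace Pool.Agent.J4H57.TD

variable {K : Type*} [Field K] [NumberField K]

/-- the value of the derivative of the minimal polynomial -/
noncomputable def dd (a : 𝓞 K) : 𝓞 K := aeval a (derivative (minpoly ℤ a))

lemma dd_mul {a : 𝓞 K} (ha : Algebra.adjoin ℚ {(a : K)} = ⊤) (b : 𝓞 K) :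
    ∃ G : ℤ[X], dd a * b = aeval a G := by
  have h1 := conductor_mul_differentIdeal ℤ ℚ K a ha
  have h2 : dd a ∈ conductor ℤ a := by
    have h3 : dd a ∈ conductor ℤ a * differentIdeal ℤ (𝓞 K) := by
      rw [h1]; exact Ideal.mem_span_singleton_self _
    exact Ideal.mul_le_left h3
  have h4 : dd a * b ∈ Algebra.adjoin ℤ {a} := mem_conductor_iff.mp h2 b
  rw [Algebra.adjoin_singleton_eq_range_aeval] at h4
  obtain ⟨G, hG⟩ := h4
  exact ⟨G, hG.symm⟩

lemma dd_ne {a : 𝓞 K} : dd a ≠ 0 := by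
  have hint : IsIntegral ℤ a := NumberField.RingOfIntegers.isIntegral a
  intro h0
  have h1 : (minpoly ℤ a).map (algebraMap ℤ ℚ) = minpoly ℚ (a : K) :=
    (minpoly.isIntegrallyClosed_eq_field_fractions ℚ K hint).symm
  have h2 : (minpoly ℚ (a : K)).Separable := Algebra.IsSeparable.isSeparable ℚ (a : K)
  have h3 := h2.aeval_derivative_ne_zero (minpoly.aeval ℚ (a : K))
  rw [← h1, derivative_map, aeval_map_algebraMap] at h3
  apply h3
  have h4 : aeval (a : K) (derivative (minpoly ℤ a)) =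
      algebraMap (𝓞 K) K (aeval a (derivative (minpoly ℤ a))) :=
    aeval_algebraMap_apply K a _
  rw [h4]
  change algebraMap (𝓞 K) K (dd a) = 0
  rw [h0, map_zero]

lemma ram_dvd {a : 𝓞 K} (ha : Algebra.adjoin ℚ {(a : K)} = ⊤) {p : ℕ} (hp : p.Prime)
    (P : Ideal (𝓞 K)) {e : ℕ} (he : P ^ e ∣ Ideal.span {(p : 𝓞 K)}) :
    P ^ (e - 1) ∣ Ideal.span {dd a} := by
  have hpm : (Ideal.span {(p : ℤ)}).IsMaximal :=
    PrincipalIdealRing.isMaximal_of_irreducible (Nat.prime_iff_prime_int.mp hp).irreducible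
  have h1 : P ^ e ∣ (Ideal.span {(p : ℤ)}).map (algebraMap ℤ (𝓞 K)) := by
    rw [Ideal.map_span, Set.image_singleton]
    simpa using he
  have h2 := pow_sub_one_dvd_differentIdeal ℤ P e (p := Ideal.span {(p : ℤ)}) (by
    rw [Ne, Ideal.span_singleton_eq_bot]
    exact_mod_cast hp.ne_zero) h1
  refine h2.trans ?_
  rw [Ideal.dvd_span_singleton]
  exact aeval_derivative_mem_differentIdeal ℤ ℚ K a ha

/-- the bad part of `p` -/
noncomputable def bb (a : 𝓞 K) (p : ℕ) : Ideal (𝓞 K) :=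
  Ideal.span {(p : 𝓞 K)} ⊔ Ideal.span {dd a ^ 2}

lemma bb_dvd_p (a : 𝓞 K) (p : ℕ) : bb a p ∣ Ideal.span {(p : 𝓞 K)} :=
  Ideal.dvd_iff_le.mpr le_sup_left

lemma bb_dvd_sq (a : 𝓞 K) (p : ℕ) : bb a p ∣ Ideal.span {dd a ^ 2} :=
  Ideal.dvd_iff_le.mpr le_sup_right

lemma exists_good {a : 𝓞 K} (ha : Algebra.adjoin ℚ {(a : K)} = ⊤) {p : ℕ} (hp : p.Prime) :
    ∃ g : Ideal (𝓞 K), Ideal.span {(p : 𝓞 K)} = g * bb a p ∧
      IsCoprime g (Ideal.span {dd a}) := by
  obtain ⟨g, hg⟩ := bb_dvd_p a p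
  rw [mul_comm] at hg
  refine ⟨g, hg, ?_⟩
  rw [Ideal.isCoprime_iff_sup_eq]
  by_contra hne
  obtain ⟨P, hPm, hP⟩ := Ideal.exists_le_maximal _ hne
  have hgP : g ≤ P := le_sup_left.trans hP
  have hdP : Ideal.span {dd a} ≤ P := le_sup_right.trans hP
  have hp0 : Ideal.span {(p : 𝓞 K)} ≠ 0 := by
    rw [Ideal.zero_eq_bot, Ne, Ideal.span_singleton_eq_bot]
    exact_mod_cast hp.ne_zero
  have hPu : ¬ IsUnit P := by
    rw [Ideal.isUnit_iff]
    exact hPm.ne_top
  have hfin : FiniteMultiplicity P (Ideal.span {(p : 𝓞 K)}) :=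
    FiniteMultiplicity.of_not_isUnit hPu hp0
  classical
  set e := multiplicity P (Ideal.span {(p : 𝓞 K)}) with he
  have h1 : P ^ e ∣ Ideal.span {(p : 𝓞 K)} := pow_multiplicity_dvd _ _
  have h2 : ¬ P ^ (e + 1) ∣ Ideal.span {(p : 𝓞 K)} := hfin.not_pow_dvd_of_multiplicity_lt (by omega)
  have h3 := ram_dvd ha hp P h1
  have h4 : P ^ e ∣ Ideal.span {dd a ^ 2} := by
    rw [← Ideal.span_singleton_pow]
    have h5 : P ^ (max 1 (e - 1)) ∣ Ideal.span {dd a} := by
      rcases le_total 1 (e - 1) with h | h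
      · rw [max_eq_right h]; exact h3
      · rw [max_eq_left h, pow_one]; exact Ideal.dvd_iff_le.mpr hdP
    have h6 := pow_dvd_pow_of_dvd h5 2
    rw [← pow_mul] at h6
    refine (pow_dvd_pow _ ?_).trans h6
    omega
  have h7 : bb a p ≤ P ^ e := sup_le (Ideal.dvd_iff_le.mp h1) (Ideal.dvd_iff_le.mp h4)
  apply h2
  rw [hg, pow_succ', Ideal.dvd_iff_le]
  exact Ideal.mul_mono hgP h7

/-- a nonzero element whose product with a power of `u (a ^ p)` is divisible by `p ^ T` has a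
large norm -/
theorem norm_ge {a : 𝓞 K} (ha : Algebra.adjoin ℚ {(a : K)} = ⊤) {p : ℕ} (hp : p.Prime)
    {T B : ℕ} {w : 𝓞 K} (hw : w ≠ 0)
    (h : (p : 𝓞 K) ^ T ∣ (aeval (a ^ p) (derivative (minpoly ℤ a))) ^ B * w) :
    (p : ℤ) ^ (T * Module.finrank ℚ K) ≤
      (Ideal.absNorm (bb a p) : ℤ) ^ T * |Algebra.norm ℤ w| := by
  obtain ⟨g, hg, hcop⟩ := exists_good ha hp
  set u := aeval (a ^ p) (derivative (minpoly ℤ a)) with hu
  have hup : (p : 𝓞 K) ∣ u - dd a ^ p := frob_dvd p hp _ a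
  have hcop2 : IsCoprime g (Ideal.span {u}) := by
    rw [Ideal.isCoprime_iff_sup_eq]
    have h1 : IsCoprime g (Ideal.span {dd a} ^ p) := hcop.pow_right
    rw [Ideal.isCoprime_iff_sup_eq, Ideal.span_singleton_pow] at h1
    rw [eq_top_iff, ← h1]
    refine sup_le le_sup_left ?_
    rw [Ideal.span_singleton_le_iff_mem]
    have h2 : dd a ^ p = u - (u - dd a ^ p) := by ring
    rw [h2]
    refine Ideal.sub_mem _ (Ideal.mem_sup_right (Ideal.mem_span_singleton_self u)) ?_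
    refine Ideal.mem_sup_left ?_
    have h3 : Ideal.span {(p : 𝓞 K)} ≤ g := by
      rw [hg]; exact Ideal.mul_le_left
    exact h3 (Ideal.mem_span_singleton.mpr hup)
  have h1 : g ^ T ∣ Ideal.span {w} := by
    have h2 : g ^ T ∣ Ideal.span {u} ^ B * Ideal.span {w} := by
      have h3 : Ideal.span {(p : 𝓞 K)} ^ T ∣ Ideal.span {u} ^ B * Ideal.span {w} := by
        rw [Ideal.span_singleton_pow, Ideal.span_singleton_pow,
          Ideal.span_singleton_mul_span_singleton, Ideal.dvd_span_singleton,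
          Ideal.mem_span_singleton]
        exact h
      refine (pow_dvd_pow_of_dvd ?_ T).trans h3
      exact ⟨bb a p, hg⟩
    exact (IsCoprime.pow hcop2).dvd_of_dvd_mul_left h2
  have hn1 : Ideal.absNorm (Ideal.span {(p : 𝓞 K)}) = p ^ Module.finrank ℚ K := by
    rw [Ideal.absNorm_span_natCast, RingOfIntegers.rank]
  have hn2 : p ^ Module.finrank ℚ K = Ideal.absNorm g * Ideal.absNorm (bb a p) := by
    rw [← hn1, hg, map_mul]
  have hn3 : Ideal.absNorm g ^ T ∣ Ideal.absNorm (Ideal.span {w}) := by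
    have := map_dvd Ideal.absNorm h1
    rwa [map_pow] at this
  have hw0 : Ideal.absNorm (Ideal.span {w}) ≠ 0 := by
    rw [Ne, Ideal.absNorm_eq_zero_iff, Ideal.span_singleton_eq_bot]
    exact hw
  have hn4 : Ideal.absNorm g ^ T ≤ Ideal.absNorm (Ideal.span {w}) :=
    Nat.le_of_dvd (Nat.pos_of_ne_zero hw0) hn3
  rw [Ideal.absNorm_span_singleton] at hn4
  have hn5 : p ^ (T * Module.finrank ℚ K) ≤
      Ideal.absNorm (bb a p) ^ T * (Algebra.norm ℤ w).natAbs := by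
    rw [mul_comm T, pow_mul, hn2, mul_pow, mul_comm]
    exact Nat.mul_le_mul_left _ hn4
  have hn6 : |Algebra.norm ℤ w| = ((Algebra.norm ℤ w).natAbs : ℤ) := (Int.natCast_natAbs _).symm
  rw [hn6]
  exact_mod_cast hn5

/-- the bad parts of different primes -/
theorem prod_bad {a : 𝓞 K} (P : Finset ℕ) (hP : ∀ p ∈ P, p.Prime) :
    ∏ p ∈ P, (Ideal.absNorm (bb a p) : ℤ) ≤ (Algebra.norm ℤ (dd a)) ^ 2 := by
  have h1 : ∏ p ∈ P, bb a p ∣ Ideal.span {dd a ^ 2} := by
    refine Finset.prod_dvd_of_coprime ?_ fun p _ => bb_dvd_sq a p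
    intro p hp q hq hpq
    change IsCoprime (bb a p) (bb a q)
    rw [Ideal.isCoprime_iff_sup_eq, Ideal.eq_top_iff_one]
    have h2 : IsCoprime (p : ℤ) (q : ℤ) := by
      rw [Nat.isCoprime_iff_coprime]
      exact (Nat.coprime_primes (hP p hp) (hP q hq)).mpr hpq
    obtain ⟨x, y, hxy⟩ := h2
    have h3 : (1 : 𝓞 K) = (x : 𝓞 K) * (p : 𝓞 K) + (y : 𝓞 K) * (q : 𝓞 K) := by
      have := congrArg (fun z : ℤ => (z : 𝓞 K)) hxy
      push_cast at this
      exact this.symm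
    rw [h3]
    refine Ideal.add_mem _ (Ideal.mem_sup_left (Ideal.mul_mem_left _ _ ?_))
      (Ideal.mem_sup_right (Ideal.mul_mem_left _ _ ?_))
    · exact Ideal.mem_sup_left (Ideal.mem_span_singleton_self _)
    · exact Ideal.mem_sup_left (Ideal.mem_span_singleton_self _)
  have h4 := map_dvd Ideal.absNorm h1
  rw [map_prod, Ideal.absNorm_span_singleton, map_pow, Int.natAbs_pow] at h4
  have h5 : ∏ p ∈ P, Ideal.absNorm (bb a p) ≤ (Algebra.norm ℤ (dd a)).natAbs ^ 2 := by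
    refine Nat.le_of_dvd ?_ h4
    have h6 : Algebra.norm ℤ (dd a) ≠ 0 := by
      rw [Ne, Algebra.norm_eq_zero_iff]
      exact dd_ne
    exact pow_pos (Int.natAbs_pos.mpr h6) 2
  have h7 : (Algebra.norm ℤ (dd a)) ^ 2 = (((Algebra.norm ℤ (dd a)).natAbs ^ 2 : ℕ) : ℤ) := by
    push_cast
    rw [sq_abs]
  rw [h7]
  exact_mod_cast h5

end Pool.Agent.J4H57.TD
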