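import Pool.Agent.J4H57.TD.A
import Pool.Agent.H388SL.DobA

/-!
# Siegel's lemma for polynomials in two variables vanishing to high order at a point
-/

set_option autoImplicit false

open Polynomial Finset NumberField Module

namespace Pool.Agent.J4H57.TD

open Pool.Agent.H388SL

/-- the polynomial with coefficients `c i j` -/
noncomputable def pol (A B : ℕ) (c : ℕ → ℕ → ℤ) : ℤ[X][X] :=
  ∑ j ∈ range B, C (∑ i ∈ range A, C (c i j) * X ^ i) * X ^ j

lemma pol_coeff (A B : ℕ) (c : ℕ → ℕ → ℤ) (j : ℕ) :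
    (pol A B c).coeff j = if j < B then ∑ i ∈ range A, C (c i j) * X ^ i else 0 := by
  unfold pol
  rw [finsetSum_coeff]
  simp only [coeff_C_mul_X_pow]
  rw [Finset.sum_ite_eq]
  simp only [mem_range]

lemma pol_coeff2 (A B : ℕ) (c : ℕ → ℕ → ℤ) (i j : ℕ) :
    ((pol A B c).coeff j).coeff i = if j < B ∧ i < A then c i j else 0 := by
  rw [pol_coeff]
  by_cases hj : j < B
  · rw [if_pos hj, finsetSum_coeff]
    simp only [coeff_C_mul_X_pow]
    rw [Finset.sum_ite_eq]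
    simp only [mem_range, hj, true_and]
  · rw [if_neg hj, coeff_zero, if_neg (fun h => hj h.1)]

lemma jet_eq {K : Type*} [Field K] (A B : ℕ) (c : ℕ → ℕ → ℤ) (a b : K) (k l : ℕ) :
    (Polynomial.taylor a ((Polynomial.taylor (C b)
      ((pol A B c).map (mapRingHom (algebraMap ℤ K)))).coeff l)).coeff k =
    ∑ j ∈ range B, ∑ i ∈ range A, (c i j : K) * (a ^ (i - k) * (i.choose k : K)) *
      (b ^ (j - l) * (j.choose l : K)) := by
  have e1 : (Polynomial.taylor (C b) ((pol A B c).map (mapRingHom (algebraMap ℤ K)))).coeff l =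
      ∑ j ∈ range B, (∑ i ∈ range A, C (c i j : K) * X ^ i) *
        C (b ^ (j - l) * (j.choose l : K)) := by
    unfold pol
    rw [Polynomial.map_sum, map_sum, finsetSum_coeff]
    refine Finset.sum_congr rfl fun j _ => ?_
    rw [Polynomial.map_mul, Polynomial.map_pow, map_X, map_C, taylor_mul, taylor_pow, taylor_C,
      taylor_X, coeff_C_mul, coeff_X_add_C_pow]
    congr 1
    · rw [map_sum]
      refine Finset.sum_congr rfl fun i _ => ?_
      rw [map_mul, map_pow]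
      simp
    · simp
  rw [e1, map_sum, finsetSum_coeff]
  refine Finset.sum_congr rfl fun j _ => ?_
  rw [taylor_mul, taylor_C, coeff_mul_C, map_sum, finsetSum_coeff, Finset.sum_mul]
  refine Finset.sum_congr rfl fun i _ => ?_
  rw [taylor_mul, taylor_C, taylor_pow, taylor_X, coeff_C_mul, coeff_X_add_C_pow]

variable {K : Type*} [Field K] [NumberField K]

/-- the bound for the conjugates of the jets -/
noncomputable def RR (A B T H : ℕ) (a b : K) (σ : K →ₐ[ℚ] ℂ) : ℝ :=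
  (A * B * H * (A * B) ^ T : ℕ) * ((max 1 ‖σ a‖) ^ A * (max 1 ‖σ b‖) ^ B)

lemma jet_bound {A B T H : ℕ} {a b : K} (c : ℕ → ℕ → ℤ) (hc : ∀ i j, |c i j| ≤ H)
    {k l : ℕ} (hk : k < T) (hl : l < T) (σ : K →ₐ[ℚ] ℂ) :
    ‖σ (∑ j ∈ range B, ∑ i ∈ range A, (c i j : K) * (a ^ (i - k) * (i.choose k : K)) *
      (b ^ (j - l) * (j.choose l : K)))‖ ≤ RR A B T H a b σ := by
  have h1 : ∀ j ∈ range B, ∀ i ∈ range A, ‖σ ((c i j : K) * (a ^ (i - k) * (i.choose k : K)) *
      (b ^ (j - l) * (j.choose l : K)))‖ ≤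
      (H * (A ^ T * B ^ T) : ℝ) * ((max 1 ‖σ a‖) ^ A * (max 1 ‖σ b‖) ^ B) := by
    intro j hj i hi
    rw [mem_range] at hj hi
    simp only [map_mul, map_pow, map_intCast, map_natCast, norm_mul, norm_pow,
      Complex.norm_intCast, Complex.norm_natCast]
    have hA1 : 1 ≤ A := by omega
    have hB1 : 1 ≤ B := by omega
    have e1 : |((c i j : ℤ) : ℝ)| ≤ H := by
      have := hc i j
      have h2 : ((|c i j| : ℤ) : ℝ) ≤ ((H : ℤ) : ℝ) := by exact_mod_cast this
      simpa using h2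
    have e2 : ‖σ a‖ ^ (i - k) ≤ (max 1 ‖σ a‖) ^ A :=
      (pow_le_pow_left₀ (norm_nonneg _) (le_max_right _ _) _).trans
        (pow_le_pow_right₀ (le_max_left _ _) (by omega))
    have e3 : ‖σ b‖ ^ (j - l) ≤ (max 1 ‖σ b‖) ^ B :=
      (pow_le_pow_left₀ (norm_nonneg _) (le_max_right _ _) _).trans
        (pow_le_pow_right₀ (le_max_left _ _) (by omega))
    have e4 : ((i.choose k : ℕ) : ℝ) ≤ (A : ℝ) ^ T := by
      have h2 : i.choose k ≤ A ^ T :=
        (Nat.choose_le_pow i k).trans ((Nat.pow_le_pow_left hi.le k).trans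
          (Nat.pow_le_pow_right hA1 hk.le))
      exact_mod_cast h2
    have e5 : ((j.choose l : ℕ) : ℝ) ≤ (B : ℝ) ^ T := by
      have h2 : j.choose l ≤ B ^ T :=
        (Nat.choose_le_pow j l).trans ((Nat.pow_le_pow_left hj.le l).trans
          (Nat.pow_le_pow_right hB1 hl.le))
      exact_mod_cast h2
    have m1 : (0 : ℝ) ≤ max 1 ‖σ a‖ := zero_le_one.trans (le_max_left _ _)
    have m2 : (0 : ℝ) ≤ max 1 ‖σ b‖ := zero_le_one.trans (le_max_left _ _)
    calc |((c i j : ℤ) : ℝ)| * (‖σ a‖ ^ (i - k) * ((i.choose k : ℕ) : ℝ)) *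
          (‖σ b‖ ^ (j - l) * ((j.choose l : ℕ) : ℝ))
        ≤ (H : ℝ) * ((max 1 ‖σ a‖) ^ A * (A : ℝ) ^ T) * ((max 1 ‖σ b‖) ^ B * (B : ℝ) ^ T) := by
          gcongr
      _ = _ := by ring
  rw [map_sum]
  refine (norm_sum_le _ _).trans ?_
  have h2 : ∀ j ∈ range B, ‖σ (∑ i ∈ range A, (c i j : K) * (a ^ (i - k) * (i.choose k : K)) *
      (b ^ (j - l) * (j.choose l : K)))‖ ≤ A * ((H * (A ^ T * B ^ T) : ℝ) *
        ((max 1 ‖σ a‖) ^ A * (max 1 ‖σ b‖) ^ B)) := by
    intro j hj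
    rw [map_sum]
    refine (norm_sum_le _ _).trans ?_
    refine (Finset.sum_le_sum (h1 j hj)).trans ?_
    rw [Finset.sum_const, card_range, nsmul_eq_mul]
  refine (Finset.sum_le_sum h2).trans ?_
  rw [Finset.sum_const, card_range, nsmul_eq_mul]
  unfold RR
  apply le_of_eq
  push_cast
  rw [mul_pow]
  ring

/-- **Siegel's lemma.** -/
theorem siegel {A B T H : ℕ} (hA : 0 < A) (hB : 0 < B) (hH : 0 < H) {a b : K}
    (ha : IsIntegral ℤ a) (hb : IsIntegral ℤ b)
    (hcard : ∏ σ : K →ₐ[ℚ] ℂ, (9 * RR A B T H a b σ) ^ (2 * T ^ 2) < (H + 1 : ℝ) ^ (A * B)) :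
    ∃ c : ℕ → ℕ → ℤ, (∃ i < A, ∃ j < B, c i j ≠ 0) ∧ (∀ i j, |c i j| ≤ H) ∧
      Van T (pol A B c) a b := by
  classical
  -- the value vector
  let co : (Fin A → Fin B → Fin (H + 1)) → ℕ → ℕ → ℤ := fun c i j =>
    if h : i < A ∧ j < B then ((c ⟨i, h.1⟩ ⟨j, h.2⟩ : ℕ) : ℤ) else 0
  let J : (ℕ → ℕ → ℤ) → ℕ → ℕ → K := fun c k l =>
    ∑ j ∈ range B, ∑ i ∈ range A, (c i j : K) * (a ^ (i - k) * (i.choose k : K)) *
      (b ^ (j - l) * (j.choose l : K))
  let M : (K →ₐ[ℚ] ℂ) → ℤ := fun σ => ⌈2 * RR A B T H a b σ⌉ + 1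
  let Φ : (Fin A → Fin B → Fin (H + 1)) → ((K →ₐ[ℚ] ℂ) → (Fin T × Fin T) → ℤ × ℤ) :=
    fun c σ kl => (⌊2 * (σ (J (co c) kl.1 kl.2)).re⌋, ⌊2 * (σ (J (co c) kl.1 kl.2)).im⌋)
  let S : Finset ((K →ₐ[ℚ] ℂ) → (Fin T × Fin T) → ℤ × ℤ) :=
    Fintype.piFinset fun σ => Fintype.piFinset fun _ =>
      (Finset.Icc (-(M σ)) (M σ)) ×ˢ (Finset.Icc (-(M σ)) (M σ))
  have hco : ∀ c i j, |co c i j| ≤ H := by
    intro c i j
    simp only [co]
    split_ifs with h
    · rw [abs_of_nonneg (by positivity)]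
      have := (c ⟨i, h.1⟩ ⟨j, h.2⟩).2
      exact_mod_cast Nat.lt_succ_iff.mp this
    · simp
  have hR1 : ∀ σ : K →ₐ[ℚ] ℂ, 1 ≤ RR A B T H a b σ := by
    intro σ
    unfold RR
    have h1 : (1 : ℝ) ≤ ((A * B * H * (A * B) ^ T : ℕ) : ℝ) := by
      exact_mod_cast Nat.one_le_iff_ne_zero.mpr (by positivity)
    have h2 : (1 : ℝ) ≤ (max 1 ‖σ a‖) ^ A := one_le_pow₀ (le_max_left _ _)
    have h3 : (1 : ℝ) ≤ (max 1 ‖σ b‖) ^ B := one_le_pow₀ (le_max_left _ _)
    nlinarith [mul_le_mul h2 h3 zero_le_one (by positivity)]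
  have hMs : ∀ σ : K →ₐ[ℚ] ℂ, 2 * RR A B T H a b σ + 1 ≤ (M σ : ℝ) := by
    intro σ
    simp only [M]
    push_cast
    have := Int.le_ceil (2 * RR A B T H a b σ)
    linarith
  have hMs2 : ∀ σ : K →ₐ[ℚ] ℂ, (M σ : ℝ) ≤ 2 * RR A B T H a b σ + 2 := by
    intro σ
    simp only [M]
    push_cast
    have := Int.ceil_lt_add_one (2 * RR A B T H a b σ)
    linarith
  have hfl : ∀ (σ : K →ₐ[ℚ] ℂ) (x : ℝ), |x| ≤ RR A B T H a b σ →
      ⌊2 * x⌋ ∈ Finset.Icc (-(M σ)) (M σ) := by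
    intro σ x hx
    rw [abs_le] at hx
    have h1 := Int.floor_le (2 * x)
    have h2 := Int.sub_one_lt_floor (2 * x)
    have h3 := hMs σ
    rw [Finset.mem_Icc]
    constructor
    · have : (-(M σ) : ℝ) ≤ (⌊2 * x⌋ : ℝ) := by linarith [hx.1]
      exact_mod_cast this
    · have : ((⌊2 * x⌋ : ℤ) : ℝ) ≤ (M σ : ℝ) := by linarith [hx.2]
      exact_mod_cast this
  have hmaps : ∀ c, Φ c ∈ S := by
    intro c
    rw [Fintype.mem_piFinset]
    intro σ
    rw [Fintype.mem_piFinset]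
    intro kl
    have hb := jet_bound (A := A) (B := B) (a := a) (b := b) (co c) (hco c) kl.1.2 kl.2.2 σ
    rw [Finset.mem_product]
    refine ⟨hfl σ _ ?_, hfl σ _ ?_⟩
    · exact (Complex.abs_re_le_norm _).trans hb
    · exact (Complex.abs_im_le_norm _).trans hb
  have hcardS : (S.card : ℝ) ≤ ∏ σ : K →ₐ[ℚ] ℂ, (9 * RR A B T H a b σ) ^ (2 * T ^ 2) := by
    rw [Fintype.card_piFinset]
    push_cast
    refine Finset.prod_le_prod (fun σ _ => by positivity) fun σ _ => ?_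
    rw [Fintype.card_piFinset]
    push_cast
    rw [Finset.prod_const, Finset.card_product, Int.card_Icc, Finset.card_univ,
      Fintype.card_prod, Fintype.card_fin]
    push_cast
    have h1 : (((M σ + 1 - -(M σ)).toNat : ℕ) : ℝ) ≤ 9 * RR A B T H a b σ := by
      have h2 : (0 : ℤ) ≤ M σ := by
        have : (0 : ℝ) ≤ (M σ : ℝ) := by linarith [hMs σ, hR1 σ]
        exact_mod_cast this
      have h3 : (((M σ + 1 - -(M σ)).toNat : ℤ) : ℝ) = ((M σ + 1 - -(M σ) : ℤ) : ℝ) := by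
        rw [Int.toNat_of_nonneg (by omega)]
      have h4 : (((M σ + 1 - -(M σ)).toNat : ℕ) : ℝ) = 2 * (M σ : ℝ) + 1 := by
        have : (((M σ + 1 - -(M σ)).toNat : ℕ) : ℝ) = (((M σ + 1 - -(M σ)).toNat : ℤ) : ℝ) := by
          push_cast; rfl
        rw [this, h3]
        push_cast
        ring
      rw [h4]
      linarith [hMs2 σ, hR1 σ]
    calc ((((M σ + 1 - -(M σ)).toNat : ℕ) : ℝ) * (((M σ + 1 - -(M σ)).toNat : ℕ) : ℝ)) ^ (T * T)
        ≤ ((9 * RR A B T H a b σ) * (9 * RR A B T H a b σ)) ^ (T * T) := by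
          have := hR1 σ
          gcongr
      _ = _ := by rw [← sq, ← pow_mul]; ring_nf
  have hlt : S.card < (Finset.univ : Finset (Fin A → Fin B → Fin (H + 1))).card := by
    rw [Finset.card_univ, Fintype.card_fun, Fintype.card_fun, Fintype.card_fin, Fintype.card_fin,
      Fintype.card_fin, ← pow_mul, mul_comm B A]
    have h1 := hcardS.trans_lt hcard
    exact_mod_cast h1
  obtain ⟨c, _, c', _, hne, heq⟩ := Finset.exists_ne_map_eq_of_card_lt_of_maps_to hlt
    (fun c _ => hmaps c)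
  -- the difference
  set δ : ℕ → ℕ → ℤ := fun i j => co c i j - co c' i j with hδ
  have hδH : ∀ i j, |δ i j| ≤ H := by
    intro i j
    simp only [hδ, co]
    split_ifs with h
    · have h1 := (c ⟨i, h.1⟩ ⟨j, h.2⟩).2
      have h2 := (c' ⟨i, h.1⟩ ⟨j, h.2⟩).2
      rw [abs_le]
      constructor <;> push_cast <;> omega
    · simp
  have hJ : ∀ k < T, ∀ l < T, J δ k l = 0 := by
    intro k hk l hl
    have hsub : J δ k l = J (co c) k l - J (co c') k l := by
      simp only [J]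
      rw [← Finset.sum_sub_distrib]
      refine Finset.sum_congr rfl fun j _ => ?_
      rw [← Finset.sum_sub_distrib]
      refine Finset.sum_congr rfl fun i _ => ?_
      simp only [hδ]
      push_cast
      ring
    have hint : IsIntegral ℤ (J δ k l) := by
      refine IsIntegral.sum _ fun j _ => IsIntegral.sum _ fun i _ => ?_
      have hnat : ∀ n : ℕ, IsIntegral ℤ (n : K) := fun n => by
        have := isIntegral_algebraMap (R := ℤ) (A := K) (x := (n : ℤ))
        simpa using this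
      have hz : ∀ n : ℤ, IsIntegral ℤ (n : K) := fun n => by
        have := isIntegral_algebraMap (R := ℤ) (A := K) (x := n)
        simpa using this
      exact ((hz _).mul ((ha.pow _).mul (hnat _))).mul ((hb.pow _).mul (hnat _))
    by_contra hne0
    have h1 := one_le_prod_norm hint hne0
    have h2 : ∏ σ : K →ₐ[ℚ] ℂ, ‖σ (J δ k l)‖ < 1 := by
      have h3 : ∀ σ : K →ₐ[ℚ] ℂ, ‖σ (J δ k l)‖ < 1 := by
        intro σ
        have h4 := congrFun (congrFun heq σ) (⟨k, hk⟩, ⟨l, hl⟩)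
        simp only [Φ, Prod.mk.injEq] at h4
        have h5 := Int.abs_sub_lt_one_of_floor_eq_floor h4.1
        have h6 := Int.abs_sub_lt_one_of_floor_eq_floor h4.2
        rw [hsub, map_sub]
        set z := σ (J (co c) k l) - σ (J (co c') k l) with hz
        have h7 : |z.re| < 1 / 2 := by
          rw [← mul_sub, abs_mul, abs_two] at h5
          rw [hz, Complex.sub_re]
          linarith
        have h8 : |z.im| < 1 / 2 := by
          rw [← mul_sub, abs_mul, abs_two] at h6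
          rw [hz, Complex.sub_im]
          linarith
        calc ‖z‖ ≤ |z.re| + |z.im| := Complex.norm_le_abs_re_add_abs_im z
          _ < 1 := by linarith
      have hne' : (Finset.univ : Finset (K →ₐ[ℚ] ℂ)).Nonempty := by
        obtain ⟨σ⟩ : Nonempty (K →ₐ[ℚ] ℂ) := ⟨IsAlgClosed.lift⟩
        exact ⟨σ, mem_univ σ⟩
      calc ∏ σ : K →ₐ[ℚ] ℂ, ‖σ (J δ k l)‖ < ∏ σ : K →ₐ[ℚ] ℂ, (1 : ℝ) := by
            refine Finset.prod_lt_prod_of_nonempty ?_ (fun σ _ => h3 σ) hne'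
            intro σ _
            rw [norm_pos_iff]
            exact (map_ne_zero σ).mpr hne0
        _ = 1 := by simp
    linarith
  refine ⟨δ, ?_, hδH, ?_⟩
  · by_contra hcon
    push Not at hcon
    apply hne
    funext i j
    have h1 := hcon i i.2 j j.2
    simp only [hδ, co, i.2, j.2, and_self, dif_pos, Fin.eta] at h1
    apply Fin.ext
    omega
  · intro l hl k hk
    rw [jet_eq]
    exact hJ k hk l hl

end Pool.Agent.J4H57.TD
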