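import Pool.Agent.H371R3.GQ.D1

/-!
# Common factors of polynomials in two variables with many common zeros
-/

set_option autoImplicit false

open MvPolynomial Finset

namespace Pool.Agent.J4H57.TD

open Pool.Agent.H371R3.GQ

/-- the polynomial with integer coefficients `c i j` -/
noncomputable def mv (A B : ℕ) (c : ℕ → ℕ → ℤ) : Bx :=
  ∑ j ∈ range B, ∑ i ∈ range A,
    monomial (Finsupp.single 0 i + Finsupp.single 1 j) (c i j : ℂ)

lemma mv_eval (A B : ℕ) (c : ℕ → ℕ → ℤ) (z : Fin 2 → ℂ) :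
    eval z (mv A B c) = ∑ j ∈ range B, ∑ i ∈ range A, (c i j : ℂ) * z 0 ^ i * z 1 ^ j := by
  unfold mv
  rw [map_sum]
  refine Finset.sum_congr rfl fun j _ => ?_
  rw [map_sum]
  refine Finset.sum_congr rfl fun i _ => ?_
  rw [eval_monomial, Finsupp.prod_add_index' (by simp) (by intros; rw [pow_add]),
    Finsupp.prod_single_index (by simp), Finsupp.prod_single_index (by simp)]
  ring

lemma fs_inj {i j i' j' : ℕ} (h : (Finsupp.single (0 : Fin 2) i + Finsupp.single 1 j) =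
    (Finsupp.single (0 : Fin 2) i' + Finsupp.single 1 j')) : i = i' ∧ j = j' := by
  constructor
  · have := DFunLike.congr_fun h 0
    simpa using this
  · have := DFunLike.congr_fun h 1
    simpa using this

lemma mv_coeff (A B : ℕ) (c : ℕ → ℕ → ℤ) {i j : ℕ} (hi : i < A) (hj : j < B) :
    coeff (Finsupp.single 0 i + Finsupp.single 1 j) (mv A B c) = (c i j : ℂ) := by
  classical
  unfold mv
  rw [coeff_sum, Finset.sum_eq_single j, coeff_sum, Finset.sum_eq_single i, coeff_monomial,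
    if_pos rfl]
  · intro i' _ hne
    rw [coeff_monomial, if_neg]
    intro h
    exact hne (fs_inj h).1
  · intro h
    exact absurd (mem_range.mpr hi) h
  · intro j' _ hne
    rw [coeff_sum]
    refine Finset.sum_eq_zero fun i' _ => ?_
    rw [coeff_monomial, if_neg]
    intro h
    exact hne (fs_inj h).2
  · intro h
    exact absurd (mem_range.mpr hj) h

lemma mv_ne {A B : ℕ} {c : ℕ → ℕ → ℤ} {i j : ℕ} (hi : i < A) (hj : j < B) (h : c i j ≠ 0) :
    mv A B c ≠ 0 := by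
  intro h0
  have h1 := mv_coeff A B c hi hj
  rw [h0, coeff_zero] at h1
  exact h (by exact_mod_cast h1.symm)

lemma mon_mem {A B : ℕ} {d : Fin 2 →₀ ℕ} (r : ℂ) (h0 : d 0 ≤ A) (h1 : d 1 ≤ B) :
    (monomial d r : Bx) ∈ Bi A B := by
  rw [mem_Bi, degreeOf_le_iff, degreeOf_le_iff]
  constructor
  · intro m hm
    have := Finset.mem_singleton.mp (support_monomial_subset hm)
    rw [this]; exact h0
  · intro m hm
    have := Finset.mem_singleton.mp (support_monomial_subset hm)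
    rw [this]; exact h1

lemma mv_mem (A B : ℕ) (c : ℕ → ℕ → ℤ) : mv A B c ∈ Bi A B := by
  unfold mv
  refine Submodule.sum_mem _ fun j hj => Submodule.sum_mem _ fun i hi => ?_
  rw [mem_range] at hi hj
  refine mon_mem _ ?_ ?_
  · simp; omega
  · simp; omega

lemma Bi_of_dvd {P G : Bx} (hP : P ≠ 0) (h : G ∣ P) {a b : ℕ} (hB : P ∈ Bi a b) : G ∈ Bi a b := by
  obtain ⟨Q, rfl⟩ := h
  have hG : G ≠ 0 := left_ne_zero_of_mul hP
  have hQ : Q ≠ 0 := right_ne_zero_of_mul hP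
  rw [mem_Bi, degreeOf_mul_eq hG hQ, degreeOf_mul_eq hG hQ] at hB
  rw [mem_Bi]
  omega

/-- common factors carry most of the common zeros -/
lemma gcd_step {P Q : Bx} (hP : P ≠ 0) (hQ : Q ≠ 0) {a b a' b' : ℕ} (hPB : P ∈ Bi a b)
    (hQB : Q ∈ Bi a' b') (Ω : Finset (Fin 2 → ℂ)) (h1 : ∀ ω ∈ Ω, eval ω P = 0)
    (h2 : ∀ ω ∈ Ω, eval ω Q = 0) :
    ∃ G : Bx, G ≠ 0 ∧ G ∣ P ∧ G ∣ Q ∧ (Ω.filter fun ω => eval ω G ≠ 0).card ≤ a * b' + a' * b := by
  classical
  obtain ⟨P', Q', G, hrel, hG1, hG2⟩ := UniqueFactorizationMonoid.exists_reduced_factors P hP Q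
  have hG0 : G ≠ 0 := by
    rintro rfl
    rw [zero_mul] at hG1
    exact hP hG1.symm
  have hP'0 : P' ≠ 0 := by
    rintro rfl
    rw [mul_zero] at hG1
    exact hP hG1.symm
  have hQ'0 : Q' ≠ 0 := by
    rintro rfl
    rw [mul_zero] at hG2
    exact hQ hG2.symm
  refine ⟨G, hG0, ⟨P', hG1.symm⟩, ⟨Q', hG2.symm⟩, ?_⟩
  set S := Ω.filter fun ω => eval ω G ≠ 0 with hS
  have h3 := bezout_bi (ι := S) (fun ω => (ω : Fin 2 → ℂ)) Subtype.val_injective hP'0 hQ'0 hrel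
    (by
      rintro ⟨ω, hω⟩
      rw [hS, mem_filter] at hω
      have := h1 ω hω.1
      rw [← hG1, map_mul] at this
      exact (mul_eq_zero.mp this).resolve_left hω.2)
    (by
      rintro ⟨ω, hω⟩
      rw [hS, mem_filter] at hω
      have := h2 ω hω.1
      rw [← hG2, map_mul] at this
      exact (mul_eq_zero.mp this).resolve_left hω.2)
  rw [Fintype.card_coe] at h3
  have e1 := mem_Bi.mp (Bi_of_dvd hP (Dvd.intro_left G hG1) hPB)
  have e2 := mem_Bi.mp (Bi_of_dvd hQ (Dvd.intro_left G hG2) hQB)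
  exact h3.trans (Nat.add_le_add (Nat.mul_le_mul e1.1 e2.2) (Nat.mul_le_mul e2.1 e1.2))

/-- one step of the descent of the degree -/
lemma chain_step {v A B : ℕ} (hBv : B ≤ v) (hvA : v ≤ A) {Q f f' : Bx} (hQ : Q ≠ 0)
    (hQB : Q ∈ Bi v v) (hf : f ≠ 0) (hfB : f ∈ Bi A B) (hf' : f' ≠ 0) (hfB' : f' ∈ Bi B A)
    (Ω : Finset (Fin 2 → ℂ)) (h1 : ∀ ω ∈ Ω, eval ω f = 0) (h2 : ∀ ω ∈ Ω, eval ω f' = 0) :
    ∃ G : Bx, G ≠ 0 ∧ G ∈ Bi B B ∧
      (Ω.filter fun ω => eval ω G ≠ 0).card ≤ (Ω.filter fun ω => eval ω Q ≠ 0).card + 4 * v * A := by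
  classical
  obtain ⟨G1, g1, g2, g3, g4⟩ := gcd_step hQ hf hQB hfB (Ω.filter fun ω => eval ω Q = 0)
    (fun ω hω => (mem_filter.mp hω).2) (fun ω hω => h1 ω (mem_filter.mp hω).1)
  have b1 := mem_Bi.mp (Bi_of_dvd hQ g2 hQB)
  have b2 := mem_Bi.mp (Bi_of_dvd hf g3 hfB)
  have hG1B : G1 ∈ Bi v B := mem_Bi.mpr ⟨b1.1, b2.2⟩
  obtain ⟨G2, k1, k2, k3, k4⟩ := gcd_step g1 hf' hG1B hfB' (Ω.filter fun ω => eval ω G1 = 0)
    (fun ω hω => (mem_filter.mp hω).2) (fun ω hω => h2 ω (mem_filter.mp hω).1)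
  have c1 := mem_Bi.mp (Bi_of_dvd g1 k2 hG1B)
  have c2 := mem_Bi.mp (Bi_of_dvd hf' k3 hfB')
  refine ⟨G2, k1, mem_Bi.mpr ⟨c2.1, c1.2⟩, ?_⟩
  have hsub : (Ω.filter fun ω => eval ω G2 ≠ 0) ⊆ (Ω.filter fun ω => eval ω Q ≠ 0) ∪
      (((Ω.filter fun ω => eval ω Q = 0).filter fun ω => eval ω G1 ≠ 0) ∪
      ((Ω.filter fun ω => eval ω G1 = 0).filter fun ω => eval ω G2 ≠ 0)) := by
    intro ω hω
    rw [mem_filter] at hω
    by_cases q1 : eval ω Q = 0
    · by_cases q2 : eval ω G1 = 0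
      · refine mem_union_right _ (mem_union_right _ ?_)
        rw [mem_filter, mem_filter]
        exact ⟨⟨hω.1, q2⟩, hω.2⟩
      · refine mem_union_right _ (mem_union_left _ ?_)
        rw [mem_filter, mem_filter]
        exact ⟨⟨hω.1, q1⟩, q2⟩
    · refine mem_union_left _ ?_
      rw [mem_filter]
      exact ⟨hω.1, q1⟩
  refine (card_le_card hsub).trans ((card_union_le _ _).trans ?_)
  refine Nat.add_le_add_left ((card_union_le _ _).trans ((Nat.add_le_add g4 k4).trans ?_)) _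
  have m1 : v * B ≤ v * A := Nat.mul_le_mul_left _ (hBv.trans hvA)
  have m2 : A * v = v * A := mul_comm _ _
  have m3 : B * B ≤ v * A := Nat.mul_le_mul hBv (hBv.trans hvA)
  calc v * B + A * v + (v * A + B * B) ≤ v * A + v * A + (v * A + v * A) := by
        rw [m2]; omega
    _ = 4 * v * A := by ring

end Pool.Agent.J4H57.TD
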