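import Pool.Agent.J4H57.TD.Dep

/-!
# Characteristic polynomials of linear maps over division algebras
-/

set_option autoImplicit false

open Finset NumberField Module Polynomial

namespace Pool.Agent.J4H57.TD

section charpoly

variable {L V : Type*} [Field L] [AddCommGroup V] [Module L V] [Module.Finite L V]

/-- complex roots of the characteristic polynomial are roots of all annihilating polynomials -/
lemma root_of_aeval (φ : Module.End L V) (σ : L →+* ℂ) {z : ℂ}
    (hz : (φ.charpoly.map σ).IsRoot z) {P : L[X]} (hP : aeval φ P = 0) :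
    (P.map σ).IsRoot z := by
  classical
  set b := Module.finBasis L V
  set M := LinearMap.toMatrix b b φ with hM
  have hc : φ.charpoly = M.charpoly := (LinearMap.charpoly_toMatrix φ b).symm
  rw [hc, ← Matrix.charpoly_map] at hz
  have hsp : z ∈ spectrum ℂ (M.map σ) := Matrix.mem_spectrum_iff_isRoot_charpoly.mpr hz
  have hPM : aeval M P = 0 := by
    have h1 : aeval ((LinearMap.toMatrixAlgEquiv b).toAlgHom φ) P =
        (LinearMap.toMatrixAlgEquiv b).toAlgHom (aeval φ P) := Polynomial.aeval_algHom_apply _ _ _
    rw [hP, map_zero] at h1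
    exact h1
  have h4 : aeval (M.map σ) (P.map σ) = 0 := by
    have h5 : (σ.mapMatrix : Matrix _ _ L →+* Matrix _ _ ℂ) (aeval M P) =
        aeval (M.map σ) (P.map σ) := by
      rw [aeval_def, aeval_def, eval₂_map, Polynomial.hom_eval₂]
      congr 1
      ext x i j
      simp only [RingHom.coe_comp, Function.comp_apply, RingHom.mapMatrix_apply, Matrix.map_apply,
        Matrix.algebraMap_matrix_apply, Algebra.algebraMap_self, RingHom.id_apply]
      split_ifs
      · rfl
      · exact map_zero σ
    rw [← h5, hPM, map_zero]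
  have h5 := spectrum.subset_polynomial_aeval (M.map σ) (P.map σ) ⟨z, hsp, rfl⟩
  rw [h4] at h5
  have hne : Nonempty (Fin (finrank L V)) := by
    by_contra hne
    rw [not_nonempty_iff] at hne
    have : spectrum ℂ (M.map σ) = ∅ := by
      have hs : Subsingleton (Matrix (Fin (finrank L V)) (Fin (finrank L V)) ℂ) := by
        infer_instance
      exact spectrum.of_subsingleton _
    rw [this] at hsp
    exact hsp
  rw [spectrum.zero_eq] at h5
  simpa using h5

/-- the characteristic polynomial and invariant complements -/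
lemma charpoly_compl (φ : Module.End L V) {V1 W : Submodule L V} (h : IsCompl V1 W)
    (h1 : ∀ x ∈ V1, φ x ∈ V1) (h2 : ∀ x ∈ W, φ x ∈ W) :
    φ.charpoly = (φ.restrict h1).charpoly * (φ.restrict h2).charpoly := by
  let e := Submodule.prodEquivOfIsCompl V1 W h
  have hψ : (φ.restrict h1).prodMap (φ.restrict h2) = e.symm.conj φ := by
    apply LinearMap.ext
    rintro ⟨x, y⟩
    rw [LinearEquiv.conj_apply]
    simp only [LinearMap.comp_apply, LinearEquiv.coe_coe, LinearEquiv.symm_symm]
    rw [LinearEquiv.eq_symm_apply]
    simp [e]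
  rw [← e.symm.charpoly_conj φ, ← hψ, LinearMap.charpoly_prodMap]

omit [Module.Finite L V] in
lemma aeval_restrict_apply (φ : Module.End L V) {V1 : Submodule L V} (h1 : ∀ x ∈ V1, φ x ∈ V1)
    (P : L[X]) (x : V1) : ((aeval (φ.restrict h1) P x : V1) : V) = aeval φ P (x : V) := by
  have hpow : ∀ (n : ℕ) (x : V1), ((((φ.restrict h1) ^ n) x : V1) : V) = (φ ^ n) (x : V) := by
    intro n
    induction n with
    | zero => intro x; rfl
    | succ n ih =>
      intro x
      rw [pow_succ, pow_succ, Module.End.mul_apply, Module.End.mul_apply, ih]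
      rfl
  induction P using Polynomial.induction_on' with
  | add p q hp hq =>
    rw [map_add, map_add, LinearMap.add_apply, LinearMap.add_apply, Submodule.coe_add, hp, hq]
  | monomial n a =>
    rw [aeval_monomial, aeval_monomial, Module.End.mul_apply, Module.End.mul_apply,
      Module.algebraMap_end_apply, Module.algebraMap_end_apply, Submodule.coe_smul, hpow]

end charpoly

section division

variable {L D V : Type*} [Field L] [DivisionRing D] [Algebra L D] [AddCommGroup V] [Module D V]
  [Module L V] [IsScalarTower L D V] [Module.Finite L V]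

/-- the characteristic polynomial over `L` of a `D`-linear map -/
noncomputable def cp (L : Type*) {D V : Type*} [Field L] [DivisionRing D] [Algebra L D]
    [AddCommGroup V] [Module D V] [Module L V] [IsScalarTower L D V] [Module.Finite L V]
    (g : V →ₗ[D] V) : L[X] := LinearMap.charpoly (g.restrictScalars L)

lemma cp_monic (g : V →ₗ[D] V) : (cp L g).Monic := LinearMap.charpoly_monic _

lemma cp_natDegree (g : V →ₗ[D] V) : (cp L g).natDegree = finrank L V :=
  LinearMap.charpoly_natDegree _

/-- a nonzero subspace which is invariant under `D` has dimension a multiple of that of `D` -/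
lemma dim_dvd {V1 : Submodule L V} (hne : V1 ≠ ⊥) (h : ∀ (d : D), ∀ x ∈ V1, d • x ∈ V1) :
    finrank L D ∣ finrank L V1 ∧ 0 < finrank L V1 := by
  let W : Submodule D V :=
    { carrier := V1
      add_mem' := fun {a b} ha hb => V1.add_mem ha hb
      zero_mem' := V1.zero_mem
      smul_mem' := fun d x hx => h d x hx }
  have hW : W.restrictScalars L = V1 := by
    ext x
    rfl
  have h1 : finrank L (W.restrictScalars L) = finrank L W := rfl
  have h2 : finrank L D * finrank D W = finrank L W := Module.finrank_mul_finrank L D W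
  constructor
  · rw [← hW, h1, ← h2]
    exact dvd_mul_right _ _
  · have hnt : Nontrivial V1 := (Submodule.nontrivial_iff_ne_bot).mpr hne
    exact finrank_pos

/-- each primary component of a `D`-linear map has dimension at least that of `D` -/
theorem prim_dvd (g : V →ₗ[D] V) (q : L[X]) (hq : Irreducible q) (σ : L →+* ℂ) (z : ℂ)
    (hzq : (q.map σ).IsRoot z) (hz : ((cp L g).map σ).IsRoot z) :
    ∃ χ1 : L[X], χ1.Monic ∧ χ1 ∣ cp L g ∧ finrank L D ∣ χ1.natDegree ∧ 0 < χ1.natDegree ∧
      ∀ (τ : L →+* ℂ) (y : ℂ), (χ1.map τ).IsRoot y → (q.map τ).IsRoot y := by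
  classical
  set φ : Module.End L V := g.restrictScalars L with hφ
  set ψ : Module.End L V := aeval φ q with hψ
  have hcomm : Commute φ ψ := by
    have h1 : φ * ψ = aeval φ (X * q) := by rw [map_mul, aeval_X]
    have h2 : ψ * φ = aeval φ (q * X) := by rw [map_mul, aeval_X]
    rw [commute_iff_eq, h1, h2, mul_comm]
  have hcompl := ψ.isCompl_iSup_ker_pow_iInf_range_pow
  obtain ⟨N, hN⟩ := Filter.eventually_atTop.mp ψ.eventually_iSup_ker_pow_eq
  have hN' := hN N le_rfl
  set V1 : Submodule L V := ⨆ n, LinearMap.ker (ψ ^ n) with hV1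
  set W : Submodule L V := ⨅ n, LinearMap.range (ψ ^ n) with hW
  have h1 : ∀ x ∈ V1, φ x ∈ V1 := by
    intro x hx
    rw [hN', LinearMap.mem_ker] at hx ⊢
    have h2 : (ψ ^ N) (φ x) = φ ((ψ ^ N) x) := by
      have := (hcomm.pow_right N).eq
      exact (LinearMap.congr_fun this x).symm
    rw [h2, hx, map_zero]
  have h2 : ∀ x ∈ W, φ x ∈ W := by
    intro x hx
    rw [hW, Submodule.mem_iInf] at hx ⊢
    intro n
    obtain ⟨y, hy⟩ := hx n
    refine ⟨φ y, ?_⟩
    have h2 : (ψ ^ n) (φ y) = φ ((ψ ^ n) y) := by
      have := (hcomm.pow_right n).eq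
      exact (LinearMap.congr_fun this y).symm
    rw [h2, hy]
  -- the component is not zero
  have hne : V1 ≠ ⊥ := by
    intro hbot
    have hinj : LinearMap.ker ψ = ⊥ := by
      rw [eq_bot_iff, ← hbot]
      have := le_iSup (fun n => LinearMap.ker (ψ ^ n)) 1
      simpa using this
    have hroot : ((minpoly L φ).map σ).IsRoot z := root_of_aeval φ σ hz (minpoly.aeval L φ)
    have hdvd : q ∣ minpoly L φ := by
      by_contra hnd
      obtain ⟨a, b, hab⟩ := (hq.coprime_iff_not_dvd).mpr hnd
      have h3 := congrArg (fun P => eval z (P.map σ)) hab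
      simp only [Polynomial.map_add, Polynomial.map_mul, eval_add, eval_mul, Polynomial.map_one,
        eval_one] at h3
      rw [IsRoot.def] at hroot hzq
      rw [hroot, hzq, mul_zero, mul_zero, add_zero] at h3
      exact zero_ne_one h3
    obtain ⟨r, hr⟩ := hdvd
    have h3 : aeval φ r = 0 := by
      have h4 : ψ * aeval φ r = 0 := by
        rw [hψ, ← map_mul, ← hr, minpoly.aeval]
      apply LinearMap.ext
      intro x
      have h5 : ψ (aeval φ r x) = 0 := LinearMap.congr_fun h4 x
      have h6 : aeval φ r x ∈ LinearMap.ker ψ := h5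
      rw [hinj, Submodule.mem_bot] at h6
      exact h6
    have h4 := minpoly.dvd L φ h3
    have hint : IsIntegral L φ := Algebra.IsIntegral.isIntegral φ
    have hr0 : r ≠ 0 := by
      rintro rfl
      rw [mul_zero] at hr
      exact minpoly.ne_zero hint hr
    rw [hr] at h4
    have h5 : q ∣ 1 := by
      have : q * r ∣ 1 * r := by rwa [one_mul]
      exact (mul_dvd_mul_iff_right hr0).mp this
    exact hq.not_isUnit (isUnit_of_dvd_one h5)
  -- invariance under `D`
  have hD : ∀ (d : D), ∀ x ∈ V1, d • x ∈ V1 := by
    intro d x hx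
    have : SMulCommClass D L V := IsScalarTower.to_smulCommClass'
    let δ : Module.End L V :=
      { toFun := fun x => d • x
        map_add' := fun x y => smul_add d x y
        map_smul' := fun a x => smul_comm d a x }
    have hδ : φ ∈ Subalgebra.centralizer L {δ} := by
      rw [Subalgebra.mem_centralizer_iff]
      intro f hf
      rw [Set.mem_singleton_iff] at hf
      subst hf
      apply LinearMap.ext
      intro y
      exact (map_smul g d y).symm
    have hδ2 : ψ ^ N ∈ Subalgebra.centralizer L {δ} := by
      have h3 : Algebra.adjoin L {φ} ≤ Subalgebra.centralizer L {δ} :=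
        Algebra.adjoin_le (Set.singleton_subset_iff.mpr hδ)
      apply h3
      rw [hψ]
      exact pow_mem (aeval_mem_adjoin_singleton L φ) N
    rw [Subalgebra.mem_centralizer_iff] at hδ2
    have h3 := LinearMap.congr_fun (hδ2 δ (Set.mem_singleton _)) x
    rw [hN', LinearMap.mem_ker] at hx ⊢
    change d • ((ψ ^ N) x) = (ψ ^ N) (d • x) at h3
    rw [← h3, hx, smul_zero]
  refine ⟨LinearMap.charpoly (φ.restrict h1), LinearMap.charpoly_monic _, ?_, ?_, ?_, ?_⟩
  · unfold cp
    rw [charpoly_compl φ hcompl h1 h2]
    exact dvd_mul_right _ _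
  · rw [LinearMap.charpoly_natDegree]
    exact (dim_dvd hne hD).1
  · rw [LinearMap.charpoly_natDegree]
    exact (dim_dvd hne hD).2
  · intro τ y hy
    have h3 : aeval (φ.restrict h1) (q ^ N) = 0 := by
      apply LinearMap.ext
      intro x
      apply Subtype.ext
      rw [aeval_restrict_apply, map_pow, ← hψ]
      have hx : (x : V) ∈ LinearMap.ker (ψ ^ N) := (SetLike.ext_iff.mp hN' (x : V)).mp x.2
      exact LinearMap.mem_ker.mp hx
    have h4 := root_of_aeval (φ.restrict h1) τ hy h3
    rw [Polynomial.map_pow, IsRoot.def, eval_pow] at h4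
    rw [IsRoot.def]
    by_contra h5
    exact pow_ne_zero N h5 h4

end division

end Pool.Agent.J4H57.TD
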