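import Pool.Agent.J4H57.TD.DA

/-!
# Dependent conjugate roots and components of linear maps over division algebras
-/

set_option autoImplicit false

open Finset NumberField Module Polynomial

namespace Pool.Agent.J4H57.TD

open Pool.Agent.H388SL Pool.Agent.H225R3.Marg Pool.Agent.Y399.MG

/-- if `Z` is not a root of unity and `Z ^ u (g Z) ^ v = 1` for an automorphism `g` such that the
orbit of `Z` is finite, then `|u| = |v|` -/
lemma natAbs_eq_of_aut {E : Type*} [Field E] (g : RingAut E) (Z : E) (hZ0 : Z ≠ 0)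
    (htor : ∀ N : ℕ, 0 < N → Z ^ N ≠ 1) (T : Set E) (hT : T.Finite) (horb : ∀ m : ℕ, (g ^ m) Z ∈ T)
    {u v : ℤ} (h : Z ^ u * (g Z) ^ v = 1) : u.natAbs = v.natAbs := by
  have hind : ∀ m : ℕ, ((g ^ m) Z) ^ (v ^ m) = Z ^ ((-u) ^ m) := by
    intro m
    induction m with
    | zero => simp
    | succ m ih =>
      have h1 : ((g ^ (m + 1)) Z) ^ (v ^ m) = (g Z) ^ ((-u) ^ m) := by
        have h2 := congrArg g ih
        rw [map_zpow₀, map_zpow₀] at h2
        rw [pow_succ']
        exact h2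
      have h3 : (g Z) ^ v = Z ^ (-u) := by
        rw [zpow_neg]
        exact eq_inv_of_mul_eq_one_right h
      rw [pow_succ v, zpow_mul, h1, ← zpow_mul, mul_comm, zpow_mul, h3, ← zpow_mul, pow_succ,
        mul_comm]
  obtain ⟨i, j, hij, hgij⟩ : ∃ i j : ℕ, i < j ∧ (g ^ i) Z = (g ^ j) Z := by
    have : Finite T := hT
    obtain ⟨i, j, hne, heq⟩ := Finite.exists_ne_map_eq_of_infinite
      (fun m : ℕ => (⟨(g ^ m) Z, horb m⟩ : T))
    have heq' : (g ^ i) Z = (g ^ j) Z := congrArg Subtype.val heq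
    rcases lt_or_gt_of_ne hne with h1 | h1
    · exact ⟨i, j, h1, heq'⟩
    · exact ⟨j, i, h1, heq'.symm⟩
  set m := j - i with hm
  have hm0 : 0 < m := by omega
  have hfix : (g ^ m) Z = Z := by
    have h1 : j = i + m := by omega
    rw [h1, pow_add] at hgij
    have h2 : (g ^ i) Z = (g ^ i) ((g ^ m) Z) := hgij
    exact ((g ^ i).injective h2).symm
  have h1 := hind m
  rw [hfix] at h1
  have h2 : Z ^ (v ^ m - (-u) ^ m) = 1 := by
    rw [zpow_sub₀ hZ0, h1, div_self (zpow_ne_zero _ hZ0)]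
  have h3 : v ^ m - (-u) ^ m = 0 := by
    by_contra h4
    have h5 : Z ^ (v ^ m - (-u) ^ m).natAbs = 1 := by
      rcases Int.natAbs_eq (v ^ m - (-u) ^ m) with h6 | h6
      · rw [h6, zpow_natCast] at h2
        exact h2
      · rw [h6, zpow_neg, zpow_natCast, inv_eq_one] at h2
        exact h2
    exact htor _ (Int.natAbs_pos.mpr h4) h5
  have h4 : (v ^ m).natAbs = ((-u) ^ m).natAbs := by
    rw [sub_eq_zero.mp h3]
  rw [Int.natAbs_pow, Int.natAbs_pow, Int.natAbs_neg] at h4
  exact (Nat.pow_left_injective hm0.ne' h4).symm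

/-- conjugate and dependent numbers have equal absolute values up to inversion -/
theorem log_eq_of_rel {L : Type} [Field L] (σ : L →+* ℂ) (q : L[X]) (hq : Irreducible q)
    (z y : ℂ) (hz : (q.map σ).IsRoot z) (hy : (q.map σ).IsRoot y) (hz0 : z ≠ 0) (hy0 : y ≠ 0)
    (htor : ∀ N : ℕ, 0 < N → z ^ N ≠ 1) {u v : ℤ} (huv : u ≠ 0 ∨ v ≠ 0)
    (h : z ^ u * y ^ v = 1) :
    Real.log ‖y‖ = Real.log ‖z‖ ∨ Real.log ‖y‖ = - Real.log ‖z‖ := by
  classical
  let _ : Algebra L ℂ := σ.toAlgebra
  have hσ : algebraMap L ℂ = σ := rfl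
  set Ω := algebraicClosure L ℂ with hΩ
  have hzq : aeval z q = 0 := by
    rw [aeval_def, ← eval_map, hσ]
    exact hz
  have hyq : aeval y q = 0 := by
    rw [aeval_def, ← eval_map, hσ]
    exact hy
  have hza : z ∈ Ω := mem_algebraicClosure_iff.mpr ⟨q, hq.ne_zero, hzq⟩
  have hya : y ∈ Ω := mem_algebraicClosure_iff.mpr ⟨q, hq.ne_zero, hyq⟩
  let Z : Ω := ⟨z, hza⟩
  let Y : Ω := ⟨y, hya⟩
  have hinst : IsAlgClosure L Ω := algebraicClosure.isAlgClosure L ℂ
  have hn : Normal L Ω := IsAlgClosure.normal L Ω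
  have hZ : aeval Z q = 0 := by
    apply Subtype.val_injective
    change Ω.val (aeval Z q) = Ω.val 0
    rw [← Polynomial.aeval_algHom_apply, map_zero]
    exact hzq
  have hY : aeval Y q = 0 := by
    apply Subtype.val_injective
    change Ω.val (aeval Y q) = Ω.val 0
    rw [← Polynomial.aeval_algHom_apply, map_zero]
    exact hyq
  have hZa : IsAlgebraic L Z := ⟨q, hq.ne_zero, hZ⟩
  obtain ⟨g, hg⟩ : ∃ g : Ω ≃ₐ[L] Ω, g Z = Y := by
    apply minpoly.exists_algEquiv_of_root' hZa
    have h1 : minpoly L Z ∣ q := minpoly.dvd L Z hZ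
    have h2 : q ∣ minpoly L Z := by
      have hnu : ¬ IsUnit (minpoly L Z) := minpoly.not_isUnit L Z
      obtain ⟨r, hr⟩ := h1
      rcases hq.isUnit_or_isUnit hr with h3 | h3
      · exact absurd h3 hnu
      · obtain ⟨w, hw⟩ := h3
        rw [hr, ← hw]
        exact (Units.mul_right_dvd).mpr dvd_rfl
    obtain ⟨r, hr⟩ := h2
    rw [hr, map_mul, hY, zero_mul]
  -- the relation
  have hZ0 : Z ≠ 0 := fun h1 => hz0 (congrArg Subtype.val h1)
  have hcoe : ∀ (x : Ω) (n : ℤ), ((x ^ n : Ω) : ℂ) = (x : ℂ) ^ n := fun x n =>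
    map_zpow₀ (algebraMap Ω ℂ) x n
  have hrel : Z ^ u * ((g : RingAut Ω) Z) ^ v = 1 := by
    have h1 : ((g : RingAut Ω) Z) = Y := hg
    rw [h1]
    apply Subtype.val_injective
    change ((Z ^ u : Ω) : ℂ) * ((Y ^ v : Ω) : ℂ) = 1
    rw [hcoe, hcoe]
    exact h
  have htor' : ∀ N : ℕ, 0 < N → Z ^ N ≠ 1 := by
    intro N hN h1
    exact htor N hN (congrArg Subtype.val h1)
  have horb : ∀ m : ℕ, (((g : RingAut Ω) ^ m) Z) ∈ {x : Ω | aeval x q = 0} := by
    intro m
    induction m with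
    | zero => exact hZ
    | succ m ih =>
      rw [pow_succ']
      have h1 : aeval (((g : RingAut Ω) ^ m) Z) q = 0 := ih
      have h2 : aeval (g (((g : RingAut Ω) ^ m) Z)) q = 0 := by
        have h3 := Polynomial.aeval_algHom_apply (g : Ω →ₐ[L] Ω) (((g : RingAut Ω) ^ m) Z) q
        rw [h1, map_zero] at h3
        exact h3
      exact h2
  have hfin : {x : Ω | aeval x q = 0}.Finite := by
    have h1 : {x : Ω | aeval x q = 0} ⊆ (q.rootSet Ω) := by
      intro x hx
      rw [mem_rootSet]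
      exact ⟨hq.ne_zero, hx⟩
    exact (rootSet_finite q Ω).subset h1
  have habs := natAbs_eq_of_aut (g : RingAut Ω) Z hZ0 htor' _ hfin horb hrel
  -- logarithms
  have hlog : (u : ℝ) * Real.log ‖z‖ + (v : ℝ) * Real.log ‖y‖ = 0 := by
    have h1 := congrArg (fun w : ℂ => Real.log ‖w‖) h
    simp only [norm_mul, norm_zpow, norm_one, Real.log_one] at h1
    rw [Real.log_mul (zpow_ne_zero _ (norm_ne_zero_iff.mpr hz0))
      (zpow_ne_zero _ (norm_ne_zero_iff.mpr hy0)), Real.log_zpow, Real.log_zpow] at h1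
    exact h1
  have hu0 : u ≠ 0 := by
    intro hu
    rw [hu, Int.natAbs_zero] at habs
    rcases huv with h1 | h1
    · exact h1 hu
    · exact h1 (Int.natAbs_eq_zero.mp habs.symm)
  have hu0' : (u : ℝ) ≠ 0 := by exact_mod_cast hu0
  rcases Int.natAbs_eq_natAbs_iff.mp habs with h1 | h1
  · right
    rw [← h1] at hlog
    have h2 : (u : ℝ) * (Real.log ‖z‖ + Real.log ‖y‖) = 0 := by linarith
    rcases mul_eq_zero.mp h2 with h3 | h3
    · exact absurd h3 hu0'
    · linarith
  · left
    have h4 : v = - u := by omega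
    rw [h4] at hlog
    push_cast at hlog
    have h2 : (u : ℝ) * (Real.log ‖z‖ - Real.log ‖y‖) = 0 := by linarith
    rcases mul_eq_zero.mp h2 with h3 | h3
    · exact absurd h3 hu0'
    · linarith

/-- numbers `± ℓ` with sum zero are even in number -/
lemma even_card {ℓ : ℝ} (hℓ : ℓ ≠ 0) (s : Multiset ℝ) (h : ∀ x ∈ s, x = ℓ ∨ x = -ℓ)
    (hs : s.sum = 0) : Even (Multiset.card s) := by
  have key : ∀ s : Multiset ℝ, (∀ x ∈ s, x = ℓ ∨ x = -ℓ) →
      ∃ t : ℤ, s.sum = t * ℓ ∧ Even (t + (Multiset.card s : ℤ)) := by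
    intro s
    induction s using Multiset.induction with
    | empty => intro _; exact ⟨0, by simp⟩
    | cons a s ih =>
      intro h1
      obtain ⟨t, ht, hev⟩ := ih fun x hx => h1 x (Multiset.mem_cons_of_mem hx)
      rcases h1 a (Multiset.mem_cons_self a s) with h2 | h2
      · refine ⟨t + 1, ?_, ?_⟩
        · rw [Multiset.sum_cons, ht, h2]; push_cast; ring
        · rw [Multiset.card_cons]
          push_cast
          have : t + 1 + ((Multiset.card s : ℤ) + 1) = (t + (Multiset.card s : ℤ)) + 2 := by ring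
          rw [this]
          exact hev.add (by decide)
      · refine ⟨t - 1, ?_, ?_⟩
        · rw [Multiset.sum_cons, ht, h2]; push_cast; ring
        · rw [Multiset.card_cons]
          push_cast
          have : t - 1 + ((Multiset.card s : ℤ) + 1) = (t + (Multiset.card s : ℤ)) := by ring
          rw [this]
          exact hev
  obtain ⟨t, ht, hev⟩ := key s h
  rw [hs] at ht
  have ht0 : (t : ℝ) = 0 := by
    rcases mul_eq_zero.mp ht.symm with h1 | h1
    · exact h1
    · exact absurd h1 hℓ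
  have ht0' : t = 0 := by exact_mod_cast ht0
  rw [ht0', zero_add] at hev
  exact_mod_cast hev

/-- the product of the roots is the constant coefficient up to sign -/
lemma even_degree {ℓ : ℝ} (hℓ : ℓ ≠ 0) (P : ℂ[X]) (hP : P.Monic)
    (h : ∀ y, P.IsRoot y → y ≠ 0 ∧ (Real.log ‖y‖ = ℓ ∨ Real.log ‖y‖ = -ℓ))
    (h0 : ‖P.coeff 0‖ = 1) : Even P.natDegree := by
  have hsplit := IsAlgClosed.splits P
  have hcard : Multiset.card P.roots = P.natDegree := splits_iff_card_roots.mp hsplit
  have hprod : P.coeff 0 = (-1) ^ P.natDegree * P.roots.prod := by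
    exact hsplit.coeff_zero_eq_prod_roots_of_monic hP
  have hroots : ∀ y ∈ P.roots, y ≠ 0 ∧ (Real.log ‖y‖ = ℓ ∨ Real.log ‖y‖ = -ℓ) := fun y hy =>
    h y (mem_roots'.mp hy).2
  have hsum : (P.roots.map fun y => Real.log ‖y‖).sum = 0 := by
    have h1 : ∀ s : Multiset ℂ, (∀ y ∈ s, y ≠ 0) →
        (s.map fun y => Real.log ‖y‖).sum = Real.log ‖s.prod‖ := by
      intro s
      induction s using Multiset.induction with
      | empty => intro _; simp
      | cons a s ih =>
        intro h2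
        have h3 : s.prod ≠ 0 := by
          rw [Ne, Multiset.prod_eq_zero_iff]
          intro h4
          exact h2 0 (Multiset.mem_cons_of_mem h4) rfl
        rw [Multiset.map_cons, Multiset.sum_cons, Multiset.prod_cons, norm_mul,
          Real.log_mul (norm_ne_zero_iff.mpr (h2 a (Multiset.mem_cons_self a s)))
            (norm_ne_zero_iff.mpr h3), ih fun y hy => h2 y (Multiset.mem_cons_of_mem hy)]
    rw [h1 _ fun y hy => (hroots y hy).1]
    rw [hprod, norm_mul, norm_pow, norm_neg, norm_one, one_pow, one_mul] at h0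
    rw [h0, Real.log_one]
  have h2 := even_card hℓ (P.roots.map fun y => Real.log ‖y‖) (by
    intro x hx
    obtain ⟨y, hy, rfl⟩ := Multiset.mem_map.mp hx
    exact (hroots y hy).2) hsum
  rw [Multiset.card_map, hcard] at h2
  exact h2

end Pool.Agent.J4H57.TD
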