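import Pool.Agent.J4H57.TD.DB

/-!
# Small eigenvalues of linear maps over division algebras
-/

set_option autoImplicit false

open Finset NumberField Module Polynomial

namespace Pool.Agent.J4H57.TD

open Pool.Agent.H388SL Pool.Agent.H225R3.Marg Pool.Agent.Y399.MG

/-- The coefficients of `P` are algebraic integers, and the constant coefficient is a unit of the
ring of all algebraic integers. -/
def UnitPoly {L : Type*} [Field L] (P : L[X]) : Prop :=
  (∀ i, IsIntegral ℤ (P.coeff i)) ∧ P.coeff 0 ≠ 0 ∧ IsIntegral ℤ (P.coeff 0)⁻¹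

lemma isIntegral_map {L : Type*} [Field L] (σ : L →+* ℂ) {x : L} (h : IsIntegral ℤ x) :
    IsIntegral ℤ (σ x) := by
  have := h.map σ.toIntAlgHom
  exact this

lemma isIntegral_eval {P : ℂ[X]} (hP : ∀ i, IsIntegral ℤ (P.coeff i)) {z : ℂ}
    (hz : IsIntegral ℤ z) : IsIntegral ℤ (P.eval z) := by
  rw [eval_eq_sum_range]
  exact IsIntegral.sum _ fun i _ => (hP i).mul (hz.pow i)

lemma isIntegral_root {P : ℂ[X]} (hP : ∀ i, IsIntegral ℤ (P.coeff i)) (hm : P.Monic) {z : ℂ}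
    (hz : P.IsRoot z) : IsIntegral ℤ z := by
  have h1 : P ∈ lifts (algebraMap (integralClosure ℤ ℂ) ℂ) := by
    rw [lifts_iff_coeff_lifts]
    intro i
    exact ⟨⟨P.coeff i, hP i⟩, rfl⟩
  obtain ⟨Q, hQ, _, hQm⟩ := lifts_and_natDegree_eq_and_monic h1 hm
  have h2 : IsIntegral (integralClosure ℤ ℂ) z := by
    refine ⟨Q, hQm, ?_⟩
    rw [← eval_map, hQ]
    exact hz
  exact isIntegral_trans (R := ℤ) z h2

lemma unit_root {L : Type*} [Field L] {P : L[X]} (hP : P.Monic) (hU : UnitPoly P) (σ : L →+* ℂ)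
    {z : ℂ} (hz : (P.map σ).IsRoot z) : IsUnitZ z := by
  obtain ⟨h1, h2, h3⟩ := hU
  have hc : ∀ i, IsIntegral ℤ ((P.map σ).coeff i) := fun i => by
    rw [coeff_map]
    exact isIntegral_map σ (h1 i)
  have hzi := isIntegral_root hc (hP.map σ) hz
  have ha : σ (P.coeff 0) ≠ 0 := (map_ne_zero σ).mpr h2
  have hdiv : (P.map σ).divX.eval z * z + σ (P.coeff 0) = 0 := by
    have h4 := congrArg (eval z) (divX_mul_X_add (P.map σ))
    rw [eval_add, eval_mul, eval_X, eval_C, coeff_map] at h4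
    rw [h4]
    exact hz
  have hz0 : z ≠ 0 := by
    rintro rfl
    rw [mul_zero, zero_add] at hdiv
    exact ha hdiv
  refine ⟨hz0, hzi, ?_⟩
  have h5 : z⁻¹ = - ((P.map σ).divX.eval z) * (σ (P.coeff 0))⁻¹ := by
    have h6 : - ((P.map σ).divX.eval z) * z = σ (P.coeff 0) := by linear_combination -hdiv
    rw [← h6, mul_inv, ← mul_assoc, mul_inv_cancel₀, one_mul]
    intro h7
    rw [h7, zero_mul] at h6
    exact ha h6.symm
  rw [h5, ← map_inv₀]
  refine IsIntegral.mul (IsIntegral.neg (isIntegral_eval ?_ hzi)) (isIntegral_map σ h3)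
  intro i
  rw [coeff_divX]
  exact hc (i + 1)

section

variable {L D V : Type*} [Field L] [DivisionRing D] [Algebra L D] [AddCommGroup V] [Module D V]
  [Module L V] [IsScalarTower L D V] [Module.Finite L V]

/-- restriction of scalars for endomorphisms -/
def resHom (L : Type*) {D V : Type*} [Field L] [DivisionRing D] [Algebra L D] [AddCommGroup V]
    [Module D V] [Module L V] [IsScalarTower L D V] : Module.End D V →+* Module.End L V where
  toFun f := f.restrictScalars L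
  map_one' := rfl
  map_mul' _ _ := rfl
  map_zero' := rfl
  map_add' _ _ := rfl

lemma nilp_of_cp_roots (σ : L →+* ℂ) (g : Module.End D V)
    (h : ∀ z : ℂ, ((cp L g).map σ).IsRoot z → ∃ N : ℕ, 0 < N ∧ z ^ N = 1) :
    ∃ N : ℕ, 0 < N ∧ IsNilpotent (g ^ N - 1) := by
  classical
  set φ : Module.End L V := resHom L g with hφ
  set b := Module.finBasis L V
  set e := LinearMap.toMatrixAlgEquiv b
  have hc : cp L g = (e φ).charpoly := (LinearMap.charpoly_toMatrix φ b).symm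
  rw [hc] at h
  obtain ⟨N, hN, m, hm⟩ := nilp_of_roots σ σ.injective (e φ) h
  refine ⟨N, hN, m, ?_⟩
  have h1 : e ((φ ^ N - 1) ^ m) = 0 := by
    rw [map_pow, map_sub, map_pow, map_one]
    exact hm
  have h2 : (φ ^ N - 1) ^ m = 0 := by
    apply e.injective
    rw [h1, map_zero]
  have h3 : resHom L ((g ^ N - 1) ^ m) = 0 := by
    rw [map_pow, map_sub, map_pow, map_one]
    exact h2
  apply LinearMap.ext
  intro x
  exact LinearMap.congr_fun h3 x

end

/-- **Small eigenvalues of a linear map over a division algebra.** -/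
theorem component (s n : ℕ) : ∃ c : ℝ, 0 < c ∧ ∀ (L D V : Type) [Field L] [NumberField L]
    [DivisionRing D] [Algebra L D] [AddCommGroup V] [Module D V] [Module L V]
    [IsScalarTower L D V] [Module.Finite L V] (S : Finset (L →+* ℂ)) (g : Module.End D V),
    S.card ≤ s → finrank L V ≤ n → UnitPoly (cp L g) →
    (∀ σ, σ ∉ S → ∀ z : ℂ, ((cp L g).map σ).IsRoot z → ‖z‖ = 1) →
    (∀ N : ℕ, 0 < N → ¬ IsNilpotent (g ^ N - 1)) →
    (∀ σ ∈ S, ∀ z : ℂ, ((cp L g).map σ).IsRoot z → ‖z‖ < (1 + finrank ℚ L : ℝ) ^ c) →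
    ∃ σ ∈ S, ∃ χ : L[X], χ.Monic ∧ χ ∣ cp L g ∧ finrank L D ∣ χ.natDegree ∧ 0 < χ.natDegree ∧
      ∃ ℓ : ℝ, ℓ ≠ 0 ∧ ∀ y : ℂ, (χ.map σ).IsRoot y →
        y ≠ 0 ∧ (Real.log ‖y‖ = ℓ ∨ Real.log ‖y‖ = -ℓ) := by
  classical
  obtain ⟨c, hc, hdep⟩ := dep_poly s n 1
  refine ⟨c, hc, ?_⟩
  intro L D V _ _ _ _ _ _ _ _ _ S g hS hn hU hout hnil hsm
  have hmon := cp_monic (L := L) g
  have hroot := fun (σ : L →+* ℂ) (z : ℂ) (hz : ((cp L g).map σ).IsRoot z) =>
    unit_root hmon hU σ hz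
  have hpos : (1 : ℝ) < (1 + finrank ℚ L : ℝ) ^ c := by
    have h1 : (1 : ℝ) ≤ finrank ℚ L := by exact_mod_cast (finrank_pos : 0 < finrank ℚ L)
    exact Real.one_lt_rpow (by linarith) hc
  have hsm' : ∀ σ, ∀ z : ℂ, ((cp L g).map σ).IsRoot z → ‖z‖ < (1 + finrank ℚ L : ℝ) ^ c := by
    intro σ z hz
    by_cases hσ : σ ∈ S
    · exact hsm σ hσ z hz
    · rw [hout σ hσ z hz]
      exact hpos
  -- a root which is not a root of unity
  obtain ⟨σ₀⟩ : Nonempty (L →+* ℂ) := inferInstance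
  have h1 : ∃ z : ℂ, ((cp L g).map σ₀).IsRoot z ∧ ∀ N : ℕ, 0 < N → z ^ N ≠ 1 := by
    by_contra hcon
    push Not at hcon
    obtain ⟨N, hN, h2⟩ := nilp_of_cp_roots σ₀ g hcon
    exact hnil N hN h2
  obtain ⟨z₀, hz₀, htor₀⟩ := h1
  obtain ⟨σ, z, hz, hz1, htor⟩ := exists_off_root (cp L g) hmon hroot σ₀ z₀ hz₀ htor₀
  have hσ : σ ∈ S := by
    by_contra h2
    exact hz1 (hout σ h2 z hz)
  obtain ⟨hz0, hzi, _⟩ := hroot σ z hz
  -- the minimal polynomial
  obtain ⟨q, hq, hzq⟩ : ∃ q : L[X], Irreducible q ∧ (q.map σ).IsRoot z := by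
    let _ : Algebra L ℂ := σ.toAlgebra
    have hza : IsIntegral L z := ⟨cp L g, hmon, by rw [← eval_map]; exact hz⟩
    refine ⟨minpoly L z, minpoly.irreducible hza, ?_⟩
    have h2 := minpoly.aeval L z
    rw [aeval_def, ← eval_map] at h2
    exact h2
  obtain ⟨χ, hχ, hdvd, hfin, hdeg, hχr⟩ := prim_dvd g q hq σ z hzq hz
  have hlz : Real.log ‖z‖ ≠ 0 := by
    have h2 : 0 < ‖z‖ := norm_pos_iff.mpr hz0
    intro h3
    rcases Real.log_eq_zero.mp h3 with h4 | h4 | h4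
    · exact h2.ne' h4
    · exact hz1 h4
    · linarith
  refine ⟨σ, hσ, χ, hχ, hdvd, hfin, hdeg, Real.log ‖z‖, hlz, ?_⟩
  intro y hy
  have hyq := hχr σ y hy
  have hyP : ((cp L g).map σ).IsRoot y := hy.dvd (Polynomial.map_dvd σ hdvd)
  obtain ⟨hy0, _, _⟩ := hroot σ y hyP
  refine ⟨hy0, ?_⟩
  obtain ⟨u, v, huv, hrel⟩ := hdep L L S S (cp L g) (cp L g) hmon hmon
    (by rw [cp_natDegree]; exact hn) (by rw [cp_natDegree]; exact hn) hS hS hroot hroot hout hout
    hsm' hsm' σ σ (by rw [one_mul]; exact (pairDeg_self σ).le)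
    (by rw [one_mul]; exact (pairDeg_self σ).le) z y hz hyP
  exact log_eq_of_rel σ q hq z y hzq hyq hz0 hy0 htor huv hrel

end Pool.Agent.J4H57.TD
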