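import Pool.Agent.J4H57.TD.DC

/-!
# Gaps for linear maps over division algebras
-/

set_option autoImplicit false

open Finset NumberField Module Polynomial

namespace Pool.Agent.J4H57.TD

open Pool.Agent.H388SL Pool.Agent.H225R3.Marg Pool.Agent.Y399.MG

/-- a gap in bounded degree -/
lemma small_gap (N n : ℕ) : ∃ c : ℝ, 0 < c ∧ ∀ (L : Type) [Field L] [NumberField L] (P : L[X]),
    P.Monic → P.natDegree ≤ n → UnitPoly P → finrank ℚ L ≤ N →
    (∃ (σ : L →+* ℂ) (z : ℂ), (P.map σ).IsRoot z ∧ ∀ m : ℕ, 0 < m → z ^ m ≠ 1) →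
    ∃ (σ : L →+* ℂ) (z : ℂ), (P.map σ).IsRoot z ∧ (1 + finrank ℚ L : ℝ) ^ c ≤ ‖z‖ := by
  classical
  obtain ⟨δ, hδ, hlam⟩ := lam_ge (N * (n * n))
  set T : ℝ := ((N * (n * n) : ℕ) : ℝ) + 1 with hT
  have hT0 : 0 < T := by positivity
  have hN0 : (0 : ℝ) ≤ N := Nat.cast_nonneg _
  have hlogN : 0 < Real.log (2 + N) := Real.log_pos (by linarith)
  refine ⟨δ / (T * Real.log (2 + N)), by positivity, ?_⟩
  intro L _ _ P hP hn hU hL ⟨σ₀, z₀, hz₀, htor⟩
  set c : ℝ := δ / (T * Real.log (2 + N)) with hc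
  have hcpos : 0 < c := by positivity
  obtain ⟨K, iF, iN, ι, f, f', a, b, hf, hf', ha, hb, hK⟩ := exists_field2 σ₀ σ₀ P P hP hP z₀ z₀
    hz₀ hz₀
  obtain ⟨h0, h1, _⟩ := unit_root hP hU σ₀ hz₀
  have hai : IsIntegral ℤ a :=
    (isIntegral_algHom_iff ι.toIntAlgHom ι.injective).mp (by
      change IsIntegral ℤ (ι a)
      rw [ha]; exact h1)
  have ha0 : a ≠ 0 := by
    intro h
    rw [h, map_zero] at ha
    exact h0 ha.symm
  have hroot : ∀ m : ℕ, 0 < m → a ^ m ≠ 1 := by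
    intro m hm h
    apply htor m hm
    rw [← ha, ← map_pow, h, map_one]
  have hdeg : finrank ℚ K ≤ N * (n * n) := by
    refine hK.trans (Nat.mul_le_mul ?_ (Nat.mul_le_mul hn hn))
    exact (pairDeg_self σ₀).le.trans hL
  have h2 := hlam K a hai ha0 hroot hdeg
  by_contra hcon
  push Not at hcon
  have h3 : ∀ τ : K →ₐ[ℚ] ℂ, Real.log (max 1 ‖τ a‖) ≤ c * Real.log (2 + N) := by
    intro τ
    have h4 := hcon ((τ : K →+* ℂ).comp f) (τ a)
      (root_conj ι τ f σ₀ hf P a (by rw [ha]; exact hz₀))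
    have h5 : (1 + finrank ℚ L : ℝ) ^ c ≤ (2 + N : ℝ) ^ c := by
      apply Real.rpow_le_rpow (by positivity) _ hcpos.le
      have : (finrank ℚ L : ℝ) ≤ N := by exact_mod_cast hL
      linarith
    rw [← Real.log_rpow (by linarith)]
    apply Real.log_le_log (lt_of_lt_of_le one_pos (le_max_left _ _))
    exact max_le (Real.one_le_rpow (by linarith) hcpos.le) (h4.le.trans h5)
  have h4 : lam a ≤ (finrank ℚ K : ℝ) * (c * Real.log (2 + N)) := by
    unfold lam
    refine (Finset.sum_le_card_nsmul _ _ _ fun τ _ => h3 τ).trans ?_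
    rw [Finset.card_univ, AlgHom.card, nsmul_eq_mul]
  have h5 : (finrank ℚ K : ℝ) ≤ ((N * (n * n) : ℕ) : ℝ) := by exact_mod_cast hdeg
  have h6 : c * Real.log (2 + N) = δ / T := by
    rw [hc]
    field_simp
  rw [h6] at h4
  have h7 : (finrank ℚ K : ℝ) * (δ / T) < δ := by
    rw [mul_div_assoc', div_lt_iff₀ hT0]
    nlinarith
  linarith

/-- The number of roots off the unit circle, with multiplicities, of the polynomial `P` at the
embedding `σ`. -/
noncomputable def offCircle {L : Type*} [Field L] (P : L[X]) (σ : L →+* ℂ) : ℕ :=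
  open Classical in Multiset.card ((P.map σ).roots.filter fun z => ‖z‖ ≠ 1)

/-- There is an endomorphism of the field `L` which is complex conjugation under every complex
embedding. (So `L` is a CM field or totally real.) -/
def HasConj (L : Type*) [Field L] : Prop :=
  ∃ κ : L →+* L, ∀ (σ : L →+* ℂ) (x : L), σ (κ x) = starRingEnd ℂ (σ x)

lemma HasConj.norm_one {L : Type*} [Field L] (hL : HasConj L) {x : L} {σ : L →+* ℂ}
    (h : ‖σ x‖ = 1) (τ : L →+* ℂ) : ‖τ x‖ = 1 := by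
  obtain ⟨κ, hκ⟩ := hL
  have h1 : ∀ τ : L →+* ℂ, τ (x * κ x) = ((‖τ x‖ ^ 2 : ℝ) : ℂ) := by
    intro τ
    rw [map_mul, hκ, Complex.mul_conj, Complex.normSq_eq_norm_sq]
  have h2 : x * κ x = 1 := by
    apply σ.injective
    rw [h1, h, map_one]
    simp
  have h3 := h1 τ
  rw [h2, map_one] at h3
  have h4 : ‖τ x‖ ^ 2 = 1 := by exact_mod_cast h3.symm
  nlinarith [norm_nonneg (τ x)]

lemma le_offCircle {L : Type*} [Field L] {P χ : L[X]} (hP : P.Monic) (hχ : χ.Monic) (h : χ ∣ P)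
    (σ : L →+* ℂ) (hroot : ∀ y : ℂ, (χ.map σ).IsRoot y → ‖y‖ ≠ 1) :
    χ.natDegree ≤ offCircle P σ := by
  classical
  have h1 : (χ.map σ).roots ≤ (P.map σ).roots :=
    roots.le_of_dvd (hP.map σ).ne_zero (Polynomial.map_dvd σ h)
  have h2 : (χ.map σ).roots.filter (fun z => ‖z‖ ≠ 1) = (χ.map σ).roots := by
    rw [Multiset.filter_eq_self]
    intro y hy
    exact hroot y (mem_roots'.mp hy).2
  have h3 := Multiset.card_le_card (Multiset.filter_le_filter (fun z => ‖z‖ ≠ 1) h1)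
  rw [h2, splits_iff_card_roots.mp (IsAlgClosed.splits (χ.map σ)), hχ.natDegree_map] at h3
  unfold offCircle
  convert h3

lemma norm_ne_one_of_log {z : ℂ} {ℓ : ℝ} (hℓ : ℓ ≠ 0)
    (h : Real.log ‖z‖ = ℓ ∨ Real.log ‖z‖ = -ℓ) : ‖z‖ ≠ 1 := by
  intro h1
  rw [h1, Real.log_one] at h
  rcases h with h | h
  · exact hℓ h.symm
  · exact hℓ (by linarith)

/-- **Gap for linear maps over division algebras with few eigenvalues off the unit circle.** -/
theorem few_gap (s n : ℕ) : ∃ c : ℝ, 0 < c ∧ ∀ (L D V : Type) [Field L] [NumberField L]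
    [DivisionRing D] [Algebra L D] [AddCommGroup V] [Module D V] [Module L V]
    [IsScalarTower L D V] [Module.Finite L V] (S : Finset (L →+* ℂ)) (g : Module.End D V),
    S.card ≤ s → finrank L V ≤ n → UnitPoly (cp L g) →
    (∀ σ, σ ∉ S → ∀ z : ℂ, ((cp L g).map σ).IsRoot z → ‖z‖ = 1) →
    (∀ N : ℕ, 0 < N → ¬ IsNilpotent (g ^ N - 1)) →
    ((∀ σ ∈ S, offCircle (cp L g) σ < finrank L D) ∨
      (HasConj L ∧ Odd (finrank L D) ∧ ∀ σ ∈ S, offCircle (cp L g) σ < 2 * finrank L D)) →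
    ∃ σ ∈ S, ∃ z : ℂ, ((cp L g).map σ).IsRoot z ∧ (1 + finrank ℚ L : ℝ) ^ c ≤ ‖z‖ := by
  classical
  obtain ⟨c1, hc1, hcomp⟩ := component s n
  obtain ⟨c2, hc2, hsmall⟩ := small_gap s n
  refine ⟨min c1 c2, lt_min hc1 hc2, ?_⟩
  intro L D V _ _ _ _ _ _ _ _ _ S g hS hn hU hout hnil hfew
  have hmon := cp_monic (L := L) g
  have h1L : (1 : ℝ) ≤ 1 + finrank ℚ L := by
    have : (0 : ℝ) ≤ finrank ℚ L := Nat.cast_nonneg _
    linarith
  by_cases hSu : S = Finset.univ
  · -- bounded degree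
    have hd : finrank ℚ L ≤ s := by
      rw [← NumberField.Embeddings.card L ℂ, ← Finset.card_univ, ← hSu]
      exact hS
    obtain ⟨σ₀⟩ : Nonempty (L →+* ℂ) := inferInstance
    have h1 : ∃ z : ℂ, ((cp L g).map σ₀).IsRoot z ∧ ∀ N : ℕ, 0 < N → z ^ N ≠ 1 := by
      by_contra hcon
      push Not at hcon
      obtain ⟨N, hN, h2⟩ := nilp_of_cp_roots σ₀ g hcon
      exact hnil N hN h2
    obtain ⟨z₀, hz₀, htor₀⟩ := h1
    obtain ⟨σ, z, hz, hle⟩ := hsmall L (cp L g) hmon (by rw [cp_natDegree]; exact hn) hU hd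
      ⟨σ₀, z₀, hz₀, htor₀⟩
    refine ⟨σ, by rw [hSu]; exact mem_univ _, z, hz, le_trans ?_ hle⟩
    exact Real.rpow_le_rpow_of_exponent_le h1L (min_le_right _ _)
  · by_contra hcon
    push Not at hcon
    obtain ⟨σ, hσ, χ, hχ, hdvd, hfin, hdeg, ℓ, hℓ, hroots⟩ := hcomp L D V S g hS hn hU hout hnil
      (fun σ hσ z hz => (hcon σ hσ z hz).trans_le
        (Real.rpow_le_rpow_of_exponent_le h1L (min_le_left _ _)))
    have hle := le_offCircle hmon hχ hdvd σ
      fun y hy => norm_ne_one_of_log hℓ (hroots y hy).2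
    have hfin' : finrank L D ≤ χ.natDegree := Nat.le_of_dvd hdeg hfin
    rcases hfew with hfew | ⟨hconj, hodd, hfew⟩
    · have := hfew σ hσ
      omega
    · have h1 := hfew σ hσ
      obtain ⟨a, ha⟩ := hfin
      have ha1 : a = 1 := by
        have h2 : finrank L D * a < finrank L D * 2 := by omega
        have h3 : a < 2 := lt_of_mul_lt_mul_left h2 (Nat.zero_le _)
        have h4 : a ≠ 0 := by
          rintro rfl
          rw [mul_zero] at ha
          omega
        omega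
      rw [ha1, mul_one] at ha
      obtain ⟨σ', hσ'⟩ : ∃ σ' : L →+* ℂ, σ' ∉ S := by
        by_contra h2
        push Not at h2
        exact hSu (Finset.eq_univ_of_forall h2)
      -- the constant coefficient
      have h2 : ‖σ' (χ.coeff 0)‖ = 1 := by
        have hsplit := IsAlgClosed.splits (χ.map σ')
        have h3 := hsplit.coeff_zero_eq_prod_roots_of_monic (hχ.map σ')
        rw [coeff_map] at h3
        rw [h3, norm_mul, norm_pow, norm_neg, norm_one, one_pow, one_mul]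
        have h4 : ∀ m : Multiset ℂ, (∀ y ∈ m, ‖y‖ = 1) → ‖m.prod‖ = 1 := by
          intro m
          induction m using Multiset.induction with
          | empty => intro _; simp
          | cons a m ih =>
            intro h5
            rw [Multiset.prod_cons, norm_mul, h5 a (Multiset.mem_cons_self a m),
              ih fun y hy => h5 y (Multiset.mem_cons_of_mem hy), one_mul]
        apply h4
        intro y hy
        exact hout σ' hσ' y ((mem_roots'.mp hy).2.dvd (Polynomial.map_dvd σ' hdvd))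
      have h3 := hconj.norm_one h2 σ
      have h4 := even_degree hℓ (χ.map σ) (hχ.map σ) hroots (by rw [coeff_map]; exact h3)
      rw [hχ.natDegree_map, ha] at h4
      exact (Nat.not_even_iff_odd.mpr hodd) h4

/-- **Gap for division algebras of odd dimension.** -/
theorem odd_gap (s n : ℕ) : ∃ c : ℝ, 0 < c ∧ ∀ (L D V : Type) [Field L] [NumberField L]
    [DivisionRing D] [Algebra L D] [AddCommGroup V] [Module D V] [Module L V]
    [IsScalarTower L D V] [Module.Finite L V] (S : Finset (L →+* ℂ)) (g : Module.End D V),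
    S.card ≤ s → finrank L V ≤ n → UnitPoly (cp L g) →
    (∀ σ, σ ∉ S → ∀ z : ℂ, ((cp L g).map σ).IsRoot z → ‖z‖ = 1) →
    (∀ N : ℕ, 0 < N → ¬ IsNilpotent (g ^ N - 1)) →
    finrank L V = finrank L D → Odd (finrank L D) → (∀ σ ∈ S, ‖σ ((cp L g).coeff 0)‖ = 1) →
    ∃ σ ∈ S, ∃ z : ℂ, ((cp L g).map σ).IsRoot z ∧ (1 + finrank ℚ L : ℝ) ^ c ≤ ‖z‖ := by
  classical
  obtain ⟨c, hc, hcomp⟩ := component s n
  refine ⟨c, hc, ?_⟩
  intro L D V _ _ _ _ _ _ _ _ _ S g hS hn hU hout hnil hVD hodd hdet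
  by_contra hcon
  push Not at hcon
  obtain ⟨σ, hσ, χ, hχ, hdvd, hfin, hdeg, ℓ, hℓ, hroots⟩ := hcomp L D V S g hS hn hU hout hnil
    hcon
  have hmon := cp_monic (L := L) g
  have hfin' : finrank L D ≤ χ.natDegree := Nat.le_of_dvd hdeg hfin
  have heq : cp L g = χ := eq_of_monic_of_dvd_of_natDegree_le hχ hmon hdvd
    (by rw [cp_natDegree, hVD]; exact hfin')
  rw [← heq] at hroots
  have h4 := even_degree hℓ ((cp L g).map σ) (hmon.map σ) hroots
    (by rw [coeff_map]; exact hdet σ hσ)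
  rw [hmon.natDegree_map, cp_natDegree, hVD] at h4
  exact (Nat.not_even_iff_odd.mpr hodd) h4

end Pool.Agent.J4H57.TD
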