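import Pool.Agent.J4H57.TD.S

/-!
# Eigenvalues in a realization
-/

set_option autoImplicit false

open Finset NumberField Module Polynomial

namespace Pool.Agent.J4H57.TD

open Pool.Agent.H225R3.Marg

lemma Realization.norm_one {G : Type*} [Group G] {M : ℕ} {ρ : G →* Matrix (Fin M) (Fin M) ℂ}
    {Γ : Subgroup G} {k : Type} [Field k] [NumberField k] {n : ℕ} {S : Finset (k →+* ℂ)}
    (R : Realization ρ Γ k n S) (γ : Γ) (σ : k →+* ℂ) (hσ : σ ∉ S) (l : ℂ)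
    (h : ((emb σ).mapMatrix (R.r γ)).charpoly.IsRoot l) : ‖l‖ = 1 := by
  have h1 := R.comp' γ σ hσ l h
  have h2 : (emb σ).mapMatrix (R.r γ⁻¹) * (emb σ).mapMatrix (R.r γ) = 1 := by
    rw [← map_mul, ← map_mul, inv_mul_cancel, map_one, map_one]
  obtain ⟨hl0, h3⟩ := root_inv h2 h
  have h4 := R.comp' γ⁻¹ σ hσ _ h3
  rw [norm_inv] at h4
  have h5 : 0 < ‖l‖ := norm_pos_iff.mpr hl0
  have h6 : 1 ≤ ‖l‖ := by
    rw [inv_le_one₀ h5] at h4
    exact h4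
  linarith

lemma Realization.inv_mul {G : Type*} [Group G] {M : ℕ} {ρ : G →* Matrix (Fin M) (Fin M) ℂ}
    {Γ : Subgroup G} {k : Type} [Field k] [NumberField k] {n : ℕ} {S : Finset (k →+* ℂ)}
    (R : Realization ρ Γ k n S) (γ : Γ) : R.r γ⁻¹ * R.r γ = 1 := by
  rw [← map_mul, inv_mul_cancel, map_one]

lemma away {c : ℝ} (hc : 0 < c) {d : ℕ} (hd : 1 ≤ d) {l : ℂ} (h : (1 + d : ℝ) ^ c ≤ ‖l‖) :
    (2 : ℝ) ^ c - 1 ≤ ‖l - 1‖ := by
  have hd' : (1 : ℝ) ≤ d := by exact_mod_cast hd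
  have h1 : (2 : ℝ) ^ c ≤ (1 + d : ℝ) ^ c := Real.rpow_le_rpow (by norm_num) (by linarith) hc.le
  have h2 := norm_sub_norm_le l 1
  rw [norm_one] at h2
  linarith

end Pool.Agent.J4H57.TD
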