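import Pool.Agent.J4H57.TD.DD
import Pool.Agent.J4H57.TD.U

/-!
# Realizations over division algebras
-/

set_option autoImplicit false

open Finset NumberField Module Polynomial

namespace Pool.Agent.J4H57.TD

open Pool.Agent.H388SL Pool.Agent.H225R3.Marg Pool.Agent.Y399.MG

/-- A realization of the subgroup `Γ` of `G`, up to `e`-th powers, by linear maps of the vector space
`V` over the division algebra `D` over the number field `L`, with noncompact embeddings `S`.  For each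
`γ` in `Γ` a `D`-linear map `r γ` of `V` is given (it represents `γ ^ e`; if `e = 1` one can think of a
homomorphism `r`).  Its characteristic polynomial over `L`, of degree `dim V` over `L`, is denoted
`cp L (r γ)`.
* The coefficients of the characteristic polynomial are algebraic integers, and the constant one is a
  unit.
* Under every embedding outside `S` the eigenvalues have absolute value one.
* Under the embeddings in `S` the eigenvalues of `r γ` are eigenvalues of `(ρ γ) ^ e`.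
* If a power of `r γ` is unipotent then `γ` has finite order. -/
structure DRealization {G : Type*} [Group G] {M : ℕ} (ρ : G →* Matrix (Fin M) (Fin M) ℂ)
    (Γ : Subgroup G) (e : ℕ) (L D V : Type) [Field L] [NumberField L] [DivisionRing D]
    [Algebra L D] [AddCommGroup V] [Module D V] [Module L V] [IsScalarTower L D V]
    [Module.Finite L V] (S : Finset (L →+* ℂ)) where
  r : Γ → Module.End D V
  unit : ∀ γ : Γ, UnitPoly (cp L (r γ))
  compact : ∀ σ : L →+* ℂ, σ ∉ S → ∀ (γ : Γ) (z : ℂ), ((cp L (r γ)).map σ).IsRoot z → ‖z‖ = 1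
  eig : ∀ σ ∈ S, ∀ (γ : Γ) (z : ℂ), ((cp L (r γ)).map σ).IsRoot z → IsEig (ρ γ ^ e) z
  finite : ∀ (γ : Γ) (N : ℕ), 0 < N → IsNilpotent (r γ ^ N - 1) → ∃ N' : ℕ, 0 < N' ∧ γ ^ N' = 1

section

variable {G : Type*} [Group G] {M : ℕ} {ρ : G →* Matrix (Fin M) (Fin M) ℂ}

lemma not_nilp {Γ : Subgroup G} {e : ℕ} {L D V : Type} [Field L] [NumberField L] [DivisionRing D]
    [Algebra L D] [AddCommGroup V] [Module D V] [Module L V] [IsScalarTower L D V]
    [Module.Finite L V] {S : Finset (L →+* ℂ)} (R : DRealization ρ Γ e L D V S) {γ : G}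
    (hγ : γ ∈ Γ) (hinf : ∀ N : ℕ, 0 < N → γ ^ N ≠ 1) (N : ℕ) (hN : 0 < N) :
    ¬ IsNilpotent (R.r ⟨γ, hγ⟩ ^ N - 1) := by
  intro h
  obtain ⟨N', hN', h1⟩ := R.finite ⟨γ, hγ⟩ N hN h
  exact hinf N' hN' (congrArg Subtype.val h1)

/-- a large eigenvalue of `ρ γ` -/
lemma eig_of_gap {Γ : Subgroup G} {e : ℕ} {L D V : Type} [Field L] [NumberField L] [DivisionRing D]
    [Algebra L D] [AddCommGroup V] [Module D V] [Module L V] [IsScalarTower L D V]
    [Module.Finite L V] {S : Finset (L →+* ℂ)} (R : DRealization ρ Γ e L D V S) {E : ℕ}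
    (he : 0 < e) (heE : e ≤ E) {c : ℝ} (hc : 0 < c) {γ : G} (hγ : γ ∈ Γ)
    (h : ∃ σ ∈ S, ∃ z : ℂ, ((cp L (R.r ⟨γ, hγ⟩)).map σ).IsRoot z ∧
      (1 + finrank ℚ L : ℝ) ^ c ≤ ‖z‖) :
    ∃ l : ℂ, IsEig (ρ γ) l ∧ (1 + finrank ℚ L : ℝ) ^ (c / (E + 1)) ≤ ‖l‖ := by
  obtain ⟨σ, hσ, z, hz, hle⟩ := h
  obtain ⟨l, hl, hzl⟩ := eig_pow' (ρ γ) e he z (R.eig σ hσ ⟨γ, hγ⟩ z hz)
  refine ⟨l, hl, ?_⟩
  set B : ℝ := 1 + finrank ℚ L with hB
  have hB1 : 1 ≤ B := by
    have : (0 : ℝ) ≤ finrank ℚ L := Nat.cast_nonneg _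
    linarith
  have hB0 : 0 < B := by linarith
  have hE0 : (0 : ℝ) < (E : ℝ) + 1 := by positivity
  rw [hzl, norm_pow] at hle
  by_contra hlt
  push Not at hlt
  have h1 : ‖l‖ ^ e < (B ^ (c / (E + 1))) ^ e :=
    pow_lt_pow_left₀ hlt (norm_nonneg l) he.ne'
  have h2 : (B ^ (c / (E + 1))) ^ e ≤ B ^ c := by
    rw [← Real.rpow_natCast, ← Real.rpow_mul hB0.le]
    apply Real.rpow_le_rpow_of_exponent_le hB1
    have h3 : (e : ℝ) ≤ E + 1 := by
      have : (e : ℝ) ≤ E := by exact_mod_cast heE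
      linarith
    rw [div_mul_eq_mul_div, div_le_iff₀ hE0]
    nlinarith
  linarith

/-- uniform discreteness from large eigenvalues -/
lemma uniformlyDiscrete_of_eig [TopologicalSpace G] (hρ : Continuous ρ) {c : ℝ} (hc : 0 < c)
    (F : Set (Subgroup G)) (h : ∀ Γ ∈ F, (∀ γ ∈ Γ, ∀ N : ℕ, 0 < N → γ ^ N = 1 → γ = 1) ∧
      ∀ γ ∈ Γ, (∀ N : ℕ, 0 < N → γ ^ N ≠ 1) → ∃ l : ℂ, IsEig (ρ γ) l ∧
        ∃ d : ℕ, 1 ≤ d ∧ (1 + d : ℝ) ^ c ≤ ‖l‖) :
    UniformlyDiscrete F := by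
  have hε : 0 < (2 : ℝ) ^ c - 1 := by
    have := Real.one_lt_rpow (by norm_num : (1 : ℝ) < 2) hc
    linarith
  refine ⟨_, nhd ρ hρ _ hε, ?_⟩
  intro Γ hΓ g u hu hmem
  by_contra hne
  obtain ⟨htf, hinf⟩ := h Γ hΓ
  obtain ⟨l, hl, d, hd, hle⟩ := hinf _ hmem fun N hN h1 => hne (htf _ hmem N hN h1)
  have h2 : (ρ (g * u * g⁻¹)).charpoly = (ρ u).charpoly := by
    rw [map_mul, map_mul]
    have h4 : ρ g⁻¹ * ρ g = 1 := by rw [← map_mul, inv_mul_cancel, map_one]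
    rw [Matrix.charpoly_mul_comm, ← mul_assoc, h4, one_mul]
  rw [IsEig, h2] at hl
  exact absurd (close_eig (ρ u) _ hε hu l hl) (not_lt.mpr (away hc hd hle))

end

end Pool.Agent.J4H57.TD
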