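import Pool.Agent.J4H57.TD.S

/-!
# Multiplicative dependence of small roots of two polynomials over two number fields
-/

set_option autoImplicit false

open Finset NumberField Module Polynomial

namespace Pool.Agent.J4H57.TD

open Pool.Agent.H388SL Pool.Agent.H225R3.Marg Pool.Agent.Y399.MG

/-- the number field generated by conjugates of two number fields and two roots -/
theorem exists_field2 {k k' : Type} [Field k] [NumberField k] [Field k'] [NumberField k']
    (σ : k →+* ℂ) (σ' : k' →+* ℂ) (P : k[X]) (P' : k'[X])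
    (hP : P.Monic) (hP' : P'.Monic) (x x' : ℂ) (hx : (P.map σ).IsRoot x)
    (hx' : (P'.map σ').IsRoot x') :
    ∃ (K : Type) (_ : Field K) (_ : NumberField K) (ι : K →+* ℂ) (f : k →+* K) (f' : k' →+* K)
      (a b : K), ι.comp f = σ ∧ ι.comp f' = σ' ∧ ι a = x ∧ ι b = x' ∧
      finrank ℚ K ≤ finrank ℚ (IntermediateField.adjoin ℚ (Set.range σ ∪ Set.range σ')) *
        (P.natDegree * P'.natDegree) := by
  set F : IntermediateField ℚ ℂ := IntermediateField.adjoin ℚ (Set.range σ ∪ Set.range σ') with hF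
  have hmem : ∀ y, σ y ∈ F := fun y => IntermediateField.subset_adjoin _ _ (Or.inl ⟨y, rfl⟩)
  have hmem' : ∀ y, σ' y ∈ F := fun y => IntermediateField.subset_adjoin _ _ (Or.inr ⟨y, rfl⟩)
  have f4 : FiniteDimensional ℚ F := fd_compositum σ σ'
  let g : k →+* F := σ.codRestrict F hmem
  let g' : k' →+* F := σ'.codRestrict F hmem'
  have hg : (algebraMap F ℂ).comp g = σ := RingHom.ext fun y => rfl
  have hg' : (algebraMap F ℂ).comp g' = σ' := RingHom.ext fun y => rfl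
  have hxa : aeval x (P.map g) = 0 := by
    rw [aeval_def, ← eval_map, Polynomial.map_map, hg]
    exact hx
  have hxa' : aeval x' (P'.map g') = 0 := by
    rw [aeval_def, ← eval_map, Polynomial.map_map, hg']
    exact hx'
  obtain ⟨d1, i1⟩ := finrank_root_le F (P.map g) (hP.map g) x hxa
  obtain ⟨d2, i2⟩ := finrank_root_le F (P'.map g') (hP'.map g') x' hxa'
  rw [hP.natDegree_map] at d1
  rw [hP'.natDegree_map] at d2
  set M : IntermediateField F ℂ := IntermediateField.adjoin F {x} ⊔ IntermediateField.adjoin F {x'}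
    with hM
  have h1 : finrank F M ≤ P.natDegree * P'.natDegree :=
    (IntermediateField.finrank_sup_le _ _).trans (Nat.mul_le_mul d1 d2)
  have f5 : FiniteDimensional F M := IntermediateField.finiteDimensional_sup _ _
  have f6 : Module.Free F M := Module.Free.of_divisionRing F M
  have f7 : Module.Free ℚ F := Module.Free.of_divisionRing ℚ F
  have h2 : finrank ℚ F * finrank F M = finrank ℚ M := Module.finrank_mul_finrank ℚ F M
  have f8 : FiniteDimensional ℚ M := FiniteDimensional.trans ℚ F M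
  have f9 : NumberField M := ⟨⟩
  have hxM : x ∈ M := (le_sup_left : IntermediateField.adjoin F {x} ≤ M)
    (IntermediateField.mem_adjoin_simple_self F x)
  have hxM' : x' ∈ M := (le_sup_right : IntermediateField.adjoin F {x'} ≤ M)
    (IntermediateField.mem_adjoin_simple_self F x')
  refine ⟨M, inferInstance, f9, algebraMap M ℂ, (algebraMap F M).comp g, (algebraMap F M).comp g',
    ⟨x, hxM⟩, ⟨x', hxM'⟩, ?_, ?_, rfl, rfl, ?_⟩
  · exact RingHom.ext fun y => rfl
  · exact RingHom.ext fun y => rfl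
  · have h3 : finrank ℚ M ≤ finrank ℚ F * (P.natDegree * P'.natDegree) := by
      rw [← h2]
      exact Nat.mul_le_mul_left _ h1
    exact h3

/-- The complex number `z` is a unit of the ring of all algebraic integers. -/
def IsUnitZ (z : ℂ) : Prop := z ≠ 0 ∧ IsIntegral ℤ z ∧ IsIntegral ℤ z⁻¹

/-- roots of `σ P` are conjugates of roots of `P` -/
lemma root_conj {k K : Type} [Field k] [Field K] (ι : K →+* ℂ) (τ : K →+* ℂ) (f : k →+* K)
    (σ : k →+* ℂ) (hf : ι.comp f = σ) (P : k[X]) (a : K) (h : (P.map σ).IsRoot (ι a)) :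
    (P.map (τ.comp f)).IsRoot (τ a) := by
  rw [← hf, ← Polynomial.map_map, IsRoot.def, eval_map, eval₂_at_apply] at h
  have h1 : eval a (P.map f) = 0 := by
    apply ι.injective
    rw [map_zero]
    exact h
  rw [← Polynomial.map_map, IsRoot.def, eval_map, eval₂_at_apply, h1, map_zero]

/-- **Small roots of two polynomials over two number fields with a small compositum.** -/
theorem dep_poly (s n m : ℕ) : ∃ c : ℝ, 0 < c ∧ ∀ (k k' : Type) [Field k] [NumberField k]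
    [Field k'] [NumberField k'] (S : Finset (k →+* ℂ)) (S' : Finset (k' →+* ℂ))
    (P : k[X]) (P' : k'[X]), P.Monic → P'.Monic → P.natDegree ≤ n → P'.natDegree ≤ n →
    S.card ≤ s → S'.card ≤ s →
    (∀ σ, ∀ z : ℂ, (P.map σ).IsRoot z → IsUnitZ z) →
    (∀ σ, ∀ z : ℂ, (P'.map σ).IsRoot z → IsUnitZ z) →
    (∀ σ, σ ∉ S → ∀ z : ℂ, (P.map σ).IsRoot z → ‖z‖ = 1) →
    (∀ σ, σ ∉ S' → ∀ z : ℂ, (P'.map σ).IsRoot z → ‖z‖ = 1) →
    (∀ σ, ∀ z : ℂ, (P.map σ).IsRoot z → ‖z‖ < (1 + finrank ℚ k : ℝ) ^ c) →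
    (∀ σ, ∀ z : ℂ, (P'.map σ).IsRoot z → ‖z‖ < (1 + finrank ℚ k' : ℝ) ^ c) →
    ∀ (σ : k →+* ℂ) (σ' : k' →+* ℂ),
      finrank ℚ (IntermediateField.adjoin ℚ (Set.range σ ∪ Set.range σ')) ≤ m * finrank ℚ k →
      finrank ℚ (IntermediateField.adjoin ℚ (Set.range σ ∪ Set.range σ')) ≤ m * finrank ℚ k' →
      ∀ z z' : ℂ, (P.map σ).IsRoot z → (P'.map σ').IsRoot z' →
      ∃ u v : ℤ, (u ≠ 0 ∨ v ≠ 0) ∧ z ^ u * z' ^ v = 1 := by
  classical
  obtain ⟨c, hc, hpair⟩ := pair (2 * (s * (m * (n * n))))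
  refine ⟨c, hc, ?_⟩
  intro k k' _ _ _ _ S S' P P' hP hP' hn hn' hS hS' hunit hunit' hout hout' hsm hsm' σ σ' hdeg
    hdeg' l l' hl hl'
  obtain ⟨K, iF, iN, ι, f, f', a, b, hf, hf', ha, hb, hK⟩ := exists_field2 σ σ' P P' hP hP' l l'
    hl hl'
  have hK' : finrank ℚ K ≤ finrank ℚ (IntermediateField.adjoin ℚ (Set.range σ ∪ Set.range σ')) *
      (n * n) := hK.trans (Nat.mul_le_mul_left _ (Nat.mul_le_mul hn hn'))
  obtain ⟨hl0, hli, hlinv⟩ := hunit σ l hl
  obtain ⟨hl0', hli', hlinv'⟩ := hunit' σ' l' hl'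
  have hint : ∀ {z : K}, IsIntegral ℤ (ι z) → IsIntegral ℤ z := fun {z} hz =>
    (isIntegral_algHom_iff ι.toIntAlgHom ι.injective).mp hz
  have hai : IsIntegral ℤ a := hint (by rw [ha]; exact hli)
  have hbi : IsIntegral ℤ b := hint (by rw [hb]; exact hli')
  have hai' : IsIntegral ℤ a⁻¹ := hint (by rw [map_inv₀, ha]; exact hlinv)
  have hbi' : IsIntegral ℤ b⁻¹ := hint (by rw [map_inv₀, hb]; exact hlinv')
  have ha0 : a ≠ 0 := by
    intro h
    rw [h, map_zero] at ha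
    exact hl0 ha.symm
  have hb0 : b ≠ 0 := by
    intro h
    rw [h, map_zero] at hb
    exact hl0' hb.symm
  have hca : ∀ τ : K →ₐ[ℚ] ℂ, (P.map ((τ : K →+* ℂ).comp f)).IsRoot (τ a) := fun τ =>
    root_conj ι τ f σ hf P a (by rw [ha]; exact hl)
  have hcb : ∀ τ : K →ₐ[ℚ] ℂ, (P'.map ((τ : K →+* ℂ).comp f')).IsRoot (τ b) := fun τ =>
    root_conj ι τ f' σ' hf' P' b (by rw [hb]; exact hl')
  have hcount : ((Finset.univ : Finset (K →ₐ[ℚ] ℂ)).filter
      fun τ : K →ₐ[ℚ] ℂ => (τ : K →+* ℂ).comp f ∈ S).card ≤ s * (m * (n * n)) := by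
    have h1 := card_comp f S
    have h2 : ((Finset.univ : Finset (K →ₐ[ℚ] ℂ)).filter
        fun τ : K →ₐ[ℚ] ℂ => (τ : K →+* ℂ).comp f ∈ S).card * finrank ℚ k ≤
        (s * (m * (n * n))) * finrank ℚ k := by
      calc _ ≤ S.card * finrank ℚ K := h1
        _ ≤ s * ((m * finrank ℚ k) * (n * n)) :=
            Nat.mul_le_mul hS (hK'.trans (Nat.mul_le_mul_right _ hdeg))
        _ = _ := by ring
    exact Nat.le_of_mul_le_mul_right h2 finrank_pos
  have hcount' : ((Finset.univ : Finset (K →ₐ[ℚ] ℂ)).filter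
      fun τ : K →ₐ[ℚ] ℂ => (τ : K →+* ℂ).comp f' ∈ S').card ≤ s * (m * (n * n)) := by
    have h1 := card_comp f' S'
    have h2 : ((Finset.univ : Finset (K →ₐ[ℚ] ℂ)).filter
        fun τ : K →ₐ[ℚ] ℂ => (τ : K →+* ℂ).comp f' ∈ S').card * finrank ℚ k' ≤
        (s * (m * (n * n))) * finrank ℚ k' := by
      calc _ ≤ S'.card * finrank ℚ K := h1
        _ ≤ s * ((m * finrank ℚ k') * (n * n)) :=
            Nat.mul_le_mul hS' (hK'.trans (Nat.mul_le_mul_right _ hdeg'))
        _ = _ := by ring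
    exact Nat.le_of_mul_le_mul_right h2 finrank_pos
  have hEE : (EE a b).card ≤ 2 * (s * (m * (n * n))) := by
    have hsub : EE a b ⊆ ((Finset.univ : Finset (K →ₐ[ℚ] ℂ)).filter
        fun τ : K →ₐ[ℚ] ℂ => (τ : K →+* ℂ).comp f ∈ S) ∪
        ((Finset.univ : Finset (K →ₐ[ℚ] ℂ)).filter
        fun τ : K →ₐ[ℚ] ℂ => (τ : K →+* ℂ).comp f' ∈ S') := by
      intro τ hτ
      rw [mem_EE] at hτ
      rw [Finset.mem_union, Finset.mem_filter, Finset.mem_filter]
      rcases hτ with h | h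
      · left
        refine ⟨mem_univ _, ?_⟩
        by_contra h2
        exact h (hout _ h2 _ (hca τ))
      · right
        refine ⟨mem_univ _, ?_⟩
        by_contra h2
        exact h (hout' _ h2 _ (hcb τ))
    have h1 := card_le_card hsub
    have h2 := card_union_le ((Finset.univ : Finset (K →ₐ[ℚ] ℂ)).filter
        fun τ : K →ₐ[ℚ] ℂ => (τ : K →+* ℂ).comp f ∈ S)
        ((Finset.univ : Finset (K →ₐ[ℚ] ℂ)).filter
        fun τ : K →ₐ[ℚ] ℂ => (τ : K →+* ℂ).comp f' ∈ S')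
    omega
  have hmono : ∀ {k : Type} [Field k] [NumberField k], (k →+* K) →
      (1 + finrank ℚ k : ℝ) ^ c ≤ (1 + finrank ℚ K : ℝ) ^ c := by
    intro k _ _ f
    have hkK : finrank ℚ k ≤ finrank ℚ K := by
      let _ : Algebra k K := f.toAlgebra
      have h2 : finrank ℚ k * finrank k K = finrank ℚ K := Module.finrank_mul_finrank ℚ k K
      rw [← h2]
      exact Nat.le_mul_of_pos_right _ finrank_pos
    apply Real.rpow_le_rpow (by positivity) _ hc.le
    have : (finrank ℚ k : ℝ) ≤ finrank ℚ K := by exact_mod_cast hkK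
    linarith
  obtain ⟨u, v, huv, h⟩ := hpair K a b hai hai' hbi hbi' ha0 hb0 hEE
    (fun τ _ => ⟨(hsm _ _ (hca τ)).trans_le (hmono f), (hsm' _ _ (hcb τ)).trans_le (hmono f')⟩)
  refine ⟨u, v, huv, ?_⟩
  have h1 := congrArg ι h
  rw [map_mul, map_zpow₀, map_zpow₀, map_one, ha, hb] at h1
  exact h1

/-- a root of a polynomial, off the unit circle, at some embedding -/
theorem exists_off_root {k : Type} [Field k] [NumberField k] (P : k[X]) (hP : P.Monic)
    (hint : ∀ σ : k →+* ℂ, ∀ z : ℂ, (P.map σ).IsRoot z → IsUnitZ z) (σ₀ : k →+* ℂ) (z₀ : ℂ)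
    (hz₀ : (P.map σ₀).IsRoot z₀) (htor : ∀ N : ℕ, 0 < N → z₀ ^ N ≠ 1) :
    ∃ (σ : k →+* ℂ) (z : ℂ), (P.map σ).IsRoot z ∧ ‖z‖ ≠ 1 ∧ (∀ N : ℕ, 0 < N → z ^ N ≠ 1) := by
  classical
  obtain ⟨K, iF, iN, ι, f, f', a, b, hf, hf', ha, hb, hK⟩ := exists_field2 σ₀ σ₀ P P hP hP z₀ z₀
    hz₀ hz₀
  obtain ⟨h0, h1, _⟩ := hint σ₀ z₀ hz₀
  have hai : IsIntegral ℤ a :=
    (isIntegral_algHom_iff ι.toIntAlgHom ι.injective).mp (by
      change IsIntegral ℤ (ι a)
      rw [ha]; exact h1)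
  have ha0 : a ≠ 0 := by
    intro h
    rw [h, map_zero] at ha
    exact h0 ha.symm
  have hroot : ∀ N : ℕ, 0 < N → a ^ N ≠ 1 := by
    intro N hN h
    apply htor N hN
    rw [← ha, ← map_pow, h, map_one]
  obtain ⟨τ, hτ⟩ := exists_norm_ne_one hai ha0 hroot
  refine ⟨(τ : K →+* ℂ).comp f, τ a, root_conj ι τ f σ₀ hf P a (by rw [ha]; exact hz₀), hτ, ?_⟩
  intro N hN h
  apply hroot N hN
  apply τ.injective
  rw [map_pow, map_one]
  exact h

/-- from a relation between two numbers, the first off the unit circle, the second not a root of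
unity -/
lemma off_of_rel {z z' : ℂ} {u v : ℤ} (hz1 : ‖z‖ ≠ 1)
    (htor : ∀ N : ℕ, 0 < N → z' ^ N ≠ 1) (huv : u ≠ 0 ∨ v ≠ 0) (h : z ^ u * z' ^ v = 1) :
    ‖z'‖ ≠ 1 := by
  intro hz1'
  have h1 := congrArg norm h
  rw [norm_mul, norm_zpow, norm_zpow, hz1', one_zpow, mul_one, norm_one] at h1
  have hu : u = 0 := by
    by_contra hu
    rw [zpow_eq_one_iff_right₀ (norm_nonneg z) hz1] at h1
    exact hu h1
  rw [hu, zpow_zero, one_mul] at h
  have hv : v ≠ 0 := by
    rcases huv with h2 | h2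
    · exact absurd hu h2
    · exact h2
  have h2 : z' ^ v.natAbs = 1 := by
    rcases Int.natAbs_eq v with h3 | h3
    · rw [h3, zpow_natCast] at h
      exact h
    · rw [h3, zpow_neg, zpow_natCast, inv_eq_one] at h
      exact h
  exact htor _ (Int.natAbs_pos.mpr hv) h2

end Pool.Agent.J4H57.TD
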