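import Pool.Agent.J4H57.TD.D

/-!
# Irreducible factors of `Q (x ^ p, y ^ p)`, `Q` of degree less than `p`
-/

set_option autoImplicit false

open MvPolynomial Finset

namespace Pool.Agent.J4H57.TD

open Pool.Agent.H371R3.GQ

/-- scaling of the variables by powers of `ε` -/
noncomputable def sc (ε : ℂ) (e : Fin 2 → ℕ) : Bx →ₐ[ℂ] Bx := aeval fun i => C (ε ^ e i) * X i

lemma sc_coeff (ε : ℂ) (e : Fin 2 → ℕ) (h : Bx) (d : Fin 2 →₀ ℕ) :
    coeff d (sc ε e h) = coeff d h * ε ^ (e 0 * d 0 + e 1 * d 1) := by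
  classical
  induction h using MvPolynomial.induction_on' with
  | monomial m r =>
    have h1 : sc ε e (monomial m r) = monomial m (r * ε ^ (e 0 * m 0 + e 1 * m 1)) := by
      unfold sc
      rw [aeval_monomial, Finsupp.prod_fintype _ _ (by simp), Fin.prod_univ_two, mul_pow, mul_pow,
        algebraMap_eq, monomial_eq, Finsupp.prod_fintype _ _ (by simp), Fin.prod_univ_two]
      rw [← C_pow, ← C_pow, ← pow_mul, ← pow_mul, pow_add, C_mul, C_mul]
      ring
    rw [h1, coeff_monomial, coeff_monomial]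
    split_ifs with hd
    · rw [hd]
    · simp
  | add p q hp hq => rw [map_add, coeff_add, coeff_add, hp, hq, add_mul]

/-- scaling is an automorphism -/
noncomputable def scE {ε : ℂ} (hε : ε ≠ 0) (e : Fin 2 → ℕ) : Bx ≃ₐ[ℂ] Bx :=
  AlgEquiv.ofAlgHom (sc ε e) (sc ε⁻¹ e)
    (by
      apply AlgHom.ext
      intro h
      apply MvPolynomial.ext
      intro d
      rw [AlgHom.comp_apply, sc_coeff, sc_coeff, mul_assoc, ← mul_pow, inv_mul_cancel₀ hε, one_pow,
        mul_one]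
      rfl)
    (by
      apply AlgHom.ext
      intro h
      apply MvPolynomial.ext
      intro d
      rw [AlgHom.comp_apply, sc_coeff, sc_coeff, mul_assoc, ← mul_pow, mul_inv_cancel₀ hε, one_pow,
        mul_one]
      rfl)

lemma scE_apply {ε : ℂ} (hε : ε ≠ 0) (e : Fin 2 → ℕ) (h : Bx) : scE hε e h = sc ε e h := rfl

lemma sc_support {ε : ℂ} (hε : ε ≠ 0) (e : Fin 2 → ℕ) (h : Bx) :
    (sc ε e h).support = h.support := by
  ext d
  rw [mem_support_iff, mem_support_iff, sc_coeff]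
  constructor
  · intro h1 h2
    exact h1 (by rw [h2, zero_mul])
  · intro h1
    exact mul_ne_zero h1 (pow_ne_zero _ hε)

lemma sc_degreeOf {ε : ℂ} (hε : ε ≠ 0) (e : Fin 2 → ℕ) (h : Bx) (i : Fin 2) :
    degreeOf i (sc ε e h) = degreeOf i h := by
  rw [degreeOf_eq_sup, degreeOf_eq_sup, sc_support hε]

lemma sc_expand {ε : ℂ} {p : ℕ} (hε : ε ^ p = 1) (e : Fin 2 → ℕ) (Q : Bx) :
    sc ε e (expand p Q) = expand p Q := by
  apply MvPolynomial.ext
  intro d
  rw [sc_coeff]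
  by_cases h0 : p ∣ d 0
  · by_cases h1 : p ∣ d 1
    · have h2 : p ∣ e 0 * d 0 + e 1 * d 1 := Dvd.dvd.add (h0.mul_left _) (h1.mul_left _)
      obtain ⟨k, hk⟩ := h2
      rw [hk, pow_mul, hε, one_pow, mul_one]
    · rw [coeff_expand_of_not_dvd _ h1, zero_mul]
  · rw [coeff_expand_of_not_dvd _ h0, zero_mul]

lemma expand_mem {p W : ℕ} {Q : Bx} (hQ : Q ∈ Bi W W) : expand p Q ∈ Bi (p * W) (p * W) := by
  classical
  rw [mem_Bi, degreeOf_le_iff, degreeOf_le_iff] at hQ ⊢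
  constructor
  · intro m hm
    have h1 := support_expand_subset (p := p) Q hm
    rw [Finset.mem_image] at h1
    obtain ⟨m', hm', rfl⟩ := h1
    simp only [Finsupp.smul_apply, smul_eq_mul]
    exact Nat.mul_le_mul_left _ (hQ.1 m' hm')
  · intro m hm
    have h1 := support_expand_subset (p := p) Q hm
    rw [Finset.mem_image] at h1
    obtain ⟨m', hm', rfl⟩ := h1
    simp only [Finsupp.smul_apply, smul_eq_mul]
    exact Nat.mul_le_mul_left _ (hQ.2 m' hm')

lemma unit_of_degree {h : Bx} (h0 : h ≠ 0) (hd : ∀ i, degreeOf i h = 0) : IsUnit h := by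
  have h1 : h = C (coeff 0 h) := by
    apply MvPolynomial.ext
    intro m
    rw [coeff_C]
    split_ifs with hm
    · rw [← hm]
    · by_contra hne
      apply hm
      have h2 : m ∈ h.support := mem_support_iff.mpr hne
      ext i
      have h3 := (degreeOf_le_iff.mp (hd i).le) m h2
      rw [Finsupp.zero_apply]
      omega
  rw [h1]
  apply IsUnit.map
  rw [isUnit_iff_ne_zero]
  intro h2
  rw [h2, C_0] at h1
  exact h0 h1

/-- two different translates by `p`-torsion points of an irreducible factor are associated -/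
lemma exists_assoc {p W : ℕ} (hp : p.Prime) (hW : W < p) {Q h : Bx} (hQ : Q ≠ 0)
    (hQB : Q ∈ Bi W W) (hh : Irreducible h) (hd : h ∣ expand p Q) {ε : ℂ} (hε : ε ≠ 0)
    (hεp : ε ^ p = 1) :
    ∃ e e' : Fin p × Fin p, e ≠ e' ∧
      Associated (sc ε ![(e.1 : ℕ), (e.2 : ℕ)] h) (sc ε ![(e'.1 : ℕ), (e'.2 : ℕ)] h) := by
  classical
  by_contra hcon
  push Not at hcon
  have hirr : ∀ e, Irreducible (sc ε e h) := fun e => by
    rw [← scE_apply hε, MulEquiv.irreducible_iff]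
    exact hh
  have hex : expand p Q ≠ 0 := by
    intro h0
    apply hQ
    exact (expand_eq_zero hp.pos).mp h0
  have h1 : ∏ e : Fin p × Fin p, sc ε ![(e.1 : ℕ), (e.2 : ℕ)] h ∣ expand p Q := by
    refine Finset.prod_dvd_of_isRelPrime ?_ fun e _ => ?_
    · intro e _ e' _ hee
      change IsRelPrime _ _
      rw [(hirr _).isRelPrime_iff_not_dvd]
      intro hdv
      exact hcon e e' hee ((hirr _).associated_of_dvd (hirr _) hdv)
    · have := map_dvd (sc ε ![(e.1 : ℕ), (e.2 : ℕ)]) hd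
      rwa [sc_expand hεp] at this
  have h2 := mem_Bi.mp (Bi_of_dvd hex h1 (expand_mem hQB))
  have hdeg : ∀ i, degreeOf i (∏ e : Fin p × Fin p, sc ε ![(e.1 : ℕ), (e.2 : ℕ)] h) =
      p * p * degreeOf i h := by
    intro i
    rw [degreeOf_prod_eq _ _ fun e _ => (hirr _).ne_zero]
    simp only [sc_degreeOf hε]
    rw [Finset.sum_const, Finset.card_univ, Fintype.card_prod, Fintype.card_fin, smul_eq_mul]
  have h3 : ∀ i, degreeOf i h = 0 := by
    intro i
    have h4 : p * p * degreeOf i h ≤ p * W := by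
      rw [← hdeg i]
      fin_cases i
      · exact h2.1
      · exact h2.2
    rw [mul_assoc] at h4
    have h5 := Nat.le_of_mul_le_mul_left h4 hp.pos
    by_contra h6
    have h7 : p * 1 ≤ p * degreeOf i h := Nat.mul_le_mul_left _ (Nat.one_le_iff_ne_zero.mpr h6)
    omega
  exact hh.not_isUnit (unit_of_degree hh.ne_zero h3)

lemma det_dvd {p W : ℕ} (hp : p.Prime) (hW : W < p) {Q h : Bx} (hQ : Q ≠ 0)
    (hQB : Q ∈ Bi W W) (hh : Irreducible h) (hd : h ∣ expand p Q) {d1 d2 d3 : Fin 2 →₀ ℕ}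
    (h1 : d1 ∈ h.support) (h2 : d2 ∈ h.support) (h3 : d3 ∈ h.support) :
    (p : ℤ) ∣ ((d2 0 : ℤ) - d1 0) * ((d3 1 : ℤ) - d1 1) -
      ((d2 1 : ℤ) - d1 1) * ((d3 0 : ℤ) - d1 0) := by
  have hprim : IsPrimitiveRoot (Complex.exp (2 * Real.pi * Complex.I / p)) p :=
    Complex.isPrimitiveRoot_exp p hp.ne_zero
  set ε := Complex.exp (2 * Real.pi * Complex.I / p) with hεdef
  have hε : ε ≠ 0 := Complex.exp_ne_zero _
  obtain ⟨e, e', hne, u, hu⟩ := exists_assoc hp hW hQ hQB hh hd hε hprim.pow_eq_one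
  obtain ⟨c, hc⟩ : ∃ c : ℂ, (u : Bx) = C c := by
    obtain ⟨c, _, hc⟩ := (isUnit_iff_eq_C_of_isReduced).mp u.isUnit
    exact ⟨c, hc⟩
  have key : ∀ d ∈ h.support, ε ^ ((e.1 : ℕ) * d 0 + (e.2 : ℕ) * d 1) * c =
      ε ^ ((e'.1 : ℕ) * d 0 + (e'.2 : ℕ) * d 1) := by
    intro d hdm
    have h4 := congrArg (coeff d) hu
    rw [hc, mul_comm, coeff_C_mul, sc_coeff, sc_coeff, mul_comm c, mul_assoc] at h4
    have h5 := mul_left_cancel₀ (mem_support_iff.mp hdm) h4
    simpa using h5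
  -- congruences
  have cong : ∀ d ∈ h.support, ∀ d' ∈ h.support,
      (p : ℤ) ∣ ((e.1 : ℤ) - e'.1) * ((d' 0 : ℤ) - d 0) + ((e.2 : ℤ) - e'.2) * ((d' 1 : ℤ) - d 1) := by
    intro d hdm d' hdm'
    have k1 := key d hdm
    have k2 := key d' hdm'
    have k3 : ε ^ ((e.1 : ℕ) * d' 0 + (e.2 : ℕ) * d' 1 + ((e'.1 : ℕ) * d 0 + (e'.2 : ℕ) * d 1)) =
        ε ^ ((e'.1 : ℕ) * d' 0 + (e'.2 : ℕ) * d' 1 + ((e.1 : ℕ) * d 0 + (e.2 : ℕ) * d 1)) := by
      rw [pow_add, pow_add (a := ε) (m := (e'.1 : ℕ) * d' 0 + (e'.2 : ℕ) * d' 1), ← k1, ← k2]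
      ring
    have k4 : ε ^ (((e.1 : ℤ) * d' 0 + (e.2 : ℤ) * d' 1 + ((e'.1 : ℤ) * d 0 + (e'.2 : ℤ) * d 1)) -
        ((e'.1 : ℤ) * d' 0 + (e'.2 : ℤ) * d' 1 + ((e.1 : ℤ) * d 0 + (e.2 : ℤ) * d 1))) = 1 := by
      rw [zpow_sub₀ hε, div_eq_one_iff_eq (zpow_ne_zero _ hε)]
      exact_mod_cast k3
    rw [hprim.zpow_eq_one_iff_dvd] at k4
    refine k4.trans (dvd_of_eq ?_)
    ring
  have c2 := cong d1 h1 d2 h2
  have c3 := cong d1 h1 d3 h3
  set α : ℤ := (e.1 : ℤ) - e'.1 with hα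
  set β : ℤ := (e.2 : ℤ) - e'.2 with hβ
  set x : ℤ := (d2 0 : ℤ) - d1 0
  set y : ℤ := (d2 1 : ℤ) - d1 1
  set x' : ℤ := (d3 0 : ℤ) - d1 0
  set y' : ℤ := (d3 1 : ℤ) - d1 1
  have hpp : Prime (p : ℤ) := Nat.prime_iff_prime_int.mp hp
  have m1 : (p : ℤ) ∣ α * (x * y' - y * x') := by
    have : α * (x * y' - y * x') = (α * x + β * y) * y' - (α * x' + β * y') * y := by ring
    rw [this]
    exact dvd_sub (c2.mul_right _) (c3.mul_right _)
  have m2 : (p : ℤ) ∣ β * (x * y' - y * x') := by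
    have : β * (x * y' - y * x') = (α * x' + β * y') * x - (α * x + β * y) * x' := by ring
    rw [this]
    exact dvd_sub (c3.mul_right _) (c2.mul_right _)
  rcases hpp.dvd_or_dvd m1 with hA | hA
  · rcases hpp.dvd_or_dvd m2 with hB | hB
    · exfalso
      apply hne
      have l1 := e.1.2
      have l2 := e.2.2
      have l3 := e'.1.2
      have l4 := e'.2.2
      have zA : α = 0 := Int.eq_zero_of_abs_lt_dvd hA (by rw [abs_lt, hα]; constructor <;> omega)
      have zB : β = 0 := Int.eq_zero_of_abs_lt_dvd hB (by rw [abs_lt, hβ]; constructor <;> omega)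
      apply Prod.ext
      · apply Fin.ext; omega
      · apply Fin.ext; omega
    · exact hB
  · exact hA

end Pool.Agent.J4H57.TD
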