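import Pool.Agent.J4H57.TD.E

/-!
# A curve with many points whose `p`-th powers lie on a curve of small degree, for several `p`,
# contains a translate of a one-dimensional torus
-/

set_option autoImplicit false

open MvPolynomial Finset

namespace Pool.Agent.J4H57.TD

open Pool.Agent.H371R3.GQ

lemma gcd_many {κ : Type} [DecidableEq κ] (P : Finset κ) (hP : P.Nonempty) (H : κ → Bx) {N : ℕ}
    (h0 : ∀ p ∈ P, H p ≠ 0) (hB : ∀ p ∈ P, H p ∈ Bi N N) (Ω : Finset (Fin 2 → ℂ))
    (hv : ∀ p ∈ P, ∀ ω ∈ Ω, eval ω (H p) = 0) :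
    ∃ G : Bx, G ≠ 0 ∧ (∀ p ∈ P, G ∣ H p) ∧
      (Ω.filter fun ω => eval ω G ≠ 0).card ≤ 2 * N ^ 2 * P.card := by
  classical
  induction P using Finset.induction_on with
  | empty => exact absurd hP Finset.not_nonempty_empty
  | insert q P hq ih =>
    rcases P.eq_empty_or_nonempty with rfl | hne
    · refine ⟨H q, h0 q (by simp), ?_, ?_⟩
      · intro p hp
        rw [mem_insert] at hp
        rcases hp with rfl | hp
        · exact dvd_rfl
        · exact absurd hp (Finset.notMem_empty _)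
      · rw [Finset.filter_eq_empty_iff.mpr]
        · simp
        · intro ω hω
          simpa using hv q (by simp) ω hω
    · obtain ⟨G, g1, g2, g3⟩ := ih hne (fun p hp => h0 p (mem_insert_of_mem hp))
        (fun p hp => hB p (mem_insert_of_mem hp)) (fun p hp => hv p (mem_insert_of_mem hp))
      obtain ⟨p0, hp0⟩ := hne
      have hGB : G ∈ Bi N N := Bi_of_dvd (h0 p0 (mem_insert_of_mem hp0)) (g2 p0 hp0)
        (hB p0 (mem_insert_of_mem hp0))
      obtain ⟨G', k1, k2, k3, k4⟩ := gcd_step g1 (h0 q (by simp)) hGB (hB q (by simp))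
        (Ω.filter fun ω => eval ω G = 0) (fun ω hω => (mem_filter.mp hω).2)
        (fun ω hω => hv q (by simp) ω (mem_filter.mp hω).1)
      refine ⟨G', k1, ?_, ?_⟩
      · intro p hp
        rw [mem_insert] at hp
        rcases hp with rfl | hp
        · exact k3
        · exact k2.trans (g2 p hp)
      · have hsub : (Ω.filter fun ω => eval ω G' ≠ 0) ⊆ (Ω.filter fun ω => eval ω G ≠ 0) ∪
            ((Ω.filter fun ω => eval ω G = 0).filter fun ω => eval ω G' ≠ 0) := by
          intro ω hω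
          rw [mem_filter] at hω
          by_cases q1 : eval ω G = 0
          · refine mem_union_right _ ?_
            rw [mem_filter, mem_filter]
            exact ⟨⟨hω.1, q1⟩, hω.2⟩
          · refine mem_union_left _ ?_
            rw [mem_filter]
            exact ⟨hω.1, q1⟩
        refine (card_le_card hsub).trans ((card_union_le _ _).trans ?_)
        rw [card_insert_of_notMem hq]
        nlinarith [g3, k4]

lemma irr_many (Ω : Finset (Fin 2 → ℂ)) (M : ℕ) (G : Bx) (hG : G ≠ 0)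
    (h : ∀ g, Irreducible g → g ∣ G → (Ω.filter fun ω => eval ω g = 0).card ≤ M) :
    (Ω.filter fun ω => eval ω G = 0).card ≤ (degreeOf 0 G + degreeOf 1 G) * M := by
  classical
  induction G using WfDvdMonoid.induction_on_irreducible with
  | zero => exact absurd rfl hG
  | unit u hu =>
    rw [Finset.filter_eq_empty_iff.mpr]
    · simp
    · intro ω _ h0
      have := hu.map (eval ω)
      rw [h0] at this
      exact not_isUnit_zero this
  | mul a i ha hi ih =>
    have hi0 := hi.ne_zero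
    have h1 := ih ha (fun g hg hd => h g hg (hd.mul_left i))
    have h2 := h i hi (Dvd.intro _ rfl)
    have hsub : (Ω.filter fun ω => eval ω (i * a) = 0) ⊆ (Ω.filter fun ω => eval ω i = 0) ∪
        (Ω.filter fun ω => eval ω a = 0) := by
      intro ω hω
      rw [mem_filter, map_mul] at hω
      rw [mem_union, mem_filter, mem_filter]
      rcases mul_eq_zero.mp hω.2 with h3 | h3
      · exact Or.inl ⟨hω.1, h3⟩
      · exact Or.inr ⟨hω.1, h3⟩
    refine (card_le_card hsub).trans ((card_union_le _ _).trans ?_)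
    rw [degreeOf_mul_eq hi0 ha, degreeOf_mul_eq hi0 ha]
    have h4 : 1 ≤ degreeOf 0 i + degreeOf 1 i := by
      by_contra hc
      have hd : ∀ j, degreeOf j i = 0 := by
        intro j
        fin_cases j
        · change degreeOf 0 i = 0
          omega
        · change degreeOf 1 i = 0
          omega
      exact hi.not_isUnit (unit_of_degree hi0 hd)
    nlinarith [h1, h2, Nat.mul_le_mul_right M h4]

/-- integral multiples of a primitive vector -/
lemma prim_vec {x y : ℤ} (h : x ≠ 0 ∨ y ≠ 0) : ∃ u v : ℤ, (u ≠ 0 ∨ v ≠ 0) ∧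
    ∀ x' y' : ℤ, x * y' = y * x' → ∃ k : ℤ, x' = k * u ∧ y' = k * v := by
  have hg : 0 < Int.gcd x y := by
    rw [Nat.pos_iff_ne_zero, Ne, Int.gcd_eq_zero_iff]
    rintro ⟨h1, h2⟩
    rcases h with h | h
    · exact h h1
    · exact h h2
  obtain ⟨u, v, huv, hx, hy⟩ := Int.exists_gcd_one hg
  have hg0 : (Int.gcd x y : ℤ) ≠ 0 := by exact_mod_cast hg.ne'
  generalize (Int.gcd x y : ℤ) = g at hx hy hg0
  refine ⟨u, v, ?_, ?_⟩
  · by_contra hc
    push Not at hc
    rw [hc.1, hc.2] at huv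
    simp at huv
  · intro x' y' hxy
    have hb := Int.gcd_eq_gcd_ab u v
    rw [huv] at hb
    have h1 : u * y' = v * x' := by
      rw [hx, hy] at hxy
      have : g * (u * y') = g * (v * x') := by linarith
      exact mul_left_cancel₀ hg0 this
    refine ⟨Int.gcdA u v * x' + Int.gcdB u v * y', ?_, ?_⟩
    · have e1 : (Int.gcdA u v * x' + Int.gcdB u v * y') * u =
          Int.gcdA u v * x' * u + Int.gcdB u v * (u * y') := by ring
      rw [e1, h1]
      have e2 : Int.gcdA u v * x' * u + Int.gcdB u v * (v * x') =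
        (u * Int.gcdA u v + v * Int.gcdB u v) * x' := by ring
      rw [e2, ← hb]
      simp
    · have e1 : (Int.gcdA u v * x' + Int.gcdB u v * y') * v =
          Int.gcdA u v * (v * x') + Int.gcdB u v * y' * v := by ring
      rw [e1, ← h1]
      have e2 : Int.gcdA u v * (u * y') + Int.gcdB u v * y' * v =
        (u * Int.gcdA u v + v * Int.gcdB u v) * y' := by ring
      rw [e2, ← hb]
      simp

/-- polynomials with collinear support -/
lemma collinear_count {h : Bx} {N s : ℕ} (hB : h ∈ Bi N N)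
    (hcol : ∀ d1 ∈ h.support, ∀ d2 ∈ h.support, ∀ d3 ∈ h.support,
      ((d2 0 : ℤ) - d1 0) * ((d3 1 : ℤ) - d1 1) = ((d2 1 : ℤ) - d1 1) * ((d3 0 : ℤ) - d1 0))
    (h0 : h ≠ 0) (Ω : Finset (Fin 2 → ℂ)) (hnz : ∀ ω ∈ Ω, ω 0 ≠ 0 ∧ ω 1 ≠ 0)
    (hcard : N * s < (Ω.filter fun ω => eval ω h = 0).card) :
    ∃ u v : ℤ, (u ≠ 0 ∨ v ≠ 0) ∧ ∃ z : ℂ, s < (Ω.filter fun ω => ω 0 ^ u * ω 1 ^ v = z).card := by
  classical
  obtain ⟨d1, hd1⟩ := MvPolynomial.support_nonempty.mpr h0
  -- a second point of the support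
  obtain ⟨d2, hd2, hne⟩ : ∃ d2 ∈ h.support, d2 ≠ d1 := by
    by_contra hc
    push Not at hc
    have hs : h.support = {d1} := by
      ext d
      rw [mem_singleton]
      exact ⟨fun hd => hc d hd, fun hd => hd ▸ hd1⟩
    have hpos : 0 < (Ω.filter fun ω => eval ω h = 0).card := lt_of_le_of_lt (Nat.zero_le _) hcard
    obtain ⟨ω, hω⟩ := Finset.card_pos.mp hpos
    rw [mem_filter, eval_eq', hs, sum_singleton, Fin.prod_univ_two] at hω
    obtain ⟨n0, n1⟩ := hnz ω hω.1
    exact mul_ne_zero (mem_support_iff.mp hd1) (mul_ne_zero (pow_ne_zero _ n0) (pow_ne_zero _ n1))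
      hω.2
  have hxy : (d2 0 : ℤ) - d1 0 ≠ 0 ∨ (d2 1 : ℤ) - d1 1 ≠ 0 := by
    by_contra hc
    push Not at hc
    apply hne
    ext i
    fin_cases i
    · change d2 0 = d1 0
      omega
    · change d2 1 = d1 1
      omega
  obtain ⟨u, v, huv, hk⟩ := prim_vec hxy
  have hk' : ∀ d ∈ h.support, ∃ k : ℤ, (d 0 : ℤ) - d1 0 = k * u ∧ (d 1 : ℤ) - d1 1 = k * v :=
    fun d hd => hk _ _ (hcol d1 hd1 d2 hd2 d hd)
  choose! k hk0 hk1 using hk'
  obtain ⟨dm, hdm, hmin⟩ := Finset.exists_min_image h.support k ⟨d1, hd1⟩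
  -- the polynomial in one variable
  set R : Polynomial ℂ := ∑ d ∈ h.support, Polynomial.C (coeff d h) *
    Polynomial.X ^ (k d - k dm).toNat with hR
  have hkinj : ∀ d ∈ h.support, ∀ d' ∈ h.support, k d = k d' → d = d' := by
    intro d hd d' hd' hkk
    have e0 := hk0 d hd
    have e1 := hk1 d hd
    rw [hkk, ← hk0 d' hd'] at e0
    rw [hkk, ← hk1 d' hd'] at e1
    ext i
    fin_cases i
    · change d 0 = d' 0
      omega
    · change d 1 = d' 1
      omega
  have hR0 : R ≠ 0 := by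
    intro hc
    have h1 : R.coeff 0 = coeff dm h := by
      rw [hR, Polynomial.finsetSum_coeff, Finset.sum_eq_single dm]
      · simp
      · intro d hd hdd
        rw [Polynomial.coeff_C_mul, Polynomial.coeff_X_pow, if_neg, mul_zero]
        intro h2
        apply hdd
        apply hkinj d hd dm hdm
        have := hmin d hd
        omega
      · intro h2
        exact absurd hdm h2
    rw [hc, Polynomial.coeff_zero] at h1
    exact mem_support_iff.mp hdm h1.symm
  have hdeg : R.natDegree ≤ N := by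
    refine Polynomial.natDegree_sum_le_of_forall_le _ _ fun d hd => ?_
    refine (Polynomial.natDegree_C_mul_X_pow_le _ _).trans ?_
    rw [mem_Bi, degreeOf_le_iff, degreeOf_le_iff] at hB
    have a0 := hB.1 d hd
    have a1 := hB.2 d hd
    have b0 := hB.1 dm hdm
    have b1 := hB.2 dm hdm
    have e0 : (d 0 : ℤ) - dm 0 = (k d - k dm) * u := by
      have := hk0 d hd
      have := hk0 dm hdm
      linarith
    have e1 : (d 1 : ℤ) - dm 1 = (k d - k dm) * v := by
      have := hk1 d hd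
      have := hk1 dm hdm
      linarith
    have hge : 0 ≤ k d - k dm := by have := hmin d hd; omega
    have key : ∀ w : ℤ, w ≠ 0 → |(k d - k dm) * w| ≤ N → k d - k dm ≤ N := by
      intro w hw hle
      rw [abs_mul, abs_of_nonneg hge] at hle
      have : 1 ≤ |w| := Int.one_le_abs hw
      nlinarith
    have hfin : k d - k dm ≤ N := by
      rcases huv with hu | hv
      · apply key u hu
        rw [← e0, abs_le]
        constructor <;> omega
      · apply key v hv
        rw [← e1, abs_le]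
        constructor <;> omega
    omega
  -- zeros of `h` give roots of `R`
  have hroot : ∀ ω ∈ Ω.filter fun ω => eval ω h = 0, ω 0 ^ u * ω 1 ^ v ∈ R.roots.toFinset := by
    intro ω hω
    rw [mem_filter] at hω
    obtain ⟨n0, n1⟩ := hnz ω hω.1
    rw [Multiset.mem_toFinset, Polynomial.mem_roots hR0, Polynomial.IsRoot.def]
    set z := ω 0 ^ u * ω 1 ^ v with hz
    have hz0 : z ≠ 0 := mul_ne_zero (zpow_ne_zero _ n0) (zpow_ne_zero _ n1)
    have hev : Polynomial.eval z R = ∑ d ∈ h.support, coeff d h * z ^ (k d - k dm).toNat := by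
      rw [hR, Polynomial.eval_finsetSum]
      refine Finset.sum_congr rfl fun d _ => ?_
      simp
    have h2 : eval ω h = (ω 0 ^ dm 0 * ω 1 ^ dm 1) * Polynomial.eval z R := by
      rw [hev, eval_eq', Finset.mul_sum]
      refine Finset.sum_congr rfl fun d hd => ?_
      rw [Fin.prod_univ_two]
      have hge : 0 ≤ k d - k dm := by have := hmin d hd; omega
      have e0 : (d 0 : ℤ) = dm 0 + (k d - k dm) * u := by
        have := hk0 d hd
        have := hk0 dm hdm
        linarith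
      have e1 : (d 1 : ℤ) = dm 1 + (k d - k dm) * v := by
        have := hk1 d hd
        have := hk1 dm hdm
        linarith
      have f0 : ω 0 ^ (d 0) = ω 0 ^ (dm 0) * (ω 0 ^ u) ^ (k d - k dm) := by
        rw [← zpow_natCast, e0, zpow_add₀ n0, zpow_natCast, mul_comm (k d - k dm) u, zpow_mul]
      have f1 : ω 1 ^ (d 1) = ω 1 ^ (dm 1) * (ω 1 ^ v) ^ (k d - k dm) := by
        rw [← zpow_natCast, e1, zpow_add₀ n1, zpow_natCast, mul_comm (k d - k dm) v, zpow_mul]
      have f2 : z ^ (k d - k dm).toNat = z ^ (k d - k dm) := by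
        rw [← zpow_natCast, Int.toNat_of_nonneg hge]
      rw [f0, f1, f2, hz, mul_zpow]
      ring
    rw [h2] at hω
    exact (mul_eq_zero.mp hω.2).resolve_left (mul_ne_zero (pow_ne_zero _ n0) (pow_ne_zero _ n1))
  have hcr : R.roots.toFinset.card ≤ N :=
    (Multiset.toFinset_card_le _).trans ((Polynomial.card_roots' R).trans hdeg)
  obtain ⟨z, hz, hzc⟩ := Finset.exists_lt_card_fiber_of_mul_lt_card_of_maps_to hroot
    (n := s) (lt_of_le_of_lt (Nat.mul_le_mul_right s hcr) hcard)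
  refine ⟨u, v, huv, z, lt_of_lt_of_le hzc (card_le_card ?_)⟩
  intro ω hω
  rw [mem_filter, mem_filter] at hω
  rw [mem_filter]
  exact ⟨hω.1.1, hω.2⟩

theorem final_zero {P : Finset ℕ} {W X s : ℕ} (hprime : ∀ p ∈ P, p.Prime)
    (hWp : ∀ p ∈ P, W < p) (hpX : ∀ p ∈ P, p ≤ X) (hne : P.Nonempty)
    (hprod : 2 * (X * W) ^ 2 < ∏ p ∈ P, p)
    {Q : Bx} (hQ : Q ≠ 0) (hQB : Q ∈ Bi W W) (Θ : Finset (Fin 2 → ℂ))
    (hnz : ∀ θ ∈ Θ, θ 0 ≠ 0 ∧ θ 1 ≠ 0)
    (hv : ∀ p ∈ P, ∀ θ ∈ Θ, eval (θ ^ p) Q = 0)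
    (hcard : 2 * (X * W) ^ 2 * P.card + 2 * (X * W) ^ 2 * s < Θ.card) :
    ∃ u v : ℤ, (u ≠ 0 ∨ v ≠ 0) ∧ ∃ z : ℂ, s < (Θ.filter fun ω => ω 0 ^ u * ω 1 ^ v = z).card := by
  classical
  set N := X * W with hN
  have hex0 : ∀ p ∈ P, expand p Q ≠ 0 := by
    intro p hp h0
    exact hQ ((expand_eq_zero (hprime p hp).pos).mp h0)
  have hexB : ∀ p ∈ P, expand p Q ∈ Bi N N := by
    intro p hp
    have := mem_Bi.mp (expand_mem (p := p) hQB)
    rw [mem_Bi]
    have h2 : p * W ≤ N := Nat.mul_le_mul_right W (hpX p hp)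
    exact ⟨this.1.trans h2, this.2.trans h2⟩
  have hexv : ∀ p ∈ P, ∀ θ ∈ Θ, eval θ (expand p Q) = 0 := by
    intro p hp θ hθ
    rw [← hv p hp θ hθ]
    exact eval_expand _ _ _
  obtain ⟨G, g1, g2, g3⟩ := gcd_many P hne (fun p => expand p Q) hex0 hexB Θ hexv
  obtain ⟨p0, hp0⟩ := hne
  have hGB : G ∈ Bi N N := Bi_of_dvd (hex0 p0 hp0) (g2 p0 hp0) (hexB p0 hp0)
  -- an irreducible factor with many zeros
  obtain ⟨h, hh, hhG, hhc⟩ : ∃ h, Irreducible h ∧ h ∣ G ∧
      N * s < (Θ.filter fun ω => eval ω h = 0).card := by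
    by_contra hc
    push Not at hc
    have h1 := irr_many Θ (N * s) G g1 hc
    have h2 := mem_Bi.mp hGB
    have h3 : (degreeOf 0 G + degreeOf 1 G) * (N * s) ≤ 2 * N * (N * s) :=
      Nat.mul_le_mul_right _ (by omega)
    have h4 : (Θ.filter fun ω => eval ω G = 0).card + (Θ.filter fun ω => ¬ eval ω G = 0).card =
        Θ.card := Finset.card_filter_add_card_filter_not _
    have h5 : 2 * N * (N * s) = 2 * N ^ 2 * s := by ring
    have h6 : (Θ.filter fun ω => ¬ eval ω G = 0).card ≤ 2 * N ^ 2 * P.card := g3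
    omega
  have hhB : h ∈ Bi N N := Bi_of_dvd g1 hhG hGB
  refine collinear_count hhB ?_ hh.ne_zero Θ hnz hhc
  intro d1 hd1 d2 hd2 d3 hd3
  have hdv : ∀ p ∈ P, (p : ℤ) ∣ ((d2 0 : ℤ) - d1 0) * ((d3 1 : ℤ) - d1 1) -
      ((d2 1 : ℤ) - d1 1) * ((d3 0 : ℤ) - d1 0) := fun p hp =>
    det_dvd (hprime p hp) (hWp p hp) hQ hQB hh (hhG.trans (g2 p hp)) hd1 hd2 hd3
  have hprd : ((∏ p ∈ P, p : ℕ) : ℤ) ∣ ((d2 0 : ℤ) - d1 0) * ((d3 1 : ℤ) - d1 1) -
      ((d2 1 : ℤ) - d1 1) * ((d3 0 : ℤ) - d1 0) := by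
    rw [Nat.cast_prod]
    refine Finset.prod_dvd_of_coprime ?_ hdv
    intro p hp q hq hpq
    change IsCoprime (p : ℤ) (q : ℤ)
    rw [Nat.isCoprime_iff_coprime]
    exact (Nat.coprime_primes (hprime p hp) (hprime q hq)).mpr hpq
  have hb : ∀ d ∈ h.support, d 0 ≤ N ∧ d 1 ≤ N := by
    intro d hd
    rw [mem_Bi, degreeOf_le_iff, degreeOf_le_iff] at hhB
    exact ⟨hhB.1 d hd, hhB.2 d hd⟩
  have b1 := hb d1 hd1
  have b2 := hb d2 hd2
  have b3 := hb d3 hd3
  have habs : |((d2 0 : ℤ) - d1 0) * ((d3 1 : ℤ) - d1 1) -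
      ((d2 1 : ℤ) - d1 1) * ((d3 0 : ℤ) - d1 0)| ≤ 2 * (N : ℤ) ^ 2 := by
    have k1 : |(d2 0 : ℤ) - d1 0| ≤ N := by rw [abs_le]; constructor <;> omega
    have k2 : |(d3 1 : ℤ) - d1 1| ≤ N := by rw [abs_le]; constructor <;> omega
    have k3 : |(d2 1 : ℤ) - d1 1| ≤ N := by rw [abs_le]; constructor <;> omega
    have k4 : |(d3 0 : ℤ) - d1 0| ≤ N := by rw [abs_le]; constructor <;> omega
    have k5 := abs_sub (((d2 0 : ℤ) - d1 0) * ((d3 1 : ℤ) - d1 1))
      (((d2 1 : ℤ) - d1 1) * ((d3 0 : ℤ) - d1 0))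
    rw [abs_mul, abs_mul] at k5
    have k6 : |(d2 0 : ℤ) - d1 0| * |(d3 1 : ℤ) - d1 1| ≤ N * N :=
      mul_le_mul k1 k2 (abs_nonneg _) (by positivity)
    have k7 : |(d2 1 : ℤ) - d1 1| * |(d3 0 : ℤ) - d1 0| ≤ N * N :=
      mul_le_mul k3 k4 (abs_nonneg _) (by positivity)
    calc _ ≤ _ := k5
      _ ≤ 2 * (N : ℤ) ^ 2 := by nlinarith
  have hlt : 2 * (N : ℤ) ^ 2 < ((∏ p ∈ P, p : ℕ) : ℤ) := by exact_mod_cast hprod
  have := Int.eq_zero_of_abs_lt_dvd hprd (lt_of_le_of_lt habs hlt)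
  linarith

end Pool.Agent.J4H57.TD
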