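import Pool.Agent.J4H57.TD.B
import Pool.Agent.H388SL.DobC

/-!
# The number of primes with a large bad part
-/

set_option autoImplicit false

open Polynomial Finset NumberField Module

namespace Pool.Agent.J4H57.TD

open Pool.Agent.H388SL

variable {K : Type*} [Field K] [NumberField K]

lemma adjoin_top {a : K} (h : CInj a) : Algebra.adjoin ℚ {a} = ⊤ := by
  have hint : IsIntegral ℚ a := Algebra.IsIntegral.isIntegral a
  have h1 : IntermediateField.adjoin ℚ {a} = ⊤ := by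
    rw [← IntermediateField.finrank_eq_one_iff_eq_top]
    have h2 := sum_embeddings' (M := ℕ) a (fun z => if z = (IsAlgClosed.lift : K →ₐ[ℚ] ℂ) a then 1 else 0)
    classical
    have h3 : (∑ σ : K →ₐ[ℚ] ℂ, if σ a = (IsAlgClosed.lift : K →ₐ[ℚ] ℂ) a then 1 else 0) = 1 := by
      rw [Finset.sum_eq_single (IsAlgClosed.lift : K →ₐ[ℚ] ℂ)]
      · simp
      · intro τ _ hτ
        rw [if_neg]
        intro h4
        exact hτ (h h4)
      · intro h4
        exact absurd (mem_univ _) h4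
    rw [h3, smul_eq_mul] at h2
    exact Nat.eq_one_of_mul_eq_one_right h2.symm
  have h2 := IntermediateField.adjoin_simple_toSubalgebra_of_isAlgebraic hint.isAlgebraic
  rw [h1] at h2
  rw [← h2]
  rfl

lemma norm_eq_prod (w : 𝓞 K) : ((|Algebra.norm ℤ w| : ℤ) : ℝ) = ∏ σ : K →ₐ[ℚ] ℂ, ‖σ (w : K)‖ := by
  have h1 := Algebra.norm_eq_prod_embeddings ℚ ℂ (w : K)
  have h2 : (Algebra.norm ℚ (w : K)) = ((Algebra.norm ℤ w : ℤ) : ℚ) := by
    have := Algebra.norm_localization ℤ (nonZeroDivisors ℤ) (Rₘ := ℚ) (Sₘ := K) w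
    simpa using this
  rw [← norm_prod, ← h1, h2]
  simp

lemma conj_dd [DecidableEq (K →ₐ[ℚ] ℂ)] {a : 𝓞 K} (hc : CInj (a : K)) (σ : K →ₐ[ℚ] ℂ) :
    ‖σ (dd a : K)‖ = ∏ τ ∈ Finset.univ.erase σ, ‖σ (a : K) - τ (a : K)‖ := by
  have hint : IsIntegral ℤ (a : K) := a.2
  have h0 : minpoly ℤ a = minpoly ℤ (a : K) :=
    (minpoly.algebraMap_eq (RingOfIntegers.coe_injective) a).symm
  have h0' : ((dd a : 𝓞 K) : K) = aeval (a : K) (derivative (minpoly ℤ (a : K))) := by
    rw [← h0]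
    unfold dd
    exact (aeval_algebraMap_apply K a _).symm
  rw [h0', map_aevalZ]
  have h1 : (derivative (minpoly ℤ (a : K))).map (algebraMap ℤ ℂ) =
      derivative (∏ τ : K →ₐ[ℚ] ℂ, (X - C (τ (a : K)))) := by
    rw [← Polynomial.derivative_map, ← minpoly_map_eq hc,
      minpoly.isIntegrallyClosed_eq_field_fractions' ℚ hint, Polynomial.map_map]
    rfl
  rw [Polynomial.aeval_def, ← Polynomial.eval_map, h1, Polynomial.derivative_prod_finset,
    Polynomial.eval_finsetSum]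
  rw [Finset.sum_eq_single σ]
  · rw [Polynomial.eval_mul, Polynomial.eval_prod, norm_mul, norm_prod]
    simp
  · intro τ _ hτ
    rw [Polynomial.eval_mul, Polynomial.eval_prod]
    rw [Finset.prod_eq_zero (i := σ)]
    · simp
    · simp [Ne.symm hτ]
    · simp
  · simp

/-- the bound for the discriminant -/
theorem log_disc {a : 𝓞 K} (hc : CInj (a : K)) :
    Real.log (|Algebra.norm ℤ (dd a)| : ℤ) ≤
      2 * finrank ℚ K * lam (a : K) + finrank ℚ K + finrank ℚ K * Real.log (finrank ℚ K) := by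
  classical
  set D := finrank ℚ K with hD
  have hD1 : 1 ≤ D := finrank_pos
  have hD1' : (1 : ℝ) ≤ D := by exact_mod_cast hD1
  have hcard : Fintype.card (K →ₐ[ℚ] ℂ) = D := AlgHom.card ℚ K ℂ
  have ht0 : (0 : ℝ) ≤ 1 - 1 / D := by
    rw [sub_nonneg, div_le_one (by linarith)]; exact hD1'
  have ht1 : 1 - 1 / (D : ℝ) < 1 := by
    have : (0 : ℝ) < 1 / D := by positivity
    linarith
  have hE := energy (Finset.univ : Finset (K →ₐ[ℚ] ℂ)) (fun _ => (1 : ℝ)) (fun _ _ => zero_le_one)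
    (fun σ => σ (a : K)) (fun σ _ τ _ hne h => hne (hc h)) ht0 ht1
  simp only [one_mul, one_pow, Finset.sum_const, Finset.card_univ, hcard, nsmul_eq_mul,
    mul_one] at hE
  have e1 : Real.log (|Algebra.norm ℤ (dd a)| : ℤ) = ∑ σ : K →ₐ[ℚ] ℂ, ∑ τ : K →ₐ[ℚ] ℂ,
      (if σ = τ then (0 : ℝ) else Real.log ‖σ (a : K) - τ (a : K)‖) := by
    rw [norm_eq_prod, Real.log_prod]
    · refine Finset.sum_congr rfl fun σ _ => ?_
      rw [conj_dd hc, Real.log_prod, ← Finset.add_sum_erase _ _ (Finset.mem_univ σ), if_pos rfl,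
        zero_add]
      · refine Finset.sum_congr rfl fun τ hτ => ?_
        rw [if_neg (Finset.ne_of_mem_erase hτ).symm]
      · intro τ hτ h
        exact (Finset.ne_of_mem_erase hτ) (hc (sub_eq_zero.mp (norm_eq_zero.mp h))).symm
    · intro σ _
      rw [conj_dd hc]
      intro h
      obtain ⟨τ, hτ, h⟩ := Finset.prod_eq_zero_iff.mp h
      exact (Finset.ne_of_mem_erase hτ) (hc (sub_eq_zero.mp (norm_eq_zero.mp h))).symm
  rw [e1]
  have e2 : Real.log (1 / (1 - (1 - 1 / (D : ℝ)))) = Real.log D := by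
    congr 1
    field_simp
    ring
  have e3 : (D : ℝ) ^ 2 * Real.log (2 / (1 + (1 - 1 / (D : ℝ)))) ≤ D := by
    have h1 : 2 / (1 + (1 - 1 / (D : ℝ))) = 2 * D / (2 * D - 1) := by
      have h7 : (0 : ℝ) < 2 * D - 1 := by linarith
      have h8 : 1 + (1 - 1 / (D : ℝ)) = (2 * D - 1) / D := by field_simp; ring
      rw [h8, div_div_eq_mul_div]
    have h2 : (0 : ℝ) < 2 * D / (2 * D - 1) := by
      apply div_pos <;> linarith
    have h3 := Real.log_le_sub_one_of_pos h2
    rw [h1]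
    have h4 : 2 * (D : ℝ) / (2 * D - 1) - 1 ≤ 1 / D := by
      have h5 : (0 : ℝ) < 2 * D - 1 := by linarith
      rw [div_sub_one h5.ne', div_le_div_iff₀ h5 (by linarith)]
      nlinarith
    calc (D : ℝ) ^ 2 * Real.log (2 * D / (2 * D - 1)) ≤ (D : ℝ) ^ 2 * (1 / (D : ℝ)) := by
          apply mul_le_mul_of_nonneg_left _ (by positivity)
          linarith
      _ = (D : ℝ) := by field_simp
  rw [e2] at hE
  have e4 : 0 ≤ (1 - 1 / (D : ℝ)) * ‖∑ σ : K →ₐ[ℚ] ℂ, ((1 : ℝ) : ℂ) * H388SL.refl (σ (a : K))‖ ^ 2 :=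
    mul_nonneg ht0 (by positivity)
  have e5 : (∑ σ : K →ₐ[ℚ] ℂ, Real.log (max 1 ‖σ (a : K)‖)) = lam (a : K) := rfl
  rw [e5] at hE
  linarith

/-- few primes have a large bad part -/
theorem card_bb {a : 𝓞 K} (hc : CInj (a : K)) (P : Finset ℕ) (hP : ∀ p ∈ P, p.Prime)
    (hlarge : ∀ p ∈ P, finrank ℚ K ≤ p ^ 6)
    (hbad : ∀ p ∈ P, (p : ℝ) ^ finrank ℚ K < (Ideal.absNorm (bb a p) : ℝ) ^ 2)
    (h3 : 3 ≤ finrank ℚ K) (hl : 2 * lam (a : K) ≤ Real.log (finrank ℚ K)) : P.card ≤ 72 := by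
  set D := finrank ℚ K with hD
  have hD3 : (3 : ℝ) ≤ D := by exact_mod_cast h3
  have hlogD : 1 ≤ Real.log D := by
    rw [Real.le_log_iff_exp_le (by linarith)]
    have := Real.exp_one_lt_d9
    linarith
  have h1 := prod_bad (a := a) P hP
  have h2 : ((∏ p ∈ P, (Ideal.absNorm (bb a p) : ℤ) : ℤ) : ℝ) ≤
      ((|Algebra.norm ℤ (dd a)| : ℤ) : ℝ) ^ 2 := by
    have : ((|Algebra.norm ℤ (dd a)| : ℤ) : ℝ) ^ 2 = (((Algebra.norm ℤ (dd a)) ^ 2 : ℤ) : ℝ) := by
      push_cast
      rw [sq_abs]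
    rw [this]
    exact_mod_cast h1
  push_cast at h2
  have hbpos : ∀ p ∈ P, (0 : ℝ) < Ideal.absNorm (bb a p) := by
    intro p hp
    have hb := hbad p hp
    have hpp : (0 : ℝ) < p := by exact_mod_cast (hP p hp).pos
    have h4 : (0 : ℝ) < (Ideal.absNorm (bb a p) : ℝ) ^ 2 := lt_trans (by positivity) hb
    have h5 : (0 : ℝ) ≤ Ideal.absNorm (bb a p) := Nat.cast_nonneg _
    rcases h5.lt_or_eq with h | h
    · exact h
    · rw [← h] at h4
      norm_num at h4
  have h4 := Real.log_le_log (Finset.prod_pos hbpos) h2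
  rw [Real.log_prod fun p hp => (hbpos p hp).ne', Real.log_pow] at h4
  have h5 : ∀ p ∈ P, (D : ℝ) * (Real.log D / 12) ≤ Real.log (Ideal.absNorm (bb a p)) := by
    intro p hp
    have hpp : (0 : ℝ) < p := by exact_mod_cast (hP p hp).pos
    have h6 := Real.log_le_log (by positivity) (hbad p hp).le
    rw [Real.log_pow, Real.log_pow] at h6
    have h7 : Real.log D ≤ 6 * Real.log p := by
      have h8 : (D : ℝ) ≤ (p : ℝ) ^ 6 := by exact_mod_cast hlarge p hp
      have h9 := Real.log_le_log (by linarith) h8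
      rw [Real.log_pow] at h9
      exact_mod_cast h9
    push_cast at h6
    have h8 : (D : ℝ) * (Real.log D / 6) ≤ D * Real.log p := by
      apply mul_le_mul_of_nonneg_left _ (by linarith)
      linarith
    linarith
  have h6 := Finset.sum_le_sum h5
  rw [Finset.sum_const, nsmul_eq_mul] at h6
  have h7 := log_disc hc
  rw [← hD] at h7
  push_cast at h4 h7
  have hlam := lam_nonneg (a : K)
  have h8 : (P.card : ℝ) * (D * (Real.log D / 12)) ≤ 2 * (3 * (D * Real.log D)) := by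
    have h9 : 2 * (D : ℝ) * lam (a : K) ≤ D * Real.log D := by nlinarith
    have h10 : (D : ℝ) ≤ D * Real.log D := by nlinarith
    linarith
  have h9 : 0 < D * Real.log D := by positivity
  have h10 : (P.card : ℝ) ≤ 72 := by
    by_contra hcon
    push Not at hcon
    nlinarith
  exact_mod_cast h10

end Pool.Agent.J4H57.TD
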