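import Pool.Agent.J4H57.TD.C
import Pool.Agent.J4H57.TD.G

/-!
# Auxiliary polynomials with a given shape, vanishing at most of the points `(σ a ^ p, σ b ^ p)`
-/

set_option autoImplicit false

open Polynomial Finset NumberField Module

namespace Pool.Agent.J4H57.TD

open Pool.Agent.H388SL

variable {K : Type*} [Field K] [NumberField K]

lemma siegel_cond {a b : K} {A B N : ℕ} (hA : 0 < A) (hB : 0 < B) (hAN : A ≤ N) (hBN : B ≤ N)
    (hND : N ≤ finrank ℚ K) (h9 : 9 ≤ finrank ℚ K)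
    (hAB : 2 * 48 ^ 2 * 101 * finrank ℚ K ≤ A * B)
    (hL : (N : ℝ) * (lam a + lam b) ≤ finrank ℚ K * Real.log (finrank ℚ K)) :
    ∏ σ : K →ₐ[ℚ] ℂ, (9 * RR A B 48 (finrank ℚ K) a b σ) ^ (2 * 48 ^ 2) <
      ((finrank ℚ K : ℕ) + 1 : ℝ) ^ (A * B) := by
  set D := finrank ℚ K with hD
  have hcard : Fintype.card (K →ₐ[ℚ] ℂ) = D := AlgHom.card ℚ K ℂ
  have hD9 : (9 : ℝ) ≤ D := by exact_mod_cast h9
  have hDpos : 0 < D := by omega
  have hcoef : 0 < A * B * D * (A * B) ^ 48 := by positivity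
  have hcoef' : (0 : ℝ) < ((A * B * D * (A * B) ^ 48 : ℕ) : ℝ) := by exact_mod_cast hcoef
  have hm : ∀ z : ℂ, (0 : ℝ) < max 1 ‖z‖ := fun z => lt_of_lt_of_le one_pos (le_max_left _ _)
  have hRpos : ∀ σ : K →ₐ[ℚ] ℂ, 0 < RR A B 48 D a b σ := by
    intro σ
    unfold RR
    have h1 := hm (σ a)
    have h2 := hm (σ b)
    positivity
  have hlogR : ∀ σ : K →ₐ[ℚ] ℂ, Real.log ((9 * RR A B 48 D a b σ) ^ (2 * 48 ^ 2)) =
      ((2 * 48 ^ 2 : ℕ) : ℝ) * (Real.log 9 + Real.log ((A * B * D * (A * B) ^ 48 : ℕ) : ℝ) +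
        A * Real.log (max 1 ‖σ a‖) + B * Real.log (max 1 ‖σ b‖)) := by
    intro σ
    rw [Real.log_pow, Real.log_mul (by norm_num) (hRpos σ).ne']
    unfold RR
    rw [Real.log_mul hcoef'.ne' (mul_pos (pow_pos (hm _) _) (pow_pos (hm _) _)).ne',
      Real.log_mul (pow_pos (hm _) _).ne' (pow_pos (hm _) _).ne', Real.log_pow, Real.log_pow]
    ring
  have hlogD : 0 ≤ Real.log D := Real.log_nonneg (by linarith)
  have hcl : Real.log ((A * B * D * (A * B) ^ 48 : ℕ) : ℝ) ≤ 99 * Real.log D := by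
    have h1 : A * B * D * (A * B) ^ 48 ≤ D ^ 99 := by
      have h2 : A * B ≤ D * D := Nat.mul_le_mul (hAN.trans hND) (hBN.trans hND)
      calc A * B * D * (A * B) ^ 48 ≤ (D * D) * D * (D * D) ^ 48 :=
            Nat.mul_le_mul (Nat.mul_le_mul_right _ h2) (Nat.pow_le_pow_left h2 _)
        _ = D ^ 99 := by ring
    have h3 : ((A * B * D * (A * B) ^ 48 : ℕ) : ℝ) ≤ (D : ℝ) ^ 99 := by exact_mod_cast h1
    have h4 := Real.log_le_log hcoef' h3
    rw [Real.log_pow] at h4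
    exact_mod_cast h4
  have h9D : Real.log 9 ≤ Real.log D := Real.log_le_log (by norm_num) hD9
  have hsum : Real.log (∏ σ : K →ₐ[ℚ] ℂ, (9 * RR A B 48 D a b σ) ^ (2 * 48 ^ 2)) =
      ((2 * 48 ^ 2 : ℕ) : ℝ) * (D * (Real.log 9 + Real.log ((A * B * D * (A * B) ^ 48 : ℕ) : ℝ)) +
        A * lam a + B * lam b) := by
    rw [Real.log_prod fun σ _ => (pow_pos (mul_pos (by norm_num) (hRpos σ)) _).ne']
    simp_rw [hlogR]
    rw [← Finset.mul_sum, Finset.sum_add_distrib, Finset.sum_add_distrib, Finset.sum_const,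
      Finset.card_univ, hcard, nsmul_eq_mul, ← Finset.mul_sum, ← Finset.mul_sum]
    rfl
  have hla := lam_nonneg a
  have hlb := lam_nonneg b
  have hAN' : (A : ℝ) ≤ N := by exact_mod_cast hAN
  have hBN' : (B : ℝ) ≤ N := by exact_mod_cast hBN
  have hAl : (A : ℝ) * lam a ≤ N * lam a := mul_le_mul_of_nonneg_right hAN' hla
  have hBl : (B : ℝ) * lam b ≤ N * lam b := mul_le_mul_of_nonneg_right hBN' hlb
  have hup : Real.log (∏ σ : K →ₐ[ℚ] ℂ, (9 * RR A B 48 D a b σ) ^ (2 * 48 ^ 2)) ≤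
      ((2 * 48 ^ 2 * 101 * D : ℕ) : ℝ) * Real.log D := by
    rw [hsum]
    have h1 : (D : ℝ) * (Real.log 9 + Real.log ((A * B * D * (A * B) ^ 48 : ℕ) : ℝ)) ≤
        D * (100 * Real.log D) := mul_le_mul_of_nonneg_left (by linarith) (by linarith)
    have h2 : (D : ℝ) * (Real.log 9 + Real.log ((A * B * D * (A * B) ^ 48 : ℕ) : ℝ)) +
        A * lam a + B * lam b ≤ 101 * (D * Real.log D) := by linarith
    calc ((2 * 48 ^ 2 : ℕ) : ℝ) * (D * (Real.log 9 +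
            Real.log ((A * B * D * (A * B) ^ 48 : ℕ) : ℝ)) + A * lam a + B * lam b)
        ≤ ((2 * 48 ^ 2 : ℕ) : ℝ) * (101 * (D * Real.log D)) :=
          mul_le_mul_of_nonneg_left h2 (Nat.cast_nonneg _)
      _ = _ := by push_cast; ring
  have hprodpos : 0 < ∏ σ : K →ₐ[ℚ] ℂ, (9 * RR A B 48 D a b σ) ^ (2 * 48 ^ 2) :=
    Finset.prod_pos fun σ _ => pow_pos (mul_pos (by norm_num) (hRpos σ)) _
  rw [← Real.log_lt_log_iff hprodpos (by positivity), Real.log_pow]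
  have hAB' : ((2 * 48 ^ 2 * 101 * D : ℕ) : ℝ) ≤ ((A * B : ℕ) : ℝ) := by exact_mod_cast hAB
  have hlt : Real.log D < Real.log ((D : ℝ) + 1) := Real.log_lt_log (by linarith) (by linarith)
  have hABpos : (0 : ℝ) < ((A * B : ℕ) : ℝ) := by exact_mod_cast Nat.mul_pos hA hB
  calc Real.log (∏ σ : K →ₐ[ℚ] ℂ, (9 * RR A B 48 D a b σ) ^ (2 * 48 ^ 2))
      ≤ ((2 * 48 ^ 2 * 101 * D : ℕ) : ℝ) * Real.log D := hup
    _ ≤ ((A * B : ℕ) : ℝ) * Real.log D := mul_le_mul_of_nonneg_right hAB' hlogD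
    _ < ((A * B : ℕ) : ℝ) * Real.log ((D : ℝ) + 1) := mul_lt_mul_of_pos_left hlt hABpos

/-- values of the auxiliary polynomial -/
lemma val_bound {a b : K} {A B H p : ℕ} (c : ℕ → ℕ → ℤ) (hc : ∀ i j, |c i j| ≤ H)
    (σ : K →ₐ[ℚ] ℂ) :
    ‖∑ j ∈ range B, ∑ i ∈ range A, (c i j : ℂ) * (σ a ^ p) ^ i * (σ b ^ p) ^ j‖ ≤
      (A * B * H : ℕ) * ((max 1 ‖σ a‖) ^ (p * A) * (max 1 ‖σ b‖) ^ (p * B)) := by
  have h1 : ∀ j ∈ range B, ∀ i ∈ range A, ‖(c i j : ℂ) * (σ a ^ p) ^ i * (σ b ^ p) ^ j‖ ≤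
      (H : ℝ) * ((max 1 ‖σ a‖) ^ (p * A) * (max 1 ‖σ b‖) ^ (p * B)) := by
    intro j hj i hi
    rw [mem_range] at hj hi
    rw [norm_mul, norm_mul, norm_pow, norm_pow, norm_pow, norm_pow, Complex.norm_intCast,
      ← pow_mul, ← pow_mul]
    have e1 : |((c i j : ℤ) : ℝ)| ≤ H := by
      have := hc i j
      have h2 : ((|c i j| : ℤ) : ℝ) ≤ ((H : ℤ) : ℝ) := by exact_mod_cast this
      simpa using h2
    have e2 : ‖σ a‖ ^ (p * i) ≤ (max 1 ‖σ a‖) ^ (p * A) :=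
      (pow_le_pow_left₀ (norm_nonneg _) (le_max_right _ _) _).trans
        (pow_le_pow_right₀ (le_max_left _ _) (Nat.mul_le_mul_left _ hi.le))
    have e3 : ‖σ b‖ ^ (p * j) ≤ (max 1 ‖σ b‖) ^ (p * B) :=
      (pow_le_pow_left₀ (norm_nonneg _) (le_max_right _ _) _).trans
        (pow_le_pow_right₀ (le_max_left _ _) (Nat.mul_le_mul_left _ hj.le))
    have m1 : (0 : ℝ) ≤ max 1 ‖σ a‖ := zero_le_one.trans (le_max_left _ _)
    calc |((c i j : ℤ) : ℝ)| * ‖σ a‖ ^ (p * i) * ‖σ b‖ ^ (p * j)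
        ≤ (H : ℝ) * (max 1 ‖σ a‖) ^ (p * A) * (max 1 ‖σ b‖) ^ (p * B) := by gcongr
      _ = _ := by ring
  refine (norm_sum_le _ _).trans ?_
  have h2 : ∀ j ∈ range B, ‖∑ i ∈ range A, (c i j : ℂ) * (σ a ^ p) ^ i * (σ b ^ p) ^ j‖ ≤
      A * ((H : ℝ) * ((max 1 ‖σ a‖) ^ (p * A) * (max 1 ‖σ b‖) ^ (p * B))) := by
    intro j hj
    refine (norm_sum_le _ _).trans ?_
    refine (Finset.sum_le_sum (h1 j hj)).trans ?_
    rw [Finset.sum_const, card_range, nsmul_eq_mul]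
  refine (Finset.sum_le_sum h2).trans ?_
  rw [Finset.sum_const, card_range, nsmul_eq_mul]
  apply le_of_eq
  push_cast
  ring

theorem box {a b : 𝓞 K} (hc : CInj (a : K)) {A B N X : ℕ} (hA : 0 < A) (hB : 0 < B)
    (hAN : A ≤ N) (hBN : B ≤ N) (hND : N ≤ finrank ℚ K) (h9 : 9 ≤ finrank ℚ K)
    (hAB : 2 * 48 ^ 2 * 101 * finrank ℚ K ≤ A * B) (hX : 1 ≤ X)
    (hL : (X * N : ℝ) * (lam (a : K) + lam (b : K)) < finrank ℚ K * Real.log (finrank ℚ K)) :
    ∃ c : ℕ → ℕ → ℤ, (∃ i < A, ∃ j < B, c i j ≠ 0) ∧ ∀ p : ℕ, p.Prime → p ≤ X →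
      finrank ℚ K ≤ p ^ 6 → (Ideal.absNorm (bb a p) : ℝ) ^ 2 ≤ (p : ℝ) ^ finrank ℚ K →
      ∀ σ : K →ₐ[ℚ] ℂ,
        ∑ j ∈ range B, ∑ i ∈ range A, (c i j : ℂ) * (σ a ^ p) ^ i * (σ b ^ p) ^ j = 0 := by
  classical
  set D := finrank ℚ K with hD
  have hcard : Fintype.card (K →ₐ[ℚ] ℂ) = D := AlgHom.card ℚ K ℂ
  have hla := lam_nonneg (a : K)
  have hlb := lam_nonneg (b : K)
  have hX' : (1 : ℝ) ≤ X := by exact_mod_cast hX
  have hN0 : (0 : ℝ) ≤ N := Nat.cast_nonneg _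
  have hL0 : (N : ℝ) * (lam (a : K) + lam (b : K)) ≤ D * Real.log D := by
    have h1 : (N : ℝ) * (lam (a : K) + lam (b : K)) ≤
        (X * N : ℝ) * (lam (a : K) + lam (b : K)) := by
      apply mul_le_mul_of_nonneg_right _ (by linarith)
      nlinarith
    linarith
  have hDpos : 0 < D := by omega
  have hint_a : IsIntegral ℤ (a : K) := a.2
  have hint_b : IsIntegral ℤ (b : K) := b.2
  obtain ⟨c, hc0, hcH, hV⟩ := siegel (T := 48) (H := D) hA hB hDpos hint_a hint_b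
    (siegel_cond hA hB hAN hBN hND h9 hAB hL0)
  refine ⟨c, hc0, ?_⟩
  intro p hp hpX hDp hgood σ
  -- the value
  set u : ℤ[X] := derivative (minpoly ℤ a) with hu
  have hadj := adjoin_top hc
  obtain ⟨G, hG⟩ := dd_mul hadj b
  have hmin : minpoly ℤ a = minpoly ℤ (a : K) :=
    (minpoly.algebraMap_eq (RingOfIntegers.coe_injective) a).symm
  have hdeg : (pol A B c).natDegree ≤ B := natDegree_le_iff_coeff_eq_zero.mpr
    fun m hm => by rw [pol_coeff, if_neg (by omega)]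
  have huK : aeval (a : K) u ≠ 0 := by
    have h1 : aeval (a : K) u = ((dd a : 𝓞 K) : K) := aeval_algebraMap_apply K a _
    rw [h1]
    intro h2
    apply dd_ne (a := a)
    exact_mod_cast h2
  have hGK : aeval (a : K) u * (b : K) = aeval (a : K) G := by
    have h1 : aeval (a : K) u = ((dd a : 𝓞 K) : K) := aeval_algebraMap_apply K a _
    have h2 : aeval (a : K) G = ((aeval a G : 𝓞 K) : K) := aeval_algebraMap_apply K a _
    rw [h1, h2, ← hG]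
    rfl
  have hkey := key_dvd hint_a huK hGK hdeg hV
  rw [← hmin] at hkey
  have hext := extrapolate (R := 𝓞 K) hp (minpoly.aeval ℤ a) (show aeval a u * b = aeval a G from hG)
    hdeg hkey
  set w : 𝓞 K := ((pol A B c).map (aeval (a ^ p) : ℤ[X] →ₐ[ℤ] 𝓞 K).toRingHom).eval (b ^ p)
    with hw
  have hwval : w = ∑ j ∈ range B, ∑ i ∈ range A, (c i j : 𝓞 K) * (a ^ p) ^ i * (b ^ p) ^ j := by
    rw [hw]
    unfold pol
    rw [Polynomial.map_sum, eval_finsetSum]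
    refine Finset.sum_congr rfl fun j _ => ?_
    rw [Polynomial.map_mul, Polynomial.map_pow, map_X, map_C, eval_mul, eval_C, eval_pow, eval_X,
      map_sum, Finset.sum_mul]
    refine Finset.sum_congr rfl fun i _ => ?_
    simp
  have hσw : ∀ σ : K →ₐ[ℚ] ℂ, σ (w : K) =
      ∑ j ∈ range B, ∑ i ∈ range A, (c i j : ℂ) * (σ a ^ p) ^ i * (σ b ^ p) ^ j := by
    intro σ
    rw [hwval]
    simp only [map_sum, map_mul, map_pow, map_intCast]
  rw [← hσw]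
  by_contra hne
  have hw0 : w ≠ 0 := by
    intro h0
    apply hne
    rw [h0]
    simp
  have hn := norm_ge hadj hp hw0 hext
  rw [← hD] at hn
  have hn' : (p : ℝ) ^ (48 * D) ≤ (Ideal.absNorm (bb a p) : ℝ) ^ 48 *
      ((|Algebra.norm ℤ w| : ℤ) : ℝ) := by exact_mod_cast hn
  have hpp : (0 : ℝ) < p := by exact_mod_cast hp.pos
  have hg24 : (Ideal.absNorm (bb a p) : ℝ) ^ 48 ≤ (p : ℝ) ^ (24 * D) := by
    calc (Ideal.absNorm (bb a p) : ℝ) ^ 48 = ((Ideal.absNorm (bb a p) : ℝ) ^ 2) ^ 24 := by ring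
      _ ≤ ((p : ℝ) ^ D) ^ 24 := pow_le_pow_left₀ (by positivity) hgood _
      _ = _ := by rw [← pow_mul]; ring_nf
  have hNnn : (0 : ℝ) ≤ ((|Algebra.norm ℤ w| : ℤ) : ℝ) := by exact_mod_cast abs_nonneg _
  have h1 : (p : ℝ) ^ (24 * D) ≤ ((|Algebra.norm ℤ w| : ℤ) : ℝ) := by
    have h2 : (p : ℝ) ^ (24 * D) * (p : ℝ) ^ (24 * D) ≤
        (p : ℝ) ^ (24 * D) * ((|Algebra.norm ℤ w| : ℤ) : ℝ) := by
      rw [← pow_add]
      have h3 : 24 * D + 24 * D = 48 * D := by ring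
      rw [h3]
      exact hn'.trans (mul_le_mul_of_nonneg_right hg24 hNnn)
    exact le_of_mul_le_mul_left h2 (by positivity)
  rw [norm_eq_prod] at h1
  have h2 := Real.log_le_log (by positivity) h1
  have hwK : (w : K) ≠ 0 := by
    intro h0
    apply hw0
    exact_mod_cast h0
  have hne' : ∀ τ : K →ₐ[ℚ] ℂ, ‖τ (w : K)‖ ≠ 0 := by
    intro τ h0
    exact hwK ((map_eq_zero τ).mp (norm_eq_zero.mp h0))
  rw [Real.log_pow, Real.log_prod fun τ _ => hne' τ] at h2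
  have hABD : A * B * D ≤ D ^ 3 := by
    have h2 : A * B ≤ D * D := Nat.mul_le_mul (hAN.trans hND) (hBN.trans hND)
    calc A * B * D ≤ (D * D) * D := Nat.mul_le_mul_right _ h2
      _ = D ^ 3 := by ring
  have hABD' : ((A * B * D : ℕ) : ℝ) ≤ (D : ℝ) ^ 3 := by exact_mod_cast hABD
  have hABDpos : (0 : ℝ) < ((A * B * D : ℕ) : ℝ) := by
    have : 0 < A * B * D := by positivity
    exact_mod_cast this
  have hm : ∀ z : ℂ, (0 : ℝ) < max 1 ‖z‖ := fun z => lt_of_lt_of_le one_pos (le_max_left _ _)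
  have h3 : ∀ τ : K →ₐ[ℚ] ℂ, Real.log ‖τ (w : K)‖ ≤ 3 * Real.log D +
      ((p * A : ℕ) : ℝ) * Real.log (max 1 ‖τ (a : K)‖) +
      ((p * B : ℕ) : ℝ) * Real.log (max 1 ‖τ (b : K)‖) := by
    intro τ
    have h4 := val_bound (a := (a : K)) (b := (b : K)) (A := A) (B := B) (H := D) (p := p) c hcH τ
    rw [← hσw] at h4
    have h5 := Real.log_le_log ((norm_nonneg _).lt_of_ne (hne' τ).symm) h4
    rw [Real.log_mul hABDpos.ne' (mul_pos (pow_pos (hm _) _) (pow_pos (hm _) _)).ne',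
      Real.log_mul (pow_pos (hm _) _).ne' (pow_pos (hm _) _).ne', Real.log_pow, Real.log_pow] at h5
    have h6 := Real.log_le_log hABDpos hABD'
    rw [Real.log_pow] at h6
    push_cast at h5 h6 ⊢
    linarith
  have h4 : ∑ τ : K →ₐ[ℚ] ℂ, Real.log ‖τ (w : K)‖ ≤ 3 * (D * Real.log D) +
      ((p * A : ℕ) : ℝ) * lam (a : K) + ((p * B : ℕ) : ℝ) * lam (b : K) := by
    refine (Finset.sum_le_sum fun τ _ => h3 τ).trans ?_
    rw [Finset.sum_add_distrib, Finset.sum_add_distrib, Finset.sum_const, Finset.card_univ, hcard,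
      nsmul_eq_mul, ← Finset.mul_sum, ← Finset.mul_sum]
    apply le_of_eq
    unfold lam
    ring
  have h5 : ((p * A : ℕ) : ℝ) * lam (a : K) ≤ (X * N : ℝ) * lam (a : K) := by
    apply mul_le_mul_of_nonneg_right _ hla
    exact_mod_cast Nat.mul_le_mul hpX hAN
  have h6 : ((p * B : ℕ) : ℝ) * lam (b : K) ≤ (X * N : ℝ) * lam (b : K) := by
    apply mul_le_mul_of_nonneg_right _ hlb
    exact_mod_cast Nat.mul_le_mul hpX hBN
  have h7 : Real.log D ≤ 6 * Real.log p := by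
    have h8 : (D : ℝ) ≤ (p : ℝ) ^ 6 := by exact_mod_cast hDp
    have h9 := Real.log_le_log (by exact_mod_cast hDpos) h8
    rw [Real.log_pow] at h9
    exact_mod_cast h9
  have hD0 : (0 : ℝ) < D := by exact_mod_cast hDpos
  have h8 : (D : ℝ) * Real.log D ≤ D * (6 * Real.log p) := mul_le_mul_of_nonneg_left h7 hD0.le
  push_cast at h2
  linarith

end Pool.Agent.J4H57.TD
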