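import Pool.Agent.H388SL.DobC

/-!
# Parameters
-/

set_option autoImplicit false

open Finset

namespace Pool.Agent.J4H57.TD

open Pool.Agent.H388SL

/-- the primes between `Y ^ 4 / 8` and `Y ^ 4` -/
def PP (Y : ℕ) : Finset ℕ := (Finset.Ioc (Y ^ 4 / 8) (Y ^ 4)).filter Nat.Prime

lemma theta_nat (n : ℕ) : Chebyshev.theta n = ∑ p ∈ (Finset.Ioc 0 n).filter Nat.Prime, Real.log p := by
  unfold Chebyshev.theta
  rw [Nat.floor_natCast]

lemma log_small (M : ℝ) (hM : 0 < M) : ∃ x0 : ℝ, 1 ≤ x0 ∧ ∀ x ≥ x0, M * Real.log x ≤ x := by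
  have h1 : Filter.Tendsto (fun x : ℝ => Real.log x / x) Filter.atTop (nhds 0) := by
    have := Real.isLittleO_log_id_atTop
    have h2 := this.tendsto_div_nhds_zero
    simpa using h2
  have h3 : ∀ᶠ x : ℝ in Filter.atTop, Real.log x / x < 1 / M :=
    h1.eventually (gt_mem_nhds (by positivity))
  obtain ⟨x0, hx0⟩ := Filter.eventually_atTop.mp h3
  refine ⟨max 1 x0, le_max_left _ _, ?_⟩
  intro x hx
  have hx1 : 0 < x := lt_of_lt_of_le one_pos ((le_max_left _ _).trans hx)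
  have h4 := hx0 x ((le_max_right _ _).trans hx)
  rw [div_lt_div_iff₀ hx1 hM] at h4
  linarith

lemma prime_supply (M : ℕ) : ∃ Y1 : ℕ, ∀ Y ≥ Y1, M * Y ^ 3 ≤ (PP Y).card := by
  obtain ⟨Y0, hY01, hY0⟩ := exists_Y0
  obtain ⟨x0, hx01, hx0⟩ := log_small (16 * ((M : ℝ) + 1)) (by positivity)
  refine ⟨max (max Y0 2) ⌈x0⌉₊, ?_⟩
  intro Y hY
  have hYY0 : Y0 ≤ Y := (le_max_left _ _).trans ((le_max_left _ _).trans hY)
  have hY2 : 2 ≤ Y := (le_max_right _ _).trans ((le_max_left _ _).trans hY)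
  have hYx : x0 ≤ Y := (Nat.le_ceil _).trans (by exact_mod_cast (le_max_right _ _).trans hY)
  have hlog := hx0 Y hYx
  set n := Y ^ 4 with hn
  have hYn : Y ≤ n := by rw [hn]; exact Nat.le_self_pow (by norm_num) Y
  have h1 := theta_half hY0 n (hYY0.trans hYn) (by omega)
  have h2 := Chebyshev.theta_le_log4_mul_x (x := ((n / 8 : ℕ) : ℝ)) (Nat.cast_nonneg _)
  rw [theta_nat] at h1 h2
  have hsplit : (Finset.Ioc 0 n).filter Nat.Prime =
      (Finset.Ioc 0 (n / 8)).filter Nat.Prime ∪ PP Y := by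
    unfold PP
    rw [← Finset.filter_union, Finset.Ioc_union_Ioc_eq_Ioc (Nat.zero_le _) (Nat.div_le_self _ _)]
  have hdisj : Disjoint ((Finset.Ioc 0 (n / 8)).filter Nat.Prime) (PP Y) := by
    unfold PP
    rw [Finset.disjoint_left]
    intro p hp hp'
    rw [Finset.mem_filter, Finset.mem_Ioc] at hp hp'
    omega
  rw [hsplit, Finset.sum_union hdisj] at h1
  have hYpos : (0 : ℝ) < Y := by exact_mod_cast (by omega : 0 < Y)
  have h3 : ∑ p ∈ PP Y, Real.log p ≤ (PP Y).card * (4 * Real.log Y) := by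
    rw [← nsmul_eq_mul]
    refine Finset.sum_le_card_nsmul _ _ _ fun p hp => ?_
    unfold PP at hp
    rw [Finset.mem_filter, Finset.mem_Ioc] at hp
    have h4 : (p : ℝ) ≤ (Y : ℝ) ^ 4 := by exact_mod_cast hp.1.2
    have h5 := Real.log_le_log (by exact_mod_cast hp.2.pos) h4
    rw [Real.log_pow] at h5
    exact_mod_cast h5
  have h4 : Real.log 4 = 2 * Real.log 2 := by
    rw [show (4 : ℝ) = 2 ^ 2 by norm_num, Real.log_pow]; norm_num
  have h5 := Real.log_two_lt_d9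
  have h6 : ((n / 8 : ℕ) : ℝ) ≤ (n : ℝ) / 8 := Nat.cast_div_le
  have hn0 : (0 : ℝ) ≤ n := Nat.cast_nonneg _
  have h7 : Real.log 4 * ((n / 8 : ℕ) : ℝ) ≤ n / 4 := by
    rw [h4]
    have h8 : (0 : ℝ) ≤ ((n / 8 : ℕ) : ℝ) := Nat.cast_nonneg _
    nlinarith
  have h8 : (n : ℝ) / 4 ≤ (PP Y).card * (4 * Real.log Y) := by linarith
  have h9 : (n : ℝ) = (Y : ℝ) ^ 4 := by rw [hn]; push_cast; rfl
  have hlogpos : 0 < Real.log Y := Real.log_pos (by exact_mod_cast (by omega : 1 < Y))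
  have h10 : (M : ℝ) * (Y : ℝ) ^ 3 ≤ (PP Y).card := by
    have h11 : (Y : ℝ) ^ 4 ≤ (PP Y).card * (16 * Real.log Y) := by rw [← h9]; linarith
    have h12 : ((M : ℝ) * Y ^ 3) * (16 * Real.log Y) ≤ (PP Y).card * (16 * Real.log Y) := by
      refine le_trans ?_ h11
      have h13 : 16 * (M : ℝ) * Real.log Y ≤ Y := by nlinarith
      calc ((M : ℝ) * Y ^ 3) * (16 * Real.log Y) = (16 * (M : ℝ) * Real.log Y) * Y ^ 3 := by ring
        _ ≤ Y * (Y : ℝ) ^ 3 := mul_le_mul_of_nonneg_right h13 (by positivity)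
        _ = _ := by ring
    exact le_of_mul_le_mul_right h12 (by positivity)
  exact_mod_cast h10

/-- the choice of the main parameter -/
lemma exists_Y (Y2 : ℕ) (h40 : 40 ≤ Y2) : ∀ D ≥ Y2 ^ 20, ∃ Y : ℕ, Y2 ≤ Y ∧ Y ^ 20 ≤ D ∧
    D ≤ 2 * Y ^ 20 := by
  intro D hD
  have hex : ∃ Y : ℕ, D < Y ^ 20 := ⟨D + 1, by
    have := Nat.le_self_pow (n := 20) (by norm_num) (D + 1)
    omega⟩
  classical
  have hspec := Nat.find_spec hex
  have hmin := fun m => Nat.find_min (m := m) hex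
  generalize Nat.find hex = Z at hspec hmin
  have hZ2 : Y2 < Z := by
    by_contra hc
    push Not at hc
    have := Nat.pow_le_pow_left hc 20
    omega
  obtain ⟨Y, rfl⟩ : ∃ Y, Z = Y + 1 := ⟨Z - 1, by omega⟩
  refine ⟨Y, by omega, ?_, ?_⟩
  · have := hmin Y (by omega)
    omega
  · have h1 : 40 * (Y + 1) ≤ 41 * Y := by omega
    have h2 := Nat.pow_le_pow_left h1 20
    rw [mul_pow, mul_pow] at h2
    have h3 : 41 ^ 20 * Y ^ 20 ≤ (2 * 40 ^ 20) * Y ^ 20 :=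
      Nat.mul_le_mul_right _ (by norm_num)
    have h4 : 40 ^ 20 * (Y + 1) ^ 20 ≤ 40 ^ 20 * (2 * Y ^ 20) := by
      calc 40 ^ 20 * (Y + 1) ^ 20 ≤ 41 ^ 20 * Y ^ 20 := h2
        _ ≤ (2 * 40 ^ 20) * Y ^ 20 := h3
        _ = _ := by ring
    have h5 := Nat.le_of_mul_le_mul_left h4 (by norm_num)
    omega

end Pool.Agent.J4H57.TD
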