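import Pool.Agent.J4H57.TD.H
import Pool.Agent.J4H57.TD.I
import Pool.Agent.J4H57.TD.F

/-!
# A curve of small degree through most of the points `(σ a ^ p, σ b ^ p)`
-/

set_option autoImplicit false

open MvPolynomial Finset NumberField Module

namespace Pool.Agent.J4H57.TD

open Pool.Agent.H388SL Pool.Agent.H371R3.GQ

variable {K : Type*} [Field K] [NumberField K]

/-- the constant of the Siegel lemma -/
def C0 : ℕ := 2 * 48 ^ 2 * 101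

/-- the constant of the last box -/
def K0 : ℕ := 32 * C0

/-- the points -/
noncomputable def pt (a b : K) (σ : K →ₐ[ℚ] ℂ) (p : ℕ) : Fin 2 → ℂ := ![σ a ^ p, σ b ^ p]

/-- all points for the primes of `P` -/
noncomputable def Om (a b : K) (P : Finset ℕ) : Finset (Fin 2 → ℂ) := by
  classical
  exact (P ×ˢ (Finset.univ : Finset (K →ₐ[ℚ] ℂ))).image fun x => pt a b x.2 x.1

lemma mem_Om {a b : K} {P : Finset ℕ} {ω : Fin 2 → ℂ} :
    ω ∈ Om a b P ↔ ∃ p ∈ P, ∃ σ : K →ₐ[ℚ] ℂ, pt a b σ p = ω := by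
  classical
  unfold Om
  rw [Finset.mem_image]
  constructor
  · rintro ⟨⟨p, σ⟩, hx, rfl⟩
    rw [Finset.mem_product] at hx
    exact ⟨p, hx.1, σ, rfl⟩
  · rintro ⟨p, hp, σ, rfl⟩
    exact ⟨(p, σ), Finset.mem_product.mpr ⟨hp, mem_univ _⟩, rfl⟩

lemma box_mv {a b : 𝓞 K} (hc : CInj (a : K)) {A B N X : ℕ} (hA : 0 < A) (hB : 0 < B)
    (hAN : A ≤ N) (hBN : B ≤ N) (hND : N ≤ finrank ℚ K) (h9 : 9 ≤ finrank ℚ K)
    (hAB : C0 * finrank ℚ K ≤ A * B) (hX : 1 ≤ X)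
    (hL : (X * N : ℝ) * (lam (a : K) + lam (b : K)) < finrank ℚ K * Real.log (finrank ℚ K))
    {P : Finset ℕ} (hP : ∀ p ∈ P, p.Prime ∧ p ≤ X ∧ finrank ℚ K ≤ p ^ 6 ∧
      (Ideal.absNorm (bb a p) : ℝ) ^ 2 ≤ (p : ℝ) ^ finrank ℚ K) :
    ∃ f : Bx, f ≠ 0 ∧ f ∈ Bi A B ∧ ∀ ω ∈ Om (a : K) (b : K) P, eval ω f = 0 := by
  obtain ⟨c, ⟨i, hi, j, hj, hcij⟩, hv⟩ := box (b := b) hc hA hB hAN hBN hND h9 hAB hX hL
  refine ⟨mv A B c, mv_ne hi hj hcij, mv_mem A B c, ?_⟩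
  intro ω hω
  obtain ⟨p, hp, σ, rfl⟩ := mem_Om.mp hω
  obtain ⟨h1, h2, h3, h4⟩ := hP p hp
  rw [mv_eval]
  exact hv p h1 h2 h3 h4 σ

theorem chain {a b : 𝓞 K} (hc : CInj (a : K)) {Y : ℕ} (hY : K0 ≤ Y) (hYD : Y ^ 20 ≤ finrank ℚ K)
    (hDY : finrank ℚ K ≤ 2 * Y ^ 20)
    (hL : (K0 : ℝ) * (lam (a : K) + lam (b : K)) < Real.log (finrank ℚ K))
    {P : Finset ℕ} (hP : ∀ p ∈ P, p.Prime ∧ p ≤ Y ^ 4 ∧ finrank ℚ K ≤ p ^ 6 ∧
      (Ideal.absNorm (bb a p) : ℝ) ^ 2 ≤ (p : ℝ) ^ finrank ℚ K) :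
    ∃ Q : Bx, Q ≠ 0 ∧ Q ∈ Bi (Y ^ 4 / 8) (Y ^ 4 / 8) ∧
      ((Om (a : K) (b : K) P).filter fun ω => eval ω Q ≠ 0).card ≤ (8 + 4 * K0) * Y ^ 23 := by
  classical
  set D := finrank ℚ K with hD
  have hK0 : K0 = 14893056 := by norm_num [K0, C0]
  have hC0 : C0 = 465408 := by norm_num [C0]
  have hY1 : 1 ≤ Y := by omega
  have hD0 : 0 < D := finrank_pos
  have hla := lam_nonneg (a : K)
  have hlb := lam_nonneg (b : K)
  set N := K0 * Y ^ 16 with hN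
  have hpow : ∀ k ≤ 16, Y ^ k ≤ N := by
    intro k hk
    calc Y ^ k ≤ Y ^ 16 := Nat.pow_le_pow_right hY1 hk
      _ = 1 * Y ^ 16 := (one_mul _).symm
      _ ≤ K0 * Y ^ 16 := Nat.mul_le_mul_right _ (by omega)
  have hNle : N ≤ Y ^ 17 := by
    rw [hN, show (17 : ℕ) = 16 + 1 from rfl, pow_succ, mul_comm]
    exact Nat.mul_le_mul_left _ hY
  have hND : N ≤ D := hNle.trans ((Nat.pow_le_pow_right hY1 (by norm_num)).trans hYD)
  have h9 : 9 ≤ D := by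
    have h1 : Y ^ 1 ≤ Y ^ 20 := Nat.pow_le_pow_right hY1 (by norm_num)
    rw [pow_one] at h1
    omega
  have hY4 : 1 ≤ Y ^ 4 := Nat.one_le_pow _ _ hY1
  have hLL : (((Y ^ 4 : ℕ) : ℝ) * (N : ℝ)) * (lam (a : K) + lam (b : K)) < D * Real.log D := by
    have h1 : ((Y ^ 4 : ℕ) : ℝ) * (N : ℝ) ≤ K0 * D := by
      have h2 : Y ^ 4 * N ≤ K0 * D := by
        calc Y ^ 4 * N = K0 * Y ^ 20 := by rw [hN]; ring
          _ ≤ K0 * D := Nat.mul_le_mul_left _ hYD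
      exact_mod_cast h2
    have hD0' : (0 : ℝ) < D := by exact_mod_cast hD0
    calc (((Y ^ 4 : ℕ) : ℝ) * (N : ℝ)) * (lam (a : K) + lam (b : K))
        ≤ (K0 * D) * (lam (a : K) + lam (b : K)) :=
          mul_le_mul_of_nonneg_right h1 (by linarith)
      _ = D * (K0 * (lam (a : K) + lam (b : K))) := by ring
      _ < D * Real.log D := mul_lt_mul_of_pos_left hL hD0'
  have h21 : C0 * D ≤ Y ^ 21 := by
    calc C0 * D ≤ C0 * (2 * Y ^ 20) := Nat.mul_le_mul_left _ hDY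
      _ = (2 * C0) * Y ^ 20 := by ring
      _ ≤ Y * Y ^ 20 := Nat.mul_le_mul_right _ (by omega)
      _ = Y ^ 21 := by ring
  set W := Y ^ 4 / 8 with hW
  have hY4' : 8 ≤ Y ^ 4 := by
    have h1 : Y ^ 1 ≤ Y ^ 4 := Nat.pow_le_pow_right hY1 (by norm_num)
    rw [pow_one] at h1
    omega
  have hW16 : Y ^ 4 ≤ 16 * W := by omega
  have hW1 : 1 ≤ W := by omega
  have hWle : W ≤ Y ^ 4 := Nat.div_le_self _ _
  have hWN : W ≤ N := hWle.trans (hpow 4 (by norm_num))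
  have h3box : C0 * D ≤ N * W := by
    calc C0 * D ≤ C0 * (2 * Y ^ 20) := Nat.mul_le_mul_left _ hDY
      _ = (2 * C0 * Y ^ 16) * Y ^ 4 := by ring
      _ ≤ (2 * C0 * Y ^ 16) * (16 * W) := Nat.mul_le_mul_left _ hW16
      _ = N * W := by rw [hN, K0]; ring
  have hYpos : ∀ k, 0 < Y ^ k := fun k => pow_pos (by omega) k
  have hN0 : 0 < N := lt_of_lt_of_le (hYpos 16) (hpow 16 le_rfl)
  -- the auxiliary polynomials
  obtain ⟨f0, f01, f02, f03⟩ := box_mv (b := b) hc (hYpos 11) (hYpos 11) (hpow 11 (by norm_num))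
    (hpow 11 (by norm_num)) hND h9 (h21.trans (by
      rw [← pow_add]; exact Nat.pow_le_pow_right hY1 (by norm_num))) hY4 hLL hP
  obtain ⟨f1, f11, f12, f13⟩ := box_mv (b := b) hc (hYpos 12) (hYpos 9) (hpow 12 (by norm_num))
    (hpow 9 (by norm_num)) hND h9 (h21.trans (by rw [← pow_add])) hY4 hLL hP
  obtain ⟨f1', f11', f12', f13'⟩ := box_mv (b := b) hc (hYpos 9) (hYpos 12) (hpow 9 (by norm_num))
    (hpow 12 (by norm_num)) hND h9 (h21.trans (by rw [← pow_add])) hY4 hLL hP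
  obtain ⟨f2, f21, f22, f23⟩ := box_mv (b := b) hc (hYpos 14) (hYpos 7) (hpow 14 (by norm_num))
    (hpow 7 (by norm_num)) hND h9 (h21.trans (by rw [← pow_add])) hY4 hLL hP
  obtain ⟨f2', f21', f22', f23'⟩ := box_mv (b := b) hc (hYpos 7) (hYpos 14) (hpow 7 (by norm_num))
    (hpow 14 (by norm_num)) hND h9 (h21.trans (by rw [← pow_add])) hY4 hLL hP
  obtain ⟨f3, f31, f32, f33⟩ := box_mv (b := b) hc hN0 hW1 le_rfl hWN hND h9 h3box hY4 hLL hP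
  obtain ⟨f3', f31', f32', f33'⟩ := box_mv (b := b) hc hW1 hN0 hWN le_rfl hND h9
    (h3box.trans (by rw [mul_comm])) hY4 hLL hP
  set Ω := Om (a : K) (b : K) P with hΩ
  obtain ⟨Q1, q11, q12, q13⟩ := chain_step (v := Y ^ 11) (A := Y ^ 12) (B := Y ^ 9)
    (Nat.pow_le_pow_right hY1 (by norm_num)) (Nat.pow_le_pow_right hY1 (by norm_num))
    f01 f02 f11 f12 f11' f12' Ω f13 f13'
  obtain ⟨Q2, q21, q22, q23⟩ := chain_step (v := Y ^ 9) (A := Y ^ 14) (B := Y ^ 7)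
    (Nat.pow_le_pow_right hY1 (by norm_num)) (Nat.pow_le_pow_right hY1 (by norm_num))
    q11 q12 f21 f22 f21' f22' Ω f23 f23'
  obtain ⟨Q3, q31, q32, q33⟩ := chain_step (v := Y ^ 7) (A := N) (B := W)
    (hWle.trans (Nat.pow_le_pow_right hY1 (by norm_num))) (hpow 7 (by norm_num))
    q21 q22 f31 f32 f31' f32' Ω f33 f33'
  refine ⟨Q3, q31, q32, ?_⟩
  have h0 : (Ω.filter fun ω => eval ω f0 ≠ 0).card = 0 := by
    rw [Finset.card_eq_zero, Finset.filter_eq_empty_iff]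
    intro ω hω
    simpa using f03 ω hω
  rw [h0] at q13
  have e1 : 4 * Y ^ 11 * Y ^ 12 = 4 * Y ^ 23 := by ring
  have e2 : 4 * Y ^ 9 * Y ^ 14 = 4 * Y ^ 23 := by ring
  have e3 : 4 * Y ^ 7 * N = 4 * K0 * Y ^ 23 := by rw [hN]; ring
  rw [e1] at q13
  rw [e2] at q23
  rw [e3] at q33
  have e4 : (8 + 4 * K0) * Y ^ 23 = 0 + 4 * Y ^ 23 + 4 * Y ^ 23 + 4 * K0 * Y ^ 23 := by ring
  rw [e4]
  omega

end Pool.Agent.J4H57.TD
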