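import Pool.Agent.J4H57.TD.J

/-!
# Two algebraic integers of small height satisfy a multiplicative relation at many embeddings
-/

set_option autoImplicit false

open MvPolynomial Finset NumberField Module

namespace Pool.Agent.J4H57.TD

open Pool.Agent.H388SL Pool.Agent.H371R3.GQ

section

variable {K : Type*} [Field K] [NumberField K]

lemma card_Om {a b : K} (ha : IsIntegral ℤ a) (h0 : a ≠ 0) (hroot : ∀ n : ℕ, 0 < n → a ^ n ≠ 1)
    {P : Finset ℕ} (hP : ∀ p ∈ P, CInj (a ^ p)) (Q : Bx) :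
    ((Om a b P).filter fun ω => eval ω Q ≠ 0).card =
      ∑ p ∈ P, ((Finset.univ : Finset (K →ₐ[ℚ] ℂ)).filter fun σ => eval (pt a b σ p) Q ≠ 0).card := by
  classical
  have hinj : Set.InjOn (fun x : ℕ × (K →ₐ[ℚ] ℂ) => pt a b x.2 x.1)
      (P ×ˢ (Finset.univ : Finset (K →ₐ[ℚ] ℂ)) : Finset (ℕ × (K →ₐ[ℚ] ℂ))) := by
    rintro ⟨p, σ⟩ hx ⟨q, τ⟩ hy hxy
    rw [Finset.mem_coe, Finset.mem_product] at hx hy
    have h1 : σ (a ^ p) = τ (a ^ q) := by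
      have h2 := congrFun hxy 0
      simpa [pt, map_pow] using h2
    by_cases hpq : p = q
    · subst hpq
      have h' : σ = τ := hP p hx.1 h1
      rw [h']
    · exact absurd h1 (conj_ne ha h0 hroot hpq (hP p hx.1) (hP q hy.1) σ τ)
  have h1 : (Om a b P).filter (fun ω => eval ω Q ≠ 0) =
      ((P ×ˢ (Finset.univ : Finset (K →ₐ[ℚ] ℂ))).filter
        fun x => eval (pt a b x.2 x.1) Q ≠ 0).image fun x => pt a b x.2 x.1 := by
    ext ω
    rw [Finset.mem_filter, mem_Om, Finset.mem_image]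
    constructor
    · rintro ⟨⟨p, hp, σ, rfl⟩, h⟩
      exact ⟨(p, σ), Finset.mem_filter.mpr ⟨Finset.mem_product.mpr ⟨hp, mem_univ _⟩, h⟩, rfl⟩
    · rintro ⟨⟨p, σ⟩, hx, rfl⟩
      rw [Finset.mem_filter, Finset.mem_product] at hx
      exact ⟨⟨p, hx.1.1, σ, rfl⟩, hx.2⟩
  rw [h1, Finset.card_image_of_injOn (hinj.mono (by
    intro x hx
    rw [Finset.mem_coe, Finset.mem_filter] at hx
    exact hx.1)), Finset.card_filter, Finset.sum_product]
  refine Finset.sum_congr rfl fun p _ => ?_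
  rw [Finset.card_filter]

end

theorem core (s : ℕ) : ∃ D1 : ℕ, ∀ (K : Type) [Field K] [NumberField K] (a b : 𝓞 K),
    CInj (a : K) → a ≠ 0 → b ≠ 0 → (∀ n : ℕ, 0 < n → (a : K) ^ n ≠ 1) → D1 ≤ finrank ℚ K →
    (K0 : ℝ) * (lam (a : K) + lam (b : K)) < Real.log (finrank ℚ K) →
    ∃ u v : ℤ, (u ≠ 0 ∨ v ≠ 0) ∧ ∃ z : ℂ,
      s < ((Finset.univ : Finset (K →ₐ[ℚ] ℂ)).filter fun σ =>
        (σ (a : K)) ^ u * (σ (b : K)) ^ v = z).card := by
  classical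
  obtain ⟨Y1, hY1⟩ := prime_supply (10 * (8 + 4 * K0) + 98)
  set Y2 := max (max 40 K0) (max Y1 (4 * (5 + s) + 1)) with hY2
  refine ⟨Y2 ^ 20, ?_⟩
  intro K _ _ a b hc ha0 hb0 hroot hD1 hL
  set D := finrank ℚ K with hD
  obtain ⟨Y, hYY2, hYD, hDY⟩ := exists_Y Y2 ((le_max_left _ _).trans (le_max_left _ _)) D hD1
  have hYK : K0 ≤ Y := ((le_max_right _ _).trans (le_max_left _ _)).trans hYY2
  have hYY1 : Y1 ≤ Y := ((le_max_left _ _).trans (le_max_right _ _)).trans hYY2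
  have hYs : 4 * (5 + s) + 1 ≤ Y := ((le_max_right _ _).trans (le_max_right _ _)).trans hYY2
  have hK0 : K0 = 14893056 := by norm_num [K0, C0]
  have hYpos : 1 ≤ Y := by omega
  have hY4big : 14893056 ≤ Y ^ 4 := by
    have h1 : Y ^ 1 ≤ Y ^ 4 := Nat.pow_le_pow_right hYpos (by norm_num)
    rw [pow_one] at h1
    omega
  have haK : (a : K) ≠ 0 := by
    intro h
    exact ha0 (by exact_mod_cast h)
  have hbK : (b : K) ≠ 0 := by
    intro h
    exact hb0 (by exact_mod_cast h)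
  have hla := lam_nonneg (a : K)
  have hlb := lam_nonneg (b : K)
  have hcard : Fintype.card (K →ₐ[ℚ] ℂ) = D := AlgHom.card ℚ K ℂ
  have hPPmem : ∀ p ∈ PP Y, p.Prime ∧ Y ^ 4 / 8 < p ∧ p ≤ Y ^ 4 ∧ D ≤ p ^ 6 := by
    intro p hp
    unfold PP at hp
    rw [Finset.mem_filter, Finset.mem_Ioc] at hp
    refine ⟨hp.2, hp.1.1, hp.1.2, ?_⟩
    have h1 : Y ^ 4 ≤ 8 * p := by omega
    have h2 : (Y ^ 4) ^ 6 ≤ (8 * p) ^ 6 := Nat.pow_le_pow_left h1 6
    have h3 : 8 ^ 6 * (2 * Y ^ 20) ≤ 8 ^ 6 * p ^ 6 := by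
      calc 8 ^ 6 * (2 * Y ^ 20) = 524288 * Y ^ 20 := by ring
        _ ≤ Y ^ 4 * Y ^ 20 := Nat.mul_le_mul_right _ (by omega)
        _ = (Y ^ 4) ^ 6 := by ring
        _ ≤ (8 * p) ^ 6 := h2
        _ = 8 ^ 6 * p ^ 6 := by rw [mul_pow]
    exact hDY.trans (Nat.le_of_mul_le_mul_left h3 (by norm_num))
  -- the good primes
  set P := (PP Y).filter fun p => CInj ((a : K) ^ p) ∧
    (Ideal.absNorm (bb a p) : ℝ) ^ 2 ≤ (p : ℝ) ^ D with hPdef
  have hD3 : 3 ≤ D := by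
    have h1 : Y ^ 1 ≤ Y ^ 20 := Nat.pow_le_pow_right hYpos (by norm_num)
    rw [pow_one] at h1
    omega
  have hlogD : 0 ≤ Real.log D := Real.log_nonneg (by exact_mod_cast (by omega : 1 ≤ D))
  have hl2 : 2 * lam (a : K) ≤ Real.log D := by
    have h1 : (2 : ℝ) ≤ K0 := by rw [hK0]; norm_num
    nlinarith
  have hB1 : ((PP Y).filter fun p => ¬ CInj ((a : K) ^ p)).card ≤ 20 * Y := by
    have h1 := card_bad haK hc ((PP Y).filter fun p => ¬ CInj ((a : K) ^ p))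
      (fun p hp => (hPPmem p (Finset.mem_filter.mp hp).1).1) (fun p hp => (Finset.mem_filter.mp hp).2)
    by_contra hcon
    push Not at hcon
    have h2 : 2 ^ (20 * Y + 1) ≤ 2 ^ ((PP Y).filter fun p => ¬ CInj ((a : K) ^ p)).card :=
      Nat.pow_le_pow_right (by norm_num) hcon
    have h3 : Y ^ 20 < (2 ^ Y) ^ 20 := Nat.pow_lt_pow_left Nat.lt_two_pow_self (by norm_num)
    have h4 : 2 ^ (20 * Y + 1) = 2 * (2 ^ Y) ^ 20 := by
      rw [pow_succ, ← pow_mul, mul_comm Y 20, mul_comm]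
    omega
  have hB2 : ((PP Y).filter fun p => ¬ (Ideal.absNorm (bb a p) : ℝ) ^ 2 ≤ (p : ℝ) ^ D).card ≤ 72 := by
    refine card_bb hc _ (fun p hp => (hPPmem p (Finset.mem_filter.mp hp).1).1)
      (fun p hp => (hPPmem p (Finset.mem_filter.mp hp).1).2.2.2) (fun p hp => ?_) hD3 hl2
    have := (Finset.mem_filter.mp hp).2
    exact not_le.mp this
  have hPcard : (10 * (8 + 4 * K0) + 6) * Y ^ 3 ≤ P.card := by
    have h1 : PP Y ⊆ P ∪ (((PP Y).filter fun p => ¬ CInj ((a : K) ^ p)) ∪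
        ((PP Y).filter fun p => ¬ (Ideal.absNorm (bb a p) : ℝ) ^ 2 ≤ (p : ℝ) ^ D)) := by
      intro p hp
      by_cases h1 : CInj ((a : K) ^ p)
      · by_cases h2 : (Ideal.absNorm (bb a p) : ℝ) ^ 2 ≤ (p : ℝ) ^ D
        · exact mem_union_left _ (Finset.mem_filter.mpr ⟨hp, h1, h2⟩)
        · exact mem_union_right _ (mem_union_right _ (Finset.mem_filter.mpr ⟨hp, h2⟩))
      · exact mem_union_right _ (mem_union_left _ (Finset.mem_filter.mpr ⟨hp, h1⟩))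
    have h2 := card_le_card h1
    have h3 := card_union_le P (((PP Y).filter fun p => ¬ CInj ((a : K) ^ p)) ∪
        ((PP Y).filter fun p => ¬ (Ideal.absNorm (bb a p) : ℝ) ^ 2 ≤ (p : ℝ) ^ D))
    have h4 := card_union_le ((PP Y).filter fun p => ¬ CInj ((a : K) ^ p))
        ((PP Y).filter fun p => ¬ (Ideal.absNorm (bb a p) : ℝ) ^ 2 ≤ (p : ℝ) ^ D)
    have h5 := hY1 Y hYY1
    have h6 : Y ≤ Y ^ 3 := Nat.le_self_pow (by norm_num) Y
    have h7 : (10 * (8 + 4 * K0) + 98) * Y ^ 3 = (10 * (8 + 4 * K0) + 6) * Y ^ 3 + 92 * Y ^ 3 := by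
      ring
    omega
  have hPmem : ∀ p ∈ P, p.Prime ∧ Y ^ 4 / 8 < p ∧ p ≤ Y ^ 4 ∧ D ≤ p ^ 6 ∧ CInj ((a : K) ^ p) ∧
      (Ideal.absNorm (bb a p) : ℝ) ^ 2 ≤ (p : ℝ) ^ D := by
    intro p hp
    rw [hPdef, Finset.mem_filter] at hp
    obtain ⟨h1, h2, h3, h4⟩ := hPPmem p hp.1
    exact ⟨h1, h2, h3, h4, hp.2.1, hp.2.2⟩
  obtain ⟨Q, hQ0, hQB, hQc⟩ := chain (b := b) hc hYK hYD hDY hL (P := P) (fun p hp =>
    ⟨(hPmem p hp).1, (hPmem p hp).2.2.1, (hPmem p hp).2.2.2.1, (hPmem p hp).2.2.2.2.2⟩)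
  have hOm := card_Om (b := (b : K)) a.2 haK hroot (fun p hp => (hPmem p hp).2.2.2.2.1) Q
  set exc : ℕ → ℕ := fun p =>
    ((Finset.univ : Finset (K →ₐ[ℚ] ℂ)).filter fun σ => eval (pt (a : K) (b : K) σ p) Q ≠ 0).card
    with hexc
  replace hQc : ∑ p ∈ P, exc p ≤ (8 + 4 * K0) * Y ^ 23 := by
    refine le_trans (le_of_eq ?_) hQc
    convert hOm.symm using 1
    · refine Finset.sum_congr rfl fun p _ => ?_
      simp only [hexc]
      congr
    · congr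
  -- primes with few exceptions
  set P2 := P.filter fun p => 10 * exc p ≤ D with hP2
  have hP2c : 5 ≤ P2.card := by
    by_contra hcon
    push Not at hcon
    have h1 : (P.filter fun p => ¬ 10 * exc p ≤ D).card + 4 ≥ P.card := by
      have h2 : P2.card + (P.filter fun p => ¬ 10 * exc p ≤ D).card = P.card := by
        rw [hP2]
        convert Finset.card_filter_add_card_filter_not (s := P) (fun p => 10 * exc p ≤ D)
      omega
    have h2 : (P.filter fun p => ¬ 10 * exc p ≤ D).card * D ≤ 10 * ∑ p ∈ P, exc p := by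
      calc (P.filter fun p => ¬ 10 * exc p ≤ D).card * D
          = ∑ p ∈ P.filter (fun p => ¬ 10 * exc p ≤ D), D := by rw [Finset.sum_const, smul_eq_mul]
        _ ≤ ∑ p ∈ P.filter (fun p => ¬ 10 * exc p ≤ D), 10 * exc p :=
            Finset.sum_le_sum fun p hp => by
              have := (Finset.mem_filter.mp hp).2
              omega
        _ ≤ ∑ p ∈ P, 10 * exc p :=
            Finset.sum_le_sum_of_subset (Finset.filter_subset _ _)
        _ = 10 * ∑ p ∈ P, exc p := by rw [Finset.mul_sum]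
    have h3 : (P.filter fun p => ¬ 10 * exc p ≤ D).card * Y ^ 20 ≤
        (10 * (8 + 4 * K0) * Y ^ 3) * Y ^ 20 := by
      calc (P.filter fun p => ¬ 10 * exc p ≤ D).card * Y ^ 20
          ≤ (P.filter fun p => ¬ 10 * exc p ≤ D).card * D := Nat.mul_le_mul_left _ hYD
        _ ≤ 10 * ∑ p ∈ P, exc p := h2
        _ ≤ 10 * ((8 + 4 * K0) * Y ^ 23) := Nat.mul_le_mul_left _ hQc
        _ = _ := by ring
    have h4 := Nat.le_of_mul_le_mul_right h3 (pow_pos (by omega) 20)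
    have h5 : (10 * (8 + 4 * K0) + 6) * Y ^ 3 = 10 * (8 + 4 * K0) * Y ^ 3 + 6 * Y ^ 3 := by ring
    have h6 : 1 ≤ Y ^ 3 := Nat.one_le_pow _ _ hYpos
    omega
  obtain ⟨P5, hP5s, hP5c⟩ := Finset.exists_subset_card_eq hP2c
  have hP5 : ∀ p ∈ P5, p ∈ P ∧ 10 * exc p ≤ D := fun p hp => Finset.mem_filter.mp (hP5s hp)
  -- the points
  set S := (Finset.univ : Finset (K →ₐ[ℚ] ℂ)).filter fun σ =>
    ∀ p ∈ P5, eval (pt (a : K) (b : K) σ p) Q = 0 with hS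
  set g : (K →ₐ[ℚ] ℂ) → Fin 2 → ℂ := fun σ => ![σ (a : K), σ (b : K)] with hg
  have hginj : Function.Injective g := by
    intro σ τ h
    have h1 := congrFun h 0
    exact hc (by simpa [hg] using h1)
  have hScard : D ≤ 2 * S.card := by
    have h1 : (Finset.univ : Finset (K →ₐ[ℚ] ℂ)) ⊆ S ∪ P5.biUnion fun p =>
        (Finset.univ : Finset (K →ₐ[ℚ] ℂ)).filter fun σ => eval (pt (a : K) (b : K) σ p) Q ≠ 0 := by
      intro σ _
      by_cases h1 : ∀ p ∈ P5, eval (pt (a : K) (b : K) σ p) Q = 0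
      · exact mem_union_left _ (Finset.mem_filter.mpr ⟨mem_univ _, h1⟩)
      · push Not at h1
        obtain ⟨p, hp, h1⟩ := h1
        refine mem_union_right _ (Finset.mem_biUnion.mpr ⟨p, hp, ?_⟩)
        exact Finset.mem_filter.mpr ⟨mem_univ _, h1⟩
    have h2 := card_le_card h1
    rw [Finset.card_univ, hcard] at h2
    have h3 := card_union_le S (P5.biUnion fun p =>
        (Finset.univ : Finset (K →ₐ[ℚ] ℂ)).filter fun σ => eval (pt (a : K) (b : K) σ p) Q ≠ 0)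
    have h4 : (P5.biUnion fun p => (Finset.univ : Finset (K →ₐ[ℚ] ℂ)).filter fun σ =>
        eval (pt (a : K) (b : K) σ p) Q ≠ 0).card ≤ ∑ p ∈ P5, exc p := card_biUnion_le
    have h5 : ∑ p ∈ P5, 10 * exc p ≤ 5 * D := by
      calc ∑ p ∈ P5, 10 * exc p ≤ ∑ p ∈ P5, D := Finset.sum_le_sum fun p hp => (hP5 p hp).2
        _ = 5 * D := by rw [Finset.sum_const, hP5c, smul_eq_mul]
    rw [← Finset.mul_sum] at h5
    omega
  have hmain := final_zero (P := P5) (W := Y ^ 4 / 8) (X := Y ^ 4) (s := s)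
    (fun p hp => (hPmem p (hP5 p hp).1).1) (fun p hp => (hPmem p (hP5 p hp).1).2.1)
    (fun p hp => (hPmem p (hP5 p hp).1).2.2.1)
    (by rw [← Finset.card_pos, hP5c]; norm_num) ?_ hQ0 hQB (S.image g) ?_ ?_ ?_
  · obtain ⟨u, v, huv, z, hz⟩ := hmain
    refine ⟨u, v, huv, z, lt_of_lt_of_le hz ?_⟩
    have h1 : (S.image g).filter (fun ω => ω 0 ^ u * ω 1 ^ v = z) ⊆
        ((Finset.univ : Finset (K →ₐ[ℚ] ℂ)).filter fun σ =>
          (σ (a : K)) ^ u * (σ (b : K)) ^ v = z).image g := by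
      intro ω hω
      rw [Finset.mem_filter, Finset.mem_image] at hω
      obtain ⟨⟨σ, _, rfl⟩, h2⟩ := hω
      refine Finset.mem_image.mpr ⟨σ, Finset.mem_filter.mpr ⟨mem_univ _, ?_⟩, rfl⟩
      simpa [hg] using h2
    exact (card_le_card h1).trans card_image_le
  · -- the product of the five primes
    have h1 : ∀ p ∈ P5, Y ^ 4 ≤ 8 * p := by
      intro p hp
      have := (hPmem p (hP5 p hp).1).2.1
      omega
    have h2 : (Y ^ 4) ^ 5 ≤ 8 ^ 5 * ∏ p ∈ P5, p := by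
      calc (Y ^ 4) ^ 5 = ∏ p ∈ P5, Y ^ 4 := by rw [Finset.prod_const, hP5c]
        _ ≤ ∏ p ∈ P5, (8 * p) := Finset.prod_le_prod (fun _ _ => Nat.zero_le _) h1
        _ = 8 ^ 5 * ∏ p ∈ P5, p := by rw [Finset.prod_mul_distrib, Finset.prod_const, hP5c]
    have h3 : 64 * (Y ^ 4 * (Y ^ 4 / 8)) ^ 2 ≤ Y ^ 16 := by
      have h4 : 8 * (Y ^ 4 / 8) ≤ Y ^ 4 := Nat.mul_div_le _ _
      calc 64 * (Y ^ 4 * (Y ^ 4 / 8)) ^ 2 = (Y ^ 4 * (8 * (Y ^ 4 / 8))) ^ 2 := by ring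
        _ ≤ (Y ^ 4 * Y ^ 4) ^ 2 := Nat.pow_le_pow_left (Nat.mul_le_mul_left _ h4) 2
        _ = Y ^ 16 := by ring
    have h4 : 8 ^ 5 * (2 * (Y ^ 4 * (Y ^ 4 / 8)) ^ 2) < 8 ^ 5 * ∏ p ∈ P5, p := by
      calc 8 ^ 5 * (2 * (Y ^ 4 * (Y ^ 4 / 8)) ^ 2) = 1024 * (64 * (Y ^ 4 * (Y ^ 4 / 8)) ^ 2) := by
            ring
        _ ≤ 1024 * Y ^ 16 := Nat.mul_le_mul_left _ h3
        _ < Y ^ 4 * Y ^ 16 := Nat.mul_lt_mul_of_pos_right (by omega) (pow_pos (by omega) 16)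
        _ = (Y ^ 4) ^ 5 := by ring
        _ ≤ _ := h2
    exact Nat.lt_of_mul_lt_mul_left h4
  · intro θ hθ
    obtain ⟨σ, _, rfl⟩ := Finset.mem_image.mp hθ
    refine ⟨?_, ?_⟩
    · simpa [hg] using haK
    · simpa [hg] using hbK
  · intro p hp θ hθ
    obtain ⟨σ, hσ, rfl⟩ := Finset.mem_image.mp hθ
    have h1 := (Finset.mem_filter.mp hσ).2 p hp
    have h2 : (g σ) ^ p = pt (a : K) (b : K) σ p := by
      funext i
      fin_cases i <;> simp [hg, pt]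
    rw [h2]
    exact h1
  · rw [Finset.card_image_of_injective _ hginj, hP5c]
    have h3 : (Y ^ 4 * (Y ^ 4 / 8)) ^ 2 ≤ Y ^ 16 := by
      have h4 : Y ^ 4 / 8 ≤ Y ^ 4 := Nat.div_le_self _ _
      calc (Y ^ 4 * (Y ^ 4 / 8)) ^ 2 ≤ (Y ^ 4 * Y ^ 4) ^ 2 :=
            Nat.pow_le_pow_left (Nat.mul_le_mul_left _ h4) 2
        _ = Y ^ 16 := by ring
    have h4 : 2 * (2 * (Y ^ 4 * (Y ^ 4 / 8)) ^ 2 * 5 + 2 * (Y ^ 4 * (Y ^ 4 / 8)) ^ 2 * s) <
        2 * S.card := by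
      calc 2 * (2 * (Y ^ 4 * (Y ^ 4 / 8)) ^ 2 * 5 + 2 * (Y ^ 4 * (Y ^ 4 / 8)) ^ 2 * s)
          = (4 * (5 + s)) * (Y ^ 4 * (Y ^ 4 / 8)) ^ 2 := by ring
        _ ≤ (4 * (5 + s)) * Y ^ 16 := Nat.mul_le_mul_left _ h3
        _ < Y * Y ^ 16 := Nat.mul_lt_mul_of_pos_right (by omega) (pow_pos (by omega) 16)
        _ = Y ^ 17 := by ring
        _ ≤ Y ^ 20 := Nat.pow_le_pow_right hYpos (by norm_num)
        _ ≤ D := hYD
        _ ≤ _ := hScard
    exact Nat.lt_of_mul_lt_mul_left h4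

end Pool.Agent.J4H57.TD
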