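import Pool.Agent.J4H57.TD.K

/-!
# Two multiplicatively independent units of small height have many noncompact embeddings
-/

set_option autoImplicit false

open Finset NumberField Module

namespace Pool.Agent.J4H57.TD

open Pool.Agent.H388SL

section

variable {K : Type*} [Field K] [NumberField K]

/-- all conjugate values of an element are taken by the same number of embeddings -/
lemma card_value (β : K) (σ₀ σ₁ : K →ₐ[ℚ] ℂ) :
    ((Finset.univ : Finset (K →ₐ[ℚ] ℂ)).filter fun σ => σ β = σ₀ β).card =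
      ((Finset.univ : Finset (K →ₐ[ℚ] ℂ)).filter fun σ => σ β = σ₁ β).card := by
  classical
  have key : ∀ σ₀ : K →ₐ[ℚ] ℂ,
      ((Finset.univ : Finset (K →ₐ[ℚ] ℂ)).filter fun σ => σ β = σ₀ β).card =
        finrank (IntermediateField.adjoin ℚ {β}) K := by
    intro σ₀
    have h1 := sum_embeddings' (M := ℕ) β (fun z => if z = σ₀ β then 1 else 0)
    rw [Finset.card_filter, h1, smul_eq_mul]
    have h2 : (∑ σ : (IntermediateField.adjoin ℚ {β}) →ₐ[ℚ] ℂ,
        if σ (IntermediateField.AdjoinSimple.gen ℚ β) = σ₀ β then 1 else 0) = 1 := by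
      refine (Finset.sum_eq_single (σ₀.comp (IntermediateField.adjoin ℚ {β}).val) ?_ ?_).trans ?_
      rotate_right
      · rw [if_pos]
        rfl
      · intro τ _ hτ
        rw [if_neg]
        intro h4
        apply hτ
        apply CInj_gen β
        exact h4
      · intro h4
        exact absurd (mem_univ _) h4
    rw [h2, mul_one]
  rw [key σ₀, key σ₁]

lemma exists_norm_ne_one {c : K} (hc : IsIntegral ℤ c)
    (h0 : c ≠ 0) (hroot : ∀ n : ℕ, 0 < n → c ^ n ≠ 1) : ∃ τ : K →ₐ[ℚ] ℂ, ‖τ c‖ ≠ 1 := by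
  by_contra hcon
  push Not at hcon
  obtain ⟨n, hn, hn1⟩ := NumberField.Embeddings.pow_eq_one_of_norm_le_one K ℂ h0 hc
    (fun φ => (hcon (RingHom.equivRatAlgHom K ℂ φ)).le)
  exact hroot n hn hn1

/-- units are multiplicatively independent -/
def MIndep (a b : K) : Prop := ∀ u v : ℤ, a ^ u * b ^ v = 1 → u = 0 ∧ v = 0

omit [NumberField K] in
lemma MIndep.not_root {a b : K} (h : MIndep a b) : ∀ n : ℕ, 0 < n → a ^ n ≠ 1 := by
  intro n hn h1
  have h2 := h n 0 (by simpa using h1)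
  omega

/-- the embeddings at which one of the two elements is not on the unit circle -/
noncomputable def EE (a b : K) : Finset (K →ₐ[ℚ] ℂ) := by
  classical
  exact Finset.univ.filter fun σ => ‖σ a‖ ≠ 1 ∨ ‖σ b‖ ≠ 1

lemma mem_EE {a b : K} {σ : K →ₐ[ℚ] ℂ} : σ ∈ EE a b ↔ ‖σ a‖ ≠ 1 ∨ ‖σ b‖ ≠ 1 := by
  unfold EE
  rw [Finset.mem_filter]
  simp

end

theorem lehmer2_gen (s : ℕ) : ∃ D1 : ℕ, ∀ (K : Type) [Field K] [NumberField K] (a b : K),
    IsIntegral ℤ a → IsIntegral ℤ a⁻¹ → IsIntegral ℤ b → IsIntegral ℤ b⁻¹ → a ≠ 0 → b ≠ 0 →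
    CInj a → MIndep a b → (EE a b).card ≤ s → D1 ≤ finrank ℚ K →
    Real.log (finrank ℚ K) ≤ K0 * (lam a + lam b) := by
  classical
  obtain ⟨D1, hD1⟩ := core s
  refine ⟨D1, ?_⟩
  intro K _ _ a b ha ha' hb hb' ha0 hb0 hc hind hE hD
  by_contra hcon
  push Not at hcon
  obtain ⟨u, v, huv, z, hz⟩ := hD1 K ⟨a, ha⟩ ⟨b, hb⟩ hc
    (by intro h; apply ha0; exact congrArg Subtype.val h)
    (by intro h; apply hb0; exact congrArg Subtype.val h) hind.not_root hD hcon
  change s < ((Finset.univ : Finset (K →ₐ[ℚ] ℂ)).filter fun σ => (σ a) ^ u * (σ b) ^ v = z).card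
    at hz
  set c := a ^ u * b ^ v with hcdef
  have hσc : ∀ σ : K →ₐ[ℚ] ℂ, σ c = (σ a) ^ u * (σ b) ^ v := by
    intro σ
    rw [hcdef, map_mul, map_zpow₀, map_zpow₀]
  have hzint : ∀ {x : K}, IsIntegral ℤ x → IsIntegral ℤ x⁻¹ → ∀ n : ℤ, IsIntegral ℤ (x ^ n) := by
    intro x hx hx' n
    obtain ⟨m, rfl | rfl⟩ := n.eq_nat_or_neg
    · rw [zpow_natCast]; exact hx.pow m
    · rw [zpow_neg, zpow_natCast, ← inv_pow]; exact hx'.pow m
  have hcint : IsIntegral ℤ c := (hzint ha ha' u).mul (hzint hb hb' v)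
  have hc0 : c ≠ 0 := mul_ne_zero (zpow_ne_zero _ ha0) (zpow_ne_zero _ hb0)
  have hcroot : ∀ n : ℕ, 0 < n → c ^ n ≠ 1 := by
    intro n hn h1
    rw [hcdef, mul_pow, ← zpow_natCast, ← zpow_natCast, ← zpow_mul, ← zpow_mul] at h1
    have h2 := hind _ _ h1
    have hn' : (n : ℤ) ≠ 0 := by exact_mod_cast hn.ne'
    rcases huv with hu | hv
    · exact (mul_ne_zero hu hn') h2.1
    · exact (mul_ne_zero hv hn') h2.2
  obtain ⟨τ, hτ⟩ := exists_norm_ne_one hcint hc0 hcroot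
  -- the value `z` is a conjugate
  obtain ⟨σ₁, hσ₁⟩ := Finset.card_pos.mp (lt_of_le_of_lt (Nat.zero_le _) hz)
  have hσ₁' := (Finset.mem_filter.mp hσ₁).2
  have h1 : ((Finset.univ : Finset (K →ₐ[ℚ] ℂ)).filter fun σ => (σ a) ^ u * (σ b) ^ v = z).card =
      ((Finset.univ : Finset (K →ₐ[ℚ] ℂ)).filter fun σ => σ c = τ c).card := by
    rw [← card_value c σ₁ τ]
    congr 1
    ext σ
    rw [Finset.mem_filter, Finset.mem_filter, hσc, hσc, hσ₁']
  rw [h1] at hz
  have h2 : ((Finset.univ : Finset (K →ₐ[ℚ] ℂ)).filter fun σ => σ c = τ c) ⊆ EE a b := by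
    intro σ hσ
    rw [Finset.mem_filter] at hσ
    rw [mem_EE]
    by_contra h3
    push Not at h3
    apply hτ
    rw [← hσ.2, hσc, norm_mul, norm_zpow, norm_zpow, h3.1, h3.2, one_zpow, one_zpow, mul_one]
  have h3 := card_le_card h2
  omega

end Pool.Agent.J4H57.TD
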