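import Pool.Agent.J4H57.TD.L

/-!
# The general lower bound for two multiplicatively independent units
-/

set_option autoImplicit false

open Finset NumberField Module

namespace Pool.Agent.J4H57.TD

open Pool.Agent.H388SL

section

variable {K : Type*} [Field K] [NumberField K]

/-- sums over embeddings of a function of the restriction -/
lemma sum_restrict {N : Type*} [AddCommMonoid N] (L : IntermediateField ℚ K)
    (F : (L →ₐ[ℚ] ℂ) → N) :
    ∑ σ : K →ₐ[ℚ] ℂ, F (σ.comp L.val) = (finrank L K) • ∑ τ : L →ₐ[ℚ] ℂ, F τ := by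
  classical
  rw [Fintype.sum_equiv (algHomEquivSigma (A := ℚ) (B := L) (C := K) (D := ℂ))
    (fun σ : K →ₐ[ℚ] ℂ => F (σ.comp L.val)) (fun σ => F σ.1), ← Finset.univ_sigma_univ,
    Finset.sum_sigma, Finset.smul_sum]
  · refine Finset.sum_congr rfl fun σ _ => ?_
    let _ : Algebra L ℂ := σ.toRingHom.toAlgebra
    refine (Finset.sum_congr rfl (fun s _ => (rfl : _ = F σ))).trans ?_
    rw [Finset.sum_const, Finset.card_univ]
    congr 1
    exact AlgHom.card L K ℂ
  · intro σ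
    rfl

lemma lam_restrict (L : IntermediateField ℚ K) (x : L) :
    lam (x : K) = finrank L K * lam x := by
  unfold lam
  have h1 := sum_restrict L (fun τ : L →ₐ[ℚ] ℂ => Real.log (max 1 ‖τ x‖))
  rw [nsmul_eq_mul] at h1
  rw [← h1]
  rfl

lemma card_EE_restrict (L : IntermediateField ℚ K) (x y : L) :
    (EE (x : K) (y : K)).card = finrank L K * (EE x y).card := by
  classical
  unfold EE
  rw [Finset.card_filter, Finset.card_filter]
  have h1 := sum_restrict L (fun τ : L →ₐ[ℚ] ℂ => if ‖τ x‖ ≠ 1 ∨ ‖τ y‖ ≠ 1 then 1 else 0)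
  rw [smul_eq_mul] at h1
  convert h1 using 1
  refine Finset.sum_congr rfl fun σ _ => ?_
  have e1 : σ (x : K) = (σ.comp L.val) x := rfl
  have e2 : σ (y : K) = (σ.comp L.val) y := rfl
  rw [e1, e2]
  congr

lemma EE_pow (a b : K) {N : ℕ} (hN : N ≠ 0) : EE (a ^ N) (b ^ N) = EE a b := by
  ext σ
  rw [mem_EE, mem_EE, map_pow, map_pow, norm_pow, norm_pow, Ne, Ne,
    pow_eq_one_iff_of_nonneg (norm_nonneg _) hN, pow_eq_one_iff_of_nonneg (norm_nonneg _) hN]

lemma lam_mul_le (x y : K) : lam (x * y) ≤ lam x + lam y := by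
  unfold lam
  rw [← Finset.sum_add_distrib]
  refine Finset.sum_le_sum fun σ _ => ?_
  have h1 : (0 : ℝ) < max 1 ‖σ x‖ := lt_of_lt_of_le one_pos (le_max_left _ _)
  have h2 : (0 : ℝ) < max 1 ‖σ y‖ := lt_of_lt_of_le one_pos (le_max_left _ _)
  rw [← Real.log_mul h1.ne' h2.ne']
  apply Real.log_le_log (lt_of_lt_of_le one_pos (le_max_left _ _))
  rw [map_mul, norm_mul]
  apply max_le
  · exact one_le_mul_of_one_le_of_one_le (le_max_left _ _) (le_max_left _ _)
  · exact mul_le_mul (le_max_right _ _) (le_max_right _ _) (norm_nonneg _) h1.le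

lemma algHom_ext_of_eq {L : IntermediateField ℚ K} {S : Set K}
    (h : L = IntermediateField.adjoin ℚ S) {σ τ : L →ₐ[ℚ] ℂ}
    (hS : ∀ x : L, (x : K) ∈ S → σ x = τ x) : σ = τ := by
  subst h
  apply IntermediateField.adjoin_algHom_ext ℚ
  intro x hx
  exact hS ⟨x, _⟩ hx

lemma exists_gen {x y : K} {s : ℕ} (hx0 : x ≠ 0) (hy0 : y ≠ 0)
    (hE : (EE x y).card ≤ s) (hne : (EE x y).Nonempty)
    (hgen : ∀ k, 1 ≤ k → k ≤ s + 1 → ∀ σ τ : K →ₐ[ℚ] ℂ, σ x ^ k = τ x ^ k →
      σ y ^ k = τ y ^ k → σ = τ) : ∃ b ≤ s + 1, CInj (x * y ^ b) := by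
  classical
  by_contra hcon
  push Not at hcon
  obtain ⟨τ₀, hτ₀⟩ := hne
  have h1 : ∀ b ≤ s + 1, ∃ τ : K →ₐ[ℚ] ℂ, τ ≠ τ₀ ∧ τ (x * y ^ b) = τ₀ (x * y ^ b) := by
    intro b hb
    have h2 := hcon b hb
    unfold CInj at h2
    rw [Function.not_injective_iff] at h2
    obtain ⟨σ, τ, hστ, hne⟩ := h2
    have h3 : 1 < ((Finset.univ : Finset (K →ₐ[ℚ] ℂ)).filter
        fun ρ => ρ (x * y ^ b) = σ (x * y ^ b)).card := by
      rw [Finset.one_lt_card]
      exact ⟨σ, Finset.mem_filter.mpr ⟨mem_univ _, rfl⟩, τ,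
        Finset.mem_filter.mpr ⟨mem_univ _, hστ.symm⟩, hne⟩
    rw [card_value _ σ τ₀] at h3
    obtain ⟨ρ, hρ, hρne⟩ := Finset.exists_mem_ne h3 τ₀
    exact ⟨ρ, hρne, (Finset.mem_filter.mp hρ).2⟩
  have : Nonempty (K →ₐ[ℚ] ℂ) := ⟨τ₀⟩
  choose! t ht1 ht2 using h1
  rw [mem_EE] at hτ₀
  have hny : 0 < ‖τ₀ y‖ := norm_pos_iff.mpr ((map_ne_zero τ₀).mpr hy0)
  -- exponents with absolute value different from one
  set B := (Finset.range (s + 2)).filter fun b => ‖τ₀ (x * y ^ b)‖ ≠ 1 with hB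
  have hBc : s + 1 ≤ B.card := by
    have h2 : ((Finset.range (s + 2)).filter fun b => ¬ ‖τ₀ (x * y ^ b)‖ ≠ 1).card ≤ 1 := by
      rw [Finset.card_le_one]
      have key : ∀ b b' : ℕ, b < b' → ‖τ₀ (x * y ^ b)‖ = 1 → ‖τ₀ (x * y ^ b')‖ = 1 → False := by
        intro b b' hbb h3 h4
        obtain ⟨k, rfl⟩ := Nat.exists_eq_add_of_lt hbb
        rw [map_mul, norm_mul, map_pow, norm_pow] at h3 h4
        have h5 : ‖τ₀ y‖ ^ (k + 1) = 1 := by
          have h6 : ‖τ₀ x‖ * ‖τ₀ y‖ ^ (b + k + 1) = (‖τ₀ x‖ * ‖τ₀ y‖ ^ b) * ‖τ₀ y‖ ^ (k + 1) := by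
            ring
          rw [h6, h3, one_mul] at h4
          exact h4
        rw [pow_eq_one_iff_of_nonneg (norm_nonneg _) (by omega)] at h5
        rw [h5, one_pow, mul_one] at h3
        rcases hτ₀ with h | h
        · exact h h3
        · exact h h5
      intro b hb b' hb'
      rw [Finset.mem_filter, not_not] at hb hb'
      rcases lt_trichotomy b b' with h | h | h
      · exact (key b b' h hb.2 hb'.2).elim
      · exact h
      · exact (key b' b h hb'.2 hb.2).elim
    have h3 : B.card + ((Finset.range (s + 2)).filter fun b => ¬ ‖τ₀ (x * y ^ b)‖ ≠ 1).card =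
        (Finset.range (s + 2)).card := by
      rw [hB]
      convert Finset.card_filter_add_card_filter_not (s := Finset.range (s + 2))
        (fun b => ‖τ₀ (x * y ^ b)‖ ≠ 1)
    rw [Finset.card_range] at h3
    omega
  have hBm : ∀ b ∈ B, b ≤ s + 1 ∧ ‖τ₀ (x * y ^ b)‖ ≠ 1 := by
    intro b hb
    rw [hB, Finset.mem_filter, Finset.mem_range] at hb
    exact ⟨by omega, hb.2⟩
  have hmaps : ∀ b ∈ B, t b ∈ (EE x y).erase τ₀ := by
    intro b hb
    obtain ⟨hb1, hb2⟩ := hBm b hb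
    rw [Finset.mem_erase, mem_EE]
    refine ⟨ht1 b hb1, ?_⟩
    by_contra h2
    push Not at h2
    apply hb2
    rw [← ht2 b hb1, map_mul, norm_mul, map_pow, norm_pow, h2.1, h2.2, one_pow, mul_one]
  have hlt : ((EE x y).erase τ₀).card < B.card := by
    rw [Finset.card_erase_of_mem (mem_EE.mpr hτ₀)]
    omega
  obtain ⟨b, hb, b', hb', hbb, htt⟩ := Finset.exists_ne_map_eq_of_card_lt_of_maps_to hlt hmaps
  -- the contradiction
  have fin : ∀ b b' : ℕ, b < b' → b ∈ B → b' ∈ B → t b = t b' → False := by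
    intro b b' hlt hb hb' htt
    obtain ⟨hb1, hb2⟩ := hBm b hb
    obtain ⟨hb1', hb2'⟩ := hBm b' hb'
    have e1 := ht2 b hb1
    have e2 := ht2 b' hb1'
    rw [← htt] at e2
    obtain ⟨k, rfl⟩ := Nat.exists_eq_add_of_lt hlt
    rw [map_mul, map_pow, map_mul, map_pow] at e1 e2
    have hα : τ₀ x * τ₀ y ^ b ≠ 0 := mul_ne_zero ((map_ne_zero τ₀).mpr hx0)
      (pow_ne_zero _ ((map_ne_zero τ₀).mpr hy0))
    have e3 : (t b) y ^ (k + 1) = τ₀ y ^ (k + 1) := by
      have e4 : (t b) x * (t b) y ^ (b + k + 1) = ((t b) x * (t b) y ^ b) * (t b) y ^ (k + 1) := by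
        ring
      have e5 : τ₀ x * τ₀ y ^ (b + k + 1) = (τ₀ x * τ₀ y ^ b) * τ₀ y ^ (k + 1) := by ring
      rw [e4, e5, e1] at e2
      exact mul_left_cancel₀ hα e2
    have e4 : (t b) x ^ (k + 1) = τ₀ x ^ (k + 1) := by
      have e5 := congrArg (fun z => z ^ (k + 1)) e1
      simp only [mul_pow, ← pow_mul, mul_comm b (k + 1)] at e5
      rw [pow_mul ((t b) y), pow_mul (τ₀ y), e3] at e5
      exact mul_right_cancel₀ (pow_ne_zero _ (pow_ne_zero _ ((map_ne_zero τ₀).mpr hy0))) e5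
    exact ht1 b hb1 (hgen (k + 1) (by omega) (by omega) _ _ e4 e3)
  rcases lt_or_gt_of_ne hbb with h | h
  · exact fin b b' h hb hb' htt
  · exact fin b' b h hb' hb htt.symm

lemma finrank_lt_of_lt {E F : IntermediateField ℚ K} (h : E < F) : finrank F K < finrank E K := by
  have h2 := two_mul_finrank_le h
  have h3 := finrank_mul_finrank ℚ F K
  have h4 := finrank_mul_finrank ℚ E K
  have h5 : 0 < finrank ℚ E := finrank_pos
  have h5' : 0 < finrank F K := finrank_pos
  by_contra hc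
  push Not at hc
  have h7 : finrank ℚ E * finrank E K < finrank ℚ F * finrank F K := by
    calc finrank ℚ E * finrank E K ≤ finrank ℚ E * finrank F K := Nat.mul_le_mul_left _ hc
      _ < finrank ℚ F * finrank F K := Nat.mul_lt_mul_of_pos_right (by omega) h5'
  omega

lemma exists_stable {a b : K} {s F : ℕ} (hF : F ≠ 0) (hE : (EE a b).card ≤ s)
    (hne : (EE a b).Nonempty) : ∃ i < s,
      IntermediateField.adjoin ℚ {a ^ F ^ (i + 1), b ^ F ^ (i + 1)} =
      IntermediateField.adjoin ℚ {a ^ F ^ i, b ^ F ^ i} := by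
  classical
  by_contra hcon
  push Not at hcon
  set L : ℕ → IntermediateField ℚ K := fun i => IntermediateField.adjoin ℚ {a ^ F ^ i, b ^ F ^ i}
    with hL
  have hmem : ∀ i, a ^ F ^ i ∈ L i ∧ b ^ F ^ i ∈ L i := fun i =>
    ⟨IntermediateField.subset_adjoin _ _ (by simp), IntermediateField.subset_adjoin _ _ (by simp)⟩
  have hle : ∀ i, L (i + 1) ≤ L i := by
    intro i
    rw [hL]
    dsimp only
    rw [IntermediateField.adjoin_le_iff]
    intro x hx
    rw [Set.mem_insert_iff, Set.mem_singleton_iff] at hx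
    rcases hx with rfl | rfl
    · rw [pow_succ, pow_mul]
      exact pow_mem (hmem i).1 _
    · rw [pow_succ, pow_mul]
      exact pow_mem (hmem i).2 _
  have hr : ∀ i, finrank (L i) K ≤ s := by
    intro i
    have h1 := card_EE_restrict (L i) ⟨a ^ F ^ i, (hmem i).1⟩ ⟨b ^ F ^ i, (hmem i).2⟩
    change (EE (a ^ F ^ i) (b ^ F ^ i)).card = _ at h1
    rw [EE_pow a b (pow_ne_zero _ hF)] at h1
    have h2 : 0 < (EE a b).card := Finset.card_pos.mpr hne
    rw [h1] at h2 hE
    have h3 := Nat.pos_of_mul_pos_left h2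
    calc finrank (L i) K = finrank (L i) K * 1 := (mul_one _).symm
      _ ≤ _ := Nat.mul_le_mul_left _ (by
        rcases Nat.eq_zero_or_pos (EE (K := L i) ⟨a ^ F ^ i, (hmem i).1⟩
          ⟨b ^ F ^ i, (hmem i).2⟩).card with h | h
        · rw [h, mul_zero] at h2
          exact absurd h2 (lt_irrefl _)
        · exact h)
      _ ≤ s := hE
  have hgrow : ∀ i ≤ s, i + 1 ≤ finrank (L i) K := by
    intro i
    induction i with
    | zero =>
      intro _
      have : 0 < finrank (L 0) K := finrank_pos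
      omega
    | succ i ih =>
      intro hi
      have h1 := ih (by omega)
      have hne' : L (i + 1) ≠ L i := hcon i (by omega)
      have hlt : L (i + 1) < L i := lt_of_le_of_ne (hle i) hne'
      have h2 := finrank_lt_of_lt hlt
      omega
  have h1 := hgrow s le_rfl
  have h2 := hr s
  omega

end

/-- **Two multiplicatively independent units.** -/
theorem lehmer2 (s : ℕ) : ∃ c : ℝ, 0 < c ∧ ∃ D1 : ℕ, ∀ (K : Type) [Field K] [NumberField K]
    (a b : K), IsIntegral ℤ a → IsIntegral ℤ a⁻¹ → IsIntegral ℤ b → IsIntegral ℤ b⁻¹ →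
    a ≠ 0 → b ≠ 0 → MIndep a b → (EE a b).card ≤ s → D1 ≤ finrank ℚ K →
    c * Real.log (finrank ℚ K) ≤ lam a + lam b := by
  classical
  obtain ⟨D1, hD1⟩ := lehmer2_gen s
  set F := (s + 1).factorial with hF
  have hF1 : 1 ≤ F := Nat.factorial_pos _
  have hK0 : (0 : ℝ) < K0 := by norm_num [K0, C0]
  have hF1' : (1 : ℝ) ≤ F := by exact_mod_cast hF1
  set C : ℝ := 2 * K0 * (s + 2) * F ^ s with hC
  have hCpos : 0 < C := by positivity
  refine ⟨C⁻¹, inv_pos.mpr hCpos, s * D1 + s ^ 2 + 1, ?_⟩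
  intro K _ _ a b ha ha' hb hb' ha0 hb0 hind hE hD
  have hEne : (EE a b).Nonempty := by
    obtain ⟨τ, hτ⟩ := exists_norm_ne_one ha ha0 hind.not_root
    exact ⟨τ, mem_EE.mpr (Or.inl hτ)⟩
  obtain ⟨i, his, hi⟩ := exists_stable (F := F) (by omega) hE hEne
  set N := F ^ i with hN
  have hN1 : 1 ≤ N := Nat.one_le_pow _ _ hF1
  have hN0 : N ≠ 0 := by omega
  set L := IntermediateField.adjoin ℚ {a ^ N, b ^ N} with hL
  have hmemL : a ^ N ∈ L ∧ b ^ N ∈ L :=
    ⟨IntermediateField.subset_adjoin _ _ (by simp), IntermediateField.subset_adjoin _ _ (by simp)⟩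
  set x : L := ⟨a ^ N, hmemL.1⟩ with hx
  set y : L := ⟨b ^ N, hmemL.2⟩ with hy
  have hx0 : x ≠ 0 := by
    intro h
    exact pow_ne_zero N ha0 (congrArg Subtype.val h)
  have hy0 : y ≠ 0 := by
    intro h
    exact pow_ne_zero N hb0 (congrArg Subtype.val h)
  have hcE := card_EE_restrict L x y
  change (EE (a ^ N) (b ^ N)).card = _ at hcE
  rw [EE_pow a b hN0] at hcE
  have hr1 : 1 ≤ finrank L K := finrank_pos
  have hEpos : 0 < (EE x y).card := by
    have h2 : 0 < (EE a b).card := Finset.card_pos.mpr hEne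
    rw [hcE] at h2
    exact Nat.pos_of_mul_pos_left h2
  have hEL : (EE x y).card ≤ s := by
    calc (EE x y).card = 1 * (EE x y).card := (one_mul _).symm
      _ ≤ finrank L K * (EE x y).card := Nat.mul_le_mul_right _ hr1
      _ = (EE a b).card := hcE.symm
      _ ≤ s := hE
  have hrs : finrank L K ≤ s := by
    calc finrank L K = finrank L K * 1 := (mul_one _).symm
      _ ≤ finrank L K * (EE x y).card := Nat.mul_le_mul_left _ hEpos
      _ = (EE a b).card := hcE.symm
      _ ≤ s := hE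
  have hgen : ∀ k, 1 ≤ k → k ≤ s + 1 → ∀ σ τ : L →ₐ[ℚ] ℂ, σ x ^ k = τ x ^ k →
      σ y ^ k = τ y ^ k → σ = τ := by
    intro k hk1 hk2 σ τ h1 h2
    obtain ⟨m, hm⟩ := Nat.dvd_factorial (by omega) hk2
    rw [← hF] at hm
    apply algHom_ext_of_eq (L := L) (S := {a ^ F ^ (i + 1), b ^ F ^ (i + 1)}) hi.symm
    intro z hz
    rw [Set.mem_insert_iff, Set.mem_singleton_iff] at hz
    have e1 : F ^ (i + 1) = N * (k * m) := by rw [pow_succ, ← hm]
    rcases hz with hz | hz
    · have hz' : z = (x ^ k) ^ m := by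
        apply Subtype.ext
        rw [hz, e1, pow_mul, pow_mul]
        rfl
      rw [hz', map_pow, map_pow, map_pow, map_pow, h1]
    · have hz' : z = (y ^ k) ^ m := by
        apply Subtype.ext
        rw [hz, e1, pow_mul, pow_mul]
        rfl
      rw [hz', map_pow, map_pow, map_pow, map_pow, h2]
  obtain ⟨β, hβ, hCI⟩ := exists_gen hx0 hy0 hEL (Finset.card_pos.mp hEpos) hgen
  -- integrality
  have hint : ∀ {z : L}, IsIntegral ℤ (z : K) → IsIntegral ℤ z := fun {z} hz =>
    (isIntegral_algebraMap_iff (A := L) (B := K) Subtype.val_injective).mp hz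
  have hxi : IsIntegral ℤ x := hint (ha.pow N)
  have hyi : IsIntegral ℤ y := hint (hb.pow N)
  have hxi' : IsIntegral ℤ x⁻¹ := hint (by
    have : ((x⁻¹ : L) : K) = a⁻¹ ^ N := by rw [inv_pow]; rfl
    rw [this]; exact ha'.pow N)
  have hyi' : IsIntegral ℤ y⁻¹ := hint (by
    have : ((y⁻¹ : L) : K) = b⁻¹ ^ N := by rw [inv_pow]; rfl
    rw [this]; exact hb'.pow N)
  have hindL : MIndep (x * y ^ β) y := by
    intro u v huv
    have h1 : x ^ u * y ^ ((β : ℤ) * u + v) = 1 := by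
      rw [zpow_add₀ hy0, ← mul_assoc, zpow_mul, zpow_natCast, ← mul_zpow]
      exact huv
    have h2 : a ^ ((N : ℤ) * u) * b ^ ((N : ℤ) * ((β : ℤ) * u + v)) = 1 := by
      have h3 := congrArg (algebraMap L K) h1
      rw [map_mul, map_zpow₀, map_zpow₀, map_one] at h3
      rw [zpow_mul, zpow_mul, zpow_natCast, zpow_natCast]
      exact h3
    obtain ⟨h3, h4⟩ := hind _ _ h2
    have hNz : (N : ℤ) ≠ 0 := by exact_mod_cast hN0
    have h5 : u = 0 := (mul_eq_zero.mp h3).resolve_left hNz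
    have h6 := (mul_eq_zero.mp h4).resolve_left hNz
    rw [h5, mul_zero, zero_add] at h6
    exact ⟨h5, h6⟩
  have hE2 : (EE (x * y ^ β) y).card ≤ s := by
    refine (card_le_card ?_).trans hEL
    intro σ hσ
    rw [mem_EE] at hσ ⊢
    by_contra h2
    push Not at h2
    rcases hσ with h | h
    · apply h
      rw [map_mul, norm_mul, map_pow, norm_pow, h2.1, h2.2, one_pow, mul_one]
    · exact h h2.2
  have hdeg := finrank_mul_finrank ℚ L K
  have hs1 : 1 ≤ s := by omega
  have hDL : D1 ≤ finrank ℚ L := by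
    by_contra hcon
    push Not at hcon
    have h1 : finrank ℚ L * finrank L K ≤ D1 * s := Nat.mul_le_mul hcon.le hrs
    have h2 : D1 * s = s * D1 := mul_comm _ _
    omega
  have hmain := hD1 L (x * y ^ β) y (hxi.mul (hyi.pow β))
    (by rw [mul_inv, ← inv_pow]; exact hxi'.mul (hyi'.pow β)) hyi hyi'
    (mul_ne_zero hx0 (pow_ne_zero _ hy0)) hy0 hCI hindL hE2 hDL
  have hlx := lam_nonneg x
  have hly := lam_nonneg y
  have hla := lam_nonneg a
  have hlb := lam_nonneg b
  have h1 : lam (x * y ^ β) + lam y ≤ (s + 2) * (lam x + lam y) := by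
    have h2 := lam_mul_le x (y ^ β)
    rw [lam_pow] at h2
    have h3 : (β : ℝ) ≤ s + 1 := by exact_mod_cast hβ
    have hs0 : (0 : ℝ) ≤ s := Nat.cast_nonneg _
    nlinarith
  have h2 : lam x + lam y ≤ F ^ s * (lam a + lam b) := by
    have e1 : lam (a ^ N) = finrank L K * lam x := lam_restrict L x
    have e2 : lam (b ^ N) = finrank L K * lam y := lam_restrict L y
    rw [lam_pow] at e1 e2
    have hr1' : (1 : ℝ) ≤ finrank L K := by exact_mod_cast hr1
    have e3 : (N : ℝ) ≤ F ^ s := by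
      rw [hN]
      push_cast
      exact pow_le_pow_right₀ hF1' his.le
    have e4 : lam x ≤ N * lam a := by rw [e1]; nlinarith
    have e5 : lam y ≤ N * lam b := by rw [e2]; nlinarith
    nlinarith
  have h3 : Real.log (finrank ℚ K) ≤ 2 * Real.log (finrank ℚ L) := by
    have e1 : finrank ℚ K ≤ (finrank ℚ L) ^ 2 := by
      have e2 : finrank ℚ K ≤ finrank ℚ L * s := by
        rw [← hdeg]
        exact Nat.mul_le_mul_left _ hrs
      have e3 : s < finrank ℚ L := by
        by_contra hcon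
        push Not at hcon
        have e4 : finrank ℚ L * s ≤ s * s := Nat.mul_le_mul_right _ hcon
        have e5 : s ^ 2 = s * s := sq s
        omega
      calc finrank ℚ K ≤ finrank ℚ L * s := e2
        _ ≤ finrank ℚ L * finrank ℚ L := Nat.mul_le_mul_left _ e3.le
        _ = _ := (sq _).symm
    have e2 : ((finrank ℚ K : ℕ) : ℝ) ≤ (finrank ℚ L : ℝ) ^ 2 := by exact_mod_cast e1
    have e3 := Real.log_le_log (by exact_mod_cast (finrank_pos : 0 < finrank ℚ K)) e2
    rw [Real.log_pow] at e3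
    exact_mod_cast e3
  rw [inv_mul_le_iff₀ hCpos]
  calc Real.log (finrank ℚ K) ≤ 2 * Real.log (finrank ℚ L) := h3
    _ ≤ 2 * (K0 * (lam (x * y ^ β) + lam y)) := by linarith
    _ ≤ 2 * (K0 * ((s + 2) * (lam x + lam y))) := by gcongr
    _ ≤ 2 * (K0 * ((s + 2) * (F ^ s * (lam a + lam b)))) := by gcongr
    _ = C * (lam a + lam b) := by rw [hC]; ring

end Pool.Agent.J4H57.TD
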