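import Pool.Agent.J4H57.TD.M

/-!
# Multiplicative dependence of units with few and small noncompact conjugates
-/

set_option autoImplicit false

open Finset NumberField Module

namespace Pool.Agent.J4H57.TD

open Pool.Agent.H388SL

section

variable {K : Type} [Field K] [NumberField K]

lemma lam_le_card {a b : K} {s : ℕ} {C : ℝ} (hC : 0 ≤ C) (hE : (EE a b).card ≤ s)
    (h : ∀ τ ∈ EE a b, Real.log (max 1 ‖τ a‖) ≤ C) : lam a ≤ s * C := by
  classical
  unfold lam
  rw [← Finset.sum_subset (Finset.subset_univ (EE a b))]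
  · refine (Finset.sum_le_card_nsmul _ _ _ h).trans ?_
    rw [nsmul_eq_mul]
    exact mul_le_mul_of_nonneg_right (by exact_mod_cast hE) hC
  · intro τ _ hτ
    rw [mem_EE] at hτ
    push Not at hτ
    rw [hτ.1, max_self, Real.log_one]

lemma EE_comm (a b : K) : EE a b = EE b a := by
  ext σ
  rw [mem_EE, mem_EE, or_comm]

end

/-- a lower bound in bounded degree -/
lemma lam_ge (N : ℕ) : ∃ δ : ℝ, 0 < δ ∧ ∀ (K : Type) [Field K] [NumberField K] (a : K),
    IsIntegral ℤ a → a ≠ 0 → (∀ n : ℕ, 0 < n → a ^ n ≠ 1) → finrank ℚ K ≤ N → δ ≤ lam a := by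
  obtain ⟨c, hc, hdob⟩ := dob
  have hN0 : (0 : ℝ) ≤ N := Nat.cast_nonneg _
  have hlog : 0 < Real.log (2 * (N + 1)) := Real.log_pos (by linarith)
  refine ⟨c / (Real.log (2 * (N + 1))) ^ 3, by positivity, ?_⟩
  intro K _ _ a ha ha0 hroot hN
  set L := IntermediateField.adjoin ℚ {a} with hL
  set g := IntermediateField.AdjoinSimple.gen ℚ a with hg
  have hgi : IsIntegral ℤ g :=
    (isIntegral_algebraMap_iff (A := L) (B := K) Subtype.val_injective).mp ha
  have hg0 : g ≠ 0 := by
    intro h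
    exact ha0 (congrArg Subtype.val h)
  have hgroot : ∀ n : ℕ, 0 < n → g ^ n ≠ 1 := by
    intro n hn h
    exact hroot n hn (congrArg Subtype.val h)
  have h1 := hdob L g hgi hg0 hgroot (CInj_gen a)
  have h2 : lam a = finrank L K * lam g := lam_restrict L g
  have h3 : (1 : ℝ) ≤ finrank L K := by exact_mod_cast (finrank_pos : 0 < finrank L K)
  have h4 := lam_nonneg g
  have h5 : finrank ℚ L ≤ N := by
    refine le_trans ?_ hN
    exact Nat.le_of_dvd finrank_pos ⟨_, (finrank_mul_finrank ℚ L K).symm⟩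
  have h6 : c / (Real.log (2 * (N + 1))) ^ 3 ≤ c / (Real.log (2 * finrank ℚ L)) ^ 3 := by
    have h7 : (1 : ℝ) ≤ finrank ℚ L := by exact_mod_cast (finrank_pos : 0 < finrank ℚ L)
    have h8 : 0 < Real.log (2 * finrank ℚ L) := Real.log_pos (by linarith)
    have h9 : (finrank ℚ L : ℝ) ≤ N := by exact_mod_cast h5
    have h10 : Real.log (2 * finrank ℚ L) ≤ Real.log (2 * (N + 1)) :=
      Real.log_le_log (by linarith) (by linarith)
    gcongr
  calc c / (Real.log (2 * (N + 1))) ^ 3 ≤ c / (Real.log (2 * finrank ℚ L)) ^ 3 := h6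
    _ ≤ lam g := h1
    _ ≤ lam a := by rw [h2]; nlinarith

/-- **Two units, with few and small noncompact conjugates, are multiplicatively dependent.** -/
theorem pair (s : ℕ) : ∃ c : ℝ, 0 < c ∧ ∀ (K : Type) [Field K] [NumberField K] (a b : K),
    IsIntegral ℤ a → IsIntegral ℤ a⁻¹ → IsIntegral ℤ b → IsIntegral ℤ b⁻¹ → a ≠ 0 → b ≠ 0 →
    (EE a b).card ≤ s →
    (∀ τ ∈ EE a b, ‖τ a‖ < (1 + finrank ℚ K : ℝ) ^ c ∧ ‖τ b‖ < (1 + finrank ℚ K : ℝ) ^ c) →
    ∃ u v : ℤ, (u ≠ 0 ∨ v ≠ 0) ∧ a ^ u * b ^ v = 1 := by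
  obtain ⟨c0, hc0, D1, hmain⟩ := lehmer2 s
  set N := max D1 2 with hN
  obtain ⟨δ, hδ, hsmall⟩ := lam_ge N
  have hlogN : 0 < Real.log (1 + N) := Real.log_pos (by
    have : (2 : ℝ) ≤ N := by exact_mod_cast le_max_right _ _
    linarith)
  set c := min (c0 / (8 * (s + 1))) (δ / (2 * (s + 1) * Real.log (1 + N))) with hc
  have hcpos : 0 < c := lt_min (by positivity) (by positivity)
  refine ⟨c, hcpos, ?_⟩
  intro K _ _ a b ha ha' hb hb' ha0 hb0 hE hlt
  by_contra hcon
  have hind : MIndep a b := by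
    intro u v huv
    by_contra h
    rw [not_and_or] at h
    exact hcon ⟨u, v, h, huv⟩
  set D := finrank ℚ K with hD
  have hD1 : 1 ≤ D := finrank_pos
  have hD1' : (1 : ℝ) ≤ D := by exact_mod_cast hD1
  have hs0 : (0 : ℝ) ≤ s := Nat.cast_nonneg _
  have hlog1D : 0 < Real.log (1 + D) := Real.log_pos (by linarith)
  have hval : ∀ z : ℂ, ‖z‖ < (1 + D : ℝ) ^ c → Real.log (max 1 ‖z‖) ≤ c * Real.log (1 + D) := by
    intro z hz
    rw [← Real.log_rpow (by linarith)]
    apply Real.log_le_log (lt_of_lt_of_le one_pos (le_max_left _ _))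
    exact max_le (Real.one_le_rpow (by linarith) hcpos.le) hz.le
  have h1 : lam a ≤ s * (c * Real.log (1 + D)) :=
    lam_le_card (by positivity) hE fun τ hτ => hval _ (hlt τ hτ).1
  have h2 : lam b ≤ s * (c * Real.log (1 + D)) := by
    refine lam_le_card (a := b) (b := a) (by positivity) (by rw [EE_comm]; exact hE) fun τ hτ => ?_
    rw [EE_comm] at hτ
    exact hval _ (hlt τ hτ).2
  have hs1 : (s : ℝ) < s + 1 := by linarith
  by_cases hDN : N ≤ D
  · have h3 := hmain K a b ha ha' hb hb' ha0 hb0 hind hE ((le_max_left _ _).trans hDN)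
    have hD2 : (2 : ℝ) ≤ D := by exact_mod_cast (le_max_right D1 2).trans hDN
    have h4 : Real.log (1 + D) ≤ 2 * Real.log D := by
      have h5 : (1 + D : ℝ) ≤ (D : ℝ) ^ 2 := by nlinarith
      have h6 := Real.log_le_log (by linarith) h5
      rw [Real.log_pow] at h6
      exact_mod_cast h6
    have hlogD : 0 < Real.log D := Real.log_pos (by linarith)
    have h5 : c ≤ c0 / (8 * (s + 1)) := min_le_left _ _
    have h6 : c * (8 * (s + 1)) ≤ c0 := (le_div_iff₀ (by positivity)).mp h5
    have h7 : c0 * Real.log D ≤ 4 * (s * c) * Real.log D := by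
      calc c0 * Real.log D ≤ lam a + lam b := h3
        _ ≤ 2 * (s * (c * Real.log (1 + D))) := by linarith
        _ ≤ 2 * (s * (c * (2 * Real.log D))) := by gcongr
        _ = _ := by ring
    have h8 := le_of_mul_le_mul_right h7 hlogD
    nlinarith
  · push Not at hDN
    have h3 := hsmall K a ha ha0 hind.not_root hDN.le
    have h4 : c ≤ δ / (2 * (s + 1) * Real.log (1 + N)) := min_le_right _ _
    have h5 : c * (2 * (s + 1) * Real.log (1 + N)) ≤ δ := (le_div_iff₀ (by positivity)).mp h4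
    have h6 : Real.log (1 + D) ≤ Real.log (1 + N) := by
      apply Real.log_le_log (by linarith)
      have : (D : ℝ) ≤ N := by exact_mod_cast hDN.le
      linarith
    have h7 : (s : ℝ) * (c * Real.log (1 + D)) ≤ s * (c * Real.log (1 + N)) := by gcongr
    have h8 : (s : ℝ) * (c * Real.log (1 + N)) ≤ (s + 1) * (c * Real.log (1 + N)) := by
      have : 0 < c * Real.log (1 + N) := by positivity
      nlinarith
    have h9 : c * (2 * (s + 1) * Real.log (1 + N)) = 2 * ((s + 1) * (c * Real.log (1 + N))) := by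
      ring
    rw [h9] at h5
    have h10 : 0 < (s + 1) * (c * Real.log (1 + N)) := by positivity
    linarith

end Pool.Agent.J4H57.TD
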