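import Pool.Agent.J4H57.TD.P
import Pool.Agent.Y399.MG.H

/-!
# Eigenvalues of integral matrices at two embeddings which generate a small field
-/

set_option autoImplicit false

open Finset NumberField Module Polynomial

namespace Pool.Agent.J4H57.TD

open Pool.Agent.H388SL Pool.Agent.H225R3.Marg Pool.Agent.Y399.MG

section

/-- the number of embeddings which restrict to given embeddings of a subfield -/
lemma card_comp {k K : Type} [Field k] [NumberField k] [Field K] [NumberField K] (f : k →+* K)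
    (S : Finset (k →+* ℂ)) [DecidablePred fun τ : K →ₐ[ℚ] ℂ => (τ : K →+* ℂ).comp f ∈ S] :
    ((Finset.univ : Finset (K →ₐ[ℚ] ℂ)).filter
      fun τ : K →ₐ[ℚ] ℂ => (τ : K →+* ℂ).comp f ∈ S).card *
      finrank ℚ k ≤ S.card * finrank ℚ K := by
  classical
  let _ : Algebra k K := f.toAlgebra
  have h1 := card_over (L := K) S
  have h2 : finrank ℚ k * finrank k K = finrank ℚ K := Module.finrank_mul_finrank ℚ k K
  have h3 : ((Finset.univ : Finset (K →ₐ[ℚ] ℂ)).filter
      fun τ : K →ₐ[ℚ] ℂ => (τ : K →+* ℂ).comp f ∈ S).card ≤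
      ((Finset.univ : Finset (K →+* ℂ)).filter fun τ => τ.comp (algebraMap k K) ∈ S).card := by
    refine Finset.card_le_card_of_injOn (fun τ : K →ₐ[ℚ] ℂ => (τ : K →+* ℂ)) ?_ ?_
    · intro τ hτ
      have hτ' := (Finset.mem_filter.mp (Finset.mem_coe.mp hτ)).2
      exact Finset.mem_coe.mpr (Finset.mem_filter.mpr ⟨mem_univ _, hτ'⟩)
    · intro τ _ τ' _ h
      exact AlgHom.coe_ringHom_injective h
  rw [h1] at h3
  calc _ ≤ (S.card * finrank k K) * finrank ℚ k := Nat.mul_le_mul_right _ h3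
    _ = S.card * finrank ℚ K := by rw [← h2]; ring

/-- a root of a monic polynomial over a subfield of `ℂ` generates a field of bounded degree -/
lemma finrank_root_le (F : IntermediateField ℚ ℂ) (P : F[X]) (hP : P.Monic) (x : ℂ)
    (hx : aeval x P = 0) :
    finrank F (IntermediateField.adjoin F {x}) ≤ P.natDegree ∧
      FiniteDimensional F (IntermediateField.adjoin F {x}) := by
  have hint : IsIntegral F x := ⟨P, hP, by rwa [← aeval_def]⟩
  refine ⟨?_, IntermediateField.adjoin.finiteDimensional hint⟩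
  rw [IntermediateField.adjoin.finrank hint]
  exact Polynomial.natDegree_le_of_dvd (minpoly.dvd F x hx) hP.ne_zero

/-- the number field generated by two conjugates of `k` and two eigenvalues -/
theorem exists_field {k : Type} [Field k] [NumberField k] (σ σ' : k →+* ℂ) (P P' : k[X])
    (hP : P.Monic) (hP' : P'.Monic) (x x' : ℂ) (hx : (P.map σ).IsRoot x)
    (hx' : (P'.map σ').IsRoot x') :
    ∃ (K : Type) (_ : Field K) (_ : NumberField K) (ι : K →+* ℂ) (f f' : k →+* K) (a b : K),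
      ι.comp f = σ ∧ ι.comp f' = σ' ∧ ι a = x ∧ ι b = x' ∧
      finrank ℚ K ≤ pairDeg σ σ' * (P.natDegree * P'.natDegree) := by
  set F : IntermediateField ℚ ℂ := IntermediateField.adjoin ℚ (Set.range σ ∪ Set.range σ') with hF
  have hmem : ∀ y, σ y ∈ F := fun y => IntermediateField.subset_adjoin _ _ (Or.inl ⟨y, rfl⟩)
  have hmem' : ∀ y, σ' y ∈ F := fun y => IntermediateField.subset_adjoin _ _ (Or.inr ⟨y, rfl⟩)
  -- finite dimension
  let φ : k →ₐ[ℚ] ℂ := RingHom.equivRatAlgHom k ℂ σ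
  let φ' : k →ₐ[ℚ] ℂ := RingHom.equivRatAlgHom k ℂ σ'
  have f1 : FiniteDimensional ℚ φ.fieldRange :=
    Module.Finite.equiv (AlgEquiv.ofInjectiveField φ).toLinearEquiv
  have f2 : FiniteDimensional ℚ φ'.fieldRange :=
    Module.Finite.equiv (AlgEquiv.ofInjectiveField φ').toLinearEquiv
  have hle : F ≤ φ.fieldRange ⊔ φ'.fieldRange := by
    rw [hF, IntermediateField.adjoin_le_iff]
    rintro _ (⟨a, rfl⟩ | ⟨a, rfl⟩)
    · exact (le_sup_left : φ.fieldRange ≤ _) ⟨a, rfl⟩
    · exact (le_sup_right : φ'.fieldRange ≤ _) ⟨a, rfl⟩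
  have f3 : FiniteDimensional ℚ ↥(φ.fieldRange ⊔ φ'.fieldRange) :=
    IntermediateField.finiteDimensional_sup _ _
  have f4 : FiniteDimensional ℚ F :=
    FiniteDimensional.of_injective (IntermediateField.inclusion hle).toLinearMap
      (IntermediateField.inclusion hle).injective
  let g : k →+* F := σ.codRestrict F hmem
  let g' : k →+* F := σ'.codRestrict F hmem'
  have hg : (algebraMap F ℂ).comp g = σ := RingHom.ext fun y => rfl
  have hg' : (algebraMap F ℂ).comp g' = σ' := RingHom.ext fun y => rfl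
  have hxa : aeval x (P.map g) = 0 := by
    rw [aeval_def, ← eval_map, Polynomial.map_map, hg]
    exact hx
  have hxa' : aeval x' (P'.map g') = 0 := by
    rw [aeval_def, ← eval_map, Polynomial.map_map, hg']
    exact hx'
  obtain ⟨d1, i1⟩ := finrank_root_le F (P.map g) (hP.map g) x hxa
  obtain ⟨d2, i2⟩ := finrank_root_le F (P'.map g') (hP'.map g') x' hxa'
  rw [hP.natDegree_map] at d1
  rw [hP'.natDegree_map] at d2
  set M : IntermediateField F ℂ := IntermediateField.adjoin F {x} ⊔ IntermediateField.adjoin F {x'}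
    with hM
  have h1 : finrank F M ≤ P.natDegree * P'.natDegree :=
    (IntermediateField.finrank_sup_le _ _).trans (Nat.mul_le_mul d1 d2)
  have f5 : FiniteDimensional F M := IntermediateField.finiteDimensional_sup _ _
  have f6 : Module.Free F M := Module.Free.of_divisionRing F M
  have f7 : Module.Free ℚ F := Module.Free.of_divisionRing ℚ F
  have h2 : finrank ℚ F * finrank F M = finrank ℚ M := Module.finrank_mul_finrank ℚ F M
  have f8 : FiniteDimensional ℚ M := FiniteDimensional.trans ℚ F M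
  have f9 : NumberField M := ⟨⟩
  have hxM : x ∈ M := (le_sup_left : IntermediateField.adjoin F {x} ≤ M)
    (IntermediateField.mem_adjoin_simple_self F x)
  have hxM' : x' ∈ M := (le_sup_right : IntermediateField.adjoin F {x'} ≤ M)
    (IntermediateField.mem_adjoin_simple_self F x')
  refine ⟨M, inferInstance, f9, algebraMap M ℂ, (algebraMap F M).comp g, (algebraMap F M).comp g',
    ⟨x, hxM⟩, ⟨x', hxM'⟩, ?_, ?_, rfl, rfl, ?_⟩
  · exact RingHom.ext fun y => rfl
  · exact RingHom.ext fun y => rfl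
  · have h3 : finrank ℚ M ≤ finrank ℚ F * (P.natDegree * P'.natDegree) := by
      rw [← h2]
      exact Nat.mul_le_mul_left _ h1
    exact h3

/-- the inverse of an eigenvalue -/
lemma root_inv {n : ℕ} {A B : Matrix (Fin n) (Fin n) ℂ} (h : B * A = 1) {l : ℂ}
    (hl : A.charpoly.IsRoot l) : l ≠ 0 ∧ B.charpoly.IsRoot l⁻¹ := by
  obtain ⟨v, hv, hAv⟩ := exists_eigvec A l hl
  have h1 : v = l • B.mulVec v := by
    calc v = (B * A).mulVec v := by rw [h, Matrix.one_mulVec]
      _ = B.mulVec (A.mulVec v) := (Matrix.mulVec_mulVec _ _ _).symm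
      _ = l • B.mulVec v := by rw [hAv, Matrix.mulVec_smul]
  have hl0 : l ≠ 0 := by
    rintro rfl
    rw [zero_smul] at h1
    exact hv h1
  refine ⟨hl0, ?_⟩
  have h2 : B.mulVec v = l⁻¹ • v := by
    rw [eq_inv_smul_iff₀ hl0]
    exact h1.symm
  rw [IsRoot, Matrix.eval_charpoly]
  apply Matrix.exists_mulVec_eq_zero_iff.mp
  refine ⟨v, hv, ?_⟩
  rw [Matrix.sub_mulVec, h2, sub_eq_zero]
  ext i
  simp [Matrix.scalar_apply, Matrix.mulVec_diagonal]

lemma charpoly_emb {k : Type} [Field k] [NumberField k] {n : ℕ} (σ : k →+* ℂ)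
    (A : Matrix (Fin n) (Fin n) (𝓞 k)) :
    ((emb σ).mapMatrix A).charpoly = (A.charpoly.map (algebraMap (𝓞 k) k)).map σ := by
  rw [Polynomial.map_map, ← Matrix.charpoly_map]
  rfl

lemma root_integral {k : Type} [Field k] [NumberField k] {n : ℕ} (σ : k →+* ℂ)
    (A : Matrix (Fin n) (Fin n) (𝓞 k)) {l : ℂ} (hl : ((emb σ).mapMatrix A).charpoly.IsRoot l) :
    IsIntegral ℤ l := by
  let _ : Algebra (𝓞 k) ℂ := (emb σ).toAlgebra
  have h1 : IsIntegral (𝓞 k) l := by
    refine ⟨A.charpoly, A.charpoly_monic, ?_⟩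
    rw [← eval_map]
    have h2 : A.charpoly.map (algebraMap (𝓞 k) ℂ) = ((emb σ).mapMatrix A).charpoly := by
      rw [← Matrix.charpoly_map]
      rfl
    rw [h2]
    exact hl
  exact isIntegral_trans (R := ℤ) l h1

/-- **Eigenvalues of two integral matrices at two embeddings which generate a small field.** -/
theorem dep_eig (s n m : ℕ) : ∃ c : ℝ, 0 < c ∧ ∀ (k : Type) [Field k] [NumberField k]
    (S : Finset (k →+* ℂ)) (A B A' B' : Matrix (Fin n) (Fin n) (𝓞 k)), B * A = 1 → B' * A' = 1 →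
    S.card ≤ s →
    (∀ σ, σ ∉ S → ∀ l : ℂ, ((emb σ).mapMatrix A).charpoly.IsRoot l → ‖l‖ = 1) →
    (∀ σ, σ ∉ S → ∀ l : ℂ, ((emb σ).mapMatrix A').charpoly.IsRoot l → ‖l‖ = 1) →
    (∀ σ, ∀ l : ℂ, ((emb σ).mapMatrix A).charpoly.IsRoot l →
      ‖l‖ < (1 + finrank ℚ k : ℝ) ^ c) →
    (∀ σ, ∀ l : ℂ, ((emb σ).mapMatrix A').charpoly.IsRoot l →
      ‖l‖ < (1 + finrank ℚ k : ℝ) ^ c) →
    ∀ σ σ' : k →+* ℂ, pairDeg σ σ' ≤ m * finrank ℚ k → ∀ l l' : ℂ,
      ((emb σ).mapMatrix A).charpoly.IsRoot l → ((emb σ').mapMatrix A').charpoly.IsRoot l' →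
      ∃ u v : ℤ, (u ≠ 0 ∨ v ≠ 0) ∧ l ^ u * l' ^ v = 1 := by
  classical
  obtain ⟨c, hc, hpair⟩ := pair (2 * (s * (m * (n * n))))
  refine ⟨c, hc, ?_⟩
  intro k _ _ S A B A' B' hBA hBA' hS hout hout' hsm hsm' σ σ' hdeg l l' hl hl'
  have hmon : (A.charpoly.map (algebraMap (𝓞 k) k)).Monic := A.charpoly_monic.map _
  have hmon' : (A'.charpoly.map (algebraMap (𝓞 k) k)).Monic := A'.charpoly_monic.map _
  have hdegP : (A.charpoly.map (algebraMap (𝓞 k) k)).natDegree = n := by
    rw [A.charpoly_monic.natDegree_map, Matrix.charpoly_natDegree_eq_dim, Fintype.card_fin]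
  have hdegP' : (A'.charpoly.map (algebraMap (𝓞 k) k)).natDegree = n := by
    rw [A'.charpoly_monic.natDegree_map, Matrix.charpoly_natDegree_eq_dim, Fintype.card_fin]
  obtain ⟨K, iF, iN, ι, f, f', a, b, hf, hf', ha, hb, hK⟩ := exists_field σ σ'
    (A.charpoly.map (algebraMap (𝓞 k) k)) (A'.charpoly.map (algebraMap (𝓞 k) k)) hmon hmon' l l'
    (by rw [← charpoly_emb]; exact hl) (by rw [← charpoly_emb]; exact hl')
  rw [hdegP, hdegP'] at hK
  -- inverses
  have hB : (emb σ).mapMatrix B * (emb σ).mapMatrix A = 1 := by rw [← map_mul, hBA, map_one]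
  have hB' : (emb σ').mapMatrix B' * (emb σ').mapMatrix A' = 1 := by rw [← map_mul, hBA', map_one]
  obtain ⟨hl0, hlinv⟩ := root_inv hB hl
  obtain ⟨hl0', hlinv'⟩ := root_inv hB' hl'
  have hint : ∀ {z : K}, IsIntegral ℤ (ι z) → IsIntegral ℤ z := fun {z} hz =>
    (isIntegral_algHom_iff ι.toIntAlgHom ι.injective).mp hz
  have hai : IsIntegral ℤ a := hint (by rw [ha]; exact root_integral σ A hl)
  have hbi : IsIntegral ℤ b := hint (by rw [hb]; exact root_integral σ' A' hl')
  have hai' : IsIntegral ℤ a⁻¹ := hint (by rw [map_inv₀, ha]; exact root_integral σ B hlinv)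
  have hbi' : IsIntegral ℤ b⁻¹ := hint (by rw [map_inv₀, hb]; exact root_integral σ' B' hlinv')
  have ha0 : a ≠ 0 := by
    intro h
    rw [h, map_zero] at ha
    exact hl0 ha.symm
  have hb0 : b ≠ 0 := by
    intro h
    rw [h, map_zero] at hb
    exact hl0' hb.symm
  -- conjugates are eigenvalues
  have hconj : ∀ (C : Matrix (Fin n) (Fin n) (𝓞 k)) (g : k →+* K) (z : K) (ρ : k →+* ℂ),
      ι.comp g = ρ → ((emb ρ).mapMatrix C).charpoly.IsRoot (ι z) → ∀ τ : K →ₐ[ℚ] ℂ,
      ((emb ((τ : K →+* ℂ).comp g)).mapMatrix C).charpoly.IsRoot (τ z) := by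
    intro C g z ρ hg hroot τ
    rw [charpoly_emb, ← hg, ← Polynomial.map_map, IsRoot.def, eval_map, eval₂_at_apply] at hroot
    have h1 : eval z ((C.charpoly.map (algebraMap (𝓞 k) k)).map g) = 0 := by
      apply ι.injective
      rw [map_zero]
      exact hroot
    rw [charpoly_emb, ← Polynomial.map_map, IsRoot.def, eval_map]
    have h2 : eval₂ (τ : K →+* ℂ) (τ z) ((C.charpoly.map (algebraMap (𝓞 k) k)).map g) =
        τ (eval z ((C.charpoly.map (algebraMap (𝓞 k) k)).map g)) := eval₂_at_apply _ _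
    rw [h2, h1, map_zero]
  have hca := hconj A f a σ hf (by rw [ha]; exact hl)
  have hcb := hconj A' f' b σ' hf' (by rw [hb]; exact hl')
  -- the exceptional embeddings
  have hcount : ∀ g : k →+* K, ((Finset.univ : Finset (K →ₐ[ℚ] ℂ)).filter
      fun τ : K →ₐ[ℚ] ℂ => (τ : K →+* ℂ).comp g ∈ S).card ≤ s * (m * (n * n)) := by
    intro g
    have h1 := card_comp g S
    have h2 : ((Finset.univ : Finset (K →ₐ[ℚ] ℂ)).filter
        fun τ : K →ₐ[ℚ] ℂ => (τ : K →+* ℂ).comp g ∈ S).card * finrank ℚ k ≤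
        (s * (m * (n * n))) * finrank ℚ k := by
      calc _ ≤ S.card * finrank ℚ K := h1
        _ ≤ s * ((m * finrank ℚ k) * (n * n)) :=
            Nat.mul_le_mul hS (hK.trans (Nat.mul_le_mul_right _ hdeg))
        _ = _ := by ring
    exact Nat.le_of_mul_le_mul_right h2 finrank_pos
  have hEE : (EE a b).card ≤ 2 * (s * (m * (n * n))) := by
    have hsub : EE a b ⊆ ((Finset.univ : Finset (K →ₐ[ℚ] ℂ)).filter
        fun τ : K →ₐ[ℚ] ℂ => (τ : K →+* ℂ).comp f ∈ S) ∪
        ((Finset.univ : Finset (K →ₐ[ℚ] ℂ)).filter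
        fun τ : K →ₐ[ℚ] ℂ => (τ : K →+* ℂ).comp f' ∈ S) := by
      intro τ hτ
      rw [mem_EE] at hτ
      rw [Finset.mem_union, Finset.mem_filter, Finset.mem_filter]
      rcases hτ with h | h
      · left
        refine ⟨mem_univ _, ?_⟩
        by_contra h2
        exact h (hout _ h2 _ (hca τ))
      · right
        refine ⟨mem_univ _, ?_⟩
        by_contra h2
        exact h (hout' _ h2 _ (hcb τ))
    have h1 := card_le_card hsub
    have h2 := card_union_le ((Finset.univ : Finset (K →ₐ[ℚ] ℂ)).filter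
        fun τ : K →ₐ[ℚ] ℂ => (τ : K →+* ℂ).comp f ∈ S)
        ((Finset.univ : Finset (K →ₐ[ℚ] ℂ)).filter
        fun τ : K →ₐ[ℚ] ℂ => (τ : K →+* ℂ).comp f' ∈ S)
    have h3 := hcount f
    have h4 := hcount f'
    omega
  have hkK : finrank ℚ k ≤ finrank ℚ K := by
    let _ : Algebra k K := f.toAlgebra
    have h2 : finrank ℚ k * finrank k K = finrank ℚ K := Module.finrank_mul_finrank ℚ k K
    rw [← h2]
    exact Nat.le_mul_of_pos_right _ finrank_pos
  have hmono : (1 + finrank ℚ k : ℝ) ^ c ≤ (1 + finrank ℚ K : ℝ) ^ c := by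
    apply Real.rpow_le_rpow (by positivity) _ hc.le
    have : (finrank ℚ k : ℝ) ≤ finrank ℚ K := by exact_mod_cast hkK
    linarith
  obtain ⟨u, v, huv, h⟩ := hpair K a b hai hai' hbi hbi' ha0 hb0 hEE
    (fun τ _ => ⟨(hsm _ _ (hca τ)).trans_le hmono, (hsm' _ _ (hcb τ)).trans_le hmono⟩)
  refine ⟨u, v, huv, ?_⟩
  have h1 := congrArg ι h
  rw [map_mul, map_zpow₀, map_zpow₀, map_one, ha, hb] at h1
  exact h1

end

end Pool.Agent.J4H57.TD
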