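import Pool.Agent.J4H57.TD.Q

/-!
# Sets of embeddings which can be left inside a small field
-/

set_option autoImplicit false

open Finset NumberField Module Polynomial

namespace Pool.Agent.J4H57.TD

open Pool.Agent.H388SL Pool.Agent.H225R3.Marg Pool.Agent.Y399.MG

/-- Each nonempty set `T` of embeddings which is contained in `S` contains some `σ` such that for some
`σ'` outside `T` the field `σ (k) σ' (k)` has degree at most `m [k : ℚ]`. -/
def Leaves (m : ℕ) {k : Type} [Field k] [NumberField k] (S : Finset (k →+* ℂ)) : Prop :=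
  ∀ T ⊆ S, T.Nonempty → ∃ σ ∈ T, ∃ σ' ∉ T,
    finrank ℚ (IntermediateField.adjoin ℚ (Set.range σ ∪ Set.range σ')) ≤ m * finrank ℚ k

lemma exists_nontorsion {k : Type} [Field k] [NumberField k] {n : ℕ}
    (A : Matrix (Fin n) (Fin n) (𝓞 k)) (hnil : ∀ N : ℕ, 0 < N → ¬ IsNilpotent (A ^ N - 1))
    (σ : k →+* ℂ) : ∃ l : ℂ, ((emb σ).mapMatrix A).charpoly.IsRoot l ∧
      ∀ N : ℕ, 0 < N → l ^ N ≠ 1 := by
  by_contra hcon
  push Not at hcon
  have hinj : Function.Injective (emb σ) :=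
    σ.injective.comp (FaithfulSMul.algebraMap_injective (𝓞 k) k)
  obtain ⟨N, hN, h⟩ := nilp_of_roots (emb σ) hinj A (by
    intro l hl
    apply hcon
    have : ((emb σ).mapMatrix A).charpoly = A.charpoly.map (emb σ) := by
      rw [← Matrix.charpoly_map]; rfl
    rw [this]
    exact hl)
  exact hnil N hN h

lemma pairDeg_self {k : Type} [Field k] [NumberField k] (σ : k →+* ℂ) :
    pairDeg σ σ = finrank ℚ k := by
  unfold pairDeg
  rw [Set.union_self]
  let φ : k →ₐ[ℚ] ℂ := RingHom.equivRatAlgHom k ℂ σ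
  have h1 : IntermediateField.adjoin ℚ (Set.range σ) = φ.fieldRange := by
    apply le_antisymm
    · rw [IntermediateField.adjoin_le_iff]
      rintro _ ⟨a, rfl⟩
      exact ⟨a, rfl⟩
    · rintro _ ⟨a, rfl⟩
      exact IntermediateField.subset_adjoin _ _ ⟨a, rfl⟩
  rw [h1]
  exact (LinearEquiv.finrank_eq (AlgEquiv.ofInjectiveField φ).toLinearEquiv).symm

/-- an eigenvalue off the unit circle -/
lemma exists_off {k : Type} [Field k] [NumberField k] {n : ℕ}
    (A : Matrix (Fin n) (Fin n) (𝓞 k)) (hnil : ∀ N : ℕ, 0 < N → ¬ IsNilpotent (A ^ N - 1)) :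
    ∃ (σ : k →+* ℂ) (l : ℂ), ((emb σ).mapMatrix A).charpoly.IsRoot l ∧ ‖l‖ ≠ 1 := by
  classical
  by_contra hcon
  push Not at hcon
  obtain ⟨φ⟩ : Nonempty (k →ₐ[ℚ] ℂ) := ⟨IsAlgClosed.lift⟩
  set σ : k →+* ℂ := φ.toRingHom
  obtain ⟨l, hl, htor⟩ := exists_nontorsion A hnil σ
  have hmon : (A.charpoly.map (algebraMap (𝓞 k) k)).Monic := A.charpoly_monic.map _
  obtain ⟨K, iF, iN, ι, f, f', a, b, hf, hf', ha, hb, hK⟩ := exists_field σ σ
    (A.charpoly.map (algebraMap (𝓞 k) k)) (A.charpoly.map (algebraMap (𝓞 k) k)) hmon hmon l l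
    (by rw [← charpoly_emb]; exact hl) (by rw [← charpoly_emb]; exact hl)
  have hint : ∀ {z : K}, IsIntegral ℤ (ι z) → IsIntegral ℤ z := fun {z} hz =>
    (isIntegral_algHom_iff ι.toIntAlgHom ι.injective).mp hz
  have hai : IsIntegral ℤ a := hint (by rw [ha]; exact root_integral σ A hl)
  have hroot : ∀ N : ℕ, 0 < N → a ^ N ≠ 1 := by
    intro N hN h
    apply htor N hN
    rw [← ha, ← map_pow, h, map_one]
  by_cases ha0 : a = 0
  · rw [ha0, map_zero] at ha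
    have := hcon σ l hl
    rw [← ha, norm_zero] at this
    exact zero_ne_one this
  obtain ⟨τ, hτ⟩ := exists_norm_ne_one hai ha0 hroot
  apply hτ
  refine hcon ((τ : K →+* ℂ).comp f) (τ a) ?_
  have h0 := hl
  rw [← ha, charpoly_emb, ← hf, ← Polynomial.map_map, IsRoot.def, eval_map, eval₂_at_apply] at h0
  have h1 : eval a ((A.charpoly.map (algebraMap (𝓞 k) k)).map f) = 0 := by
    apply ι.injective
    rw [map_zero]
    exact h0
  rw [charpoly_emb, ← Polynomial.map_map, IsRoot.def, eval_map]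
  have h2 : eval₂ (τ : K →+* ℂ) (τ a) ((A.charpoly.map (algebraMap (𝓞 k) k)).map f) =
      τ (eval a ((A.charpoly.map (algebraMap (𝓞 k) k)).map f)) := eval₂_at_apply _ _
  rw [h2, h1, map_zero]

/-- **The gap.** -/
theorem leaves_gap (s n m : ℕ) : ∃ c : ℝ, 0 < c ∧ ∀ (k : Type) [Field k] [NumberField k]
    (S : Finset (k →+* ℂ)) (A B : Matrix (Fin n) (Fin n) (𝓞 k)), B * A = 1 → S.card ≤ s →
    Leaves m S →
    (∀ σ, σ ∉ S → ∀ l : ℂ, ((emb σ).mapMatrix A).charpoly.IsRoot l → ‖l‖ = 1) →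
    (∀ N : ℕ, 0 < N → ¬ IsNilpotent (A ^ N - 1)) →
    ∃ σ ∈ S, ∃ l : ℂ, ((emb σ).mapMatrix A).charpoly.IsRoot l ∧
      (1 + finrank ℚ k : ℝ) ^ c ≤ ‖l‖ := by
  classical
  obtain ⟨c, hc, hdep⟩ := dep_eig s n m
  refine ⟨c, hc, ?_⟩
  intro k _ _ S A B hBA hS hL hout hnil
  by_contra hcon
  push Not at hcon
  have hd1 : (1 : ℝ) ≤ finrank ℚ k := by exact_mod_cast (finrank_pos : 0 < finrank ℚ k)
  have hsm : ∀ σ, ∀ l : ℂ, ((emb σ).mapMatrix A).charpoly.IsRoot l →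
      ‖l‖ < (1 + finrank ℚ k : ℝ) ^ c := by
    intro σ l hl
    by_cases hσ : σ ∈ S
    · exact hcon σ hσ l hl
    · rw [hout σ hσ l hl]
      exact Real.one_lt_rpow (by linarith) hc
  have key : ∀ σ σ' : k →+* ℂ, pairDeg σ σ' ≤ m * finrank ℚ k →
      (∃ l : ℂ, ((emb σ).mapMatrix A).charpoly.IsRoot l ∧ ‖l‖ ≠ 1) →
      ∃ l : ℂ, ((emb σ').mapMatrix A).charpoly.IsRoot l ∧ ‖l‖ ≠ 1 := by
    rintro σ σ' hdeg ⟨l, hl, hl1⟩
    obtain ⟨l', hl', htor⟩ := exists_nontorsion A hnil σ'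
    refine ⟨l', hl', fun hl1' => ?_⟩
    obtain ⟨u, v, huv, h⟩ := hdep k S A B A B hBA hBA hS hout hout hsm hsm σ σ' hdeg l l' hl hl'
    have h1 := congrArg norm h
    rw [norm_mul, norm_zpow, norm_zpow, hl1', one_zpow, mul_one, norm_one] at h1
    have hu : u = 0 := by
      by_contra hu
      have hl0 : l ≠ 0 := (root_inv (by rw [← map_mul, hBA, map_one]) hl).1
      rw [zpow_eq_one_iff_right₀ (norm_nonneg l) hl1] at h1
      exact hu h1
    rw [hu, zpow_zero, one_mul] at h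
    have hv : v ≠ 0 := by
      rcases huv with h2 | h2
      · exact absurd hu h2
      · exact h2
    have h2 : l' ^ v.natAbs = 1 := by
      rcases Int.natAbs_eq v with h3 | h3
      · rw [h3, zpow_natCast] at h
        exact h
      · rw [h3, zpow_neg, zpow_natCast, inv_eq_one] at h
        exact h
    exact htor _ (Int.natAbs_pos.mpr hv) h2
  set T := S.filter fun σ => ∃ l : ℂ, ((emb σ).mapMatrix A).charpoly.IsRoot l ∧ ‖l‖ ≠ 1 with hT
  have hmemT : ∀ σ : k →+* ℂ, (∃ l : ℂ, ((emb σ).mapMatrix A).charpoly.IsRoot l ∧ ‖l‖ ≠ 1) →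
      σ ∈ T := by
    rintro σ ⟨l, hl, hl1⟩
    rw [hT, Finset.mem_filter]
    refine ⟨?_, l, hl, hl1⟩
    by_contra hσ
    exact hl1 (hout σ hσ l hl)
  have hTne : T.Nonempty := by
    obtain ⟨σ, l, hl, hl1⟩ := exists_off A hnil
    exact ⟨σ, hmemT σ ⟨l, hl, hl1⟩⟩
  obtain ⟨σ, hσ, σ', hσ', hdeg⟩ := hL T (Finset.filter_subset _ _) hTne
  exact hσ' (hmemT σ' (key σ σ' hdeg (Finset.mem_filter.mp hσ).2))

end Pool.Agent.J4H57.TD
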