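import Pool.Agent.J4H57.TD.R

/-!
# Conditions for `Leaves`
-/

set_option autoImplicit false

open Finset NumberField Module Polynomial

namespace Pool.Agent.J4H57.TD

open Pool.Agent.H388SL Pool.Agent.H225R3.Marg Pool.Agent.Y399.MG

/-- conjugates of two extensions which agree on the base field -/
lemma compositum_le {F k1 k2 : Type} [Field F] [NumberField F] [Field k1] [NumberField k1]
    [Field k2] [NumberField k2] [Algebra F k1] [Algebra F k2] (σ1 : k1 →+* ℂ) (σ2 : k2 →+* ℂ)
    (h : σ1.comp (algebraMap F k1) = σ2.comp (algebraMap F k2)) :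
    finrank ℚ (IntermediateField.adjoin ℚ (Set.range σ1 ∪ Set.range σ2)) ≤
      finrank ℚ F * (finrank F k1 * finrank F k2) := by
  let _ : Algebra F ℂ := (σ1.comp (algebraMap F k1)).toAlgebra
  have i0 : IsScalarTower ℚ F ℂ := IsScalarTower.of_algebraMap_eq' (by
    ext; simp)
  let φ : k1 →ₐ[F] ℂ := { σ1 with commutes' := fun x => rfl }
  let φ' : k2 →ₐ[F] ℂ := { σ2 with commutes' := fun x => (RingHom.congr_fun h x).symm }
  let M : IntermediateField F ℂ := φ.fieldRange ⊔ φ'.fieldRange
  have e1 : finrank F φ.fieldRange = finrank F k1 := by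
    exact (LinearEquiv.finrank_eq (AlgEquiv.ofInjectiveField φ).toLinearEquiv).symm
  have e2 : finrank F φ'.fieldRange = finrank F k2 := by
    exact (LinearEquiv.finrank_eq (AlgEquiv.ofInjectiveField φ').toLinearEquiv).symm
  have f1 : FiniteDimensional F φ.fieldRange :=
    Module.Finite.equiv (AlgEquiv.ofInjectiveField φ).toLinearEquiv
  have f2 : FiniteDimensional F φ'.fieldRange :=
    Module.Finite.equiv (AlgEquiv.ofInjectiveField φ').toLinearEquiv
  have h1 : finrank F M ≤ finrank F k1 * finrank F k2 := by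
    have := IntermediateField.finrank_sup_le φ.fieldRange φ'.fieldRange
    rwa [e1, e2] at this
  have f3 : FiniteDimensional F M := IntermediateField.finiteDimensional_sup _ _
  have f5 : Module.Free F M := Module.Free.of_divisionRing F M
  have f6 : Module.Free ℚ F := Module.Free.of_divisionRing ℚ F
  have h2 : finrank ℚ F * finrank F M = finrank ℚ M := Module.finrank_mul_finrank ℚ F M
  have f4 : FiniteDimensional ℚ M := FiniteDimensional.trans ℚ F M
  have h3 : IntermediateField.adjoin ℚ (Set.range σ1 ∪ Set.range σ2) ≤ M.restrictScalars ℚ := by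
    rw [IntermediateField.adjoin_le_iff]
    rintro _ (⟨a, rfl⟩ | ⟨a, rfl⟩)
    · exact (le_sup_left : φ.fieldRange ≤ M) ⟨a, rfl⟩
    · exact (le_sup_right : φ'.fieldRange ≤ M) ⟨a, rfl⟩
  have h4 : finrank ℚ (IntermediateField.adjoin ℚ (Set.range σ1 ∪ Set.range σ2)) ≤ finrank ℚ M := by
    have : FiniteDimensional ℚ (M.restrictScalars ℚ) := f4
    exact LinearMap.finrank_le_finrank_of_injective
      (f := (IntermediateField.inclusion h3).toLinearMap) (IntermediateField.inclusion h3).injective
  refine h4.trans ?_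
  rw [← h2]
  exact Nat.mul_le_mul_left _ h1

/-- the same with ring homomorphisms -/
lemma compositum_hom {F k1 k2 : Type} [Field F] [NumberField F] [Field k1] [NumberField k1]
    [Field k2] [NumberField k2] (i1 : F →+* k1) (i2 : F →+* k2) (σ1 : k1 →+* ℂ) (σ2 : k2 →+* ℂ)
    (h : σ1.comp i1 = σ2.comp i2) :
    finrank ℚ (IntermediateField.adjoin ℚ (Set.range σ1 ∪ Set.range σ2)) * finrank ℚ F ≤
      finrank ℚ k1 * finrank ℚ k2 := by
  let _ : Algebra F k1 := i1.toAlgebra
  let _ : Algebra F k2 := i2.toAlgebra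
  have h1 := compositum_le σ1 σ2 h
  have hd1 : finrank ℚ F * finrank F k1 = finrank ℚ k1 := Module.finrank_mul_finrank ℚ F k1
  have hd2 : finrank ℚ F * finrank F k2 = finrank ℚ k2 := Module.finrank_mul_finrank ℚ F k2
  calc _ ≤ (finrank ℚ F * (finrank F k1 * finrank F k2)) * finrank ℚ F :=
        Nat.mul_le_mul_right _ h1
    _ = (finrank ℚ F * finrank F k1) * (finrank ℚ F * finrank F k2) := by ring
    _ = _ := by rw [hd1, hd2]

/-- the same with an automorphism of the base field -/
lemma compositum_aut {F k : Type} [Field F] [NumberField F] [Field k] [NumberField k]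
    [Algebra F k] (φ : F ≃+* F) (σ σ' : k →+* ℂ)
    (h : σ'.comp (algebraMap F k) = (σ.comp (algebraMap F k)).comp (φ : F →+* F)) :
    finrank ℚ (IntermediateField.adjoin ℚ (Set.range σ ∪ Set.range σ')) ≤
      finrank F k * finrank ℚ k := by
  have hd : finrank ℚ F * finrank F k = finrank ℚ k := Module.finrank_mul_finrank ℚ F k
  have h1 := compositum_hom (algebraMap F k) ((algebraMap F k).comp (φ.symm : F →+* F)) σ σ' (by
    apply RingHom.ext
    intro x
    have h2 := RingHom.congr_fun h (φ.symm x)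
    change σ' (algebraMap F k (φ.symm x)) = σ (algebraMap F k (φ (φ.symm x))) at h2
    change σ (algebraMap F k x) = σ' (algebraMap F k (φ.symm x))
    rw [h2, RingEquiv.apply_symm_apply])
  have h2 : finrank ℚ (IntermediateField.adjoin ℚ (Set.range σ ∪ Set.range σ')) * finrank ℚ F ≤
      (finrank F k * finrank ℚ k) * finrank ℚ F := by
    refine h1.trans (le_of_eq ?_)
    calc finrank ℚ k * finrank ℚ k = finrank ℚ k * (finrank ℚ F * finrank F k) := by rw [hd]
      _ = _ := by ring
  exact Nat.le_of_mul_le_mul_right h2 finrank_pos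

theorem leaves_of_fibre {F k : Type} [Field F] [NumberField F] [Field k] [NumberField k]
    [Algebra F k] {m : ℕ} (hm : finrank F k ≤ m) {S : Finset (k →+* ℂ)}
    (h : ∀ σ ∈ S, ∃ σ' ∉ S, σ'.comp (algebraMap F k) = σ.comp (algebraMap F k)) :
    Leaves m S := by
  intro T hT hne
  obtain ⟨σ, hσ⟩ := hne
  obtain ⟨σ', hσ', h1⟩ := h σ (hT hσ)
  refine ⟨σ, hσ, σ', fun h2 => hσ' (hT h2), ?_⟩
  exact (compositum_aut (RingEquiv.refl F) σ σ' h1).trans (Nat.mul_le_mul_right _ hm)

lemma fd_compositum {k1 k2 : Type} [Field k1] [NumberField k1] [Field k2] [NumberField k2]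
    (σ : k1 →+* ℂ) (σ' : k2 →+* ℂ) :
    FiniteDimensional ℚ (IntermediateField.adjoin ℚ (Set.range σ ∪ Set.range σ')) := by
  let φ : k1 →ₐ[ℚ] ℂ := RingHom.equivRatAlgHom k1 ℂ σ
  let φ' : k2 →ₐ[ℚ] ℂ := RingHom.equivRatAlgHom k2 ℂ σ'
  have f1 : FiniteDimensional ℚ φ.fieldRange :=
    Module.Finite.equiv (AlgEquiv.ofInjectiveField φ).toLinearEquiv
  have f2 : FiniteDimensional ℚ φ'.fieldRange :=
    Module.Finite.equiv (AlgEquiv.ofInjectiveField φ').toLinearEquiv
  have hle : IntermediateField.adjoin ℚ (Set.range σ ∪ Set.range σ') ≤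
      φ.fieldRange ⊔ φ'.fieldRange := by
    rw [IntermediateField.adjoin_le_iff]
    rintro _ (⟨a, rfl⟩ | ⟨a, rfl⟩)
    · exact (le_sup_left : φ.fieldRange ≤ _) ⟨a, rfl⟩
    · exact (le_sup_right : φ'.fieldRange ≤ _) ⟨a, rfl⟩
  have f3 : FiniteDimensional ℚ ↥(φ.fieldRange ⊔ φ'.fieldRange) :=
    IntermediateField.finiteDimensional_sup _ _
  exact FiniteDimensional.of_injective (IntermediateField.inclusion hle).toLinearMap
    (IntermediateField.inclusion hle).injective

theorem leaves_of_aut {k F L : Type} [Field k] [NumberField k] [Field F] [NumberField F]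
    [Field L] [NumberField L] [Algebra k L] [Algebra F L] {m : ℕ}
    (hm : finrank F L * finrank k L ≤ m) {S : Finset (k →+* ℂ)}
    (h : S.card * finrank k L < finrank F L * Nat.card (F ≃+* F)) : Leaves m S := by
  classical
  intro T hT hne
  obtain ⟨σ, hσ⟩ := hne
  obtain ⟨τ, hτ⟩ : ∃ τ : L →+* ℂ, τ.comp (algebraMap k L) = σ := by
    have h1 := natCard_ext k L σ
    have h2 : 0 < finrank k L := finrank_pos
    rw [← h1, Nat.card_pos_iff] at h2
    obtain ⟨⟨τ, hτ⟩⟩ := h2.1
    exact ⟨τ, hτ⟩
  let g : (F ≃+* F) → (F →+* ℂ) := fun φ => (τ.comp (algebraMap F L)).comp (φ : F →+* F)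
  have hg : Function.Injective g := by
    intro φ ψ h1
    ext x
    have h2 := RingHom.congr_fun h1 x
    exact (τ.comp (algebraMap F L)).injective h2
  set W : Finset (F →+* ℂ) := Finset.univ.filter fun τ => ∃ φ, g φ = τ with hW
  have hWc : W.card = Nat.card (F ≃+* F) := by
    rw [← Nat.card_range_of_injective hg, Nat.card_eq_card_toFinset]
    congr 1
    ext τ
    simp [hW]
  have h1 := card_over (L := L) W
  rw [hWc, mul_comm] at h1
  have h1T := card_over (L := L) T
  obtain ⟨τ', hτ', hτT⟩ : ∃ τ' ∈ (Finset.univ.filter fun τ : L →+* ℂ =>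
      τ.comp (algebraMap F L) ∈ W), τ'.comp (algebraMap k L) ∉ T := by
    by_contra hcon
    push Not at hcon
    have h2 := card_le_card (fun x hx => Finset.mem_filter.mpr ⟨mem_univ _, hcon x hx⟩ :
      (Finset.univ.filter fun τ : L →+* ℂ => τ.comp (algebraMap F L) ∈ W) ⊆
      (Finset.univ.filter fun τ : L →+* ℂ => τ.comp (algebraMap k L) ∈ T))
    have h3 : T.card * finrank k L ≤ S.card * finrank k L :=
      Nat.mul_le_mul_right _ (card_le_card hT)
    omega
  rw [Finset.mem_filter, hW, Finset.mem_filter] at hτ'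
  obtain ⟨_, _, φ, hφ⟩ := hτ'
  refine ⟨σ, hσ, τ'.comp (algebraMap k L), hτT, ?_⟩
  have h2 := compositum_aut φ τ τ' hφ.symm
  have h3 : finrank ℚ (IntermediateField.adjoin ℚ
      (Set.range σ ∪ Set.range (τ'.comp (algebraMap k L)))) ≤
      finrank ℚ (IntermediateField.adjoin ℚ (Set.range τ ∪ Set.range τ')) := by
    have hle : IntermediateField.adjoin ℚ
        (Set.range σ ∪ Set.range (τ'.comp (algebraMap k L))) ≤
        IntermediateField.adjoin ℚ (Set.range τ ∪ Set.range τ') := by
      rw [IntermediateField.adjoin_le_iff]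
      rintro _ (⟨a, rfl⟩ | ⟨a, rfl⟩)
      · refine IntermediateField.subset_adjoin _ _ (Or.inl ?_)
        rw [← hτ]
        exact ⟨algebraMap k L a, rfl⟩
      · refine IntermediateField.subset_adjoin _ _ (Or.inr ?_)
        exact ⟨algebraMap k L a, rfl⟩
    have := fd_compositum τ τ'
    exact LinearMap.finrank_le_finrank_of_injective
      (f := (IntermediateField.inclusion hle).toLinearMap)
      (IntermediateField.inclusion hle).injective
  have hd : finrank ℚ k * finrank k L = finrank ℚ L := Module.finrank_mul_finrank ℚ k L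
  refine h3.trans (h2.trans ?_)
  calc finrank F L * finrank ℚ L = (finrank F L * finrank k L) * finrank ℚ k := by
        rw [← hd]; ring
    _ ≤ m * finrank ℚ k := Nat.mul_le_mul_right _ hm

end Pool.Agent.J4H57.TD
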