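import Pool.Agent.J4H57.TD.DE

/-!
# Salem numbers from dependent roots
-/

set_option autoImplicit false

open Finset NumberField Module Polynomial

namespace Pool.Agent.J4H57.TD

open Pool.Agent.H388SL Pool.Agent.H225R3.Marg Pool.Agent.Y399.MG

/-- `τ` is a Salem number: a real algebraic integer `τ > 1` which is conjugate to `τ⁻¹`, all of whose
conjugates other than `τ` and `τ⁻¹` have absolute value one, and there is at least one such
conjugate. -/
def IsSalem (τ : ℝ) : Prop :=
  1 < τ ∧ IsIntegral ℤ τ ∧ aeval τ⁻¹ (minpoly ℤ τ) = 0 ∧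
    (∀ z : ℂ, aeval z (minpoly ℤ τ) = 0 → z = τ ∨ z = (τ : ℂ)⁻¹ ∨ ‖z‖ = 1) ∧
    ∃ z : ℂ, aeval z (minpoly ℤ τ) = 0 ∧ ‖z‖ = 1

/-- the exponents in a relation between conjugate numbers -/
theorem natAbs_eq_of_rel {L : Type} [Field L] (σ : L →+* ℂ) (q : L[X]) (hq : Irreducible q)
    (z y : ℂ) (hz : (q.map σ).IsRoot z) (hy : (q.map σ).IsRoot y) (hz0 : z ≠ 0)
    (htor : ∀ N : ℕ, 0 < N → z ^ N ≠ 1) {u v : ℤ} (h : z ^ u * y ^ v = 1) :
    u.natAbs = v.natAbs := by
  classical
  let _ : Algebra L ℂ := σ.toAlgebra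
  have hσ : algebraMap L ℂ = σ := rfl
  set Ω := algebraicClosure L ℂ with hΩ
  have hzq : aeval z q = 0 := by
    rw [aeval_def, ← eval_map, hσ]
    exact hz
  have hyq : aeval y q = 0 := by
    rw [aeval_def, ← eval_map, hσ]
    exact hy
  have hza : z ∈ Ω := mem_algebraicClosure_iff.mpr ⟨q, hq.ne_zero, hzq⟩
  have hya : y ∈ Ω := mem_algebraicClosure_iff.mpr ⟨q, hq.ne_zero, hyq⟩
  let Z : Ω := ⟨z, hza⟩
  let Y : Ω := ⟨y, hya⟩
  have hinst : IsAlgClosure L Ω := algebraicClosure.isAlgClosure L ℂ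
  have hn : Normal L Ω := IsAlgClosure.normal L Ω
  have hZ : aeval Z q = 0 := by
    apply Subtype.val_injective
    change Ω.val (aeval Z q) = Ω.val 0
    rw [← Polynomial.aeval_algHom_apply, map_zero]
    exact hzq
  have hY : aeval Y q = 0 := by
    apply Subtype.val_injective
    change Ω.val (aeval Y q) = Ω.val 0
    rw [← Polynomial.aeval_algHom_apply, map_zero]
    exact hyq
  have hZa : IsAlgebraic L Z := ⟨q, hq.ne_zero, hZ⟩
  obtain ⟨g, hg⟩ : ∃ g : Ω ≃ₐ[L] Ω, g Z = Y := by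
    apply minpoly.exists_algEquiv_of_root' hZa
    have h1 : minpoly L Z ∣ q := minpoly.dvd L Z hZ
    have h2 : q ∣ minpoly L Z := by
      have hnu : ¬ IsUnit (minpoly L Z) := minpoly.not_isUnit L Z
      obtain ⟨r, hr⟩ := h1
      rcases hq.isUnit_or_isUnit hr with h3 | h3
      · exact absurd h3 hnu
      · obtain ⟨w, hw⟩ := h3
        rw [hr, ← hw]
        exact (Units.mul_right_dvd).mpr dvd_rfl
    obtain ⟨r, hr⟩ := h2
    rw [hr, map_mul, hY, zero_mul]
  -- the relation
  have hZ0 : Z ≠ 0 := fun h1 => hz0 (congrArg Subtype.val h1)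
  have hcoe : ∀ (x : Ω) (n : ℤ), ((x ^ n : Ω) : ℂ) = (x : ℂ) ^ n := fun x n =>
    map_zpow₀ (algebraMap Ω ℂ) x n
  have hrel : Z ^ u * ((g : RingAut Ω) Z) ^ v = 1 := by
    have h1 : ((g : RingAut Ω) Z) = Y := hg
    rw [h1]
    apply Subtype.val_injective
    change ((Z ^ u : Ω) : ℂ) * ((Y ^ v : Ω) : ℂ) = 1
    rw [hcoe, hcoe]
    exact h
  have htor' : ∀ N : ℕ, 0 < N → Z ^ N ≠ 1 := by
    intro N hN h1
    exact htor N hN (congrArg Subtype.val h1)
  have horb : ∀ m : ℕ, (((g : RingAut Ω) ^ m) Z) ∈ {x : Ω | aeval x q = 0} := by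
    intro m
    induction m with
    | zero => exact hZ
    | succ m ih =>
      rw [pow_succ']
      have h1 : aeval (((g : RingAut Ω) ^ m) Z) q = 0 := ih
      have h2 : aeval (g (((g : RingAut Ω) ^ m) Z)) q = 0 := by
        have h3 := Polynomial.aeval_algHom_apply (g : Ω →ₐ[L] Ω) (((g : RingAut Ω) ^ m) Z) q
        rw [h1, map_zero] at h3
        exact h3
      exact h2
  have hfin : {x : Ω | aeval x q = 0}.Finite := by
    have h1 : {x : Ω | aeval x q = 0} ⊆ (q.rootSet Ω) := by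
      intro x hx
      rw [mem_rootSet]
      exact ⟨hq.ne_zero, hx⟩
    exact (rootSet_finite q Ω).subset h1
  exact natAbs_eq_of_aut (g : RingAut Ω) Z hZ0 htor' _ hfin horb hrel

lemma pow_rel_of_zpow {z y : ℂ} (hy0 : y ≠ 0) {u v : ℤ} (huv : u ≠ 0 ∨ v ≠ 0)
    (habs : u.natAbs = v.natAbs) (h : z ^ u * y ^ v = 1) :
    ∃ N : ℕ, 0 < N ∧ (y ^ N = z ^ N ∨ y ^ N * z ^ N = 1) := by
  have hu0 : u ≠ 0 := by
    intro hu
    rw [hu, Int.natAbs_zero] at habs
    rcases huv with h1 | h1
    · exact h1 hu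
    · exact h1 (Int.natAbs_eq_zero.mp habs.symm)
  refine ⟨u.natAbs, Int.natAbs_pos.mpr hu0, ?_⟩
  rcases Int.natAbs_eq_natAbs_iff.mp habs with h1 | h1
  · right
    rw [← h1, ← mul_zpow] at h
    rw [← mul_pow, mul_comm y z]
    rcases Int.natAbs_eq u with h2 | h2
    · rw [h2, zpow_natCast] at h
      exact h
    · rw [h2, zpow_neg, zpow_natCast, inv_eq_one] at h
      exact h
  · left
    have h4 : v = - u := by omega
    rw [h4, zpow_neg, mul_inv_eq_one₀ (zpow_ne_zero _ hy0)] at h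
    rcases Int.natAbs_eq u with h2 | h2
    · rw [h2, zpow_natCast, zpow_natCast] at h
      exact h.symm
    · rw [h2, zpow_neg, zpow_neg, zpow_natCast, zpow_natCast, inv_inj] at h
      exact h.symm

/-- the field of all algebraic numbers -/
noncomputable abbrev QB : IntermediateField ℚ ℂ := algebraicClosure ℚ ℂ

instance : IsAlgClosure ℚ QB := algebraicClosure.isAlgClosure ℚ ℂ

instance : Normal ℚ QB := IsAlgClosure.normal ℚ QB

lemma mem_QB {k : Type} [Field k] [NumberField k] (σ : k →+* ℂ) (x : k) : σ x ∈ QB := by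
  rw [mem_algebraicClosure_iff]
  have h1 : IsAlgebraic ℚ x := Algebra.IsAlgebraic.isAlgebraic x
  exact h1.algHom (RingHom.equivRatAlgHom k ℂ σ)

/-- the lift of a complex embedding to the algebraic numbers -/
noncomputable def lft {k : Type} [Field k] [NumberField k] (σ : k →+* ℂ) : k →+* QB :=
  σ.codRestrict QB (mem_QB σ)

lemma lft_coe {k : Type} [Field k] [NumberField k] (σ : k →+* ℂ) (x : k) :
    ((lft σ x : QB) : ℂ) = σ x := rfl

/-- there is an endomorphism which moves one embedding to another one -/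
lemma exists_move {k : Type} [Field k] [NumberField k] (σ σ' : k →+* ℂ) :
    ∃ g : QB →ₐ[ℚ] QB, ∀ x, g (lft σ x) = lft σ' x := by
  let _ : Algebra k QB := (lft σ).toAlgebra
  have : IsScalarTower ℚ k QB := IsScalarTower.of_algebraMap_eq fun x => by
    have h1 : algebraMap k QB = lft σ := rfl
    rw [h1]
    simp
  let φ : k →ₐ[ℚ] QB := RingHom.equivRatAlgHom k QB (lft σ')
  refine ⟨φ.liftNormal QB, fun x => ?_⟩
  exact φ.liftNormal_commutes QB x

section

variable {k : Type} [Field k]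

/-- the roots outside the closed unit disc -/
noncomputable def up (s : k →+* QB) (q : k[X]) : Multiset QB :=
  open Classical in (q.map s).roots.filter fun y => 1 < ‖(y : ℂ)‖

/-- the roots inside the open unit disc -/
noncomputable def dn (s : k →+* QB) (q : k[X]) : Multiset QB :=
  open Classical in (q.map s).roots.filter fun y => ‖(y : ℂ)‖ < 1

lemma roots_comp (s : k →+* QB) (q : k[X]) (g : QB →ₐ[ℚ] QB) :
    (q.map ((g : QB →+* QB).comp s)).roots = (q.map s).roots.map g := by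
  have hcl : IsAlgClosed QB := IsAlgClosure.isAlgClosed ℚ
  rw [← Polynomial.map_map]
  exact (IsAlgClosed.splits (q.map s)).roots_map (g : QB →+* QB)

lemma prod_map_alg (g : QB →ₐ[ℚ] QB) (m : Multiset QB) : g m.prod = (m.map g).prod :=
  map_multiset_prod g m

/-- the two cases for endomorphisms fixing the base field -/
lemma case_fix (s : k →+* QB) (q : k[X]) (z : QB) (hz : z ∈ (q.map s).roots)
    (hz1 : 1 < ‖(z : ℂ)‖)
    (hdep : ∀ y ∈ (q.map s).roots, ∃ N : ℕ, 0 < N ∧ (y ^ N = z ^ N ∨ y ^ N * z ^ N = 1))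
    (g : QB →ₐ[ℚ] QB) (hg : ∀ x, g (s x) = s x) :
    g (up s q).prod = (up s q).prod ∨ g (up s q).prod = (dn s q).prod := by
  classical
  have hcomp : (g : QB →+* QB).comp s = s := RingHom.ext hg
  have hR : (q.map s).roots = (q.map s).roots.map g := by
    conv_lhs => rw [← hcomp]
    exact roots_comp s q g
  have hnp : ∀ (x y : QB) (N : ℕ), 0 < N → x ^ N = y ^ N → ‖(x : ℂ)‖ = ‖(y : ℂ)‖ := by
    intro x y N hN h
    have h1 : (x : ℂ) ^ N = (y : ℂ) ^ N := congrArg Subtype.val h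
    have h2 := congrArg norm h1
    rw [norm_pow, norm_pow] at h2
    exact (pow_left_inj₀ (norm_nonneg _) (norm_nonneg _) hN.ne').mp h2
  have hnp2 : ∀ (x y : QB) (N : ℕ), 0 < N → x ^ N * y ^ N = 1 → ‖(x : ℂ)‖ * ‖(y : ℂ)‖ = 1 := by
    intro x y N hN h
    have h1 : (x : ℂ) ^ N * (y : ℂ) ^ N = 1 := congrArg Subtype.val h
    have h2 := congrArg norm h1
    rw [norm_mul, norm_pow, norm_pow, norm_one, ← mul_pow] at h2
    exact (pow_eq_one_iff_of_nonneg (by positivity) hN.ne').mp h2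
  have hgz : g z ∈ (q.map s).roots := by
    rw [hR]
    exact Multiset.mem_map_of_mem g hz
  -- the dichotomy for a root
  have hdich : ∀ y ∈ (q.map s).roots,
      (1 < ‖(y : ℂ)‖ ∧ ‖((g y : QB) : ℂ)‖ = ‖((g z : QB) : ℂ)‖) ∨
      (‖(y : ℂ)‖ < 1 ∧ ‖((g y : QB) : ℂ)‖ * ‖((g z : QB) : ℂ)‖ = 1) := by
    intro y hy
    obtain ⟨N, hN, h | h⟩ := hdep y hy
    · left
      refine ⟨by rw [hnp y z N hN h]; exact hz1, ?_⟩
      exact hnp (g y) (g z) N hN (by rw [← map_pow, ← map_pow, h])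
    · right
      have h1 := hnp2 y z N hN h
      refine ⟨?_, ?_⟩
      · by_contra h2
        push Not at h2
        nlinarith
      · exact hnp2 (g y) (g z) N hN (by rw [← map_pow, ← map_pow, ← map_mul, h, map_one])
  rw [prod_map_alg]
  have hgz1 : ‖((g z : QB) : ℂ)‖ ≠ 1 := by
    rcases hdich _ hgz with h | h
    · exact h.1.ne'
    · exact h.1.ne
  rcases lt_or_gt_of_ne hgz1 with hlt | hgt
  · right
    congr 1
    unfold up dn
    conv_rhs => rw [hR]
    rw [Multiset.filter_map]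
    congr 1
    apply Multiset.filter_congr
    intro y hy
    rcases hdich y hy with ⟨h1, h2⟩ | ⟨h1, h2⟩
    · constructor
      · intro _
        change ‖((g y : QB) : ℂ)‖ < 1
        rw [h2]; exact hlt
      · intro _; exact h1
    · constructor
      · intro h3
        linarith
      · intro h3
        change ‖((g y : QB) : ℂ)‖ < 1 at h3
        exfalso
        nlinarith [norm_nonneg ((g y : QB) : ℂ), norm_nonneg ((g z : QB) : ℂ)]
  · left
    congr 1
    unfold up
    conv_rhs => rw [hR]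
    rw [Multiset.filter_map]
    congr 1
    apply Multiset.filter_congr
    intro y hy
    rcases hdich y hy with ⟨h1, h2⟩ | ⟨h1, h2⟩
    · constructor
      · intro _
        change 1 < ‖((g y : QB) : ℂ)‖
        rw [h2]; exact hgt
      · intro _; exact h1
    · constructor
      · intro h3
        linarith
      · intro h3
        change 1 < ‖((g y : QB) : ℂ)‖ at h3
        exfalso
        nlinarith [norm_nonneg ((g y : QB) : ℂ), norm_nonneg ((g z : QB) : ℂ)]

lemma norm_prod_one (m : Multiset QB) (h : ∀ y ∈ m, ‖(y : ℂ)‖ = 1) :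
    ‖((m.prod : QB) : ℂ)‖ = 1 := by
  induction m using Multiset.induction with
  | empty => simp
  | cons a m ih =>
    rw [Multiset.prod_cons]
    change ‖(a : ℂ) * ((m.prod : QB) : ℂ)‖ = 1
    rw [norm_mul, h a (Multiset.mem_cons_self a m), ih fun y hy => h y (Multiset.mem_cons_of_mem hy),
      one_mul]

/-- endomorphisms moving the base field -/
lemma case_move (s : k →+* QB) (q : k[X]) (g : QB →ₐ[ℚ] QB)
    (hout : ∀ y ∈ (q.map ((g : QB →+* QB).comp s)).roots, ‖(y : ℂ)‖ = 1) :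
    ‖((g (up s q).prod : QB) : ℂ)‖ = 1 ∧ ‖((g (dn s q).prod : QB) : ℂ)‖ = 1 := by
  classical
  rw [roots_comp] at hout
  constructor
  · rw [prod_map_alg]
    apply norm_prod_one
    intro y hy
    obtain ⟨x, hx, rfl⟩ := Multiset.mem_map.mp hy
    unfold up at hx
    exact hout _ (Multiset.mem_map_of_mem g (Multiset.mem_of_mem_filter hx))
  · rw [prod_map_alg]
    apply norm_prod_one
    intro y hy
    obtain ⟨x, hx, rfl⟩ := Multiset.mem_map.mp hy
    unfold dn at hx
    exact hout _ (Multiset.mem_map_of_mem g (Multiset.mem_of_mem_filter hx))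

lemma up_dn_prod (s : k →+* QB) (q : k[X]) (hq : q.Monic)
    (h1 : ∀ y ∈ (q.map s).roots, ‖(y : ℂ)‖ ≠ 1) :
    (up s q).prod * (dn s q).prod = (-1) ^ q.natDegree * s (q.coeff 0) ∧
      Multiset.card (up s q) + Multiset.card (dn s q) = q.natDegree := by
  classical
  have hcl : IsAlgClosed QB := IsAlgClosure.isAlgClosed ℚ
  have hsplit := IsAlgClosed.splits (q.map s)
  have h2 : up s q + dn s q = (q.map s).roots := by
    unfold up dn
    have h3 : (q.map s).roots.filter (fun y : QB => ‖(y : ℂ)‖ < 1) =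
        (q.map s).roots.filter (fun y : QB => ¬ 1 < ‖(y : ℂ)‖) := by
      apply Multiset.filter_congr
      intro y hy
      have h4 := h1 y hy
      constructor
      · intro h5; linarith
      · intro h5
        push Not at h5
        exact lt_of_le_of_ne h5 h4
    rw [h3]
    convert Multiset.filter_add_not (fun y : QB => 1 < ‖(y : ℂ)‖) (q.map s).roots
  constructor
  · rw [← Multiset.prod_add, h2]
    have h3 := hsplit.coeff_zero_eq_prod_roots_of_monic (hq.map s)
    rw [coeff_map, hq.natDegree_map] at h3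
    rw [h3, ← mul_assoc, ← pow_add, ← two_mul, pow_mul, neg_one_sq, one_pow, one_mul]
  · rw [← Multiset.card_add, h2, splits_iff_card_roots.mp hsplit, hq.natDegree_map]

end

/-- **Salem numbers from dependent roots.** -/
theorem salem_core {k : Type} [Field k] [NumberField k]
    (hreal : ∀ (σ : k →+* ℂ) (x : k), starRingEnd ℂ (σ x) = σ x) (hd : 2 ≤ finrank ℚ k)
    (σ₀ : k →+* ℂ) (q : k[X]) (hq : q.Monic)
    (hI : ∀ y : ℂ, (q.map σ₀).IsRoot y → IsIntegral ℤ y)
    (hout : ∀ σ : k →+* ℂ, σ ≠ σ₀ → ∀ y : ℂ, (q.map σ).IsRoot y → ‖y‖ = 1) (z : ℂ)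
    (hz : (q.map σ₀).IsRoot z) (hz1 : 1 < ‖z‖)
    (hdep : ∀ y : ℂ, (q.map σ₀).IsRoot y → ∃ N : ℕ, 0 < N ∧ (y ^ N = z ^ N ∨ y ^ N * z ^ N = 1)) :
    ∃ (τ : ℝ) (t : k) (j : ℕ), IsSalem τ ∧ Algebra.adjoin ℚ {t} = ⊤ ∧
      σ₀ t = ((τ + τ⁻¹ : ℝ) : ℂ) ∧ 1 ≤ j ∧ 2 * j ≤ q.natDegree ∧ τ = ‖z‖ ^ j ∧
      ∃ N : ℕ, 0 < N ∧ (τ : ℂ) ^ N = z ^ (j * N) := by
  classical
  set s := lft σ₀ with hs
  have hcl : IsAlgClosed QB := IsAlgClosure.isAlgClosed ℚ
  have hne : ∀ s' : k →+* QB, q.map s' ≠ 0 := fun s' => (hq.map s').ne_zero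
  have hrootC : ∀ (s' : k →+* QB) (y : QB), y ∈ (q.map s').roots →
      (q.map ((algebraMap QB ℂ).comp s')).IsRoot (y : ℂ) := by
    intro s' y hy
    have h1 := (mem_roots (hne s')).mp hy
    rw [← Polynomial.map_map, IsRoot.def, eval_map]
    have h2 : eval₂ (algebraMap QB ℂ) (algebraMap QB ℂ y) (q.map s') =
        algebraMap QB ℂ (eval y (q.map s')) := eval₂_at_apply _ _
    rw [IsRoot.def] at h1
    rw [h1, map_zero] at h2
    exact h2
  have hsσ : (algebraMap QB ℂ).comp s = σ₀ := RingHom.ext fun x => rfl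
  -- the root `z`
  have hzA : z ∈ QB := by
    rw [mem_algebraicClosure_iff]
    exact ((hI z hz).tower_top (A := ℚ)).isAlgebraic
  set Z : QB := ⟨z, hzA⟩ with hZ
  have hZroot : Z ∈ (q.map s).roots := by
    rw [mem_roots (hne s), IsRoot.def]
    apply Subtype.val_injective
    have h2 : eval₂ (algebraMap QB ℂ) (algebraMap QB ℂ Z) (q.map s) =
        algebraMap QB ℂ (eval Z (q.map s)) := eval₂_at_apply _ _
    rw [← eval_map, Polynomial.map_map, hsσ] at h2
    exact h2.symm.trans hz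
  have hdep' : ∀ y ∈ (q.map s).roots, ∃ N : ℕ, 0 < N ∧ (y ^ N = Z ^ N ∨ y ^ N * Z ^ N = 1) := by
    intro y hy
    have h1 := hrootC s y hy
    rw [hsσ] at h1
    obtain ⟨N, hN, h2⟩ := hdep y h1
    refine ⟨N, hN, ?_⟩
    rcases h2 with h2 | h2
    · left
      exact Subtype.val_injective h2
    · right
      exact Subtype.val_injective h2
  set w : QB := (up s q).prod with hw
  set v : QB := (dn s q).prod with hv
  have hfix : ∀ g : QB →ₐ[ℚ] QB, (∀ x, g (s x) = s x) → g w = w ∨ g w = v :=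
    fun g hg => case_fix s q Z hZroot hz1 hdep' g hg
  have hmove : ∀ g : QB →ₐ[ℚ] QB, (∃ x, g (s x) ≠ s x) →
      ‖((g w : QB) : ℂ)‖ = 1 ∧ ‖((g v : QB) : ℂ)‖ = 1 := by
    intro g ⟨x, hx⟩
    apply case_move s q g
    intro y hy
    refine hout _ ?_ _ (hrootC _ y hy)
    intro h1
    apply hx
    apply Subtype.val_injective
    have h2 := RingHom.congr_fun h1 x
    exact h2
  -- absolute values
  have hnZ : ∀ y ∈ (q.map s).roots, (‖(y : ℂ)‖ = ‖z‖ ∨ ‖(y : ℂ)‖ * ‖z‖ = 1) := by
    intro y hy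
    obtain ⟨N, hN, h2 | h2⟩ := hdep' y hy
    · left
      have h3 : (y : ℂ) ^ N = z ^ N := congrArg Subtype.val h2
      have h4 := congrArg norm h3
      rw [norm_pow, norm_pow] at h4
      exact (pow_left_inj₀ (norm_nonneg _) (norm_nonneg _) hN.ne').mp h4
    · right
      have h3 : (y : ℂ) ^ N * z ^ N = 1 := congrArg Subtype.val h2
      have h4 := congrArg norm h3
      rw [norm_mul, norm_pow, norm_pow, norm_one, ← mul_pow] at h4
      exact (pow_eq_one_iff_of_nonneg (by positivity) hN.ne').mp h4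
  have hz0 : 0 < ‖z‖ := by linarith
  have hupn : ∀ y ∈ up s q, ‖(y : ℂ)‖ = ‖z‖ := by
    intro y hy
    unfold up at hy
    rw [Multiset.mem_filter] at hy
    rcases hnZ y hy.1 with h1 | h1
    · exact h1
    · exfalso
      nlinarith [hy.2]
  have hdnn : ∀ y ∈ dn s q, ‖(y : ℂ)‖ = ‖z‖⁻¹ := by
    intro y hy
    unfold dn at hy
    rw [Multiset.mem_filter] at hy
    rcases hnZ y hy.1 with h1 | h1
    · exfalso
      linarith [hy.2]
    · exact eq_inv_of_mul_eq_one_left h1
  have hnp : ∀ (m : Multiset QB) (r : ℝ), (∀ y ∈ m, ‖(y : ℂ)‖ = r) →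
      ‖((m.prod : QB) : ℂ)‖ = r ^ Multiset.card m := by
    intro m r
    induction m using Multiset.induction with
    | empty => intro _; simp
    | cons a m ih =>
      intro h
      rw [Multiset.prod_cons, Multiset.card_cons]
      change ‖(a : ℂ) * ((m.prod : QB) : ℂ)‖ = _
      rw [norm_mul, h a (Multiset.mem_cons_self a m),
        ih fun y hy => h y (Multiset.mem_cons_of_mem hy), pow_succ, mul_comm]
  set j := Multiset.card (up s q) with hj
  have hwn : ‖(w : ℂ)‖ = ‖z‖ ^ j := hnp _ _ hupn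
  have hvn : ‖(v : ℂ)‖ = ‖z‖⁻¹ ^ Multiset.card (dn s q) := hnp _ _ hdnn
  have hj1 : 1 ≤ j := by
    rw [hj, Nat.one_le_iff_ne_zero, Ne, Multiset.card_eq_zero]
    intro h1
    have h2 : Z ∈ up s q := by
      unfold up
      rw [Multiset.mem_filter]
      exact ⟨hZroot, hz1⟩
    rw [h1] at h2
    exact Multiset.notMem_zero _ h2
  obtain ⟨hprod, hcard⟩ := up_dn_prod s q hq (by
    intro y hy h1
    rcases hnZ y hy with h2 | h2
    · linarith
    · rw [h1, one_mul] at h2
      linarith)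
  rw [← hw, ← hv] at hprod
  -- the constant coefficient
  obtain ⟨σ₁, hσ₁⟩ : ∃ σ₁ : k →+* ℂ, σ₁ ≠ σ₀ := by
    have h1 : 1 < Fintype.card (k →+* ℂ) := by
      rw [NumberField.Embeddings.card]
      omega
    exact Fintype.exists_ne_of_one_lt_card h1 σ₀
  have hconst : (q.coeff 0) ^ 2 = 1 := by
    have h1 : ‖σ₁ (q.coeff 0)‖ = 1 := by
      have hsplit := IsAlgClosed.splits (q.map σ₁)
      have h3 := hsplit.coeff_zero_eq_prod_roots_of_monic (hq.map σ₁)
      rw [coeff_map] at h3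
      rw [h3, norm_mul, norm_pow, norm_neg, norm_one, one_pow, one_mul]
      have h4 : ∀ m : Multiset ℂ, (∀ y ∈ m, ‖y‖ = 1) → ‖m.prod‖ = 1 := by
        intro m
        induction m using Multiset.induction with
        | empty => intro _; simp
        | cons a m ih =>
          intro h5
          rw [Multiset.prod_cons, norm_mul, h5 a (Multiset.mem_cons_self a m),
            ih fun y hy => h5 y (Multiset.mem_cons_of_mem hy), one_mul]
      exact h4 _ fun y hy => hout σ₁ hσ₁ y (mem_roots'.mp hy).2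
    have h2 : σ₁ (q.coeff 0) ^ 2 = 1 := by
      have h3 := Complex.mul_conj (σ₁ (q.coeff 0))
      rw [hreal, Complex.normSq_eq_norm_sq, h1] at h3
      rw [sq, h3]
      norm_num
    apply σ₁.injective
    rw [map_pow, h2, map_one]
  have hwv2 : (w * v) ^ 2 = 1 := by
    rw [hprod, mul_pow, ← map_pow, hconst, map_one, mul_one, ← pow_mul, mul_comm, pow_mul,
      neg_one_sq, one_pow]
  have hwv : w * v = 1 ∨ w * v = -1 := mul_self_eq_one_iff.mp (by rw [← sq]; exact hwv2)
  have hwvn : ‖(w : ℂ)‖ * ‖(v : ℂ)‖ = 1 := by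
    have h1 : ((w * v : QB) : ℂ) = (w : ℂ) * (v : ℂ) := rfl
    rcases hwv with h | h
    · rw [← norm_mul, ← h1, h]
      simp
    · rw [← norm_mul, ← h1, h]
      simp
  set τ : ℝ := ‖z‖ ^ j with hτ
  have hτ1 : 1 < τ := one_lt_pow₀ hz1 (by omega)
  have hτ0 : 0 < τ := by linarith
  have hvlt : ‖(v : ℂ)‖ < 1 := by
    rw [hwn] at hwvn
    by_contra h1
    push Not at h1
    nlinarith
  -- complex conjugation
  obtain ⟨c, hc⟩ : ∃ c : QB →ₐ[ℚ] QB, ∀ x : QB, ((c x : QB) : ℂ) = starRingEnd ℂ (x : ℂ) := by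
    let χ : ℂ →ₐ[ℚ] ℂ := (Complex.conjAe.restrictScalars ℚ : ℂ ≃ₐ[ℚ] ℂ)
    refine ⟨χ.restrictNormal QB, fun x => ?_⟩
    exact χ.restrictNormal_commutes QB x
  have hcw : c w = w := by
    have h1 : ∀ x, c (s x) = s x := by
      intro x
      apply Subtype.val_injective
      rw [hc]
      exact hreal σ₀ x
    rcases hfix c h1 with h | h
    · exact h
    · exfalso
      have h2 : ‖((c w : QB) : ℂ)‖ = ‖(w : ℂ)‖ := by
        rw [hc]
        exact RCLike.norm_conj _
      rw [h, hwn] at h2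
      linarith
  have hwre : (w : ℂ) = ((w : ℂ).re : ℂ) := by
    have h1 : starRingEnd ℂ (w : ℂ) = (w : ℂ) := by rw [← hc, hcw]
    exact (Complex.conj_eq_iff_re.mp h1).symm
  obtain ⟨δ, hδ, hδw⟩ : ∃ δ : ℤ, (δ = 1 ∨ δ = -1) ∧ (w : ℂ) = (δ : ℂ) * (τ : ℂ) := by
    have h1 : |(w : ℂ).re| = τ := by
      rw [← hwn, hwre, Complex.norm_real, Real.norm_eq_abs]
      simp
    rcases abs_cases (w : ℂ).re with h2 | h2
    · refine ⟨1, Or.inl rfl, ?_⟩
      rw [hwre, ← h1, h2.1]
      simp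
    · refine ⟨-1, Or.inr rfl, ?_⟩
      rw [hwre, ← h1, h2.1]
      simp
  have hδ2 : δ * δ = 1 := by rcases hδ with h | h <;> rw [h] <;> norm_num
  have hδn : ‖(δ : ℂ)‖ = 1 := by rcases hδ with h | h <;> rw [h] <;> simp
  set T : QB := (δ : QB) * w with hT
  set V : QB := (δ : QB) * v with hV
  have hTC : (T : ℂ) = (τ : ℂ) := by
    have h1 : (T : ℂ) = (δ : ℂ) * (w : ℂ) := by
      rw [hT]
      push_cast
      rfl
    rw [h1, hδw, ← mul_assoc]
    have h2 : (δ : ℂ) * (δ : ℂ) = 1 := by exact_mod_cast hδ2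
    rw [h2, one_mul]
  have hTV : T * V = w * v := by
    have h2 : (δ : QB) * (δ : QB) = 1 := by exact_mod_cast hδ2
    calc T * V = ((δ : QB) * (δ : QB)) * (w * v) := by rw [hT, hV]; ring
      _ = w * v := by rw [h2, one_mul]
  have hfix' : ∀ g : QB →ₐ[ℚ] QB, (∀ x, g (s x) = s x) → g T = T ∨ g T = V := by
    intro g hg
    rcases hfix g hg with h | h
    · left; rw [hT, map_mul, map_intCast, h]
    · right; rw [hT, map_mul, map_intCast, h]
  have hmove' : ∀ g : QB →ₐ[ℚ] QB, (∃ x, g (s x) ≠ s x) → ‖((g T : QB) : ℂ)‖ = 1 := by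
    intro g hg
    have h1 := (hmove g hg).1
    have h2 : ((g T : QB) : ℂ) = (δ : ℂ) * ((g w : QB) : ℂ) := by
      rw [hT, map_mul, map_intCast]
      push_cast
      rfl
    rw [h2, norm_mul, hδn, h1, one_mul]
  have hT0 : T ≠ 0 := by
    intro h
    rw [h] at hTC
    have h1 : (τ : ℂ) = 0 := hTC.symm.trans (by simp)
    have h2 : τ = 0 := by exact_mod_cast h1
    linarith
  have hVn : ‖(V : ℂ)‖ < 1 := by
    have h2 : (V : ℂ) = (δ : ℂ) * (v : ℂ) := by
      rw [hV]
      push_cast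
      rfl
    rw [h2, norm_mul, hδn, one_mul]
    exact hvlt
  -- fixed elements come from `k`
  have hfixed : ∀ x : QB, (∀ g : QB →ₐ[ℚ] QB, (∀ y, g (s y) = s y) → g x = x) →
      ∃ x₀ : k, s x₀ = x := by
    intro x hx
    let _ : Algebra k QB := s.toAlgebra
    have hsc : IsScalarTower ℚ k QB := IsScalarTower.of_algebraMap_eq fun r => by
      have h1 : algebraMap k QB = s := rfl
      rw [h1]
      simp
    have hac : Algebra.IsAlgebraic k QB := Algebra.IsAlgebraic.tower_top (K := ℚ) k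
    have hiac : IsAlgClosure k QB := ⟨hcl, hac⟩
    have hnor : Normal k QB := IsAlgClosure.normal k QB
    have hgal : IsGalois k QB := ⟨⟩
    obtain ⟨x₀, hx₀⟩ := (InfiniteGalois.mem_range_algebraMap_iff_fixed (k := k) x).mpr (by
      intro f
      exact hx ((f : QB →ₐ[k] QB).restrictScalars ℚ) (fun y => f.commutes y))
    exact ⟨x₀, hx₀⟩
  obtain ⟨g₁, hg₁⟩ := exists_move σ₀ σ₁
  have hg₁m : ∃ x, g₁ (s x) ≠ s x := by
    by_contra h
    push Not at h
    apply hσ₁
    apply RingHom.ext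
    intro x
    have h1 := congrArg Subtype.val ((hg₁ x).symm.trans (h x))
    exact h1
  have hTV1 : T * V = 1 := by
    rcases hwv with h | h
    · rw [hTV, h]
    · exfalso
      rw [← hTV] at h
      obtain ⟨u₀, hu₀⟩ := hfixed (T + V) (by
        intro g hg
        have h1 : g T * g V = -1 := by rw [← map_mul, h, map_neg, map_one]
        rcases hfix' g hg with h2 | h2
        · rw [map_add, h2]
          rw [h2, ← h] at h1
          rw [mul_left_cancel₀ hT0 h1]
        · rw [h2, ← h, mul_comm T V] at h1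
          have hV0 : V ≠ 0 := by
            intro h3
            rw [h3, mul_zero] at h
            exact absurd h (by norm_num)
          rw [map_add, h2, mul_left_cancel₀ hV0 h1, add_comm])
      have h1 : g₁ T * g₁ V = -1 := by rw [← map_mul, h, map_neg, map_one]
      have h2 := hmove' g₁ hg₁m
      have h3 : ((g₁ T : QB) : ℂ) * ((g₁ V : QB) : ℂ) = -1 := congrArg Subtype.val h1
      have h4 : ((g₁ T : QB) : ℂ) * starRingEnd ℂ ((g₁ T : QB) : ℂ) = 1 := by
        rw [Complex.mul_conj, Complex.normSq_eq_norm_sq, h2]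
        norm_num
      have h5 : ((g₁ V : QB) : ℂ) = - starRingEnd ℂ ((g₁ T : QB) : ℂ) := by
        have h6 : ((g₁ T : QB) : ℂ) ≠ 0 := by
          intro h7
          rw [h7, norm_zero] at h2
          norm_num at h2
        apply mul_left_cancel₀ h6
        rw [h3, mul_neg, h4]
      have h6 : σ₁ u₀ = ((g₁ T : QB) : ℂ) - starRingEnd ℂ ((g₁ T : QB) : ℂ) := by
        have h7 : g₁ (s u₀) = g₁ T + g₁ V := by rw [hu₀, map_add]
        rw [hg₁] at h7
        have h8 : σ₁ u₀ = ((g₁ T : QB) : ℂ) + ((g₁ V : QB) : ℂ) := congrArg Subtype.val h7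
        rw [h8, h5, sub_eq_add_neg]
      have h7 := hreal σ₁ u₀
      rw [h6, map_sub, Complex.conj_conj] at h7
      have h8 : σ₁ u₀ = 0 := by
        rw [h6]
        have h9 : (2 : ℂ) * (((g₁ T : QB) : ℂ) - starRingEnd ℂ ((g₁ T : QB) : ℂ)) = 0 := by
          linear_combination -h7
        rcases mul_eq_zero.mp h9 with h10 | h10
        · norm_num at h10
        · exact h10
      have h9 : u₀ = 0 := by
        apply σ₁.injective
        rw [h8, map_zero]
      rw [h9, map_zero] at hu₀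
      have h10 : V = -T := by linear_combination -hu₀
      rw [h10] at h
      have h11 : (T : ℂ) * (T : ℂ) = 1 := by
        have h12 : T * T = 1 := by linear_combination -h
        exact congrArg Subtype.val h12
      rw [hTC] at h11
      have h12 : τ * τ = 1 := by exact_mod_cast h11
      nlinarith
  obtain ⟨t, ht⟩ := hfixed (T + V) (by
    intro g hg
    have h1 : g T * g V = 1 := by rw [← map_mul, hTV1, map_one]
    have hV0 : V ≠ 0 := by
      intro h3
      rw [h3, mul_zero] at hTV1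
      exact zero_ne_one hTV1
    rcases hfix' g hg with h2 | h2
    · rw [map_add, h2]
      rw [h2, ← hTV1] at h1
      rw [mul_left_cancel₀ hT0 h1]
    · rw [h2, ← hTV1, mul_comm T V] at h1
      rw [map_add, h2, mul_left_cancel₀ hV0 h1, add_comm])
  have hVC : (V : ℂ) = ((τ⁻¹ : ℝ) : ℂ) := by
    have h1 : (T : ℂ) * (V : ℂ) = 1 := congrArg Subtype.val hTV1
    rw [hTC] at h1
    push_cast
    exact eq_inv_of_mul_eq_one_right h1
  have ht' : σ₀ t = ((τ + τ⁻¹ : ℝ) : ℂ) := by
    have h1 : σ₀ t = (T : ℂ) + (V : ℂ) := congrArg Subtype.val ht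
    rw [h1, hTC, hVC]
    push_cast
    rfl
  -- `t` generates `k`
  have hgen : Algebra.adjoin ℚ {t} = ⊤ := by
    apply adjoin_top
    have hval : ∀ σ : k →+* ℂ, σ t = σ₀ t → σ = σ₀ := by
      intro σ hσ
      by_contra hne'
      obtain ⟨g, hg⟩ := exists_move σ₀ σ
      have hgm : ∃ x, g (s x) ≠ s x := by
        by_contra h
        push Not at h
        apply hne'
        apply RingHom.ext
        intro x
        exact congrArg Subtype.val ((hg x).symm.trans (h x))
      have h2 := hmove' g hgm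
      have h3 : g T * g V = 1 := by rw [← map_mul, hTV1, map_one]
      have h4 : ((g T : QB) : ℂ) * ((g V : QB) : ℂ) = 1 := congrArg Subtype.val h3
      have h5 : ‖((g V : QB) : ℂ)‖ = 1 := by
        have h6 := congrArg norm h4
        rw [norm_mul, h2, one_mul, norm_one] at h6
        exact h6
      have h6 : σ t = ((g T : QB) : ℂ) + ((g V : QB) : ℂ) := by
        have h7 : g (s t) = g T + g V := by rw [ht, map_add]
        rw [hg] at h7
        exact congrArg Subtype.val h7
      have h7 : ‖σ t‖ ≤ 2 := by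
        rw [h6]
        refine (norm_add_le _ _).trans ?_
        rw [h2, h5]
        norm_num
      rw [hσ, ht', Complex.norm_real, Real.norm_eq_abs, abs_of_pos (by positivity)] at h7
      have h8 : τ * (τ + τ⁻¹) ≤ τ * 2 := mul_le_mul_of_nonneg_left h7 hτ0.le
      rw [mul_add, mul_inv_cancel₀ hτ0.ne'] at h8
      nlinarith
    intro φ ψ hφψ
    let φ₀ : k →ₐ[ℚ] ℂ := RingHom.equivRatAlgHom k ℂ σ₀
    have h1 := card_value t φ φ₀
    have h2 : ((Finset.univ : Finset (k →ₐ[ℚ] ℂ)).filter fun σ => σ t = φ₀ t).card ≤ 1 := by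
      rw [Finset.card_le_one]
      intro a ha b hb
      have e1 := hval (a : k →+* ℂ) (Finset.mem_filter.mp ha).2
      have e2 := hval (b : k →+* ℂ) (Finset.mem_filter.mp hb).2
      exact AlgHom.coe_ringHom_injective (e1.trans e2.symm)
    rw [← h1, Finset.card_le_one] at h2
    exact h2 φ (Finset.mem_filter.mpr ⟨mem_univ _, rfl⟩) ψ
      (Finset.mem_filter.mpr ⟨mem_univ _, hφψ.symm⟩)
  -- integrality
  have hwint : IsIntegral ℤ w := by
    rw [hw]
    apply IsIntegral.multiset_prod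
    intro y hy
    unfold up at hy
    have h1 := hrootC s y (Multiset.mem_of_mem_filter hy)
    rw [hsσ] at h1
    exact (isIntegral_algebraMap_iff (A := QB) (B := ℂ)
      (FaithfulSMul.algebraMap_injective QB ℂ)).mp (hI _ h1)
  have hTint : IsIntegral ℤ T := by
    rw [hT]
    refine IsIntegral.mul ?_ hwint
    have := isIntegral_algebraMap (R := ℤ) (A := QB) (x := δ)
    simpa using this
  have hτint : IsIntegral ℤ τ := by
    have h1 : IsIntegral ℤ (T : ℂ) := hTint.map (algebraMap QB ℂ).toIntAlgHom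
    rw [hTC] at h1
    exact (isIntegral_algebraMap_iff (A := ℝ) (B := ℂ) (FaithfulSMul.algebraMap_injective ℝ ℂ)).mp h1
  have hmin : minpoly ℤ τ = minpoly ℤ T := by
    have h1 : minpoly ℤ (algebraMap ℝ ℂ τ) = minpoly ℤ τ :=
      minpoly.algebraMap_eq (FaithfulSMul.algebraMap_injective ℝ ℂ) τ
    have h2 : minpoly ℤ (algebraMap QB ℂ T) = minpoly ℤ T :=
      minpoly.algebraMap_eq (FaithfulSMul.algebraMap_injective QB ℂ) T
    rw [← h1, ← h2]
    congr 1
    exact hTC.symm
  -- conjugates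
  have hconj : ∀ y : ℂ, aeval y (minpoly ℤ τ) = 0 → ∃ g : QB →ₐ[ℚ] QB, ((g T : QB) : ℂ) = y := by
    intro y hy
    rw [hmin] at hy
    have hyA : y ∈ QB := by
      rw [mem_algebraicClosure_iff]
      have h1 : IsIntegral ℤ y := ⟨minpoly ℤ T, minpoly.monic hTint, hy⟩
      exact (h1.tower_top (A := ℚ)).isAlgebraic
    have h1 : aeval (⟨y, hyA⟩ : QB) (minpoly ℚ T) = 0 := by
      rw [minpoly.isIntegrallyClosed_eq_field_fractions' ℚ hTint, aeval_map_algebraMap]
      apply Subtype.val_injective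
      have h2 := Polynomial.aeval_algHom_apply (algebraMap QB ℂ).toIntAlgHom (⟨y, hyA⟩ : QB)
        (minpoly ℤ T)
      exact h2.symm.trans hy
    obtain ⟨g, hg⟩ := minpoly.exists_algEquiv_of_root' (Algebra.IsAlgebraic.isAlgebraic T) h1
    exact ⟨(g : QB →ₐ[ℚ] QB), congrArg Subtype.val hg⟩
  have hconj' : ∀ g : QB →ₐ[ℚ] QB, aeval ((g T : QB) : ℂ) (minpoly ℤ τ) = 0 := by
    intro g
    rw [hmin]
    have h1 := Polynomial.aeval_algHom_apply
      (((algebraMap QB ℂ).comp (g : QB →+* QB)).toIntAlgHom) T (minpoly ℤ T)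
    rw [minpoly.aeval, map_zero] at h1
    exact h1
  -- some automorphism maps `T` to `V`
  obtain ⟨g₂, hg₂⟩ : ∃ g : QB →ₐ[ℚ] QB, g T = V := by
    by_contra hcon
    push Not at hcon
    obtain ⟨x, hx⟩ := hfixed T fun g hg => (hfix' g hg).resolve_right (hcon g)
    have h1 : g₁ T = lft σ₁ x := by rw [← hx]; exact hg₁ x
    have h2 := hmove' g₁ hg₁m
    rw [h1] at h2
    have h3 : σ₁ x ^ 2 = 1 := by
      have h4 := Complex.mul_conj (σ₁ x)
      have h5 : ‖σ₁ x‖ = 1 := h2
      rw [hreal, Complex.normSq_eq_norm_sq, h5] at h4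
      rw [sq, h4]
      norm_num
    have h4 : x ^ 2 = 1 := by
      apply σ₁.injective
      rw [map_pow, h3, map_one]
    have h5 : T ^ 2 = 1 := by rw [← hx, ← map_pow, h4, map_one]
    have h6 : (T : ℂ) ^ 2 = 1 := congrArg Subtype.val h5
    rw [hTC] at h6
    have h7 : τ ^ 2 = 1 := by exact_mod_cast h6
    nlinarith
  refine ⟨τ, t, j, ⟨hτ1, hτint, ?_, ?_, ?_⟩, hgen, ht', hj1, ?_, rfl, ?_⟩
  · have h1 := hconj' g₂
    rw [hg₂, hVC] at h1
    have h2 := Polynomial.aeval_algHom_apply (algebraMap ℝ ℂ).toIntAlgHom τ⁻¹ (minpoly ℤ τ)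
    have h3 : (algebraMap ℝ ℂ).toIntAlgHom (aeval τ⁻¹ (minpoly ℤ τ)) = 0 := h2.symm.trans h1
    exact (map_eq_zero_iff _ (FaithfulSMul.algebraMap_injective ℝ ℂ)).mp h3
  · intro y hy
    obtain ⟨g, rfl⟩ := hconj y hy
    by_cases hg : ∀ x, g (s x) = s x
    · rcases hfix' g hg with h | h
      · left; rw [h, hTC]
      · right; left; rw [h, hVC]; push_cast; rfl
    · push Not at hg
      right; right
      exact hmove' g hg
  · exact ⟨_, hconj' g₁, hmove' g₁ hg₁m⟩
  · -- the number of roots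
    have h1 : ‖z‖ ^ j * (‖z‖⁻¹) ^ Multiset.card (dn s q) = 1 := by
      rw [← hτ, ← hwn, ← hvn]
      exact hwvn
    have h2 : Multiset.card (dn s q) = j := by
      have h3 : ‖z‖ ^ j = ‖z‖ ^ Multiset.card (dn s q) := by
        rw [inv_pow, mul_inv_eq_one₀ (pow_ne_zero _ hz0.ne')] at h1
        exact h1
      exact (pow_right_injective₀ hz0 hz1.ne' h3).symm
    omega
  · -- the relation of `τ` and `z`
    have h1 : ∀ m : Multiset QB, (∀ y ∈ m, ∃ N : ℕ, 0 < N ∧ y ^ N = Z ^ N) →
        ∃ N : ℕ, 0 < N ∧ m.prod ^ N = Z ^ (Multiset.card m * N) := by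
      intro m
      induction m using Multiset.induction with
      | empty => intro _; exact ⟨1, one_pos, by simp⟩
      | cons a m ih =>
        intro h
        obtain ⟨N1, hN1, e1⟩ := h a (Multiset.mem_cons_self a m)
        obtain ⟨N2, hN2, e2⟩ := ih fun y hy => h y (Multiset.mem_cons_of_mem hy)
        refine ⟨N1 * N2, Nat.mul_pos hN1 hN2, ?_⟩
        rw [Multiset.prod_cons, Multiset.card_cons, mul_pow, pow_mul a, e1, mul_comm N1 N2,
          pow_mul m.prod, e2, ← pow_mul, ← pow_mul, ← pow_add]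
        congr 1
        ring
    obtain ⟨N, hN, h2⟩ := h1 (up s q) (by
      intro y hy
      unfold up at hy
      rw [Multiset.mem_filter] at hy
      obtain ⟨N, hN, h3 | h3⟩ := hdep' y hy.1
      · exact ⟨N, hN, h3⟩
      · exfalso
        have h4 : (y : ℂ) ^ N * z ^ N = 1 := congrArg Subtype.val h3
        have h5 := congrArg norm h4
        rw [norm_mul, norm_pow, norm_pow, norm_one, ← mul_pow] at h5
        have h6 := (pow_eq_one_iff_of_nonneg (by positivity) hN.ne').mp h5
        nlinarith [hy.2])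
    refine ⟨2 * N, by omega, ?_⟩
    have h3 : (w : ℂ) ^ N = z ^ (j * N) := congrArg Subtype.val h2
    have h4 : (τ : ℂ) ^ 2 = (w : ℂ) ^ 2 := by
      rw [hδw, mul_pow]
      have h5 : (δ : ℂ) ^ 2 = 1 := by rw [sq]; exact_mod_cast hδ2
      rw [h5, one_mul]
    rw [pow_mul, h4, ← pow_mul, mul_comm 2 N, pow_mul, h3, ← pow_mul]
    congr 1
    ring

end Pool.Agent.J4H57.TD
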