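import Pool.Agent.J4H57.TD.SA

/-!
# Small eigenvalues over totally real fields give Salem numbers
-/

set_option autoImplicit false

open Finset NumberField Module Polynomial

namespace Pool.Agent.J4H57.TD

open Pool.Agent.H388SL Pool.Agent.H225R3.Marg Pool.Agent.Y399.MG

/-- The field `k` is totally real. -/
def TotReal (k : Type) [Field k] : Prop := ∀ (σ : k →+* ℂ) (x : k), starRingEnd ℂ (σ x) = σ x

lemma TotReal.hasConj {k : Type} [Field k] (h : TotReal k) : HasConj k :=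
  ⟨RingHom.id k, fun σ x => (h σ x).symm⟩

lemma norm_prod_le_one (m : Multiset ℂ) (h : ∀ y ∈ m, ‖y‖ ≤ 1) : ‖m.prod‖ ≤ 1 := by
  induction m using Multiset.induction with
  | empty => simp
  | cons a m ih =>
    rw [Multiset.prod_cons, norm_mul]
    exact mul_le_one₀ (h a (Multiset.mem_cons_self a m)) (norm_nonneg _)
      (ih fun y hy => h y (Multiset.mem_cons_of_mem hy))

/-- **Small eigenvalues give Salem numbers.** -/
theorem salem_alt (n : ℕ) : ∃ c : ℝ, 0 < c ∧ ∀ (k : Type) [Field k] [NumberField k]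
    (σ₀ : k →+* ℂ) (P : k[X]), TotReal k → P.Monic → P.natDegree ≤ n → UnitPoly P →
    (∀ σ : k →+* ℂ, σ ≠ σ₀ → ∀ y : ℂ, (P.map σ).IsRoot y → ‖y‖ = 1) →
    (∃ (σ : k →+* ℂ) (z : ℂ), (P.map σ).IsRoot z ∧ ∀ m : ℕ, 0 < m → z ^ m ≠ 1) →
    (∀ z : ℂ, (P.map σ₀).IsRoot z → ‖z‖ < (1 + finrank ℚ k : ℝ) ^ c) →
    ∃ (τ : ℝ) (t : k), IsSalem τ ∧ Algebra.adjoin ℚ {t} = ⊤ ∧ σ₀ t = ((τ + τ⁻¹ : ℝ) : ℂ) ∧
      (∃ (j : ℕ) (z : ℂ), 1 ≤ j ∧ 2 * j ≤ n ∧ (P.map σ₀).IsRoot z ∧ ‖z‖ ^ j = τ) ∧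
      ∀ y : ℂ, (P.map σ₀).IsRoot y → ∃ (N : ℕ) (m : ℤ), 0 < N ∧ y ^ N = (τ : ℂ) ^ m := by
  classical
  obtain ⟨c1, hc1, hdep⟩ := dep_poly 1 n 1
  obtain ⟨c2, hc2, hsmall⟩ := small_gap 1 n
  refine ⟨min c1 c2, lt_min hc1 hc2, ?_⟩
  intro k _ _ σ₀ P hreal hP hn hU hout hex hsm
  have h1L : (1 : ℝ) ≤ 1 + finrank ℚ k := by
    have : (0 : ℝ) ≤ finrank ℚ k := Nat.cast_nonneg _
    linarith
  have hdpos : 0 < finrank ℚ k := finrank_pos
  -- the degree is at least two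
  have hd : 2 ≤ finrank ℚ k := by
    by_contra hlt
    have hd1 : finrank ℚ k ≤ 1 := by omega
    obtain ⟨σ, z, hz, hle⟩ := hsmall k P hP hn hU hd1 hex
    have hσ : σ = σ₀ := by
      have h1 : Fintype.card (k →+* ℂ) ≤ 1 := by
        rw [NumberField.Embeddings.card]
        exact hd1
      exact Fintype.card_le_one_iff.mp h1 σ σ₀
    rw [hσ] at hz
    have h2 := hsm z hz
    have h3 : (1 + finrank ℚ k : ℝ) ^ (min c1 c2) ≤ (1 + finrank ℚ k : ℝ) ^ c2 :=
      Real.rpow_le_rpow_of_exponent_le h1L (min_le_right _ _)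
    linarith
  have hroot := fun (σ : k →+* ℂ) (z : ℂ) (hz : (P.map σ).IsRoot z) => unit_root hP hU σ hz
  -- a root off the unit circle
  obtain ⟨σ', z', hz', htor'⟩ := hex
  obtain ⟨σ'', z'', hz'', hz1'', _⟩ := exists_off_root P hP hroot σ' z' hz' htor'
  have hσ'' : σ'' = σ₀ := by
    by_contra h
    exact hz1'' (hout σ'' h z'' hz'')
  rw [hσ''] at hz''
  obtain ⟨σ₁, hσ₁⟩ : ∃ σ₁ : k →+* ℂ, σ₁ ≠ σ₀ := by
    have h1 : 1 < Fintype.card (k →+* ℂ) := by
      rw [NumberField.Embeddings.card]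
      omega
    exact Fintype.exists_ne_of_one_lt_card h1 σ₀
  have hprodn : ∀ σ : k →+* ℂ, ‖(P.map σ).roots.prod‖ = ‖σ (P.coeff 0)‖ := by
    intro σ
    have h3 := (IsAlgClosed.splits (P.map σ)).coeff_zero_eq_prod_roots_of_monic (hP.map σ)
    rw [coeff_map] at h3
    rw [h3, norm_mul, norm_pow, norm_neg, norm_one, one_pow, one_mul]
  have hone : ‖(P.map σ₀).roots.prod‖ = 1 := by
    rw [hprodn]
    apply hreal.hasConj.norm_one (σ := σ₁)
    rw [← hprodn]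
    have h4 : ∀ m : Multiset ℂ, (∀ y ∈ m, ‖y‖ = 1) → ‖m.prod‖ = 1 := by
      intro m
      induction m using Multiset.induction with
      | empty => intro _; simp
      | cons a m ih =>
        intro h5
        rw [Multiset.prod_cons, norm_mul, h5 a (Multiset.mem_cons_self a m),
          ih fun y hy => h5 y (Multiset.mem_cons_of_mem hy), one_mul]
    exact h4 _ fun y hy => hout σ₁ hσ₁ y (mem_roots'.mp hy).2
  obtain ⟨z, hz, hz1⟩ : ∃ z : ℂ, (P.map σ₀).IsRoot z ∧ 1 < ‖z‖ := by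
    by_contra hcon
    push Not at hcon
    have hmem : z'' ∈ (P.map σ₀).roots := (mem_roots (hP.map σ₀).ne_zero).mpr hz''
    obtain ⟨m, hm⟩ := Multiset.exists_cons_of_mem hmem
    have h1 : ‖m.prod‖ ≤ 1 := by
      apply norm_prod_le_one
      intro y hy
      exact hcon y (mem_roots'.mp (by rw [hm]; exact Multiset.mem_cons_of_mem hy)).2
    have h2 := hcon z'' hz''
    rw [hm, Multiset.prod_cons, norm_mul] at hone
    have h3 : ‖z''‖ < 1 := lt_of_le_of_ne h2 hz1''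
    nlinarith [norm_nonneg z'', norm_nonneg m.prod]
  have hz0 : z ≠ 0 := (hroot σ₀ z hz).1
  have htor : ∀ N : ℕ, 0 < N → z ^ N ≠ 1 := by
    intro N hN h
    have h1 := congrArg norm h
    rw [norm_pow, norm_one] at h1
    have h2 := one_lt_pow₀ hz1 hN.ne'
    linarith
  -- relations
  have hsm' : ∀ σ, ∀ y : ℂ, (P.map σ).IsRoot y → ‖y‖ < (1 + finrank ℚ k : ℝ) ^ c1 := by
    intro σ y hy
    by_cases hσ : σ = σ₀
    · rw [hσ] at hy
      exact (hsm y hy).trans_le (Real.rpow_le_rpow_of_exponent_le h1L (min_le_left _ _))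
    · rw [hout σ hσ y hy]
      exact Real.one_lt_rpow (by
        have : (0 : ℝ) < finrank ℚ k := by exact_mod_cast hdpos
        linarith) hc1
  have hrel : ∀ y : ℂ, (P.map σ₀).IsRoot y → ∃ u v : ℤ, (u ≠ 0 ∨ v ≠ 0) ∧ z ^ u * y ^ v = 1 := by
    intro y hy
    exact hdep k k {σ₀} {σ₀} P P hP hP hn hn (by simp) (by simp) hroot hroot
      (fun σ hσ => hout σ (by simpa using hσ)) (fun σ hσ => hout σ (by simpa using hσ)) hsm' hsm'
      σ₀ σ₀ (by rw [one_mul]; exact (pairDeg_self σ₀).le)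
      (by rw [one_mul]; exact (pairDeg_self σ₀).le) z y hz hy
  -- the minimal polynomial
  obtain ⟨q, hq, hqm, hzq, hqP⟩ : ∃ q : k[X], Irreducible q ∧ q.Monic ∧ (q.map σ₀).IsRoot z ∧
      q ∣ P := by
    let _ : Algebra k ℂ := σ₀.toAlgebra
    have hza : IsIntegral k z := ⟨P, hP, by rw [← eval_map]; exact hz⟩
    refine ⟨minpoly k z, minpoly.irreducible hza, minpoly.monic hza, ?_, ?_⟩
    · have h2 := minpoly.aeval k z
      rw [aeval_def, ← eval_map] at h2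
      exact h2
    · apply minpoly.dvd
      rw [aeval_def, ← eval_map]
      exact hz
  have hqr : ∀ (σ : k →+* ℂ) (y : ℂ), (q.map σ).IsRoot y → (P.map σ).IsRoot y :=
    fun σ y hy => hy.dvd (Polynomial.map_dvd σ hqP)
  obtain ⟨τ, t, j, h1, h2, h3, h4, h5, h6, N, hN, h7⟩ := salem_core hreal hd σ₀ q hqm
    (fun y hy => (hroot σ₀ y (hqr σ₀ y hy)).2.1) (fun σ hσ y hy => hout σ hσ y (hqr σ y hy)) z hzq
    hz1 (by
      intro y hy
      obtain ⟨u, v, huv, hr⟩ := hrel y (hqr σ₀ y hy)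
      exact pow_rel_of_zpow (hroot σ₀ y (hqr σ₀ y hy)).1 huv
        (natAbs_eq_of_rel σ₀ q hq z y hzq hy hz0 htor hr) hr)
  refine ⟨τ, t, h1, h2, h3, ⟨j, z, h4, ?_, hz, h6.symm⟩, ?_⟩
  · exact h5.trans ((natDegree_le_of_dvd hqP hP.ne_zero).trans hn)
  · intro y hy
    obtain ⟨u, v, huv, hr⟩ := hrel y hy
    have hy0 : y ≠ 0 := (hroot σ₀ y hy).1
    have hv : v ≠ 0 := by
      rintro rfl
      have hu : u ≠ 0 := by
        rcases huv with h | h
        · exact h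
        · exact absurd rfl h
      rw [zpow_zero, mul_one] at hr
      have h8 := congrArg norm hr
      rw [norm_zpow, norm_one, zpow_eq_one_iff_right₀ (norm_nonneg z) hz1.ne'] at h8
      exact hu h8
    -- y ^ v = z ^ (-u)
    have h8 : y ^ v = z ^ (-u) := by
      rw [zpow_neg]
      exact eq_inv_of_mul_eq_one_right hr
    have h9 : y ^ (v * ((j * N : ℕ) : ℤ)) = (τ : ℂ) ^ (-u * (N : ℤ)) := by
      rw [zpow_mul, h8, ← zpow_mul, mul_comm (-u) (((j * N : ℕ) : ℤ)), zpow_mul, zpow_natCast, ← h7,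
        ← zpow_natCast, ← zpow_mul, mul_comm (N : ℤ) (-u)]
    have hjN : 0 < j * N := Nat.mul_pos (by omega) hN
    rcases Int.natAbs_eq v with h10 | h10
    · refine ⟨v.natAbs * (j * N), -u * N, Nat.mul_pos (Int.natAbs_pos.mpr hv) hjN, ?_⟩
      rw [← h9, ← zpow_natCast]
      congr 1
      push_cast
      rw [abs_of_nonneg (by omega)]
    · refine ⟨v.natAbs * (j * N), -(-u * N), Nat.mul_pos (Int.natAbs_pos.mpr hv) hjN, ?_⟩
      rw [zpow_neg, ← h9, ← zpow_neg, ← zpow_natCast]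
      congr 1
      push_cast
      rw [abs_of_nonpos (by omega)]
      ring

end Pool.Agent.J4H57.TD
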