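import Pool.Agent.J4H57.TD.SQ
import Pool.Agent.Y399.RD.C
import Pool.Agent.Q262.RL.En

/-!
# The discriminant of the trace field of a small Salem number
-/

set_option autoImplicit false

open Finset NumberField Module Polynomial

namespace Pool.Agent.J4H57.TD

open Pool.Agent.H388SL Pool.Agent.H225R3.Marg Pool.Agent.Y399.MG Pool.Agent.Y399.RD

lemma sum_log_nonneg {k : Type} [Field k] [NumberField k] {x : k} (hx : IsIntegral ℤ x)
    (hx0 : x ≠ 0) : 0 ≤ ∑ σ : k →ₐ[ℚ] ℂ, Real.log ‖σ x‖ := by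
  have hne : ∀ σ : k →ₐ[ℚ] ℂ, ‖σ x‖ ≠ 0 := fun σ =>
    norm_ne_zero_iff.mpr ((map_ne_zero σ).mpr hx0)
  rw [← Real.log_prod fun σ _ => hne σ]
  apply Real.log_nonneg
  set y : 𝓞 k := ⟨x, hx⟩ with hy
  have hy0 : y ≠ 0 := fun h => hx0 (congrArg Subtype.val h)
  have h9 := Algebra.norm_eq_prod_embeddings ℚ ℂ (y : k)
  rw [← Algebra.coe_norm_int] at h9
  have h10 := congrArg norm h9
  rw [norm_prod] at h10
  have h11 : (y : k) = x := rfl
  rw [h11] at h10
  rw [← h10, eq_ratCast, Rat.cast_intCast, Complex.norm_intCast]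
  have hn0 : Algebra.norm ℤ y ≠ 0 := Algebra.norm_ne_zero_iff.mpr hy0
  have h12 : 1 ≤ |Algebra.norm ℤ y| := Int.one_le_abs hn0
  exact_mod_cast h12

/-- **The discriminant of the trace field of a Salem number.** -/
theorem disc_le {k : Type} [Field k] [NumberField k] (σ₀ : k →+* ℂ) (τ : ℝ) (t : k)
    (hτ : IsSalem τ) (ht : Algebra.adjoin ℚ {t} = ⊤) (h : σ₀ t = ((τ + τ⁻¹ : ℝ) : ℂ)) :
    Real.log |(discr k : ℝ)| ≤ finrank ℚ k * Real.log (2 * finrank ℚ k) +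
      (2 * finrank ℚ k - 1) * Real.log τ := by
  classical
  obtain ⟨hτ1, hτI, hτinv, htri, _⟩ := hτ
  have hτ0 : 0 < τ := by linarith
  have hlogτ : 0 < Real.log τ := Real.log_pos hτ1
  -- `τ` as an algebraic number
  have hτIC : IsIntegral ℤ (τ : ℂ) := hτI.map (algebraMap ℝ ℂ).toIntAlgHom
  have hTmem : (τ : ℂ) ∈ QB := by
    rw [mem_algebraicClosure_iff]
    exact (hτIC.tower_top (A := ℚ)).isAlgebraic
  set T : QB := ⟨(τ : ℂ), hTmem⟩ with hT
  have hTC : (T : ℂ) = τ := rfl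
  have hT0 : T ≠ 0 := by
    intro h0
    have h1 : (τ : ℂ) = 0 := congrArg Subtype.val h0
    have h2 : τ = 0 := by exact_mod_cast h1
    linarith
  have hTinv : ((T⁻¹ : QB) : ℂ) = (τ : ℂ)⁻¹ := map_inv₀ (algebraMap QB ℂ) T
  have hTI : IsIntegral ℤ T := (isIntegral_algebraMap_iff (A := QB) (B := ℂ)
      (FaithfulSMul.algebraMap_injective QB ℂ)).mp hτIC
  have hmin : minpoly ℤ τ = minpoly ℤ T := by
    have h1 : minpoly ℤ (algebraMap ℝ ℂ τ) = minpoly ℤ τ :=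
      minpoly.algebraMap_eq (FaithfulSMul.algebraMap_injective ℝ ℂ) τ
    have h2 : minpoly ℤ (algebraMap QB ℂ T) = minpoly ℤ T :=
      minpoly.algebraMap_eq (FaithfulSMul.algebraMap_injective QB ℂ) T
    rw [← h1, ← h2]
    rfl
  have hconj' : ∀ g : QB →ₐ[ℚ] QB, aeval ((g T : QB) : ℂ) (minpoly ℤ τ) = 0 := by
    intro g
    rw [hmin]
    have h1 := Polynomial.aeval_algHom_apply
      (((algebraMap QB ℂ).comp (g : QB →+* QB)).toIntAlgHom) T (minpoly ℤ T)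
    rw [minpoly.aeval, map_zero] at h1
    exact h1
  have hTt : T + T⁻¹ = lft σ₀ t := by
    apply Subtype.val_injective
    have h1 : ((T + T⁻¹ : QB) : ℂ) = (T : ℂ) + ((T⁻¹ : QB) : ℂ) := rfl
    change ((T + T⁻¹ : QB) : ℂ) = σ₀ t
    rw [h1, hTinv, hTC, h]
    push_cast
    rfl
  -- the conjugates
  have hmv : ∀ σ : k →ₐ[ℚ] ℂ, ∃ g : QB →ₐ[ℚ] QB, ∀ x, g (lft σ₀ x) = lft (σ : k →+* ℂ) x :=
    fun σ => exists_move σ₀ (σ : k →+* ℂ)
  choose g hg using hmv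
  set x : (k →ₐ[ℚ] ℂ) → ℂ := fun σ => ((g σ T : QB) : ℂ) with hx
  have hgT0 : ∀ σ, g σ T ≠ 0 := fun σ => (map_ne_zero (g σ)).mpr hT0
  have hx0 : ∀ σ, x σ ≠ 0 := by
    intro σ h0
    exact hgT0 σ (Subtype.val_injective h0)
  have hinvC : ∀ y : QB, ((y⁻¹ : QB) : ℂ) = (y : ℂ)⁻¹ := fun y => map_inv₀ (algebraMap QB ℂ) y
  have hxt : ∀ σ, x σ + (x σ)⁻¹ = σ t := by
    intro σ
    have h1 : g σ T + (g σ T)⁻¹ = lft (σ : k →+* ℂ) t := by
      rw [← map_inv₀, ← map_add, hTt, hg]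
    have h2 := congrArg Subtype.val h1
    have h3 : ((g σ T + (g σ T)⁻¹ : QB) : ℂ) = x σ + (x σ)⁻¹ := by
      rw [← hinvC]; rfl
    rw [← h3]
    exact h2
  have hc : CInj t := by
    apply cinj_of_adjoin
    have h1 := Algebra.IsAlgebraic.isAlgebraic (R := ℚ) t
    rw [← IntermediateField.adjoin_simple_toSubalgebra_of_isAlgebraic h1] at ht
    exact IntermediateField.toSubalgebra_injective (by rw [ht]; rfl)
  have hinjt : ∀ σ σ' : k →ₐ[ℚ] ℂ, σ t = σ' t → σ = σ' := fun σ σ' h1 => hc h1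
  have hself : ∀ σ, x σ ≠ (x σ)⁻¹ := by
    intro σ h1
    have h2 : g σ T = (g σ T)⁻¹ := by
      apply Subtype.val_injective
      exact h1.trans (hinvC _).symm
    have h3 : T = T⁻¹ := by
      apply (g σ).injective
      rw [map_inv₀]
      exact h2
    have h4 : (τ : ℂ) = (τ : ℂ)⁻¹ := by rw [← hTinv, ← h3]
    have h5 : τ = τ⁻¹ := by exact_mod_cast h4
    have h6 : τ * τ = 1 := by
      nth_rewrite 2 [h5]
      exact mul_inv_cancel₀ hτ0.ne'
    nlinarith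
  -- the points
  set z : (k →ₐ[ℚ] ℂ) × Bool → ℂ := fun a => if a.2 then x a.1 else (x a.1)⁻¹ with hz
  have hzt : ∀ σ, z (σ, true) = x σ := fun σ => by simp [hz]
  have hzf : ∀ σ, z (σ, false) = (x σ)⁻¹ := fun σ => by simp [hz]
  have hzsum : ∀ a, z a + (z a)⁻¹ = a.1 t := by
    rintro ⟨σ, _ | _⟩
    · rw [hzf, inv_inv, add_comm]; exact hxt σ
    · rw [hzt]; exact hxt σ
  have hinj : Set.InjOn z ((Finset.univ : Finset ((k →ₐ[ℚ] ℂ) × Bool)) : Set _) := by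
    intro a _ b _ hab
    have h1 : a.1 = b.1 := by
      apply hinjt
      rw [← hzsum, ← hzsum, hab]
    obtain ⟨σ, ε⟩ := a
    obtain ⟨σ', ε'⟩ := b
    simp only at h1
    subst h1
    cases ε <;> cases ε' <;> simp only [hzt, hzf] at hab ⊢
    · exact absurd hab.symm (hself σ)
    · exact absurd hab (hself σ)
  have hen := Pool.Agent.Q262.RL.energy_on Finset.univ z hinj
  have hd : Fintype.card (k →ₐ[ℚ] ℂ) = finrank ℚ k := AlgHom.card ℚ k ℂ
  have hcard : ((Finset.univ : Finset ((k →ₐ[ℚ] ℂ) × Bool)).card : ℝ) = 2 * finrank ℚ k := by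
    rw [Finset.card_univ, Fintype.card_prod, hd, Fintype.card_bool]
    push_cast
    ring
  rw [hcard] at hen
  -- the sum of the logarithms
  obtain ⟨φ₀, hφ₀⟩ : ∃ φ₀ : k →ₐ[ℚ] ℂ, (φ₀ : k →+* ℂ) = σ₀ :=
    ⟨RingHom.equivRatAlgHom k ℂ σ₀, rfl⟩
  have hφt : φ₀ t = σ₀ t := by rw [← hφ₀]; rfl
  have hterm : ∀ σ, Real.log (max 1 ‖z (σ, true)‖) + Real.log (max 1 ‖z (σ, false)‖) ≤
      if σ = φ₀ then Real.log τ else 0 := by
    intro σ
    rw [hzt, hzf]
    have hcase := htri (x σ) (hconj' (g σ))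
    have hval : x σ = τ ∨ x σ = (τ : ℂ)⁻¹ → σ = φ₀ := by
      intro h1
      apply hinjt
      rw [hφt, h, ← hxt]
      push_cast
      rcases h1 with h1 | h1
      · rw [h1]
      · rw [h1, inv_inv, add_comm]
    have hn1 : max 1 ‖(τ : ℂ)‖ = τ := by
      rw [Complex.norm_real, Real.norm_eq_abs, abs_of_pos hτ0, max_eq_right hτ1.le]
    have hn2 : max 1 ‖(τ : ℂ)⁻¹‖ = 1 := by
      rw [norm_inv, Complex.norm_real, Real.norm_eq_abs, abs_of_pos hτ0]
      exact max_eq_left (inv_le_one_of_one_le₀ hτ1.le)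
    rcases hcase with h1 | h1 | h1
    · rw [if_pos (hval (Or.inl h1)), h1, hn1, hn2, Real.log_one, add_zero]
    · rw [if_pos (hval (Or.inr h1)), h1, inv_inv, hn1, hn2, Real.log_one, zero_add]
    · rw [norm_inv, h1, inv_one, max_self, Real.log_one, add_zero]
      split_ifs
      · exact hlogτ.le
      · exact le_rfl
  have hsum : ∑ a : (k →ₐ[ℚ] ℂ) × Bool, Real.log (max 1 ‖z a‖) ≤ Real.log τ := by
    rw [Fintype.sum_prod_type]
    calc ∑ σ, ∑ ε, Real.log (max 1 ‖z (σ, ε)‖)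
        = ∑ σ, (Real.log (max 1 ‖z (σ, true)‖) + Real.log (max 1 ‖z (σ, false)‖)) :=
          Finset.sum_congr rfl fun σ _ => Fintype.sum_bool _
      _ ≤ ∑ σ, (if σ = φ₀ then Real.log τ else 0) := Finset.sum_le_sum fun σ _ => hterm σ
      _ = Real.log τ := by rw [Finset.sum_ite_eq' Finset.univ φ₀]; simp
  -- the energy
  set F : (k →ₐ[ℚ] ℂ) → (k →ₐ[ℚ] ℂ) → ℝ := fun σ σ' =>
    ∑ ε, ∑ ε', Real.log ‖z (σ, ε) - z (σ', ε')‖ with hF
  have hFdiff : ∀ σ σ', σ ≠ σ' → F σ σ' = 2 * Real.log ‖σ t - σ' t‖ := by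
    intro σ σ' hne
    have hne' : ∀ ε ε', z (σ, ε) - z (σ', ε') ≠ 0 := by
      intro ε ε' h0
      have h1 := hinj (mem_coe.mpr (mem_univ _)) (mem_coe.mpr (mem_univ _)) (sub_eq_zero.mp h0)
      exact hne (congrArg Prod.fst h1)
    have hn : ∀ ε ε', ‖z (σ, ε) - z (σ', ε')‖ ≠ 0 := fun ε ε' => norm_ne_zero_iff.mpr (hne' ε ε')
    have hprod : (z (σ, true) - z (σ', true)) * (z (σ, true) - z (σ', false)) *
        ((z (σ, false) - z (σ', true)) * (z (σ, false) - z (σ', false))) = (σ t - σ' t) ^ 2 := by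
      rw [hzt, hzf, hzt, hzf, ← hxt, ← hxt]
      have a1 := hx0 σ
      have a2 := hx0 σ'
      field_simp
      ring
    have h1 : F σ σ' = Real.log ‖(σ t - σ' t) ^ 2‖ := by
      rw [← hprod, norm_mul, norm_mul, norm_mul,
        Real.log_mul (mul_ne_zero (hn _ _) (hn _ _)) (mul_ne_zero (hn _ _) (hn _ _)),
        Real.log_mul (hn _ _) (hn _ _), Real.log_mul (hn _ _) (hn _ _), hF]
      simp only [Fintype.sum_bool]
    rw [h1, norm_pow, Real.log_pow]
    norm_num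
  have hFself : ∀ σ, F σ σ = Real.log ‖σ (t ^ 2 - 4)‖ := by
    intro σ
    have h1 : F σ σ = Real.log ‖x σ - (x σ)⁻¹‖ + Real.log ‖x σ - (x σ)⁻¹‖ := by
      rw [hF]
      simp only [Fintype.sum_bool, hzt, hzf, sub_self, norm_zero, Real.log_zero, zero_add,
        add_zero]
      rw [norm_sub_rev (x σ)⁻¹ (x σ)]
    have h2 : ‖x σ - (x σ)⁻¹‖ ≠ 0 := norm_ne_zero_iff.mpr (sub_ne_zero.mpr (hself σ))
    have h3 : (x σ - (x σ)⁻¹) * (x σ - (x σ)⁻¹) = σ (t ^ 2 - 4) := by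
      rw [map_sub, map_pow, ← hxt]
      have a1 := hx0 σ
      have h4 : σ (4 : k) = 4 := by
        have := map_natCast σ 4
        exact_mod_cast this
      rw [h4]
      field_simp
      ring
    rw [h1, ← Real.log_mul h2 h2, ← norm_mul, h3]
  have hdec : ∑ a : (k →ₐ[ℚ] ℂ) × Bool, ∑ b : (k →ₐ[ℚ] ℂ) × Bool, Real.log ‖z a - z b‖ =
      ∑ σ : k →ₐ[ℚ] ℂ, Real.log ‖σ (t ^ 2 - 4)‖ + 2 * LD t := by
    have h1 : ∑ a : (k →ₐ[ℚ] ℂ) × Bool, ∑ b : (k →ₐ[ℚ] ℂ) × Bool, Real.log ‖z a - z b‖ =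
        ∑ σ, ∑ σ', F σ σ' := by
      rw [Fintype.sum_prod_type]
      refine Finset.sum_congr rfl fun σ _ => ?_
      calc ∑ ε, ∑ b : (k →ₐ[ℚ] ℂ) × Bool, Real.log ‖z (σ, ε) - z b‖
          = ∑ ε, ∑ σ', ∑ ε', Real.log ‖z (σ, ε) - z (σ', ε')‖ :=
            Finset.sum_congr rfl fun ε _ => Fintype.sum_prod_type _
        _ = ∑ σ', F σ σ' := Finset.sum_comm
    have hinte : IsIntegral ℤ t := by
      have h2 : IsIntegral ℤ (σ₀ t) := by
        rw [h]
        push_cast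
        apply hτIC.add
        have h3 : IsIntegral ℤ τ⁻¹ := ⟨minpoly ℤ τ, minpoly.monic hτI, hτinv⟩
        have h4 := h3.map (algebraMap ℝ ℂ).toIntAlgHom
        have h5 : (algebraMap ℝ ℂ).toIntAlgHom τ⁻¹ = (τ : ℂ)⁻¹ := by
          change ((τ⁻¹ : ℝ) : ℂ) = _
          push_cast
          rfl
        rw [h5] at h4
        exact h4
      exact (isIntegral_algHom_iff σ₀.toIntAlgHom σ₀.injective).mp h2
    have h2 : ∀ σ, ∑ σ', F σ σ' = Real.log ‖σ (t ^ 2 - 4)‖ + 2 * Real.log ‖σ (dder t)‖ := by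
      intro σ
      rw [← Finset.add_sum_erase Finset.univ _ (Finset.mem_univ σ), hFself, map_dder hinte hc,
        norm_prod, Real.log_prod, Finset.mul_sum]
      · congr 1
        refine Finset.sum_congr rfl fun σ' hσ' => ?_
        exact hFdiff σ σ' (Finset.ne_of_mem_erase hσ').symm
      · intro σ' hσ'
        rw [Ne, norm_eq_zero, sub_eq_zero]
        intro h3
        exact (Finset.ne_of_mem_erase hσ') (hinjt _ _ h3).symm
    rw [h1, Finset.sum_congr rfl fun σ _ => h2 σ, Finset.sum_add_distrib, ← Finset.mul_sum]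
    rfl
  have hinte : IsIntegral ℤ t := by
    have h2 : IsIntegral ℤ (σ₀ t) := by
      rw [h]
      push_cast
      apply hτIC.add
      have h3 : IsIntegral ℤ τ⁻¹ := ⟨minpoly ℤ τ, minpoly.monic hτI, hτinv⟩
      have h4 := h3.map (algebraMap ℝ ℂ).toIntAlgHom
      have h5 : (algebraMap ℝ ℂ).toIntAlgHom τ⁻¹ = (τ : ℂ)⁻¹ := by
        change ((τ⁻¹ : ℝ) : ℂ) = _
        push_cast
        rfl
      rw [h5] at h4
      exact h4
    exact (isIntegral_algHom_iff σ₀.toIntAlgHom σ₀.injective).mp h2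
  have hpos : 0 ≤ ∑ σ : k →ₐ[ℚ] ℂ, Real.log ‖σ (t ^ 2 - 4)‖ := by
    apply sum_log_nonneg
    · apply (hinte.pow 2).sub
      have := isIntegral_algebraMap (R := ℤ) (A := k) (x := 4)
      simpa using this
    · intro h0
      have h1 := hself φ₀
      apply h1
      have h3 : (x φ₀ - (x φ₀)⁻¹) ^ 2 = φ₀ (t ^ 2 - 4) := by
        rw [map_sub, map_pow, ← hxt]
        have a1 := hx0 φ₀
        have h4 : φ₀ (4 : k) = 4 := by
          have := map_natCast φ₀ 4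
          exact_mod_cast this
        rw [h4]
        field_simp
        ring
      rw [h0, map_zero] at h3
      exact sub_eq_zero.mp (pow_eq_zero_iff (two_ne_zero) |>.mp h3)
  have hdisc := log_discr_le (K := k) ⟨t, hinte⟩ (by
    have h1 := Algebra.IsAlgebraic.isAlgebraic (R := ℚ) t
    rw [← IntermediateField.adjoin_simple_toSubalgebra_of_isAlgebraic h1] at ht
    exact IntermediateField.toSubalgebra_injective (by
      change (IntermediateField.adjoin ℚ {t}).toSubalgebra = _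
      rw [ht]; rfl))
  have hdisc' : Real.log |(discr k : ℝ)| ≤ LD t := hdisc
  have hd1 : (1 : ℝ) ≤ finrank ℚ k := by exact_mod_cast (finrank_pos : 0 < finrank ℚ k)
  have h5 : 2 * (2 * (finrank ℚ k : ℝ) - 1) * ∑ a : (k →ₐ[ℚ] ℂ) × Bool, Real.log (max 1 ‖z a‖) ≤
      2 * (2 * (finrank ℚ k : ℝ) - 1) * Real.log τ :=
    mul_le_mul_of_nonneg_left hsum (by linarith)
  rw [hdec] at hen
  linarith

end Pool.Agent.J4H57.TD
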