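import Pool.Agent.J4H57.TD.SC

/-!
# From realizations to polynomials
-/

set_option autoImplicit false

open Finset NumberField Module Polynomial

namespace Pool.Agent.J4H57.TD

open Pool.Agent.H388SL Pool.Agent.H225R3.Marg Pool.Agent.Y399.MG

section

variable {k : Type} [Field k] [NumberField k] {n : ℕ}

/-- the characteristic polynomial over the field -/
noncomputable def ccp (A : Matrix (Fin n) (Fin n) (𝓞 k)) : k[X] :=
  A.charpoly.map (algebraMap (𝓞 k) k)

lemma ccp_monic (A : Matrix (Fin n) (Fin n) (𝓞 k)) : (ccp A).Monic := A.charpoly_monic.map _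

lemma ccp_natDegree (A : Matrix (Fin n) (Fin n) (𝓞 k)) : (ccp A).natDegree = n := by
  unfold ccp
  rw [A.charpoly_monic.natDegree_map, Matrix.charpoly_natDegree_eq_dim, Fintype.card_fin]

lemma ccp_map (σ : k →+* ℂ) (A : Matrix (Fin n) (Fin n) (𝓞 k)) :
    (ccp A).map σ = ((emb σ).mapMatrix A).charpoly := (charpoly_emb σ A).symm

lemma ccp_unit {A B : Matrix (Fin n) (Fin n) (𝓞 k)} (h : B * A = 1) : UnitPoly (ccp A) := by
  have h1 : A.charpoly.coeff 0 * ((-1) ^ n * B.det * (-1) ^ n * (-1) ^ n) = 1 := by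
    have h2 := A.det_eq_sign_charpoly_coeff
    rw [Fintype.card_fin] at h2
    have h3 : B.det * A.det = 1 := by rw [← Matrix.det_mul, h, Matrix.det_one]
    have h4 : ((-1 : 𝓞 k) ^ n) * (-1) ^ n = 1 := by
      rw [← mul_pow, neg_one_mul, neg_neg, one_pow]
    rw [h2] at h3
    linear_combination h3 + (A.charpoly.coeff 0 * B.det * (-1) ^ n) * h4
  have h2 : (ccp A).coeff 0 * (((-1) ^ n * B.det * (-1) ^ n * (-1) ^ n : 𝓞 k) : k) = 1 := by
    unfold ccp
    rw [coeff_map]
    exact_mod_cast congrArg (algebraMap (𝓞 k) k) h1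
  refine ⟨fun i => ?_, left_ne_zero_of_mul_eq_one h2, ?_⟩
  · unfold ccp
    rw [coeff_map]
    exact (A.charpoly.coeff i).isIntegral_coe
  · rw [inv_eq_of_mul_eq_one_right h2]
    exact ((-1) ^ n * B.det * (-1) ^ n * (-1) ^ n : 𝓞 k).isIntegral_coe

end

lemma pow_lt_of_lt {A x c : ℝ} {n j : ℕ} (hA : 1 < A)
    (hc : c ≤ Real.log A / ((n + 1) * Real.log 2)) (hx0 : 0 ≤ x) (hx : x < (2 : ℝ) ^ c)
    (hj : j ≤ n) : x ^ j < A := by
  have hlogA := Real.log_pos hA
  have hlog2 : 0 < Real.log 2 := Real.log_pos (by norm_num)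
  by_cases hx1 : x ≤ 1
  · exact (pow_le_one₀ hx0 hx1).trans_lt hA
  push Not at hx1
  have hn0 : (0 : ℝ) ≤ n := Nat.cast_nonneg _
  have h1 : Real.log x < Real.log A / (n + 1) := by
    have h2 : Real.log x < Real.log ((2 : ℝ) ^ c) := Real.log_lt_log (by linarith) hx
    rw [Real.log_rpow (by norm_num)] at h2
    have h3 : c * Real.log 2 ≤ Real.log A / ((n + 1) * Real.log 2) * Real.log 2 :=
      mul_le_mul_of_nonneg_right hc hlog2.le
    have h4 : Real.log A / ((n + 1) * Real.log 2) * Real.log 2 = Real.log A / (n + 1) := by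
      field_simp
    linarith
  have h5 : Real.log (x ^ j) < Real.log A := by
    rw [Real.log_pow]
    have h6 : 0 < Real.log x := Real.log_pos hx1
    have h7 : (j : ℝ) * Real.log x ≤ n * Real.log x :=
      mul_le_mul_of_nonneg_right (by exact_mod_cast hj) h6.le
    have h8 : (n + 1 : ℝ) * Real.log x < Real.log A := by
      rw [lt_div_iff₀ (by linarith)] at h1
      linarith
    linarith
  exact (Real.log_lt_log_iff (by positivity) (by linarith)).mp h5

lemma norm_multiset_prod_lt {A c : ℝ} {n : ℕ} (hA : 1 < A) (hc0 : 0 ≤ c)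
    (hc : c ≤ Real.log A / ((n + 1) * Real.log 2)) {m : Multiset ℂ} (hm : Multiset.card m ≤ n)
    (h : ∀ y ∈ m, ‖y‖ < (2 : ℝ) ^ c) : ‖m.prod‖ < A := by
  have hpos : (1 : ℝ) ≤ (2 : ℝ) ^ c := Real.one_le_rpow (by norm_num) hc0
  obtain ⟨x, hx0, hx, hle⟩ : ∃ x : ℝ, 0 ≤ x ∧ x < (2 : ℝ) ^ c ∧ ∀ y ∈ m, ‖y‖ ≤ x := by
    induction m using Multiset.induction with
    | empty => exact ⟨0, le_rfl, by linarith, by simp⟩
    | cons a m ih =>
      rw [Multiset.card_cons] at hm
      obtain ⟨x, hx0, hx, hle⟩ := ih (by omega) fun y hy => h y (Multiset.mem_cons_of_mem hy)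
      refine ⟨max x ‖a‖, le_max_of_le_left hx0, max_lt hx (h a (Multiset.mem_cons_self a m)), ?_⟩
      intro y hy
      rcases Multiset.mem_cons.mp hy with h1 | h1
      · rw [h1]; exact le_max_right _ _
      · exact (hle y h1).trans (le_max_left _ _)
  have h1 : ∀ m' : Multiset ℂ, (∀ y ∈ m', ‖y‖ ≤ x) → ‖m'.prod‖ ≤ x ^ Multiset.card m' := by
    intro m'
    induction m' using Multiset.induction with
    | empty => intro _; simp
    | cons a m' ih =>
      intro h2
      rw [Multiset.prod_cons, Multiset.card_cons, norm_mul, pow_succ, mul_comm]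
      exact mul_le_mul (ih fun y hy => h2 y (Multiset.mem_cons_of_mem hy))
        (h2 a (Multiset.mem_cons_self a m')) (norm_nonneg _) (by positivity)
  exact (h1 m hle).trans_lt (pow_lt_of_lt hA hc hx0 hx hm)

end Pool.Agent.J4H57.TD
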