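import Pool.Agent.J4H57.TD.SB

/-!
# Reduction to polynomials of degree two
-/

set_option autoImplicit false

open Finset NumberField Module Polynomial

namespace Pool.Agent.J4H57.TD

open Pool.Agent.H388SL Pool.Agent.H225R3.Marg Pool.Agent.Y399.MG

/-- elements fixed by all endomorphisms fixing `k` come from `k` -/
lemma fixed_mem {k : Type} [Field k] [NumberField k] (s : k →+* QB) (x : QB)
    (hx : ∀ g : QB →ₐ[ℚ] QB, (∀ y, g (s y) = s y) → g x = x) : ∃ x₀ : k, s x₀ = x := by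
  have hcl : IsAlgClosed QB := IsAlgClosure.isAlgClosed ℚ
  let _ : Algebra k QB := s.toAlgebra
  have hsc : IsScalarTower ℚ k QB := IsScalarTower.of_algebraMap_eq fun r => by
    have h1 : algebraMap k QB = s := rfl
    rw [h1]
    simp
  have hac : Algebra.IsAlgebraic k QB := Algebra.IsAlgebraic.tower_top (K := ℚ) k
  have hiac : IsAlgClosure k QB := ⟨hcl, hac⟩
  have hnor : Normal k QB := IsAlgClosure.normal k QB
  have hgal : IsGalois k QB := ⟨⟩
  obtain ⟨x₀, hx₀⟩ := (InfiniteGalois.mem_range_algebraMap_iff_fixed (k := k) x).mpr (by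
    intro f
    exact hx ((f : QB →ₐ[k] QB).restrictScalars ℚ) (fun y => f.commutes y))
  exact ⟨x₀, hx₀⟩

lemma IsUnitZ.mul {x y : ℂ} (hx : IsUnitZ x) (hy : IsUnitZ y) : IsUnitZ (x * y) :=
  ⟨mul_ne_zero hx.1 hy.1, hx.2.1.mul hy.2.1, by rw [mul_inv]; exact hx.2.2.mul hy.2.2⟩

lemma IsUnitZ.one : IsUnitZ 1 := ⟨one_ne_zero, isIntegral_one, by rw [inv_one]; exact isIntegral_one⟩

lemma IsUnitZ.multiset_prod {m : Multiset ℂ} (h : ∀ y ∈ m, IsUnitZ y) : IsUnitZ m.prod := by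
  induction m using Multiset.induction with
  | empty => rw [Multiset.prod_zero]; exact IsUnitZ.one
  | cons a m ih =>
    rw [Multiset.prod_cons]
    exact (h a (Multiset.mem_cons_self a m)).mul
      (ih fun y hy => h y (Multiset.mem_cons_of_mem hy))

lemma roots_coe {k : Type} [Field k] (s : k →+* QB) (q : k[X]) :
    (q.map ((algebraMap QB ℂ).comp s)).roots = (q.map s).roots.map (algebraMap QB ℂ) := by
  have hcl : IsAlgClosed QB := IsAlgClosure.isAlgClosed ℚ
  rw [← Polynomial.map_map]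
  exact (IsAlgClosed.splits (q.map s)).roots_map (algebraMap QB ℂ)

/-- **Reduction to degree two.** -/
theorem quad_core {k : Type} [Field k] [NumberField k] (σ₀ : k →+* ℂ) (q : k[X]) (hq : q.Monic)
    (hI : ∀ y : ℂ, (q.map σ₀).IsRoot y → IsUnitZ y)
    (z : ℂ) (hz : (q.map σ₀).IsRoot z) (hz1 : 1 < ‖z‖)
    (hdep : ∀ y : ℂ, (q.map σ₀).IsRoot y → ∃ N : ℕ, 0 < N ∧ (y ^ N = z ^ N ∨ y ^ N * z ^ N = 1)) :
    ∃ Q : k[X], Q.Monic ∧ Q.natDegree = 2 ∧ UnitPoly Q ∧
      (∃ y : ℂ, (Q.map σ₀).IsRoot y ∧ 1 < ‖y‖) ∧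
      ∀ (σ : k →+* ℂ) (y : ℂ), (Q.map σ).IsRoot y → ∃ m ≤ (q.map σ).roots, y = m.prod := by
  classical
  set s := lft σ₀ with hs
  have hcl : IsAlgClosed QB := IsAlgClosure.isAlgClosed ℚ
  have hne : ∀ s' : k →+* QB, q.map s' ≠ 0 := fun s' => (hq.map s').ne_zero
  have hsσ : ∀ σ : k →+* ℂ, (algebraMap QB ℂ).comp (lft σ) = σ := fun σ => RingHom.ext fun x => rfl
  have hroots : ∀ σ : k →+* ℂ, (q.map σ).roots = (q.map (lft σ)).roots.map (algebraMap QB ℂ) := by
    intro σ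
    rw [← roots_coe, hsσ]
  have hrootC : ∀ (y : QB), y ∈ (q.map s).roots → (q.map σ₀).IsRoot (y : ℂ) := by
    intro y hy
    have h1 : (y : ℂ) ∈ (q.map σ₀).roots := by
      rw [hroots]
      exact Multiset.mem_map_of_mem _ hy
    exact (mem_roots'.mp h1).2
  -- the root `z`
  obtain ⟨Z, hZroot, hZz⟩ : ∃ Z : QB, Z ∈ (q.map s).roots ∧ (Z : ℂ) = z := by
    have h1 : z ∈ (q.map σ₀).roots := (mem_roots (hq.map σ₀).ne_zero).mpr hz
    rw [hroots, Multiset.mem_map] at h1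
    exact h1
  have hdep' : ∀ y ∈ (q.map s).roots, ∃ N : ℕ, 0 < N ∧ (y ^ N = Z ^ N ∨ y ^ N * Z ^ N = 1) := by
    intro y hy
    obtain ⟨N, hN, h2⟩ := hdep y (hrootC y hy)
    refine ⟨N, hN, ?_⟩
    rw [← hZz] at h2
    rcases h2 with h2 | h2
    · left
      exact Subtype.val_injective h2
    · right
      exact Subtype.val_injective h2
  set w : QB := (up s q).prod with hw
  set v : QB := (dn s q).prod with hv
  have hZ1 : 1 < ‖(Z : ℂ)‖ := by rw [hZz]; exact hz1
  have hfix : ∀ g : QB →ₐ[ℚ] QB, (∀ x, g (s x) = s x) → g w = w ∨ g w = v :=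
    fun g hg => case_fix s q Z hZroot hZ1 hdep' g hg
  have hupsub : up s q ≤ (q.map s).roots := by unfold up; exact Multiset.filter_le _ _
  have hdnsub : dn s q ≤ (q.map s).roots := by unfold dn; exact Multiset.filter_le _ _
  -- no root on the unit circle
  have hnZ : ∀ y ∈ (q.map s).roots, ‖(y : ℂ)‖ ≠ 1 := by
    intro y hy h1
    obtain ⟨N, hN, h2 | h2⟩ := hdep' y hy
    · have h3 : (y : ℂ) ^ N = (Z : ℂ) ^ N := congrArg Subtype.val h2
      have h4 := congrArg norm h3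
      rw [norm_pow, norm_pow, h1, one_pow] at h4
      have h5 := one_lt_pow₀ hZ1 hN.ne'
      linarith
    · have h3 : (y : ℂ) ^ N * (Z : ℂ) ^ N = 1 := congrArg Subtype.val h2
      have h4 := congrArg norm h3
      rw [norm_mul, norm_pow, norm_pow, norm_one, h1, one_pow, one_mul] at h4
      have h5 := one_lt_pow₀ hZ1 hN.ne'
      linarith
  obtain ⟨hprod, hcard⟩ := up_dn_prod s q hq hnZ
  rw [← hw, ← hv] at hprod
  have hwvfix : ∀ g : QB →ₐ[ℚ] QB, (∀ x, g (s x) = s x) → g (w * v) = w * v := by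
    intro g hg
    rw [hprod, map_mul, map_pow, map_neg, map_one, hg]
  have hunit : ∀ m : Multiset QB, m ≤ (q.map s).roots → IsUnitZ ((m.prod : QB) : ℂ) := by
    intro m hm
    have h1 : ((m.prod : QB) : ℂ) = (m.map (algebraMap QB ℂ)).prod :=
      map_multiset_prod (algebraMap QB ℂ) m
    rw [h1]
    apply IsUnitZ.multiset_prod
    intro y hy
    obtain ⟨x, hx, rfl⟩ := Multiset.mem_map.mp hy
    exact hI _ (hrootC x (Multiset.mem_of_le hm hx))
  have hwU : IsUnitZ (w : ℂ) := hunit _ hupsub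
  have hvU : IsUnitZ (v : ℂ) := hunit _ hdnsub
  have hw0 : w ≠ 0 := fun h => hwU.1 (by rw [h]; rfl)
  have hv0 : v ≠ 0 := fun h => hvU.1 (by rw [h]; rfl)
  have hsumfix : ∀ g : QB →ₐ[ℚ] QB, (∀ x, g (s x) = s x) → g (w + v) = w + v := by
    intro g hg
    have h1 : g w * g v = w * v := by rw [← map_mul]; exact hwvfix g hg
    rcases hfix g hg with h2 | h2
    · rw [map_add, h2]
      rw [h2] at h1
      rw [mul_left_cancel₀ hw0 h1]
    · rw [h2, mul_comm w v] at h1
      rw [map_add, h2, mul_left_cancel₀ hv0 h1, add_comm]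
  obtain ⟨t, ht⟩ := fixed_mem s _ hsumfix
  obtain ⟨p, hp⟩ := fixed_mem s _ hwvfix
  have hsC : ∀ x, ((s x : QB) : ℂ) = σ₀ x := fun x => rfl
  set Q : k[X] := X ^ 2 + (C (-t) * X + C p) with hQ
  have hdeg1 : (C (-t) * X + C p : k[X]).degree ≤ 1 := degree_linear_le
  have hlt : (C (-t) * X + C p : k[X]).degree < ((2 : ℕ) : WithBot ℕ) :=
    lt_of_le_of_lt hdeg1 (by norm_cast)
  have hQm : Q.Monic := monic_X_pow_add hlt
  have hQd : Q.natDegree = 2 := by
    rw [hQ]
    apply natDegree_eq_of_degree_eq_some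
    rw [degree_add_eq_left_of_degree_lt (by rw [degree_X_pow]; exact hlt), degree_X_pow]
  have hQmap : ∀ (s' : k →+* QB) (a b : QB), s' t = a + b → s' p = a * b →
      Q.map s' = (X - C a) * (X - C b) := by
    intro s' a b h1 h2
    rw [hQ]
    simp only [Polynomial.map_add, Polynomial.map_mul, Polynomial.map_pow, map_X, map_C, C_neg,
      Polynomial.map_neg]
    rw [h1, h2]
    simp only [C_add, C_mul]
    ring
  have hcoeff0 : Q.coeff 0 = p := by
    rw [hQ]; simp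
  have hint : ∀ x : k, IsIntegral ℤ (σ₀ x) → IsIntegral ℤ x := fun x hx =>
    (isIntegral_algHom_iff σ₀.toIntAlgHom σ₀.injective).mp hx
  have htI : IsIntegral ℤ t := by
    apply hint
    rw [← hsC, ht]
    exact hwU.2.1.add hvU.2.1
  have hpU : IsUnitZ (σ₀ p) := by
    rw [← hsC, hp]
    exact hwU.mul hvU
  refine ⟨Q, hQm, hQd, ⟨?_, ?_, ?_⟩, ?_, ?_⟩
  · intro i
    rw [hQ]
    simp only [coeff_add, coeff_X_pow, coeff_C_mul, coeff_X, coeff_C]
    apply IsIntegral.add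
    · split_ifs
      · exact isIntegral_one
      · exact isIntegral_zero
    · apply IsIntegral.add
      · apply IsIntegral.mul htI.neg
        split_ifs
        · exact isIntegral_one
        · exact isIntegral_zero
      · split_ifs
        · exact hint p hpU.2.1
        · exact isIntegral_zero
  · rw [hcoeff0]
    intro h
    exact hpU.1 (by rw [h, map_zero])
  · rw [hcoeff0]
    apply hint
    rw [map_inv₀]
    exact hpU.2.2
  · -- the root `w`
    refine ⟨(w : ℂ), ?_, ?_⟩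
    · have h1 : (Q.map ((algebraMap QB ℂ).comp s)).IsRoot (w : ℂ) := by
        rw [← Polynomial.map_map, hQmap s w v ht hp]
        simp [IsRoot.def]
      rw [hs, hsσ] at h1
      exact h1
    · have h1 : ∀ m : Multiset QB, (∀ y ∈ m, 1 < ‖(y : ℂ)‖) → m ≠ 0 → 1 < ‖((m.prod : QB) : ℂ)‖ := by
        intro m
        induction m using Multiset.induction with
        | empty => intro _ h; exact absurd rfl h
        | cons a m ih =>
          intro h _
          rw [Multiset.prod_cons]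
          change 1 < ‖(a : ℂ) * ((m.prod : QB) : ℂ)‖
          rw [norm_mul]
          have h2 := h a (Multiset.mem_cons_self a m)
          by_cases hm : m = 0
          · rw [hm]
            simpa using h2
          · have h3 := ih (fun y hy => h y (Multiset.mem_cons_of_mem hy)) hm
            nlinarith
      apply h1
      · intro y hy
        unfold up at hy
        exact (Multiset.mem_filter.mp hy).2
      · intro h
        have h2 : Z ∈ up s q := by
          unfold up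
          rw [Multiset.mem_filter]
          exact ⟨hZroot, hZ1⟩
        rw [h] at h2
        exact Multiset.notMem_zero _ h2
  · intro σ y hy
    obtain ⟨g, hg⟩ := exists_move σ₀ σ
    have hgs : (g : QB →+* QB).comp s = lft σ := RingHom.ext hg
    have h1 : Q.map (lft σ) = (X - C (g w)) * (X - C (g v)) := by
      apply hQmap
      · rw [← map_add, ← ht]; exact (hg t).symm
      · rw [← map_mul, ← hp]; exact (hg p).symm
    have h2 : (Q.map σ).IsRoot y → y = ((g w : QB) : ℂ) ∨ y = ((g v : QB) : ℂ) := by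
      intro h3
      rw [← hsσ σ, ← Polynomial.map_map, h1] at h3
      simp only [Polynomial.map_mul, Polynomial.map_sub, map_X, map_C, IsRoot.def, eval_mul,
        eval_sub, eval_X, eval_C, mul_eq_zero, sub_eq_zero] at h3
      exact h3
    have h3 : ∀ m : Multiset QB, m ≤ (q.map s).roots →
        ∃ m' ≤ (q.map σ).roots, ((g m.prod : QB) : ℂ) = m'.prod := by
      intro m hm
      refine ⟨(m.map g).map (algebraMap QB ℂ), ?_, ?_⟩
      · rw [hroots]
        apply Multiset.map_le_map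
        rw [← hgs, roots_comp]
        exact Multiset.map_le_map hm
      · rw [prod_map_alg]
        exact map_multiset_prod (algebraMap QB ℂ) (m.map g)
    rcases h2 hy with h4 | h4
    · obtain ⟨m', hm', h5⟩ := h3 _ hupsub
      exact ⟨m', hm', h4.trans h5⟩
    · obtain ⟨m', hm', h5⟩ := h3 _ hdnsub
      exact ⟨m', hm', h4.trans h5⟩

/-- If all roots are in the closed unit disc then they are on the unit circle. -/
lemma exists_gt_one {k : Type} [Field k] [NumberField k] (P : k[X]) (hP : P.Monic)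
    (hU : UnitPoly P) (σ₀ : k →+* ℂ) (z₀ : ℂ) (hz₀ : (P.map σ₀).IsRoot z₀) (hz1 : ‖z₀‖ ≠ 1) :
    ∃ (σ : k →+* ℂ) (z : ℂ), (P.map σ).IsRoot z ∧ 1 < ‖z‖ := by
  classical
  by_contra hcon
  push Not at hcon
  have hprodn : ∀ σ : k →+* ℂ, ‖(P.map σ).roots.prod‖ = ‖σ (P.coeff 0)‖ := by
    intro σ
    have h3 := (IsAlgClosed.splits (P.map σ)).coeff_zero_eq_prod_roots_of_monic (hP.map σ)
    rw [coeff_map] at h3
    rw [h3, norm_mul, norm_pow, norm_neg, norm_one, one_pow, one_mul]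
  have hle : ∀ σ : k →+* ℂ, ‖σ (P.coeff 0)‖ ≤ 1 := by
    intro σ
    rw [← hprodn]
    exact norm_prod_le_one _ fun y hy => hcon σ y (mem_roots'.mp hy).2
  obtain ⟨m, hm, h1⟩ := NumberField.Embeddings.pow_eq_one_of_norm_le_one (K := k) (A := ℂ)
    hU.2.1 (hU.1 0) hle
  have hone : ‖(P.map σ₀).roots.prod‖ = 1 := by
    rw [hprodn]
    have h2 := congrArg (fun x => ‖σ₀ x‖) h1
    simp only [map_pow, norm_pow, map_one, norm_one] at h2
    exact (pow_eq_one_iff_of_nonneg (norm_nonneg _) hm.ne').mp h2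
  have hmem : z₀ ∈ (P.map σ₀).roots := (mem_roots (hP.map σ₀).ne_zero).mpr hz₀
  obtain ⟨m, hm⟩ := Multiset.exists_cons_of_mem hmem
  have h1 : ‖m.prod‖ ≤ 1 := by
    apply norm_prod_le_one
    intro y hy
    exact hcon σ₀ y (mem_roots'.mp (by rw [hm]; exact Multiset.mem_cons_of_mem hy)).2
  have h2 := hcon σ₀ z₀ hz₀
  rw [hm, Multiset.prod_cons, norm_mul] at hone
  have h3 : ‖z₀‖ < 1 := lt_of_le_of_ne h2 hz1
  nlinarith [norm_nonneg z₀, norm_nonneg m.prod]

/-- **Small eigenvalues give polynomials of degree two.** -/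
theorem quad_alt (s n : ℕ) : ∃ c : ℝ, 0 < c ∧ ∀ (k : Type) [Field k] [NumberField k]
    (S : Finset (k →+* ℂ)) (P : k[X]), P.Monic → P.natDegree ≤ n → UnitPoly P → S.card ≤ s →
    (∀ σ : k →+* ℂ, σ ∉ S → ∀ y : ℂ, (P.map σ).IsRoot y → ‖y‖ = 1) →
    (∃ (σ : k →+* ℂ) (z : ℂ), (P.map σ).IsRoot z ∧ ∀ m : ℕ, 0 < m → z ^ m ≠ 1) →
    (∀ σ ∈ S, ∀ z : ℂ, (P.map σ).IsRoot z → ‖z‖ < (1 + finrank ℚ k : ℝ) ^ c) →
    ∃ Q : k[X], Q.Monic ∧ Q.natDegree = 2 ∧ UnitPoly Q ∧
      (∃ (σ : k →+* ℂ) (y : ℂ), (Q.map σ).IsRoot y ∧ 1 < ‖y‖) ∧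
      ∀ (σ : k →+* ℂ) (y : ℂ), (Q.map σ).IsRoot y → ∃ m ≤ (P.map σ).roots, y = m.prod := by
  classical
  obtain ⟨c, hc, hdep⟩ := dep_poly s n 1
  refine ⟨c, hc, ?_⟩
  intro k _ _ S P hP hn hU hS hout hex hsm
  have hdpos : 0 < finrank ℚ k := finrank_pos
  have hroot := fun (σ : k →+* ℂ) (z : ℂ) (hz : (P.map σ).IsRoot z) => unit_root hP hU σ hz
  obtain ⟨σ', z', hz', htor'⟩ := hex
  obtain ⟨σ'', z'', hz'', hz1'', _⟩ := exists_off_root P hP hroot σ' z' hz' htor'
  obtain ⟨σ₀, z, hz, hz1⟩ := exists_gt_one P hP hU σ'' z'' hz'' hz1''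
  have hz0 : z ≠ 0 := (hroot σ₀ z hz).1
  have htor : ∀ N : ℕ, 0 < N → z ^ N ≠ 1 := by
    intro N hN h
    have h1 := congrArg norm h
    rw [norm_pow, norm_one] at h1
    have h2 := one_lt_pow₀ hz1 hN.ne'
    linarith
  have hsm' : ∀ σ, ∀ y : ℂ, (P.map σ).IsRoot y → ‖y‖ < (1 + finrank ℚ k : ℝ) ^ c := by
    intro σ y hy
    by_cases hσ : σ ∈ S
    · exact hsm σ hσ y hy
    · rw [hout σ hσ y hy]
      exact Real.one_lt_rpow (by
        have : (0 : ℝ) < finrank ℚ k := by exact_mod_cast hdpos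
        linarith) hc
  have hrel : ∀ y : ℂ, (P.map σ₀).IsRoot y → ∃ u v : ℤ, (u ≠ 0 ∨ v ≠ 0) ∧ z ^ u * y ^ v = 1 := by
    intro y hy
    exact hdep k k S S P P hP hP hn hn hS hS hroot hroot hout hout hsm' hsm'
      σ₀ σ₀ (by rw [one_mul]; exact (pairDeg_self σ₀).le)
      (by rw [one_mul]; exact (pairDeg_self σ₀).le) z y hz hy
  -- the minimal polynomial
  obtain ⟨q, hq, hqm, hzq, hqP⟩ : ∃ q : k[X], Irreducible q ∧ q.Monic ∧ (q.map σ₀).IsRoot z ∧
      q ∣ P := by
    let _ : Algebra k ℂ := σ₀.toAlgebra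
    have hza : IsIntegral k z := ⟨P, hP, by rw [← eval_map]; exact hz⟩
    refine ⟨minpoly k z, minpoly.irreducible hza, minpoly.monic hza, ?_, ?_⟩
    · have h2 := minpoly.aeval k z
      rw [aeval_def, ← eval_map] at h2
      exact h2
    · apply minpoly.dvd
      rw [aeval_def, ← eval_map]
      exact hz
  have hqr : ∀ (σ : k →+* ℂ) (y : ℂ), (q.map σ).IsRoot y → (P.map σ).IsRoot y :=
    fun σ y hy => hy.dvd (Polynomial.map_dvd σ hqP)
  obtain ⟨Q, h1, h2, h3, ⟨y, h4, h5⟩, h6⟩ := quad_core σ₀ q hqm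
    (fun y hy => hroot σ₀ y (hqr σ₀ y hy)) z hzq hz1 (by
      intro y hy
      obtain ⟨u, v, huv, hr⟩ := hrel y (hqr σ₀ y hy)
      exact pow_rel_of_zpow (hroot σ₀ y (hqr σ₀ y hy)).1 huv
        (natAbs_eq_of_rel σ₀ q hq z y hzq hy hz0 htor hr) hr)
  refine ⟨Q, h1, h2, h3, ⟨σ₀, y, h4, h5⟩, ?_⟩
  intro σ y hy
  obtain ⟨m, hm, h7⟩ := h6 σ y hy
  refine ⟨m, hm.trans ?_, h7⟩
  exact Polynomial.roots.le_of_dvd (hP.map σ).ne_zero (Polynomial.map_dvd σ hqP)

end Pool.Agent.J4H57.TD
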